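import Pool.Agent.Work.MP_037d19_lp.Defs

/-!
# Linear periods: the notions of the final statement
-/

namespace Pool.Agent.LPer

section

variable {F E A V : Type} [Field F] [Field E] [Algebra F E] [Ring A] [Algebra F A]
  [FiniteDimensional F A] [AddCommGroup V] [Module ℂ V]

/-- `ℓ ∈ Hom_H(π, c ∘ Nrd)`: `ℓ` is linear and `ℓ(π(h)v) = c(Nrd h) ℓ(v)` for all `h` in the
centralizer `H` of `E` in `A^×`; here `Nrd` is the reduced norm over `E` of the centralizer of `E`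
in `A`. -/
def IsPeriod (ι : E →ₐ[F] A) (c : E → ℂ) (π : Representation ℂ Aˣ V) (ℓ : Module.Dual ℂ V) :
    Prop :=
  ∀ (h : Aˣ) (hh : (h : A) ∈ Cent ι) (v : V), ℓ (π h v) = c (nrd E (⟨(h : A), hh⟩ : Cent ι)) * ℓ v

/-- `φ` is a smooth linear form: it is fixed by an open subgroup. -/
def SmoothForm [TopologicalSpace A] [IsTopologicalRing A] (π : Representation ℂ Aˣ V)
    (φ : Module.Dual ℂ V) : Prop :=
  ∃ K : Subgroup Aˣ, IsOpen (K : Set Aˣ) ∧ ∀ k ∈ K, ∀ v, φ (π k v) = φ v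

/-- The contragredient of `π` has a nonzero `(H, χ⁻¹ ∘ Nrd)`-period: a nonzero linear form `l` on the
space of smooth linear forms on `V` with `l(φ ∘ π(h⁻¹)) = χ(Nrd h)⁻¹ l(φ)` for `h` in `H` (the values
of `l` on linear forms which are not smooth play no role). -/
def DualPeriod (ι : E →ₐ[F] A) [TopologicalSpace A] [IsTopologicalRing A] (χ : E → ℂ)
    (π : Representation ℂ Aˣ V) : Prop :=
  ∃ l : Module.Dual ℂ V → ℂ,
    (∀ φ φ', SmoothForm π φ → SmoothForm π φ' → l (φ + φ') = l φ + l φ') ∧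
    (∀ (c : ℂ) (φ), SmoothForm π φ → l (c • φ) = c * l φ) ∧
    (∃ φ, SmoothForm π φ ∧ l φ ≠ 0) ∧
    ∀ (h : Aˣ) (hh : (h : A) ∈ Cent ι) (φ), SmoothForm π φ →
      l (φ ∘ₗ π h⁻¹) = (χ (nrd E (⟨(h : A), hh⟩ : Cent ι)))⁻¹ * l φ

/-- `b` is bilinear. -/
def Bilin (b : V → V → ℂ) : Prop :=
  (∀ x y z, b (x + y) z = b x z + b y z) ∧ (∀ (c : ℂ) (x y : V), b (c • x) y = c * b x y) ∧
    (∀ x y z, b x (y + z) = b x y + b x z) ∧ ∀ (c : ℂ) (x y : V), b x (c • y) = c * b x y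

/-- `b(π(g)x, π(g)y) = χ(Nrd g) b(x, y)` for all `g ∈ A^×`. -/
def Equivar (F : Type) {E A V : Type} [Field F] [Field E] [Algebra F E] [Ring A] [Algebra F A]
    [FiniteDimensional F A] [AddCommGroup V] [Module ℂ V] (χ : E → ℂ)
    (π : Representation ℂ Aˣ V) (b : V → V → ℂ) : Prop :=
  ∀ (g : Aˣ) (x y : V), b (π g x) (π g y) = χ (algebraMap F E (nrd F (g : A))) * b x y

end

/-- `π` is essentially unitary: for some real `s` there is a positive definite hermitian form `S` on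
`V` with `S(π(g)x, π(g)y) = |Nrd g|^s S(x, y)`. -/
def EssUnit (F : Type) {A V : Type} [NontriviallyNormedField F] [Ring A] [Algebra F A]
    [FiniteDimensional F A] [AddCommGroup V] [Module ℂ V] (π : Representation ℂ Aˣ V) : Prop :=
  ∃ (s : ℝ) (S : V → V → ℂ), (∀ x y z, S x (y + z) = S x y + S x z) ∧
    (∀ (c : ℂ) (x y : V), S x (c • y) = c * S x y) ∧
    (∀ x y, S y x = (starRingEnd ℂ) (S x y)) ∧ (∀ x, x ≠ 0 → 0 < (S x x).re) ∧
    ∀ (g : Aˣ) (x y : V), S (π g x) (π g y) = ((‖nrd F (g : A)‖ ^ s : ℝ) : ℂ) * S x y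

end Pool.Agent.LPer
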