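import Pool.Agent.Work.MP_037d19_lp.Main
import Pool.Agent.Work.MP_037d19_lp.Defs3

/-!
# Linear periods: the theorem in plain form
-/

namespace Pool.Agent.LPer

open scoped Topology

theorem plain (p : ℕ) [Fact p.Prime] (F E A : Type) [NontriviallyNormedField F]
    [NormedAlgebra ℚ_[p] F] [FiniteDimensional ℚ_[p] F] [NormedField E] [NormedAlgebra F E]
    [NormedRing A] [NormedAlgebra F A] [Algebra.IsCentral F A] [IsSimpleRing A]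
    [FiniteDimensional F A] (k : ℕ) (hE : Module.finrank F E = 2)
    (hA : Module.finrank F A = (2 * k) ^ 2) (ι : E →ₐ[F] A) (χ : E →*₀ ℂ)
    (hχ : ∀ᶠ e in 𝓝 (1 : E), χ e = 1) (V : Type) [AddCommGroup V] [Module ℂ V]
    (π : Representation ℂ Aˣ V) (hπ : IrrAdm π)
    (h : EssUnit F π ∨ DualPeriod ι χ π ∨
      ∃ c : V → V → ℂ, Bilin c ∧ c ≠ 0 ∧ Equivar F χ π c) :
    (∀ ℓ₁ ℓ₂ : Module.Dual ℂ V, IsPeriod ι χ π ℓ₁ → IsPeriod ι χ π ℓ₂ → ℓ₁ ≠ 0 →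
      ∃ z : ℂ, ℓ₂ = z • ℓ₁) ∧
    ((∃ ℓ : Module.Dual ℂ V, IsPeriod ι χ π ℓ ∧ ℓ ≠ 0) →
      ∃ b : V → V → ℂ, Bilin b ∧ (∀ x, (∀ y, b x y = 0) → x = 0) ∧ Equivar F χ π b ∧
        ∀ x y : V, b y x = χ (-1) ^ k * b x y) := by
  obtain ⟨h1, h2⟩ := stmt_MAIN p F E A k ι χ V π hE hA hχ hπ
  have hper : ∀ ℓ : Module.Dual ℂ V, IsPeriod ι χ π ℓ ↔ ℓ ∈ periods ι χ π := fun ℓ => Iff.rfl
  have key : periods ι χ π ≠ ⊥ → Module.rank ℂ (periods ι χ π) ≤ 1 ∧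
      HasForm (F := F) (E := E) χ π k := by
    intro hbot
    rcases h with h | h | ⟨c, hc, hc0, hce⟩
    · obtain ⟨s, S, e1, e2, e3, e4, e5⟩ := h
      have e1' : ∀ x y z, S (x + y) z = S x z + S y z := fun x y z => by
        rw [e3 z (x + y), e1, map_add, ← e3, ← e3]
      have e2' : ∀ (c : ℂ) (x y : V), S (c • x) y = (starRingEnd ℂ) c * S x y := fun c x y => by
        rw [e3 y (c • x), e2, map_mul, ← e3]
      let S' : V →ₗ⋆[ℂ] V →ₗ[ℂ] ℂ :=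
        LinearMap.mk₂'ₛₗ (starRingEnd ℂ) (RingHom.id ℂ) S e1' (fun c x y => e2' c x y) e1
          (fun c x y => e2 c x y)
      obtain ⟨r1, r2⟩ := h2 ⟨s, S', ⟨e3, e4, e5⟩⟩
      exact ⟨r1, r2 hbot⟩
    · obtain ⟨l, hl1, hl2, ⟨φ₀, hφ₀, hl0⟩, hl⟩ := h
      let l' : smoothDual π →ₗ[ℂ] ℂ :=
        { toFun := fun φ => l φ
          map_add' := fun φ φ' => hl1 φ φ' φ.2 φ'.2
          map_smul' := fun c φ => hl2 c φ φ.2 }
      obtain ⟨r1, -, r3⟩ := h1 hbot (by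
        rw [Submodule.ne_bot_iff]
        exact ⟨l', fun g hg φ => hl g hg φ φ.2,
          fun h0 => hl0 (LinearMap.congr_fun h0 (⟨φ₀, hφ₀⟩ : smoothDual π))⟩)
      exact ⟨r1.le, r3⟩
    · let c' : V →ₗ[ℂ] V →ₗ[ℂ] ℂ :=
        LinearMap.mk₂ ℂ c hc.1 (fun a x y => hc.2.1 a x y) hc.2.2.1 (fun a x y => hc.2.2.2 a x y)
      obtain ⟨r1, -, r3⟩ := h1 hbot
        (dual_period p F E A k hE hA ι χ hχ V π hπ c' (by
          intro h0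
          apply hc0
          funext x y
          exact LinearMap.congr_fun (LinearMap.congr_fun h0 x) y) hce hbot)
      exact ⟨r1.le, r3⟩
  constructor
  · intro ℓ₁ ℓ₂ g1 g2 g0
    have hbot : periods ι χ π ≠ ⊥ := by
      rw [Submodule.ne_bot_iff]
      exact ⟨ℓ₁, g1, g0⟩
    obtain ⟨hr, -⟩ := key hbot
    obtain ⟨v₀, hv₀⟩ := rank_le_one_iff.mp hr
    obtain ⟨c₁, hc₁⟩ := hv₀ ⟨ℓ₁, g1⟩
    obtain ⟨c₂, hc₂⟩ := hv₀ ⟨ℓ₂, g2⟩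
    have d1 : c₁ • (v₀ : Module.Dual ℂ V) = ℓ₁ := congrArg Subtype.val hc₁
    have d2 : c₂ • (v₀ : Module.Dual ℂ V) = ℓ₂ := congrArg Subtype.val hc₂
    have hc1 : c₁ ≠ 0 := fun h0 => g0 (by rw [← d1, h0, zero_smul])
    refine ⟨c₂ * c₁⁻¹, ?_⟩
    rw [← d1, ← d2, smul_smul, mul_assoc, inv_mul_cancel₀ hc1, mul_one]
  · rintro ⟨ℓ, hℓ, hℓ0⟩
    have hbot : periods ι χ π ≠ ⊥ := by
      rw [Submodule.ne_bot_iff]
      exact ⟨ℓ, hℓ, hℓ0⟩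
    obtain ⟨-, b, b1, b2, b3⟩ := key hbot
    exact ⟨fun x y => b x y, ⟨fun x y z => by simp, fun c x y => by simp, fun x y z => by simp,
      fun c x y => by simp⟩, b1, b2, b3⟩

end Pool.Agent.LPer
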