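import Pool.Agent.Work.MP_037d19_lp.Defs2

namespace Pool.Agent.LPer

open scoped Topology

/-- Block ANN: a positive character of `E^×` trivial on `F^×` is trivial. -/
theorem stmt_ANN : Stmt_ANN := by
  intro F E _ _ _ _ κ hmul hpos hcont hF
  obtain ⟨c, hc⟩ := NormedField.exists_one_lt_norm F
  have h1 : κ 1 = 1 := by
    have h2 := hmul 1 1
    rw [mul_one] at h2
    have h3 := hpos 1 one_ne_zero
    nlinarith
  have hpow : ∀ (x : E) (n : ℕ), κ (x ^ n) = κ x ^ n := by
    intro x n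
    induction n with
    | zero => simp [h1]
    | succ n ih => rw [pow_succ, hmul, ih, pow_succ]
  have hcomp : IsCompact {y : E | 1 ≤ ‖y‖ ∧ ‖y‖ ≤ ‖c‖} := by
    refine (isCompact_closedBall (0 : E) ‖c‖).of_isClosed_subset ?_ ?_
    · exact (isClosed_le continuous_const continuous_norm).inter
        (isClosed_le continuous_norm continuous_const)
    · intro y hy
      simpa using hy.2
  have hco : ContinuousOn κ {y : E | 1 ≤ ‖y‖ ∧ ‖y‖ ≤ ‖c‖} := by
    refine hcont.mono ?_
    intro y hy hy0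
    have hy1 : (1:ℝ) ≤ ‖y‖ := hy.1
    rw [hy0, norm_zero] at hy1
    exact absurd hy1 (by norm_num)
  obtain ⟨M, hM⟩ := (hcomp.image_of_continuousOn hco).bddAbove
  have key : ∀ x : E, x ≠ 0 → κ x ≤ 1 := by
    intro x hx
    by_contra hlt
    push Not at hlt
    have hb : ∀ n : ℕ, κ x ^ n ≤ M := by
      intro n
      have hxn : x ^ n ≠ 0 := pow_ne_zero n hx
      obtain ⟨m, hm0, hm1, hm2, -⟩ := rescale_to_shell_semi_normed_zpow (c := c) hc
        (ε := ‖c‖) (by linarith) (x := x ^ n) (norm_ne_zero_iff.mpr hxn)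
      have h4 : c ^ m • x ^ n ∈ {y : E | 1 ≤ ‖y‖ ∧ ‖y‖ ≤ ‖c‖} := by
        refine ⟨?_, hm1.le⟩
        rwa [div_self (by linarith)] at hm2
      have h5 := hM ⟨_, h4, rfl⟩
      rw [Algebra.smul_def, hmul, hF _ hm0, one_mul, hpow] at h5
      exact h5
    obtain ⟨n, hn⟩ := ((tendsto_pow_atTop_atTop_of_one_lt hlt).eventually_gt_atTop M).exists
    exact absurd (hb n) (not_le.mpr hn)
  intro x hx
  refine le_antisymm (key x hx) ?_
  have h6 := key x⁻¹ (inv_ne_zero hx)
  have h7 : κ x * κ x⁻¹ = 1 := by rw [← hmul, mul_inv_cancel₀ hx, h1]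
  have h8 := hpos x hx
  nlinarith

end Pool.Agent.LPer
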