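import Pool.Agent.Work.MP_037d19_lp.Stmts2

/-!
# Lemma B: an equivariant functional is invariant under the twisted involution
-/

namespace Pool.Agent.LPer

open scoped Topology
open Filter

namespace BlockB

variable {X : Type} [TopologicalSpace X]

/-- The twist `f#(x) = m(τ⁻¹ x) f(τ⁻¹ x)`. -/
noncomputable def sharp (τ : X ≃ₜ X) (m : X → ℂˣ) (hm : IsLocallyConstant m) :
    LCC X →ₗ[ℂ] LCC X where
  toFun f := ⟨fun x => (m (τ.symm x) : ℂ) * f.1 (τ.symm x), by
    constructor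
    · have h1 : IsLocallyConstant fun x => (m (τ.symm x), f.1 (τ.symm x)) := by
        have h2 : IsLocallyConstant fun x => (m x, f.1 x) := hm.prodMk f.2.1
        exact h2.comp_continuous τ.symm.continuous
      exact h1.comp (fun p : ℂˣ × ℂ => (p.1 : ℂ) * p.2)
    · have h1 : HasCompactSupport fun x => f.1 (τ.symm x) := f.2.2.comp_homeomorph τ.symm
      exact h1.mono (fun x hx => by
        simp only [Function.mem_support] at hx ⊢
        intro h0
        apply hx
        rw [h0, mul_zero])⟩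
  map_add' f g := by
    apply Subtype.ext
    funext x
    change (m (τ.symm x) : ℂ) * (f.1 (τ.symm x) + g.1 (τ.symm x)) = _ + _
    rw [mul_add]
  map_smul' c f := by
    apply Subtype.ext
    funext x
    change (m (τ.symm x) : ℂ) * (c * f.1 (τ.symm x)) = c * ((m (τ.symm x) : ℂ) * f.1 (τ.symm x))
    ring

theorem sharp_apply (τ : X ≃ₜ X) (m : X → ℂˣ) (hm : IsLocallyConstant m) (f : LCC X) (x : X) :
    (sharp τ m hm f).1 x = (m (τ.symm x) : ℂ) * f.1 (τ.symm x) := rfl

theorem sharp_apply_τ (τ : X ≃ₜ X) (m : X → ℂˣ) (hm : IsLocallyConstant m) (f : LCC X) (x : X) :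
    (sharp τ m hm f).1 (τ x) = (m x : ℂ) * f.1 x := by
  rw [sharp_apply, Homeomorph.symm_apply_apply]

end BlockB

open BlockB in
theorem stmt_B (hLOC : Stmt_LOC) (hGLU : Stmt_GLU) (hUST : Stmt_UST) : Stmt_B := by
  intro X Γ _ _ _ _ _ _ _ _ _ τ a Λ lam m ρ D T hT f f' hf'
  set S := sharp τ m D.mloc with hS
  -- `T' = T - T#`
  set T' : LCC X →ₗ[ℂ] ℂ := T - T ∘ₗ S with hT'
  have hT'a : ∀ f, T' f = T f - T (S f) := fun f => rfl
  have h1 : ∀ γ (f f' : LCC X), (∀ x, f'.1 (γ • x) = f.1 x) → T' f' = Λ γ * T' f := by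
    intro γ f f' h
    have h2 : T (S f') = Λ γ * T (S f) := by
      have h3 := hT (a γ) ((lam γ : ℂ) • S f) (S f') (by
        intro y
        obtain ⟨x, rfl⟩ := τ.surjective y
        rw [← D.τa, hS, sharp_apply_τ, h x, D.mlam]
        change _ = (lam γ : ℂ) * (sharp τ m D.mloc f).1 (τ x)
        rw [sharp_apply_τ, Units.val_mul, mul_assoc])
      rw [h3, map_smul, smul_eq_mul, ← mul_assoc, mul_comm ((Λ (a γ) : ℂˣ) : ℂ), ← Units.val_mul,
        D.lamΛ]
    rw [hT'a, hT'a, hT γ f f' h, h2]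
    ring
  have h2 : ∀ f f' : LCC X, (∀ x, f'.1 (τ x) = m x * f.1 x) → f' = S f := by
    intro f f' h
    apply Subtype.ext
    funext y
    obtain ⟨x, rfl⟩ := τ.surjective y
    rw [h x, hS, sharp_apply_τ]
  have h3 : ∀ f : LCC X, T (S (S f)) = T f := by
    intro f
    obtain ⟨γw, hw1, hw2⟩ := D.ττ
    have h4 := hT γw f (S (S f)) (by
      intro x
      rw [← hw2, hS, sharp_apply_τ, sharp_apply_τ, ← mul_assoc, ← Units.val_mul, D.mτ,
        Units.val_one, one_mul])
    rw [h4, hw1, Units.val_one, one_mul]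
  have h4 : ∀ f f' : LCC X, (∀ x, f'.1 (τ x) = m x * f.1 x) → T' f' = - T' f := by
    intro f f' h
    rw [h2 f f' h, hT'a, hT'a, h3]
    ring
  have h5 : ∀ k : ℕ, ∀ f : LCC X, (∀ x, k ≤ ρ x → f.1 x = 0) → T' f = 0 := by
    intro k
    induction k with
    | zero =>
      intro f hf
      have : f = 0 := by
        apply Subtype.ext
        funext x
        exact hf x (Nat.zero_le _)
      rw [this, map_zero]
    | succ k ih =>
      intro f hf
      have hU : ((Λ.ker : Set Γ) ∩ (lam.ker : Set Γ)) ∈ 𝓝 (1 : Γ) :=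
        Filter.inter_mem (D.kerΛ.mem_nhds (one_mem _)) (D.kerlam.mem_nhds (one_mem _))
      obtain ⟨K, hKo, hKc, hKU, hKf⟩ := hUST X Γ D.vd f _ hU
      refine hGLU X Γ K hKo hKc T' f hKf (fun x₀ hx₀ => ?_)
      have hρ : ρ x₀ ≤ k := by
        by_contra hcon
        exact hx₀ (hf x₀ (by omega))
      exact hLOC X Γ τ a Λ lam m ρ D T' h1 h4 k ih K hKo hKc (fun g hg => (hKU hg).1)
        (fun g hg => (hKU hg).2) x₀ hρ
  obtain ⟨N, hN⟩ := D.bdd
  have h6 := h5 N f (fun x hx => absurd (hN x) (by omega))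
  rw [hT'a, sub_eq_zero] at h6
  rw [h2 f f' hf', h6]

end Pool.Agent.LPer
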