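import Pool.Agent.Work.MP_037d19_lp.Stmts2

/-!
# Linear periods: block C (uniqueness, the form and its sign)
-/

namespace Pool.Agent.LPer

open scoped Polynomial Topology TensorProduct Pointwise
open Module (finrank)
open MeasureTheory Filter

namespace C

/-! ### Linear algebra and irreducibility -/

theorem factor {A B D : Type} [AddCommGroup A] [Module ℂ A] [AddCommGroup B] [Module ℂ B]
    [AddCommGroup D] [Module ℂ D] (Y : A →ₗ[ℂ] B) (Z : A →ₗ[ℂ] D) (hY : Function.Surjective Y)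
    (h : ∀ a, Y a = 0 → Z a = 0) : ∃ Θ : B →ₗ[ℂ] D, ∀ a, Θ (Y a) = Z a := by
  obtain ⟨s, hs⟩ := Y.exists_rightInverse_of_surjective (LinearMap.range_eq_top.2 hY)
  refine ⟨Z ∘ₗ s, fun a => ?_⟩
  have h1 : Y (s (Y a) - a) = 0 := by
    rw [map_sub, sub_eq_zero]
    exact LinearMap.congr_fun hs (Y a)
  have h2 := h _ h1
  rw [map_sub, sub_eq_zero] at h2
  exact h2

section irr

variable {G : Type} [Group G] [TopologicalSpace G] {V : Type} [AddCommGroup V] [Module ℂ V]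

theorem zero_of {π : Representation ℂ G V} (hπ : IrrAdm π) {ℓ : V →ₗ[ℂ] ℂ} (hℓ : ℓ ≠ 0) {v : V}
    (h : ∀ g, ℓ (π g v) = 0) : v = 0 := by
  let W : Submodule ℂ V :=
    { carrier := {v | ∀ g, ℓ (π g v) = 0}
      add_mem' := fun {a b} ha hb g => by rw [map_add, map_add, ha g, hb g, add_zero]
      zero_mem' := fun g => by rw [map_zero, map_zero]
      smul_mem' := fun c a ha g => by rw [map_smul, map_smul, ha g, smul_zero] }
  have hW : ∀ g : G, ∀ v ∈ W, π g v ∈ W := by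
    intro g v hv g'
    change ℓ (π g' (π g v)) = 0
    rw [← Module.End.mul_apply, ← map_mul]
    exact hv _
  rcases hπ.irreducible W hW with h1 | h1
  · have h2 : v ∈ W := h
    rw [h1] at h2
    exact (Submodule.mem_bot ℂ).1 h2
  · exfalso
    apply hℓ
    ext u
    have h2 : u ∈ W := by rw [h1]; trivial
    have h3 := h2 1
    rw [map_one] at h3
    exact h3

theorem schur {π : Representation ℂ G V} [IsTopologicalGroup G] (hπ : IrrAdm π) (A : V →ₗ[ℂ] V)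
    (hA : ∀ g v, A (π g v) = π g (A v)) : ∃ c : ℂ, ∀ v, A v = c • v := by
  haveI := hπ.nontrivial
  obtain ⟨v₀, hv₀⟩ := exists_ne (0 : V)
  let K : Subgroup G :=
    { carrier := {g | π g v₀ = v₀}
      mul_mem' := fun {a b} ha hb => by
        change π (a * b) v₀ = v₀
        rw [map_mul, Module.End.mul_apply, hb, ha]
      one_mem' := by
        change π 1 v₀ = v₀
        rw [map_one, Module.End.one_apply]
      inv_mem' := fun {a} ha => by
        change π a⁻¹ v₀ = v₀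
        have ha' : π a v₀ = v₀ := ha
        calc π a⁻¹ v₀ = π a⁻¹ (π a v₀) := by rw [ha']
          _ = v₀ := by
            rw [← Module.End.mul_apply, ← map_mul, inv_mul_cancel, map_one, Module.End.one_apply] }
  have hK : IsOpen (K : Set G) := hπ.smooth v₀
  haveI := hπ.admissible K hK
  have hAK : ∀ v ∈ fixed π K, A v ∈ fixed π K := by
    intro v hv k hk
    rw [← hA, hv k hk]
  have hmem : v₀ ∈ fixed π K := fun k hk => hk
  haveI : Nontrivial (fixed π K) := ⟨⟨⟨v₀, hmem⟩, 0, fun h => hv₀ (congrArg Subtype.val h)⟩⟩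
  obtain ⟨c, hc⟩ := Module.End.exists_eigenvalue (A.restrict hAK)
  obtain ⟨u, hu⟩ := hc.exists_hasEigenvector
  have hu1 : A (u : V) = c • (u : V) := by
    have := congrArg Subtype.val hu.apply_eq_smul
    exact this
  have hu0 : (u : V) ≠ 0 := fun h => hu.2 (Subtype.ext h)
  let W : Submodule ℂ V := LinearMap.ker (A - c • (LinearMap.id : V →ₗ[ℂ] V))
  have hWm : ∀ v, v ∈ W ↔ A v = c • v := fun v => by
    rw [LinearMap.mem_ker, LinearMap.sub_apply, LinearMap.smul_apply, LinearMap.id_apply,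
      sub_eq_zero]
  have hW : ∀ g : G, ∀ v ∈ W, π g v ∈ W := by
    intro g v hv
    rw [hWm] at hv ⊢
    rw [hA, hv, map_smul]
  rcases hπ.irreducible W hW with h1 | h1
  · exfalso
    apply hu0
    have h2 : (u : V) ∈ W := (hWm _).2 hu1
    rw [h1] at h2
    exact (Submodule.mem_bot ℂ).1 h2
  · refine ⟨c, fun v => (hWm v).1 ?_⟩
    rw [h1]
    trivial

end irr

theorem dual_symm {G : Type} [Group G] [TopologicalSpace G] {V V' : Type} [AddCommGroup V]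
    [Module ℂ V] [AddCommGroup V'] [Module ℂ V'] {π : Representation ℂ G V}
    {π' : Representation ℂ G V'} {P : V' →ₗ[ℂ] V →ₗ[ℂ] ℂ} (h : Dual2 π π' P) :
    Dual2 π' π P.flip :=
  ⟨h.irr', h.irr, fun g v' v => h.inv g v v', fun v' hv => h.right v' hv,
    fun v hv => h.left v hv⟩

/-! ### Transformations of functions -/

section fun_

variable {G : Type} [Group G] [TopologicalSpace G] [IsTopologicalGroup G]

theorem lc_unit {m : G →* ℂˣ} (hm : IsOpen (m.ker : Set G)) : IsLocallyConstant m := by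
  rw [IsLocallyConstant.iff_exists_open]
  intro x
  refine ⟨(fun g => x⁻¹ * g) ⁻¹' (m.ker : Set G), hm.preimage (by fun_prop), ?_, ?_⟩
  · change x⁻¹ * x ∈ m.ker
    rw [inv_mul_cancel]
    exact one_mem _
  · intro g hg
    have h1 : m (x⁻¹ * g) = 1 := hg
    rw [map_mul, map_inv, inv_mul_eq_one] at h1
    exact h1.symm

/-- `f ↦ (g ↦ c g * f (φ g))` -/
noncomputable def tr (φ : G ≃ₜ G) (c : G → ℂ) (hc : IsLocallyConstant c) : LCC G →ₗ[ℂ] LCC G where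
  toFun f := ⟨fun g => c g * f.1 (φ g),
    hc.mul (f.2.1.comp_continuous φ.continuous), (f.2.2.comp_homeomorph φ).mul_left⟩
  map_add' f f' := by
    apply Subtype.ext
    funext g
    change c g * (f.1 (φ g) + f'.1 (φ g)) = c g * f.1 (φ g) + c g * f'.1 (φ g)
    ring
  map_smul' a f := by
    apply Subtype.ext
    funext g
    change c g * (a * f.1 (φ g)) = a * (c g * f.1 (φ g))
    ring

theorem tr_apply (φ : G ≃ₜ G) (c : G → ℂ) (hc : IsLocallyConstant c) (f : LCC G) (g : G) :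
    (tr φ c hc f).1 g = c g * f.1 (φ g) := rfl

/-- right translation -/
noncomputable def rt (k : G) : LCC G →ₗ[ℂ] LCC G :=
  tr (Homeomorph.mulRight k) (fun _ => 1) (IsLocallyConstant.const 1)

theorem rt_apply (k : G) (f : LCC G) (g : G) : (rt k f).1 g = f.1 (g * k) := by
  change 1 * f.1 (g * k) = _
  rw [one_mul]

/-- left translation -/
noncomputable def lt (h : G) : LCC G →ₗ[ℂ] LCC G :=
  tr (Homeomorph.mulLeft h⁻¹) (fun _ => 1) (IsLocallyConstant.const 1)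

theorem lt_apply (h : G) (f : LCC G) (g : G) : (lt h f).1 g = f.1 (h⁻¹ * g) := by
  change 1 * f.1 (h⁻¹ * g) = _
  rw [one_mul]

end fun_

section main

variable {G : Type} [Group G] [TopologicalSpace G] [IsTopologicalGroup G] [T2Space G]
  [LocallyCompactSpace G] [TotallyDisconnectedSpace G] [MeasurableSpace G] [BorelSpace G]
  {μ : Measure G} [μ.IsHaarMeasure] [μ.IsMulRightInvariant] {V V' : Type}
  [AddCommGroup V] [Module ℂ V] [AddCommGroup V'] [Module ℂ V'] {π : Representation ℂ G V}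
  {π' : Representation ℂ G V'} {P : V' →ₗ[ℂ] V →ₗ[ℂ] ℂ}

omit [T2Space G] [LocallyCompactSpace G] [TotallyDisconnectedSpace G] [μ.IsHaarMeasure] in
theorem Y_right (hD : Dual2 π π' P) {ℓ : V →ₗ[ℂ] ℂ} {Y : LCC G →ₗ[ℂ] V'}
    (hY : ∀ f v, P (Y f) v = ∫ g, f.1 g * ℓ (π g v) ∂μ) (k : G) (f f' : LCC G)
    (hf : ∀ g, f'.1 g = f.1 (g * k)) : Y f' = π' k (Y f) := by
  rw [← sub_eq_zero]
  apply hD.left
  intro v
  rw [map_sub, LinearMap.sub_apply, sub_eq_zero, hY]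
  have h1 : P (π' k (Y f)) v = P (Y f) (π k⁻¹ v) := by
    have h2 := hD.inv k (Y f) (π k⁻¹ v)
    rw [← Module.End.mul_apply (π k), ← map_mul, mul_inv_cancel, map_one,
      Module.End.one_apply] at h2
    exact h2
  rw [h1, hY]
  have h3 := integral_mul_right_eq_self (μ := μ) (fun g => f.1 g * ℓ (π g (π k⁻¹ v))) k
  rw [← h3]
  congr 1
  funext g
  rw [hf, ← Module.End.mul_apply, ← map_mul, mul_assoc, mul_inv_cancel, mul_one]

omit [T2Space G] [LocallyCompactSpace G] [TotallyDisconnectedSpace G]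
  [μ.IsMulRightInvariant] in
theorem Y_left (hD : Dual2 π π' P) {ℓ : V →ₗ[ℂ] ℂ} {Y : LCC G →ₗ[ℂ] V'}
    (hY : ∀ f v, P (Y f) v = ∫ g, f.1 g * ℓ (π g v) ∂μ) (h : G) {a : ℂ}
    (ha : ∀ v, ℓ (π h v) = a * ℓ v) (f f' : LCC G)
    (hf : ∀ g, f'.1 g = f.1 (h⁻¹ * g)) : Y f' = a • Y f := by
  rw [← sub_eq_zero]
  apply hD.left
  intro v
  rw [map_sub, LinearMap.sub_apply, sub_eq_zero, map_smul, LinearMap.smul_apply, hY, hY]
  have h3 := integral_mul_left_eq_self (μ := μ) (fun g => f'.1 g * ℓ (π g v)) h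
  rw [← h3, smul_eq_mul, ← integral_const_mul]
  congr 1
  funext g
  rw [hf, map_mul, Module.End.mul_apply, ha, inv_mul_cancel_left]
  ring

omit [μ.IsMulRightInvariant] in
theorem Y_ne (hD : Dual2 π π' P) {ℓ : V →ₗ[ℂ] ℂ} (hℓ : ℓ ≠ 0) {Y : LCC G →ₗ[ℂ] V'}
    (hY : ∀ f v, P (Y f) v = ∫ g, f.1 g * ℓ (π g v) ∂μ) : ∃ f, Y f ≠ 0 := by
  obtain ⟨v, hv⟩ : ∃ v, ℓ v ≠ 0 := by
    by_contra hcon
    push Not at hcon
    exact hℓ (LinearMap.ext hcon)
  obtain ⟨Q, hQ, hQ1⟩ := exists_compact_mem_nhds (1 : G)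
  have hU : {g : G | π g v = v} ∩ interior Q ∈ 𝓝 (1 : G) := by
    refine Filter.inter_mem ((hD.irr.smooth v).mem_nhds ?_) (interior_mem_nhds.2 hQ1)
    change π 1 v = v
    rw [map_one, Module.End.one_apply]
  obtain ⟨C, hC, h1C, hCU⟩ :=
    (loc_compact_Haus_tot_disc_of_zero_dim (H := G)).mem_nhds_iff.1 hU
  have hCclopen : IsClopen C := hC
  have hCcpt : IsCompact C :=
    hQ.of_isClosed_subset hCclopen.1 fun x hx => interior_subset (hCU hx).2
  have hlc : IsLocallyConstant (C.indicator fun _ => (1 : ℂ)) := by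
    have := (LocallyConstant.charFn ℂ hCclopen).isLocallyConstant
    exact this
  refine ⟨⟨C.indicator fun _ => (1 : ℂ), hlc, HasCompactSupport.intro hCcpt fun x hx =>
    Set.indicator_of_notMem hx _⟩, fun hcon => ?_⟩
  have h1 := hY ⟨C.indicator fun _ => (1 : ℂ), hlc, HasCompactSupport.intro hCcpt fun x hx =>
    Set.indicator_of_notMem hx _⟩ v
  rw [hcon, map_zero, LinearMap.zero_apply] at h1
  have h2 : (fun g => (C.indicator (fun _ => (1 : ℂ)) g) * ℓ (π g v)) =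
      C.indicator fun _ => ℓ v := by
    funext g
    by_cases hg : g ∈ C
    · rw [Set.indicator_of_mem hg, Set.indicator_of_mem hg, one_mul]
      have : π g v = v := (hCU hg).1
      rw [this]
    · rw [Set.indicator_of_notMem hg, Set.indicator_of_notMem hg, zero_mul]
  change 0 = ∫ g, (C.indicator (fun _ => (1 : ℂ)) g) * ℓ (π g v) ∂μ at h1
  rw [h2, integral_indicator_const _ hCclopen.2.measurableSet] at h1
  have h3 : 0 < μ.real C := by
    rw [Measure.real, ENNReal.toReal_pos_iff]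
    exact ⟨hCclopen.2.measure_pos μ ⟨1, h1C⟩, hCcpt.measure_lt_top⟩
  rcases smul_eq_zero.1 h1.symm with h4 | h4
  · exact h3.ne' h4
  · exact hv h4

theorem Y_surj (hD : Dual2 π π' P) {ℓ : V →ₗ[ℂ] ℂ} (hℓ : ℓ ≠ 0) {Y : LCC G →ₗ[ℂ] V'}
    (hY : ∀ f v, P (Y f) v = ∫ g, f.1 g * ℓ (π g v) ∂μ) : Function.Surjective Y := by
  have hW : ∀ g : G, ∀ v ∈ LinearMap.range Y, π' g v ∈ LinearMap.range Y := by
    rintro g _ ⟨f, rfl⟩
    exact ⟨rt g f, Y_right hD hY g f (rt g f) fun x => rt_apply g f x⟩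
  rcases hD.irr'.irreducible _ hW with h1 | h1
  · exfalso
    obtain ⟨f, hf⟩ := Y_ne hD hℓ hY
    apply hf
    have h2 : Y f ∈ LinearMap.range Y := ⟨f, rfl⟩
    rw [h1] at h2
    exact (Submodule.mem_bot ℂ).1 h2
  · exact LinearMap.range_eq_top.1 h1

/-- the conjugation by `w` -/
noncomputable def cj (w : G) : G ≃ₜ G := (Homeomorph.mulLeft w⁻¹).trans (Homeomorph.mulRight w)

omit [T2Space G] [LocallyCompactSpace G] [TotallyDisconnectedSpace G] [MeasurableSpace G]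
  [BorelSpace G] in
theorem cj_apply (w g : G) : cj w g = w⁻¹ * g * w := rfl

/-- `f^n` -/
noncomputable def nn (w : G) (m : G →* ℂˣ) (hm : IsOpen (m.ker : Set G)) :
    LCC G →ₗ[ℂ] LCC G :=
  tr (cj w) (fun g => (m g : ℂ)) ((lc_unit hm).comp Units.val)

omit [T2Space G] [LocallyCompactSpace G] [TotallyDisconnectedSpace G] [MeasurableSpace G]
  [BorelSpace G] in
theorem nn_apply (w : G) (m : G →* ℂˣ) (hm : IsOpen (m.ker : Set G)) (f : LCC G) (g : G) :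
    (nn w m hm f).1 g = m g * f.1 (w⁻¹ * g * w) := rfl

omit [T2Space G] [LocallyCompactSpace G] [TotallyDisconnectedSpace G] [MeasurableSpace G]
  [BorelSpace G] in
theorem nn_surj (w : G) (m : G →* ℂˣ) (hm : IsOpen (m.ker : Set G)) :
    Function.Surjective (nn w m hm) := by
  intro f₀
  refine ⟨tr (cj w⁻¹) (fun g => ((m g)⁻¹ : ℂˣ).val)
    ((lc_unit hm).comp fun u : ℂˣ => (u⁻¹ : ℂˣ).val) f₀, ?_⟩
  apply Subtype.ext
  funext g
  rw [nn_apply, tr_apply, cj_apply]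
  have h1 : w⁻¹⁻¹ * (w⁻¹ * g * w) * w⁻¹ = g := by group
  have h2 : m (w⁻¹ * g * w) = m g := by
    rw [map_mul, map_mul, map_inv, mul_comm (m w)⁻¹, mul_assoc, inv_mul_cancel, mul_one]
  rw [h1, h2, ← mul_assoc, Units.mul_inv, one_mul]

/-- `X (n (R_k f)) = m(k)⁻¹ π(w k w⁻¹) X (n f)` -/
theorem X_nn (hD : Dual2 π π' P) {ℓ' : V' →ₗ[ℂ] ℂ} {X : LCC G →ₗ[ℂ] V}
    (hX : ∀ f v', P.flip (X f) v' = ∫ g, f.1 g * ℓ' (π' g v') ∂μ) (w : G) (m : G →* ℂˣ)
    (hm : IsOpen (m.ker : Set G)) (k : G) (f : LCC G) :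
    X (nn w m hm (rt k f)) = ((m k)⁻¹ : ℂˣ).val • π (w * k * w⁻¹) (X (nn w m hm f)) := by
  rw [← Y_right (dual_symm hD) hX (w * k * w⁻¹) (nn w m hm f) (rt (w * k * w⁻¹) (nn w m hm f))
    fun x => rt_apply _ _ x, ← map_smul]
  congr 1
  apply Subtype.ext
  funext g
  change (nn w m hm (rt k f)).1 g = ((m k)⁻¹ : ℂˣ).val * (rt (w * k * w⁻¹) (nn w m hm f)).1 g
  rw [nn_apply, rt_apply, rt_apply, nn_apply]
  have h1 : w⁻¹ * (g * (w * k * w⁻¹)) * w = w⁻¹ * g * w * k := by group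
  have h2 : m (g * (w * k * w⁻¹)) = m g * m k := by
    rw [map_mul, map_mul, map_mul, map_inv, mul_comm (m w), mul_assoc (m k), mul_inv_cancel,
      mul_one]
  rw [h1, h2, Units.val_mul]
  have h3 : ((m k)⁻¹ : ℂˣ).val * (m k : ℂ) = 1 := Units.inv_mul _
  linear_combination (-(m g : ℂ) * f.1 (w⁻¹ * g * w * k)) * h3

/-- The hypothesis on invariant functionals. -/
def Hyp (H : Subgroup G) (ψ : H →* ℂˣ) (m : G →* ℂˣ) (w : G) : Prop :=
  ∀ T : LCC G →ₗ[ℂ] ℂ,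
      (∀ (h₁ h₂ : H) (f f' : LCC G), (∀ g, f'.1 (h₁ * g * (h₂ : G)⁻¹) = f.1 g) →
        T f' = (ψ h₁ : ℂ) * (ψ h₂ : ℂ)⁻¹ * T f) →
      ∀ f f' : LCC G, (∀ g, f'.1 (w * g⁻¹ * w⁻¹) = m g * f.1 g) → T f' = T f

theorem theta (hINVL : Stmt_INVL) [μ.IsInvInvariant] (hD : Dual2 π π' P) {H : Subgroup G}
    {ψ : H →* ℂˣ} {m : G →* ℂˣ} (hm : IsOpen (m.ker : Set G)) {w : G} (hH : Hyp H ψ m w)
    {ℓ : V →ₗ[ℂ] ℂ} {ℓ' : V' →ₗ[ℂ] ℂ} (hℓ : ℓ ≠ 0) (hℓ' : ℓ' ≠ 0)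
    (hψ : ∀ (h : H) v, ℓ (π h v) = ψ h * ℓ v)
    (hψ' : ∀ (h : H) v', ℓ' (π' h v') = (ψ h : ℂ)⁻¹ * ℓ' v') {Y : LCC G →ₗ[ℂ] V'}
    {X : LCC G →ₗ[ℂ] V}
    (hY : ∀ f v, P (Y f) v = ∫ g, f.1 g * ℓ (π g v) ∂μ)
    (hX : ∀ f v', P.flip (X f) v' = ∫ g, f.1 g * ℓ' (π' g v') ∂μ) :
    ∃ Θ : V' ≃ₗ[ℂ] V, (∀ f, Θ (Y f) = X (nn w m hm f)) ∧
      (∀ k v', Θ (π' k v') = ((m k)⁻¹ : ℂˣ).val • π (w * k * w⁻¹) (Θ v')) ∧
      ∀ v', ℓ' v' = ℓ (Θ v') := by
  -- (C2) for `k = 1`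
  have hT : ∀ (h₁ h₂ : H) (f f' : LCC G), (∀ g, f'.1 (h₁ * g * (h₂ : G)⁻¹) = f.1 g) →
      (ℓ' ∘ₗ Y) f' = (ψ h₁ : ℂ) * (ψ h₂ : ℂ)⁻¹ * (ℓ' ∘ₗ Y) f := by
    intro h₁ h₂ f f' hf
    have h1 := Y_left hD hY (h₁ : G) (a := (ψ h₁ : ℂ)) (hψ h₁) (rt (h₂ : G) f) f' (by
      intro g
      rw [rt_apply, ← hf]
      congr 1
      group)
    have h2 := Y_right hD hY (h₂ : G) f (rt (h₂ : G) f) fun x => rt_apply _ _ x
    rw [LinearMap.comp_apply, LinearMap.comp_apply, h1, map_smul, h2, hψ', smul_eq_mul]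
    ring
  have hC1 : ∀ f : LCC G, ℓ' (Y f) = ℓ (X (nn w m hm f)) := by
    intro f
    have h1 := hH (ℓ' ∘ₗ Y) hT f (tr ((Homeomorph.inv G).trans (cj w))
      (fun g => ((m g)⁻¹ : ℂˣ).val) ((lc_unit hm).comp fun u : ℂˣ => (u⁻¹ : ℂˣ).val) f) (by
      intro g
      rw [tr_apply]
      change ((m (w * g⁻¹ * w⁻¹))⁻¹ : ℂˣ).val * f.1 (w⁻¹ * (w * g⁻¹ * w⁻¹)⁻¹ * w) = _
      have e1 : w⁻¹ * (w * g⁻¹ * w⁻¹)⁻¹ * w = g := by group
      have e2 : (m (w * g⁻¹ * w⁻¹))⁻¹ = m g := by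
        rw [map_mul, map_mul, map_inv, map_inv, mul_comm (m w), mul_assoc, mul_inv_cancel,
          mul_one, inv_inv]
      rw [e1, e2])
    have h2 := hINVL G μ V V' π π' P hD ℓ ℓ' Y X hY (fun f v' => hX f v')
      (tr ((Homeomorph.inv G).trans (cj w))
      (fun g => ((m g)⁻¹ : ℂˣ).val) ((lc_unit hm).comp fun u : ℂˣ => (u⁻¹ : ℂˣ).val) f)
      (nn w m hm f) (by
      intro g
      rw [tr_apply, nn_apply]
      change _ = ((m g⁻¹)⁻¹ : ℂˣ).val * f.1 (w⁻¹ * (g⁻¹)⁻¹ * w)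
      rw [map_inv, inv_inv, inv_inv])
    rw [h2]
    exact h1.symm
  have hC2 : ∀ (k : G) (f : LCC G), ℓ' (π' k (Y f)) =
      ((m k)⁻¹ : ℂˣ).val * ℓ (π (w * k * w⁻¹) (X (nn w m hm f))) := by
    intro k f
    rw [← Y_right hD hY k f (rt k f) fun x => rt_apply _ _ x, hC1, X_nn hD hX, map_smul,
      smul_eq_mul]
  have hYs := Y_surj hD hℓ hY
  have hXs := Y_surj (dual_symm hD) hℓ' hX
  have hk1 : ∀ f, Y f = 0 → X (nn w m hm f) = 0 := by
    intro f hf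
    apply zero_of hD.irr hℓ
    intro g
    have h1 := hC2 (w⁻¹ * g * w) f
    rw [hf, map_zero, map_zero] at h1
    have h2 : w * (w⁻¹ * g * w) * w⁻¹ = g := by group
    rw [h2] at h1
    rcases mul_eq_zero.1 h1.symm with h3 | h3
    · exact absurd h3 (Units.ne_zero _)
    · exact h3
  have hk2 : ∀ f, X (nn w m hm f) = 0 → Y f = 0 := by
    intro f hf
    apply zero_of hD.irr' hℓ'
    intro k
    rw [hC2, hf, map_zero, map_zero, mul_zero]
  obtain ⟨Θ, hΘ⟩ := factor Y (X ∘ₗ nn w m hm) hYs hk1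
  have hΘ' : ∀ f, Θ (Y f) = X (nn w m hm f) := fun f => hΘ f
  have hinj : Function.Injective Θ := by
    rw [injective_iff_map_eq_zero]
    intro v' hv'
    obtain ⟨f, rfl⟩ := hYs v'
    rw [hΘ'] at hv'
    exact hk2 f hv'
  have hsurj : Function.Surjective Θ := by
    intro v
    obtain ⟨f₀, rfl⟩ := hXs v
    obtain ⟨f, rfl⟩ := nn_surj w m hm f₀
    exact ⟨Y f, hΘ' f⟩
  refine ⟨LinearEquiv.ofBijective Θ ⟨hinj, hsurj⟩, hΘ', ?_, ?_⟩
  · intro k v'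
    obtain ⟨f, rfl⟩ := hYs v'
    change Θ (π' k (Y f)) = _ • π (w * k * w⁻¹) (Θ (Y f))
    rw [← Y_right hD hY k f (rt k f) fun x => rt_apply _ _ x, hΘ', hΘ', X_nn hD hX]
  · intro v'
    obtain ⟨f, rfl⟩ := hYs v'
    change _ = ℓ (Θ (Y f))
    rw [hΘ', hC1]

omit [T2Space G] [LocallyCompactSpace G] [TotallyDisconnectedSpace G] [MeasurableSpace G]
  [BorelSpace G] [IsTopologicalGroup G] in
theorem theta_symm {Θ : V' ≃ₗ[ℂ] V} {m : G →* ℂˣ} {w : G}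
    (h : ∀ k v', Θ (π' k v') = ((m k)⁻¹ : ℂˣ).val • π (w * k * w⁻¹) (Θ v')) (k : G) (x : V) :
    Θ.symm (π (w * k * w⁻¹) x) = (m k : ℂ) • π' k (Θ.symm x) := by
  rw [LinearEquiv.symm_apply_eq, map_smul, h, smul_smul, Units.mul_inv, one_smul,
    LinearEquiv.apply_symm_apply]

theorem theta_unique (hD : Dual2 π π' P) {Θ₁ Θ₂ : V' ≃ₗ[ℂ] V} {m : G →* ℂˣ} {w : G}
    (h₁ : ∀ k v', Θ₁ (π' k v') = ((m k)⁻¹ : ℂˣ).val • π (w * k * w⁻¹) (Θ₁ v'))
    (h₂ : ∀ k v', Θ₂ (π' k v') = ((m k)⁻¹ : ℂˣ).val • π (w * k * w⁻¹) (Θ₂ v')) :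
    ∃ c : ℂ, ∀ v', Θ₂ v' = c • Θ₁ v' := by
  obtain ⟨c, hc⟩ := schur hD.irr ((Θ₂ : V' →ₗ[ℂ] V) ∘ₗ (Θ₁.symm : V →ₗ[ℂ] V')) (by
    intro g v
    have e : w * (w⁻¹ * g * w) * w⁻¹ = g := by group
    have h3 := theta_symm h₁ (w⁻¹ * g * w) v
    rw [e] at h3
    change Θ₂ (Θ₁.symm (π g v)) = π g (Θ₂ (Θ₁.symm v))
    rw [h3, map_smul, h₂, e, smul_smul, Units.mul_inv, one_smul])
  refine ⟨c, fun v' => ?_⟩
  have h3 := hc (Θ₁ v')
  change Θ₂ (Θ₁.symm (Θ₁ v')) = c • Θ₁ v' at h3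
  rw [LinearEquiv.symm_apply_apply] at h3
  exact h3

end main

end C

open C in
theorem stmt_C (hYMAP : Stmt_YMAP) (hINVL : Stmt_INVL) : Stmt_C := by
  intro G _ _ _ _ _ _ _ _ μ _ _ _ V V' _ _ _ _ π π' P hD H ψ m hm w hw hH ℓ ℓ' hℓ hℓ' hψ hψ'
  have hH' : Hyp H ψ m w := hH
  obtain ⟨Y, hY⟩ := hYMAP G μ V V' π π' P hD ℓ
  obtain ⟨X, hX⟩ := hYMAP G μ V' V π' π P.flip (dual_symm hD) ℓ'
  obtain ⟨Θ, hΘY, hΘ, hΘℓ⟩ := theta hINVL hD hm hH' hℓ hℓ' hψ hψ' hY hX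
  refine ⟨?_, ?_, ?_⟩
  · intro ℓ₂ hψ₂
    by_cases h0 : ℓ₂ = 0
    · exact ⟨0, by rw [h0, zero_smul]⟩
    · obtain ⟨Y₂, hY₂⟩ := hYMAP G μ V V' π π' P hD ℓ₂
      obtain ⟨Θ₂, -, hΘ₂, hΘℓ₂⟩ := theta hINVL hD hm hH' h0 hℓ' hψ₂ hψ' hY₂ hX
      obtain ⟨c, hc⟩ := theta_unique hD hΘ hΘ₂
      have h1 : ℓ = c • ℓ₂ := by
        ext v
        have h2 := hΘℓ (Θ.symm v)
        have h3 := hΘℓ₂ (Θ.symm v)
        rw [hc, LinearEquiv.apply_symm_apply, map_smul] at h3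
        rw [LinearEquiv.apply_symm_apply] at h2
        rw [← h2, h3]
        rfl
      have hc0 : c ≠ 0 := by
        rintro rfl
        rw [zero_smul] at h1
        exact hℓ h1
      exact ⟨c⁻¹, by rw [h1, smul_smul, inv_mul_cancel₀ hc0, one_smul]⟩
  · intro ℓ₂ hψ₂
    by_cases h0 : ℓ₂ = 0
    · exact ⟨0, by rw [h0, zero_smul]⟩
    · obtain ⟨X₂, hX₂⟩ := hYMAP G μ V' V π' π P.flip (dual_symm hD) ℓ₂
      obtain ⟨Θ₂, -, hΘ₂, hΘℓ₂⟩ := theta hINVL hD hm hH' hℓ h0 hψ hψ₂ hY hX₂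
      obtain ⟨c, hc⟩ := theta_unique hD hΘ hΘ₂
      refine ⟨c, ?_⟩
      ext v'
      rw [hΘℓ₂, hc, map_smul, ← hΘℓ]
      rfl
  · obtain ⟨b, hb⟩ : ∃ b : V →ₗ[ℂ] V →ₗ[ℂ] ℂ, ∀ x y, b x y = P (Θ.symm (π w x)) y :=
      ⟨P ∘ₗ (Θ.symm : V →ₗ[ℂ] V') ∘ₗ π w, fun x y => rfl⟩
    have hsym := theta_symm hΘ
    have hww : ∀ (k : G) (x : V), π w (π k x) = π (w * k * w⁻¹) (π w x) := by
      intro k x
      rw [← Module.End.mul_apply, ← map_mul, ← Module.End.mul_apply, ← map_mul,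
        inv_mul_cancel_right]
    have hnd : ∀ x, (∀ y, b x y = 0) → x = 0 := by
      intro x hx
      have h1 : Θ.symm (π w x) = 0 := hD.left _ fun y => by
        rw [← hb]
        exact hx y
      rw [LinearEquiv.map_eq_zero_iff] at h1
      have h2 : x = π w⁻¹ (π w x) := by
        rw [← Module.End.mul_apply, ← map_mul, inv_mul_cancel, map_one, Module.End.one_apply]
      rw [h2, h1, map_zero]
    have hXs := Y_surj (dual_symm hD) hℓ' hX
    -- the symmetry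
    obtain ⟨r, hr⟩ : ∃ r : ℂ, r = (m w : ℂ) * ((ψ ⟨w * w, hw⟩ : ℂˣ) : ℂ)⁻¹ := ⟨_, rfl⟩
    have hsy : ∀ y x, b y x = r * b x y := by
      intro y x
      obtain ⟨f, rfl⟩ := hXs x
      obtain ⟨F, hF⟩ : ∃ F : LCC G, ∀ g, F.1 g = (m w : ℂ) * ((m g)⁻¹ : ℂˣ).val *
          f.1 (w⁻¹ * g) :=
        ⟨tr (Homeomorph.mulLeft w⁻¹) (fun g => (m w : ℂ) * ((m g)⁻¹ : ℂˣ).val)
          ((lc_unit hm).comp fun u : ℂˣ => (m w : ℂ) * (u⁻¹ : ℂˣ).val) f, fun g => rfl⟩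
      have h1 : b y (X f) = P (Y F) y := by
        rw [hb, hY]
        have h2 := hX f (Θ.symm (π w y))
        rw [LinearMap.flip_apply] at h2
        rw [h2]
        have h3 := integral_mul_left_eq_self (μ := μ) (fun g => F.1 g * ℓ (π g y)) w
        rw [← h3]
        congr 1
        funext g
        rw [hΘℓ, hΘ, LinearEquiv.apply_symm_apply, ← hww, map_smul, smul_eq_mul, hF,
          inv_mul_cancel_left, map_mul, map_mul π, Module.End.mul_apply, mul_inv, Units.val_mul]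
        have h4 : (m w : ℂ) * ((m w)⁻¹ : ℂˣ).val = 1 := Units.mul_inv _
        linear_combination (-(f.1 g) * ((m g)⁻¹ : ℂˣ).val * ℓ (π w (π g y))) * h4
      have h5 : Θ (Y F) = r • π w (X f) := by
        rw [hΘY, hr]
        have h6 := Y_left (dual_symm hD) hX (w * w) (a := ((ψ ⟨w * w, hw⟩ : ℂˣ) : ℂ)⁻¹)
          (hψ' ⟨w * w, hw⟩) f (lt (w * w) f) fun g => lt_apply _ _ g
        have h7 := Y_right (dual_symm hD) hX w (lt (w * w) f) (rt w (lt (w * w) f))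
          fun g => rt_apply _ _ g
        rw [h6, map_smul] at h7
        rw [mul_smul, ← h7, ← map_smul]
        congr 1
        apply Subtype.ext
        funext g
        change (nn w m hm F).1 g = (m w : ℂ) * (rt w (lt (w * w) f)).1 g
        rw [nn_apply, rt_apply, lt_apply, hF]
        have h8 : w⁻¹ * (w⁻¹ * g * w) = (w * w)⁻¹ * (g * w) := by group
        have h9 : m (w⁻¹ * g * w) = m g := by
          rw [map_mul, map_mul, map_inv, mul_comm (m w)⁻¹, mul_assoc, inv_mul_cancel, mul_one]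
        rw [h8, h9]
        have h10 : (m g : ℂ) * ((m g)⁻¹ : ℂˣ).val = 1 := Units.mul_inv _
        linear_combination ((m w : ℂ) * f.1 ((w * w)⁻¹ * (g * w))) * h10
      have h11 : Y F = r • Θ.symm (π w (X f)) := by
        rw [← map_smul, LinearEquiv.eq_symm_apply, h5]
      rw [h1, h11, map_smul, LinearMap.smul_apply, ← hb, smul_eq_mul]
    have hr2 : r * r = 1 := by
      haveI := hD.irr.nontrivial
      obtain ⟨x, hx⟩ := exists_ne (0 : V)
      obtain ⟨y, hy⟩ : ∃ y, b x y ≠ 0 := by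
        by_contra hcon
        push Not at hcon
        exact hx (hnd x hcon)
      have h1 := hsy x y
      rw [hsy y x, ← mul_assoc] at h1
      have h2 : (r * r - 1) * b x y = 0 := by linear_combination -h1
      rcases mul_eq_zero.1 h2 with h3 | h3
      · linear_combination h3
      · exact absurd h3 hy
    have hr3 : (ψ ⟨w * w, hw⟩ : ℂ) * (m w : ℂ)⁻¹ = r := by
      have h1 : (m w : ℂ) ≠ 0 := Units.ne_zero _
      have h2 : ((ψ ⟨w * w, hw⟩ : ℂˣ) : ℂ) ≠ 0 := Units.ne_zero _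
      have h3 : r ≠ 0 := by
        intro h
        rw [h, zero_mul] at hr2
        exact zero_ne_one hr2
      have h4 : r = r⁻¹ := by
        field_simp
        rw [pow_two]
        exact hr2
      rw [h4, hr]
      field_simp
    refine ⟨b, hnd, ?_, ?_⟩
    · intro g x y
      rw [hb, hb, hww, hsym, map_smul, LinearMap.smul_apply, smul_eq_mul, hD.inv]
    · intro x y
      rw [hr3]
      exact hsy y x

end Pool.Agent.LPer
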