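import Pool.Agent.Work.MP_037d19_lp.Stmts2

/-! # Block CDET (helper95) -/

namespace Pool.Agent.LPer

open scoped Topology
open Filter

theorem CDET.aux {F E M N : Type} [NontriviallyNormedField F] [CompleteSpace F] [NormedField E]
    [NormedAlgebra F E] [FiniteDimensional F E] [AddCommGroup M] [Module F M]
    [TopologicalSpace M] [IsTopologicalAddGroup M] [ContinuousSMul F M] [T2Space M]
    [FiniteDimensional F M] [AddCommGroup N] [Module E N] [FiniteDimensional E N]
    [Module F N] [IsScalarTower F E N]
    (Φ : M → N →ₗ[E] N) (hadd : ∀ x y n, Φ (x + y) n = Φ x n + Φ y n)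
    (hsmul : ∀ (c : F) x n, Φ (c • x) n = c • Φ x n) :
    Continuous fun x => LinearMap.det (Φ x) := by
  classical
  let b := Module.finBasis E N
  have h1 : (fun x => LinearMap.det (Φ x)) = fun x => (LinearMap.toMatrix b b (Φ x)).det := by
    funext x
    exact (LinearMap.det_toMatrix b (Φ x)).symm
  rw [h1]
  refine Continuous.matrix_det ?_
  refine continuous_matrix fun i j => ?_
  let L : M →ₗ[F] E :=
    { toFun := fun x => LinearMap.toMatrix b b (Φ x) i j
      map_add' := by
        intro x y
        rw [LinearMap.toMatrix_apply, LinearMap.toMatrix_apply, LinearMap.toMatrix_apply, hadd,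
          map_add, Finsupp.add_apply]
      map_smul' := by
        intro c x
        rw [LinearMap.toMatrix_apply, LinearMap.toMatrix_apply, hsmul,
          ← IsScalarTower.algebraMap_smul E c (Φ x (b j)), map_smul, Finsupp.smul_apply,
          RingHom.id_apply, IsScalarTower.algebraMap_smul] }
  exact L.continuous_of_finiteDimensional

theorem stmt_CDET : Stmt_CDET := by
  intro F E A _ _ _ _ _ _ _ _ ι
  have hE : FiniteDimensional F E :=
    FiniteDimensional.of_injective ι.toLinearMap ι.toRingHom.injective
  constructor
  · exact CDET.aux (F := F) (E := F) (M := A) (N := A) (fun x => Algebra.lmul F A x)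
      (fun x y n => add_mul x y n) (fun c x n => smul_mul_assoc c x n)
  · exact CDET.aux (F := F) (E := E) (M := Cent ι) (N := Cent ι)
      (fun x => Algebra.lmul E (Cent ι) x)
      (fun x y n => add_mul x y n) (fun c x n => smul_mul_assoc c x n)

end Pool.Agent.LPer
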