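import Pool.Agent.Work.MP_037d19_lp.Stmts

/-!
# Linear periods, block CEN: the centralizer
-/

namespace Pool.Agent.LPer

open scoped Polynomial Topology TensorProduct
open Module (finrank)
open Matrix (fromBlocks)

namespace CEN

set_option linter.unusedSimpArgs false

section basic

variable {F E A : Type} [Field F] [CharZero F] [Field E] [Algebra F E] [Ring A] [Algebra F A]

/-- `E = F + F δ`. -/
theorem repr (hE : finrank F E = 2) {δE : E} {a : F} (hδ : δE ^ 2 = algebraMap F E a)
    (ha : ∀ b : F, b ^ 2 ≠ a) (e : E) :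
    ∃ b c : F, e = algebraMap F E b + algebraMap F E c * δE := by
  have : FiniteDimensional F E := Module.finite_of_finrank_eq_succ hE
  have hli : LinearIndependent F ![(1 : E), δE] := by
    rw [LinearIndependent.pair_iff]
    intro s t h
    by_cases ht : t = 0
    · subst ht
      rw [zero_smul, add_zero] at h
      rcases smul_eq_zero.mp h with h1 | h1
      · exact ⟨h1, rfl⟩
      · exact absurd h1 one_ne_zero
    · exfalso
      have h1 : δE = algebraMap F E (-(s / t)) := by
        have h2 : t • δE = -(s • (1 : E)) := by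
          rw [eq_neg_iff_add_eq_zero, add_comm]
          exact h
        have h3 : δE = t⁻¹ • (t • δE) := by rw [smul_smul, inv_mul_cancel₀ ht, one_smul]
        rw [h3, h2, Algebra.algebraMap_eq_smul_one, smul_neg, smul_smul, neg_smul]
        congr 2
        ring
      apply ha (-(s / t))
      apply (algebraMap F E).injective
      rw [map_pow, ← h1, hδ]
  have hspan : Submodule.span F (Set.range ![(1 : E), δE]) = ⊤ :=
    hli.span_eq_top_of_card_eq_finrank' (by simp [hE])
  have he : e ∈ Submodule.span F (Set.range ![(1 : E), δE]) := by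
    rw [hspan]
    trivial
  rw [Matrix.range_cons_cons_empty, Submodule.mem_span_pair] at he
  obtain ⟨b, c, h⟩ := he
  refine ⟨b, c, ?_⟩
  rw [← h, Algebra.smul_def, Algebra.smul_def, mul_one]

variable (F) in
/-- The elements commuting with `δ`. -/
def cp (δ : A) : Submodule F A := LinearMap.ker (LinearMap.mulLeft F δ - LinearMap.mulRight F δ)

variable (F) in
/-- The elements anticommuting with `δ`. -/
def cm (δ : A) : Submodule F A := LinearMap.ker (LinearMap.mulLeft F δ + LinearMap.mulRight F δ)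

omit [CharZero F] in
theorem mem_cp {δ x : A} : x ∈ cp F δ ↔ δ * x = x * δ := by
  rw [cp, LinearMap.mem_ker, LinearMap.sub_apply, LinearMap.mulLeft_apply,
    LinearMap.mulRight_apply, sub_eq_zero]

omit [CharZero F] in
theorem mem_cm {δ x : A} : x ∈ cm F δ ↔ δ * x = -(x * δ) := by
  rw [cm, LinearMap.mem_ker, LinearMap.add_apply, LinearMap.mulLeft_apply,
    LinearMap.mulRight_apply, add_eq_zero_iff_eq_neg]

/-- The decomposition of an element. -/
theorem decomp {δ : A} {a : F} (hδ : δ * δ = algebraMap F A a) (ha : a ≠ 0) (x : A) :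
    ∃ y z : A, y ∈ cp F δ ∧ z ∈ cm F δ ∧ x = y + z := by
  have h1 : δ * δ = a • (1 : A) := by rw [hδ, Algebra.algebraMap_eq_smul_one]
  have hl : δ * (a⁻¹ • (δ * x * δ)) = x * δ := by
    rw [mul_smul_comm, ← mul_assoc, ← mul_assoc, h1, smul_mul_assoc, smul_mul_assoc, one_mul,
      smul_smul, inv_mul_cancel₀ ha, one_smul]
  have hr : (a⁻¹ • (δ * x * δ)) * δ = δ * x := by
    rw [smul_mul_assoc, mul_assoc, h1, mul_smul_comm, mul_one, smul_smul, inv_mul_cancel₀ ha,
      one_smul]
  refine ⟨(2 : F)⁻¹ • (x + a⁻¹ • (δ * x * δ)), (2 : F)⁻¹ • (x - a⁻¹ • (δ * x * δ)), ?_, ?_, ?_⟩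
  · rw [mem_cp, mul_smul_comm, smul_mul_assoc, mul_add, add_mul, hl, hr, add_comm]
  · rw [mem_cm, mul_smul_comm, smul_mul_assoc, mul_sub, sub_mul, hl, hr, ← smul_neg, neg_sub]
  · rw [← smul_add]
    have h2 : x + a⁻¹ • (δ * x * δ) + (x - a⁻¹ • (δ * x * δ)) = (2 : F) • x := by
      rw [two_smul]
      abel
    rw [h2, smul_smul, inv_mul_cancel₀ two_ne_zero, one_smul]

theorem isCompl {δ : A} {a : F} (hδ : δ * δ = algebraMap F A a) (ha : a ≠ 0) :
    IsCompl (cp F δ) (cm F δ) := by
  constructor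
  · rw [Submodule.disjoint_def]
    intro x h1 h2
    rw [mem_cp] at h1
    rw [mem_cm] at h2
    have h3 : x * δ = -(x * δ) := h1.symm.trans h2
    have h4 : (2 : F) • (x * δ) = 0 := by
      rw [two_smul]
      nth_rewrite 2 [h3]
      exact add_neg_cancel _
    have h5 : x * δ = 0 := by
      rcases smul_eq_zero.mp h4 with h | h
      · exact absurd h two_ne_zero
      · exact h
    have h6 : a • x = 0 := by
      have : x * (δ * δ) = 0 := by rw [← mul_assoc, h5, zero_mul]
      rw [hδ, ← Algebra.commutes, ← Algebra.smul_def] at this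
      exact this
    rcases smul_eq_zero.mp h6 with h | h
    · exact absurd h ha
    · exact h
  · rw [codisjoint_iff, eq_top_iff]
    intro x _
    obtain ⟨y, z, hy, hz, rfl⟩ := decomp hδ ha x
    exact Submodule.add_mem_sup hy hz

omit [CharZero F] in
theorem finrank_eq [FiniteDimensional F A] {δ w : A} (hw : IsUnit w) (hwd : w * δ = -(δ * w)) :
    finrank F (cp F δ) = finrank F (cm F δ) := by
  obtain ⟨u, rfl⟩ := hw
  have hinv : δ * (↑u⁻¹ : A) = -((↑u⁻¹ : A) * δ) := by
    have h1 : (↑u⁻¹ : A) * (↑u * δ) * (↑u⁻¹ : A) = (↑u⁻¹ : A) * (-(δ * ↑u)) * (↑u⁻¹ : A) := by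
      rw [hwd]
    rw [← mul_assoc, Units.inv_mul, one_mul, mul_neg, neg_mul, ← mul_assoc, mul_assoc _ (u : A),
      Units.mul_inv, mul_one] at h1
    exact h1
  have hwd' : δ * (u : A) = -((u : A) * δ) := by rw [hwd, neg_neg]
  let e : A ≃ₗ[F] A := LinearEquiv.ofLinearMap (LinearMap.mulLeft F (u : A))
    (LinearMap.mulLeft F (↑u⁻¹ : A))
    (by ext x; simp) (by ext x; simp)
  have he : ∀ x, e x = u * x := fun x => rfl
  have hmap : (cp F δ).map (e : A →ₗ[F] A) = cm F δ := by
    ext x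
    rw [Submodule.mem_map]
    constructor
    · rintro ⟨y, hy, rfl⟩
      rw [mem_cp] at hy
      rw [mem_cm]
      change δ * (u * y) = -((u * y) * δ)
      rw [← mul_assoc, hwd', neg_mul, mul_assoc, hy, ← mul_assoc]
    · intro hx
      rw [mem_cm] at hx
      refine ⟨(↑u⁻¹ : A) * x, ?_, ?_⟩
      · rw [mem_cp, ← mul_assoc, hinv, neg_mul, mul_assoc, hx, mul_neg, neg_neg, mul_assoc]
      · change (u : A) * ((↑u⁻¹ : A) * x) = x
        rw [← mul_assoc, Units.mul_inv, one_mul]
  rw [← hmap]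
  exact (LinearEquiv.finrank_map_eq e _).symm

theorem finrank_cp [FiniteDimensional F A] {δ w : A} {a : F} (hδ : δ * δ = algebraMap F A a)
    (ha : a ≠ 0) (hw : IsUnit w) (hwd : w * δ = -(δ * w)) (k : ℕ)
    (hk : finrank F A = (2 * k) ^ 2) : finrank F (cp F δ) = 2 * k ^ 2 := by
  have h1 := Submodule.finrank_add_eq_of_isCompl (isCompl hδ ha)
  rw [← finrank_eq hw hwd, hk] at h1
  nlinarith

theorem mem_Cent_iff' (hE : finrank F E = 2) {δE : E} {a : F} (hδ : δE ^ 2 = algebraMap F E a)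
    (ha : ∀ b : F, b ^ 2 ≠ a) (ι : E →ₐ[F] A) (x : A) :
    x ∈ Cent ι ↔ ι δE * x = x * ι δE := by
  rw [mem_Cent_iff]
  constructor
  · intro h
    exact h δE
  · intro h e
    obtain ⟨b, c, rfl⟩ := repr hE hδ ha e
    rw [map_add, map_mul, AlgHom.commutes, AlgHom.commutes, add_mul, mul_add, mul_assoc, h,
      Algebra.commutes, ← mul_assoc, Algebra.commutes, mul_assoc]

end basic

section blocks

variable {Ω : Type} [Field Ω] [CharZero Ω] {k : ℕ}

theorem blk_comm {α : Ω} (hα : α ≠ 0) {M : Matrix (Fin k ⊕ Fin k) (Fin k ⊕ Fin k) Ω}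
    (h : fromBlocks (α • (1 : Matrix (Fin k) (Fin k) Ω)) 0 0
        (-(α • (1 : Matrix (Fin k) (Fin k) Ω))) * M =
      M * fromBlocks (α • (1 : Matrix (Fin k) (Fin k) Ω)) 0 0
        (-(α • (1 : Matrix (Fin k) (Fin k) Ω)))) : M.toBlocks₁₂ = 0 := by
  rw [← Matrix.fromBlocks_toBlocks M, Matrix.fromBlocks_multiply, Matrix.fromBlocks_multiply,
    Matrix.fromBlocks_inj] at h
  have h2 := h.2.1
  simp only [smul_mul_assoc, one_mul, Matrix.zero_mul, add_zero, Matrix.mul_zero, zero_add,
    mul_neg, mul_smul_comm, mul_one, Matrix.mul_neg, Matrix.mul_smul, Matrix.smul_mul,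
    Matrix.mul_one, Matrix.one_mul] at h2
  have h3 : (2 * α) • M.toBlocks₁₂ = 0 := by
    rw [mul_smul, two_smul]
    nth_rewrite 2 [h2]
    exact add_neg_cancel _
  rcases smul_eq_zero.mp h3 with h4 | h4
  · exact absurd h4 (mul_ne_zero two_ne_zero hα)
  · exact h4

theorem blk_anti {α : Ω} (hα : α ≠ 0) {M : Matrix (Fin k ⊕ Fin k) (Fin k ⊕ Fin k) Ω}
    (h : fromBlocks (α • (1 : Matrix (Fin k) (Fin k) Ω)) 0 0
        (-(α • (1 : Matrix (Fin k) (Fin k) Ω))) * M =
      -(M * fromBlocks (α • (1 : Matrix (Fin k) (Fin k) Ω)) 0 0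
        (-(α • (1 : Matrix (Fin k) (Fin k) Ω))))) : M.toBlocks₁₁ = 0 := by
  rw [← Matrix.fromBlocks_toBlocks M, Matrix.fromBlocks_multiply, Matrix.fromBlocks_multiply,
    Matrix.fromBlocks_neg, Matrix.fromBlocks_inj] at h
  have h2 := h.1
  simp only [smul_mul_assoc, one_mul, Matrix.zero_mul, add_zero, Matrix.mul_zero, zero_add,
    mul_neg, mul_smul_comm, mul_one, Matrix.mul_neg, Matrix.mul_smul, Matrix.smul_mul,
    Matrix.mul_one, Matrix.one_mul] at h2
  have h3 : (2 * α) • M.toBlocks₁₁ = 0 := by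
    rw [mul_smul, two_smul]
    nth_rewrite 2 [h2]
    exact add_neg_cancel _
  rcases smul_eq_zero.mp h3 with h4 | h4
  · exact absurd h4 (mul_ne_zero two_ne_zero hα)
  · exact h4

/-- The (1,1) block as a linear map. -/
def pr (Ω : Type) [Field Ω] (k : ℕ) :
    Matrix (Fin k ⊕ Fin k) (Fin k ⊕ Fin k) Ω →ₗ[Ω] Matrix (Fin k) (Fin k) Ω where
  toFun M := M.toBlocks₁₁
  map_add' := fun _ _ => rfl
  map_smul' := fun _ _ => rfl

omit [CharZero Ω] in
theorem mul_blk {M N : Matrix (Fin k ⊕ Fin k) (Fin k ⊕ Fin k) Ω} (h : M.toBlocks₁₂ = 0) :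
    (M * N).toBlocks₁₁ = M.toBlocks₁₁ * N.toBlocks₁₁ := by
  conv_lhs => rw [← Matrix.fromBlocks_toBlocks M, ← Matrix.fromBlocks_toBlocks N,
    Matrix.fromBlocks_multiply, h]
  rw [Matrix.toBlocks_fromBlocks₁₁, Matrix.zero_mul, add_zero]

end blocks

end CEN

open CEN in
/-- CEN: the centralizer. -/
theorem stmt_CEN : Stmt_CEN := by
  intro F E A Ω _ _ _ _ _ _ _ _ _ _ _ ι k δE a w φ hE hA hδ ha hw hwd hspan hφ
  have : CharZero Ω := charZero_of_injective_algebraMap (algebraMap F Ω).injective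
  have ha0 : a ≠ 0 := fun h => ha 0 (by rw [h]; ring)
  have hδ' : ι δE * ι δE = algebraMap F A a := by
    rw [← map_mul, ← pow_two, hδ, AlgHom.commutes]
  have hα : algebraMap E Ω δE ≠ 0 := by
    intro h
    apply ha0
    apply (algebraMap F Ω).injective
    rw [IsScalarTower.algebraMap_apply F E Ω, ← hδ, map_pow, h, map_zero]
    ring
  have hsub : Subalgebra.toSubmodule (Cent ι) = cp F (ι δE) := by
    ext x
    rw [Subalgebra.mem_toSubmodule, mem_Cent_iff' hE hδ ha ι x, mem_cp]
  have hdim : finrank F (Cent ι) = 2 * k ^ 2 := by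
    have h1 : finrank F (Cent ι) = finrank F (Subalgebra.toSubmodule (Cent ι)) := rfl
    rw [h1, hsub]
    exact finrank_cp hδ' ha0 hw hwd k hA
  have hcomm : ∀ x : Cent ι, (φ (x : A)).toBlocks₁₂ = 0 := by
    intro x
    apply blk_comm hα
    rw [← hφ, ← map_mul, ← map_mul, mem_Cent_iff.mp x.2 δE]
  refine ⟨?_, ?_⟩
  · have h1 := Module.finrank_mul_finrank F E (Cent ι)
    rw [hE, hdim] at h1
    exact Nat.eq_of_mul_eq_mul_left (by norm_num) h1
  · let ψ : Cent ι →ₐ[E] Matrix (Fin k) (Fin k) Ω :=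
      { toFun := fun x => (φ (x : A)).toBlocks₁₁
        map_one' := by
          change (φ (1 : A)).toBlocks₁₁ = 1
          rw [map_one, ← Matrix.fromBlocks_one, Matrix.toBlocks_fromBlocks₁₁]
        map_mul' := fun x y => by
          change (φ ((x : A) * (y : A))).toBlocks₁₁ = _
          rw [map_mul, mul_blk (hcomm x)]
        map_zero' := by
          change (φ (0 : A)).toBlocks₁₁ = 0
          rw [map_zero]
          rfl
        map_add' := fun x y => by
          change (φ ((x : A) + (y : A))).toBlocks₁₁ = _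
          rw [map_add]
          rfl
        commutes' := fun e => by
          change (φ (ι e)).toBlocks₁₁ = _
          obtain ⟨b, c, rfl⟩ := repr hE hδ ha e
          rw [map_add, map_mul, AlgHom.commutes, AlgHom.commutes, map_add, map_mul,
            AlgHom.commutes, AlgHom.commutes, hφ, Algebra.algebraMap_eq_smul_one,
            Algebra.algebraMap_eq_smul_one, ← Matrix.fromBlocks_one, smul_mul_assoc,
            Matrix.fromBlocks_one, one_mul]
          have h1 : (b • (1 : Matrix (Fin k ⊕ Fin k) (Fin k ⊕ Fin k) Ω) +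
              c • fromBlocks (algebraMap E Ω δE • (1 : Matrix (Fin k) (Fin k) Ω)) 0 0
                (-(algebraMap E Ω δE • (1 : Matrix (Fin k) (Fin k) Ω)))).toBlocks₁₁ =
              b • (1 : Matrix (Fin k) (Fin k) Ω) +
                c • (algebraMap E Ω δE • (1 : Matrix (Fin k) (Fin k) Ω)) := by
            rw [← Matrix.fromBlocks_one, Matrix.fromBlocks_smul, Matrix.fromBlocks_smul,
              Matrix.fromBlocks_add, Matrix.toBlocks_fromBlocks₁₁]
          rw [h1, Algebra.algebraMap_eq_smul_one (A := Matrix (Fin k) (Fin k) Ω),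
            ← algebraMap_smul Ω (algebraMap F E b + algebraMap F E c * δE)
              (1 : Matrix (Fin k) (Fin k) Ω), map_add, map_mul, add_smul, mul_smul,
            ← IsScalarTower.algebraMap_apply, ← IsScalarTower.algebraMap_apply,
            algebraMap_smul Ω b, algebraMap_smul Ω c] }
    refine ⟨ψ, ?_, fun x => rfl⟩
    rw [eq_top_iff]
    intro M _
    have h1 : fromBlocks M 0 0 0 ∈ Submodule.span Ω (Set.range φ) := by
      rw [hspan]
      trivial
    have h2 : M ∈ (Submodule.span Ω (Set.range φ)).map (pr Ω k) :=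
      ⟨_, h1, by change (fromBlocks M 0 0 0).toBlocks₁₁ = M; rw [Matrix.toBlocks_fromBlocks₁₁]⟩
    rw [Submodule.map_span] at h2
    refine Submodule.span_le.mpr ?_ h2
    rintro _ ⟨_, ⟨x, rfl⟩, rfl⟩
    obtain ⟨y, z, hy, hz, rfl⟩ := decomp hδ' ha0 x
    have hy' : y ∈ Cent ι := by
      rw [mem_Cent_iff' hE hδ ha ι y]
      exact mem_cp.mp hy
    have h3 : (φ z).toBlocks₁₁ = 0 := by
      apply blk_anti hα
      rw [← hφ, ← map_mul, ← map_mul, mem_cm.mp hz, map_neg]
    have h4 : pr Ω k (φ (y + z)) = ψ ⟨y, hy'⟩ := by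
      rw [map_add, map_add]
      change (φ y).toBlocks₁₁ + (φ z).toBlocks₁₁ = (φ y).toBlocks₁₁
      rw [h3, add_zero]
    rw [h4]
    exact Submodule.subset_span ⟨_, rfl⟩

end Pool.Agent.LPer
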