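import Pool.Agent.Work.MP_037d19_lp.Defs2

/-!
# Linear periods: block CHAR
-/

namespace Pool.Agent.LPer

open scoped Topology
open Module (finrank)
open MeasureTheory Filter

theorem stmt_CHAR (hNRD : Stmt_NRD) (hMUL : Stmt_MUL) (hCONT : Stmt_CONT) (hCDET : Stmt_CDET) :
    Stmt_CHAR := by
  intro F E A _ _ _ _ _ _ _ _ _ _ ι k δE a hD χ hχ
  obtain ⟨hm, h1, hmE, h1E⟩ := hMUL F E A ι k δE a hD
  obtain ⟨Ω, _, _, _, _, φ, -, -, -, ha, hb⟩ := hNRD F E A ι k δE a hD.rankE hD.rankA hD.sq hD.nsq
  obtain ⟨c1, c2⟩ := hCDET F E A ι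
  have hkpos : 0 < k := by
    rcases Nat.eq_zero_or_pos k with h | h
    · subst h
      have : 0 < finrank F A := Module.finrank_pos
      rw [hD.rankA] at this
      simp at this
    · exact h
  have hpow : ∀ (n : ℕ) (v : A), nrd F (v ^ n) = nrd F v ^ n := by
    intro n v
    induction n with
    | zero => simp [h1]
    | succ n ih => rw [pow_succ, hm, ih, pow_succ]
  have hpowE : ∀ (n : ℕ) (v : Cent ι), nrd E (v ^ n) = nrd E v ^ n := by
    intro n v
    induction n with
    | zero => simp [h1E]
    | succ n ih => rw [pow_succ, hmE, ih, pow_succ]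
  have T1 : Tendsto (nrd F : A → F) (𝓝 1) (𝓝 1) := by
    have := hCONT F A F (nrd F) (fun v => LinearMap.det (Algebra.lmul F A v)) (2 * k) (by omega)
      (fun v => by rw [hpow, ha]) c1.continuousAt
    simpa only [map_one] using this
  have T2 : Tendsto (nrd E : Cent ι → E) (𝓝 1) (𝓝 1) := by
    have := hCONT F (Cent ι) E (nrd E) (fun v => LinearMap.det (Algebra.lmul E (Cent ι) v)) k hkpos
      (fun v => by rw [hpowE, hb]) c2.continuousAt
    simpa only [map_one] using this
  let ψ0 : HH ι →* ℂ :=
    { toFun := fun h => χ (nrd E (⟨((h : Aˣ) : A), h.2⟩ : Cent ι))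
      map_one' := by
        change χ (nrd E (1 : Cent ι)) = 1
        rw [h1E, map_one]
      map_mul' := fun x y => by
        rw [← map_mul, ← hmE]
        rfl }
  let m0 : Aˣ →* ℂ :=
    { toFun := fun g => χ (algebraMap F E (nrd F (g : A)))
      map_one' := by rw [Units.val_one, h1, map_one, map_one]
      map_mul' := fun x y => by rw [Units.val_mul, hm, map_mul, map_mul] }
  have T3 : Tendsto (fun g : Aˣ => nrd F (g : A)) (𝓝 1) (𝓝 1) :=
    T1.comp (Units.continuous_val.tendsto' 1 1 rfl)
  refine ⟨ψ0.toHomUnits, m0.toHomUnits, fun h => rfl, fun g => rfl, ?_, ?_, T3⟩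
  · apply Subgroup.isOpen_of_mem_nhds _ (g := 1)
    have hc : Continuous fun h : HH ι => (⟨((h : Aˣ) : A), h.2⟩ : Cent ι) := by
      apply Continuous.subtype_mk
      exact Units.continuous_val.comp continuous_subtype_val
    have := (T2.comp (hc.tendsto' 1 1 rfl)).eventually hχ
    filter_upwards [this] with h hh
    rw [SetLike.mem_coe, MonoidHom.mem_ker]
    apply Units.ext
    exact hh
  · apply Subgroup.isOpen_of_mem_nhds _ (g := 1)
    have hc : Continuous fun x : F => algebraMap F E x := continuous_algebraMap F E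
    have := ((hc.tendsto' 1 1 (map_one _)).comp T3).eventually hχ
    filter_upwards [this] with h hh
    rw [SetLike.mem_coe, MonoidHom.mem_ker]
    apply Units.ext
    exact hh

end Pool.Agent.LPer
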