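import Pool.Agent.Work.MP_037d19_lp.Stmts

/-!
# Linear periods: block CHP
-/

namespace Pool.Agent.LPer

open scoped Polynomial Topology TensorProduct Kronecker
open Module (finrank)

namespace CHP

theorem charpoly_kronecker_one {Ω n m : Type} [CommRing Ω] [Fintype n] [DecidableEq n] [Fintype m]
    [DecidableEq m] (M : Matrix n n Ω) :
    (Matrix.kroneckerMap (fun x y => x * y) M (1 : Matrix m m Ω)).charpoly =
      M.charpoly ^ Fintype.card m := by
  have h1 : (Matrix.kroneckerMap (fun x y => x * y) M (1 : Matrix m m Ω)).charmatrix =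
      Matrix.kroneckerMap (fun x y => x * y) M.charmatrix (1 : Matrix m m (Polynomial Ω)) := by
    ext1 ⟨i, j⟩ ⟨k, l⟩
    simp only [Matrix.kroneckerMap_apply, Matrix.charmatrix_apply, Matrix.diagonal_apply,
      Matrix.one_apply, Prod.mk.injEq]
    by_cases h2 : j = l
    · subst h2
      simp
    · simp [h2]
  rw [Matrix.charpoly, h1, Matrix.det_kronecker, Matrix.det_one, one_pow, mul_one, Matrix.charpoly]

theorem charpoly_mulLeft {Ω n : Type} [Field Ω] [Fintype n] [DecidableEq n] (M : Matrix n n Ω) :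
    (LinearMap.mulLeft Ω M).charpoly = M.charpoly ^ Fintype.card n := by
  rw [← LinearMap.charpoly_toMatrix _ (Matrix.stdBasis Ω n n), ← charpoly_kronecker_one (m := n)]
  congr 1
  ext1 ⟨i, j⟩ ⟨k, l⟩
  rw [LinearMap.toMatrix_apply, Matrix.stdBasis_eq_single, LinearMap.mulLeft_apply,
    Matrix.kroneckerMap_apply]
  have h1 : ∀ N : Matrix n n Ω, (Matrix.stdBasis Ω n n).repr N (i, j) = N i j := by
    intro N
    have h2 : N = ∑ p : n × n, N p.1 p.2 • Matrix.stdBasis Ω n n p := by
      conv_lhs => rw [Matrix.matrix_eq_sum_single N]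
      rw [← Finset.univ_product_univ, Finset.sum_product]
      refine Finset.sum_congr rfl fun a _ => Finset.sum_congr rfl fun b _ => ?_
      rw [Matrix.stdBasis_eq_single, Matrix.smul_single, smul_eq_mul, mul_one]
    conv_lhs => rw [h2]
    rw [Module.Basis.repr_sum_self]
  rw [h1]
  by_cases h2 : j = l
  · subst h2
    simp
  · simp [h2]

end CHP

theorem stmt_CHP : Stmt_CHP := by
  intro K R Ω _ _ _ _ _ _ n _ _ ψ hdim hspan x
  let b := Module.finBasis K R
  have hsp : (⊤ : Submodule Ω (Matrix n n Ω)) ≤ Submodule.span Ω (Set.range fun i => ψ (b i)) := by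
    rw [← hspan, Submodule.span_le]
    rintro _ ⟨r, rfl⟩
    rw [← b.sum_repr r, map_sum]
    refine Submodule.sum_mem _ fun i _ => ?_
    rw [map_smul, ← algebraMap_smul Ω (b.repr r i) (ψ (b i))]
    exact Submodule.smul_mem _ _ (Submodule.subset_span ⟨i, rfl⟩)
  have hcard : Fintype.card (Fin (finrank K R)) = finrank Ω (Matrix n n Ω) := by
    rw [Fintype.card_fin, hdim, Module.finrank_matrix, Module.finrank_self, mul_one, sq]
  let b' := basisOfTopLeSpanOfCardEqFinrank (fun i => ψ (b i)) hsp hcard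
  have hb' : ∀ i, b' i = ψ (b i) := fun i => by
    simp [b']
  rw [← CHP.charpoly_mulLeft, ← LinearMap.charpoly_toMatrix _ b, ← LinearMap.charpoly_toMatrix _ b',
    ← Matrix.charpoly_map]
  congr 1
  ext i j
  rw [Matrix.map_apply, LinearMap.toMatrix_apply, LinearMap.toMatrix_apply, LinearMap.mulLeft_apply,
    hb', ← map_mul]
  have h1 : ψ (x * b j) = ∑ i, algebraMap K Ω (b.repr (x * b j) i) • b' i := by
    conv_lhs => rw [← b.sum_repr (x * b j), map_sum]
    refine Finset.sum_congr rfl fun i _ => ?_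
    rw [map_smul, hb', algebraMap_smul]
  rw [h1, Module.Basis.repr_sum_self]
  rfl

end Pool.Agent.LPer
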