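import Pool.Agent.Work.MP_037d19_lp.Stmts2

/-!
# Block CKR: kernels of a continuous family of linear maps
-/

namespace Pool.Agent.LPer

open scoped Topology
open Module (finrank)
open Filter

namespace CKR

variable {F M N X : Type} [NontriviallyNormedField F] [CompleteSpace F] [NormedAddCommGroup M]
    [NormedSpace F M] [FiniteDimensional F M] [NormedAddCommGroup N] [NormedSpace F N]
    [FiniteDimensional F N] [TopologicalSpace X]

theorem key (Φ : X → M →L[F] N) (hΦ : Continuous Φ) (x₀ : X) :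
    ∃ (C : Submodule F M) (Ψ : N →L[F] C),
      finrank F (LinearMap.ker (Φ x₀).toLinearMap) + finrank F C = finrank F M ∧
      (Continuous fun x => Ψ ∘L Φ x ∘L C.subtypeL) ∧
      Ψ ∘L Φ x₀ ∘L C.subtypeL = 1 := by
  obtain ⟨C, hC⟩ := Submodule.exists_isCompl (LinearMap.ker (Φ x₀).toLinearMap)
  have hinj : LinearMap.ker ((Φ x₀).toLinearMap ∘ₗ C.subtype) = ⊥ := by
    rw [LinearMap.ker_eq_bot']
    intro c hc
    have h1 : (c : M) ∈ LinearMap.ker (Φ x₀).toLinearMap := by
      simpa using hc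
    have h2 : (c : M) ∈ LinearMap.ker (Φ x₀).toLinearMap ⊓ C := ⟨h1, c.2⟩
    rw [hC.inf_eq_bot] at h2
    exact Subtype.ext (by simpa using h2)
  obtain ⟨g, hg⟩ := LinearMap.exists_leftInverse_of_injective _ hinj
  refine ⟨C, LinearMap.toContinuousLinearMap g, Submodule.finrank_add_eq_of_isCompl hC, ?_, ?_⟩
  · fun_prop
  · ext c
    have h3 := LinearMap.congr_fun hg c
    simpa using h3

theorem inj_of_unit (C : Submodule F M) (Ψ : N →L[F] C) (T : M →L[F] N)
    (h : IsUnit (Ψ ∘L T ∘L C.subtypeL)) : Function.Injective (T.toLinearMap ∘ₗ C.subtype) := by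
  obtain ⟨u, hu⟩ := h
  intro a b hab
  have h1 : (Ψ ∘L T ∘L C.subtypeL) a = (Ψ ∘L T ∘L C.subtypeL) b := by
    have : T (a : M) = T (b : M) := hab
    simp [this]
  rw [← hu] at h1
  have h2 := congrArg (fun z => (↑u⁻¹ : C →L[F] C) z) h1
  simpa [← ContinuousLinearMap.mul_apply] using h2

theorem nullity_le (C : Submodule F M) (Ψ : N →L[F] C) (T : M →L[F] N)
    (h : IsUnit (Ψ ∘L T ∘L C.subtypeL)) :
    finrank F (LinearMap.ker T.toLinearMap) + finrank F C ≤ finrank F M := by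
  have h1 := LinearMap.finrank_range_of_inj (inj_of_unit C Ψ T h)
  have h2 := LinearMap.finrank_range_add_finrank_ker T.toLinearMap
  have h3 : LinearMap.range (T.toLinearMap ∘ₗ C.subtype) ≤ LinearMap.range T.toLinearMap :=
    LinearMap.range_comp_le_range _ _
  have h4 := Submodule.finrank_mono h3
  omega

theorem range_eq (C : Submodule F M) (Ψ : N →L[F] C) (T : M →L[F] N)
    (h : IsUnit (Ψ ∘L T ∘L C.subtypeL))
    (he : finrank F (LinearMap.ker T.toLinearMap) + finrank F C = finrank F M) :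
    LinearMap.range (T.toLinearMap ∘ₗ C.subtype) = LinearMap.range T.toLinearMap := by
  have h1 := LinearMap.finrank_range_of_inj (inj_of_unit C Ψ T h)
  have h2 := LinearMap.finrank_range_add_finrank_ker T.toLinearMap
  have h3 : LinearMap.range (T.toLinearMap ∘ₗ C.subtype) ≤ LinearMap.range T.toLinearMap :=
    LinearMap.range_comp_le_range _ _
  apply Submodule.eq_of_le_of_finrank_eq h3
  omega

end CKR

theorem stmt_CKR : Stmt_CKR := by
  intro F M N X _ _ _ _ _ _ _ _ _ Φ hΦ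
  have hloc : ∀ x₀ : X, ∀ᶠ x in 𝓝 x₀, finrank F (LinearMap.ker (Φ x).toLinearMap) ≤
      finrank F (LinearMap.ker (Φ x₀).toLinearMap) := by
    intro x₀
    obtain ⟨C, Ψ, h1, h2, h3⟩ := CKR.key Φ hΦ x₀
    haveI : CompleteSpace C := FiniteDimensional.complete F C
    have h4 : ∀ᶠ x in 𝓝 x₀, IsUnit (Ψ ∘L Φ x ∘L C.subtypeL) := by
      have h5 : IsOpen {T : C →L[F] C | IsUnit T} := Units.isOpen
      apply (h2.tendsto x₀).eventually (h5.mem_nhds ?_)
      show IsUnit (Ψ ∘L Φ x₀ ∘L C.subtypeL)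
      rw [h3]
      exact isUnit_one
    filter_upwards [h4] with x hx
    have := CKR.nullity_le C Ψ (Φ x) hx
    omega
  refine ⟨fun k => ?_, ?_⟩
  · rw [← isOpen_compl_iff, isOpen_iff_mem_nhds]
    intro x₀ hx₀
    filter_upwards [hloc x₀] with x hx
    simp only [Set.mem_compl_iff, Set.mem_setOf_eq, not_le] at hx₀ ⊢
    omega
  · intro x₀ v₀ hv₀ O hO
    obtain ⟨C, Ψ, h1, h2, h3⟩ := CKR.key Φ hΦ x₀
    haveI : CompleteSpace C := FiniteDimensional.complete F C
    have h4 : ∀ᶠ x in 𝓝 x₀, IsUnit (Ψ ∘L Φ x ∘L C.subtypeL) := by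
      have h5 : IsOpen {T : C →L[F] C | IsUnit T} := Units.isOpen
      apply (h2.tendsto x₀).eventually (h5.mem_nhds ?_)
      show IsUnit (Ψ ∘L Φ x₀ ∘L C.subtypeL)
      rw [h3]
      exact isUnit_one
    have h6 : Tendsto (fun x => v₀ - ((Ring.inverse (Ψ ∘L Φ x ∘L C.subtypeL) : C →L[F] C)
        (Ψ (Φ x v₀)) : M)) (𝓝 x₀) (𝓝 v₀) := by
      have h7 : ContinuousAt (fun x => Ring.inverse (Ψ ∘L Φ x ∘L C.subtypeL)) x₀ := by
        have h8 : ContinuousAt Ring.inverse (Ψ ∘L Φ x₀ ∘L C.subtypeL) := by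
          rw [h3]
          exact NormedRing.inverse_continuousAt 1
        exact ContinuousAt.comp (f := fun x => Ψ ∘L Φ x ∘L C.subtypeL) h8 h2.continuousAt
      have h9 : ContinuousAt (fun x => Ψ (Φ x v₀)) x₀ := by
        have : Continuous (fun x => Ψ (Φ x v₀)) := by fun_prop
        exact this.continuousAt
      have h10 : ContinuousAt (fun x => v₀ - ((Ring.inverse (Ψ ∘L Φ x ∘L C.subtypeL) : C →L[F] C)
        (Ψ (Φ x v₀)) : M)) x₀ := by
        apply ContinuousAt.sub continuousAt_const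
        exact ContinuousAt.comp (f := fun x => (Ring.inverse (Ψ ∘L Φ x ∘L C.subtypeL) : C →L[F] C)
          (Ψ (Φ x v₀))) continuous_subtype_val.continuousAt (h7.clm_apply h9)
      have h11 := h10.tendsto
      simpa [hv₀] using h11
    have h12 : ∀ᶠ x in 𝓝 x₀, v₀ - ((Ring.inverse (Ψ ∘L Φ x ∘L C.subtypeL) : C →L[F] C)
        (Ψ (Φ x v₀)) : M) ∈ O := h6 hO
    rw [eventually_nhdsWithin_iff]
    filter_upwards [h4, h12] with x hx hxO hxe
    refine ⟨_, hxO, ?_⟩
    have hxe' : finrank F (LinearMap.ker (Φ x).toLinearMap) + finrank F C = finrank F M := by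
      rw [← h1]
      exact congrArg (· + finrank F C) hxe
    have h13 := CKR.range_eq C Ψ (Φ x) hx hxe'
    have h14 : Φ x v₀ ∈ LinearMap.range ((Φ x).toLinearMap ∘ₗ C.subtype) := by
      rw [h13]
      exact ⟨v₀, rfl⟩
    obtain ⟨c, hc⟩ := h14
    have hc' : Φ x (c : M) = Φ x v₀ := hc
    have h15 : (Ring.inverse (Ψ ∘L Φ x ∘L C.subtypeL) : C →L[F] C) (Ψ (Φ x v₀)) = c := by
      have h16 : Ψ (Φ x v₀) = (Ψ ∘L Φ x ∘L C.subtypeL) c := by simp [hc']
      rw [h16, ← ContinuousLinearMap.mul_apply, Ring.inverse_mul_cancel _ hx]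
      rfl
    rw [h15, map_sub, hc', sub_self]

end Pool.Agent.LPer
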