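import Pool.Agent.Work.MP_037d19_lp.Stmts2

/-! # Block CNT: the counting lemma -/

set_option autoImplicit false

namespace Pool.Agent.LPer

open scoped Polynomial Topology TensorProduct Pointwise
open Module (finrank)
open MeasureTheory Filter

namespace CNT

/-- the bad cosets -/
theorem bad {X Γ : Type} [TopologicalSpace X] [T2Space X] [Group Γ] [TopologicalSpace Γ]
    [IsTopologicalGroup Γ] [MulAction Γ X] [ContinuousSMul Γ X] (C : Set Γ) (hC : IsCompact C)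
    (x₀ : X) (h : ∀ γ ∈ C, γ • x₀ ≠ x₀) : ∃ W ∈ 𝓝 x₀, ∀ γ ∈ C, ∀ x ∈ W, γ • x ∉ W := by
  have hn : IsOpen {p : Γ × X × X | p.1 • p.2.1 ≠ p.2.2} := by
    have h1 : Continuous fun p : Γ × X × X => (p.1 • p.2.1, p.2.2) := by fun_prop
    exact isOpen_ne_fun (by fun_prop) (by fun_prop)
  obtain ⟨u, v, -, hv, hu, hxv, huv⟩ := generalized_tube_lemma hC
    (isCompact_singleton (x := ((x₀, x₀) : X × X))) hn (by
      rintro ⟨γ, x⟩ ⟨hγ, hx⟩
      have hx' : x = (x₀, x₀) := hx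
      subst hx'
      exact h γ hγ)
  have h2 : v ∈ 𝓝 ((x₀, x₀) : X × X) := hv.mem_nhds (hxv rfl)
  rw [nhds_prod_eq, Filter.mem_prod_iff] at h2
  obtain ⟨W₁, hW₁, W₂, hW₂, hW⟩ := h2
  refine ⟨W₁ ∩ W₂, Filter.inter_mem hW₁ hW₂, fun γ hγ x hx hx' => ?_⟩
  exact huv (show (γ, (x, γ • x)) ∈ u ×ˢ v from ⟨hu hγ, hW ⟨hx.1, hx'.2⟩⟩) rfl

end CNT

theorem stmt_CNT : Stmt_CNT := by
  intro X Γ _ _ _ _ _ _ _ L K Z x₀ hLo hLc hKo hKL hZ hst
  classical
  haveI : CompactSpace L := isCompact_iff_compactSpace.1 hLc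
  let K' : Subgroup L := K.subgroupOf L
  have hK'o : IsOpen (K' : Set L) := hKo.preimage continuous_subtype_val
  haveI : Finite (L ⧸ K') := Subgroup.quotient_finite_of_isOpen K' hK'o
  letI := Fintype.ofFinite (L ⧸ K')
  let rep : L ⧸ K' → Γ := fun q => ((Quotient.out q : L) : Γ)
  let C : L ⧸ K' → Set Γ := fun q => {γ | (rep q)⁻¹ * γ ∈ K}
  have hrepL : ∀ q, rep q ∈ L := fun q => (Quotient.out q : L).2
  have hCL : ∀ q, ∀ γ ∈ C q, γ ∈ L := by
    intro q γ hγ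
    have h1 : rep q * ((rep q)⁻¹ * γ) ∈ L := L.mul_mem (hrepL q) (hKL hγ)
    simpa using h1
  have hCmk : ∀ (q : L ⧸ K') (l : L), (l : Γ) ∈ C q ↔ (QuotientGroup.mk l : L ⧸ K') = q := by
    intro q l
    have h1 : (QuotientGroup.mk (Quotient.out q) : L ⧸ K') = q := Quotient.out_eq q
    have h2 : (QuotientGroup.mk (Quotient.out q) : L ⧸ K') = QuotientGroup.mk l ↔
        (Quotient.out q)⁻¹ * l ∈ K' := QuotientGroup.eq
    rw [h1] at h2
    rw [eq_comm, h2, Subgroup.mem_subgroupOf]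
    rfl
  have hCo : ∀ q, IsOpen (C q) := fun q => hKo.preimage (continuous_const_mul _)
  have hKc : IsCompact (K : Set Γ) :=
    hLc.of_isClosed_subset (Subgroup.isClosed_of_isOpen K hKo) hKL
  have hCc : ∀ q, IsCompact (C q) := by
    intro q
    have h1 : C q = (fun k => rep q * k) '' (K : Set Γ) := by
      ext γ
      constructor
      · intro hγ
        exact ⟨(rep q)⁻¹ * γ, hγ, by simp⟩
      · rintro ⟨k, hk, rfl⟩
        change (rep q)⁻¹ * (rep q * k) ∈ K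
        simpa using hk
    rw [h1]
    exact hKc.image (continuous_const_mul _)
  -- translations of the cosets
  have hCt : ∀ (q : L ⧸ K') (g : L) (γ : Γ), γ ∈ C q → (g : Γ) * γ ∈ C (g • q) := by
    intro q g γ hγ
    have h1 := (hCmk q ⟨γ, hCL q γ hγ⟩).1 hγ
    have h2 : (QuotientGroup.mk (g * ⟨γ, hCL q γ hγ⟩) : L ⧸ K') = g • q :=
      congrArg (fun z : L ⧸ K' => g • z) h1
    exact (hCmk (g • q) (g * ⟨γ, hCL q γ hγ⟩)).2 h2
  let good : L ⧸ K' → Prop := fun q => ∃ γ ∈ C q, γ • x₀ = x₀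
  -- the neighbourhoods
  have hW : ∀ q, ∃ W ∈ 𝓝 x₀, (good q → ∀ x ∈ W, x ∈ Z → ∃ γ ∈ C q, γ • x = x) ∧
      (¬ good q → ∀ γ ∈ C q, ∀ x ∈ W, γ • x ∉ W) := by
    intro q
    by_cases hq : good q
    · obtain ⟨γ, hγ, hγx⟩ := hq
      have h1 := hst γ hγx (C q) ((hCo q).mem_nhds hγ)
      rw [Filter.eventually_iff, mem_nhdsWithin] at h1
      obtain ⟨W, hWo, hxW, hW⟩ := h1
      exact ⟨W, hWo.mem_nhds hxW, fun _ x hx hxZ => hW ⟨hx, hxZ⟩,
        fun hn => absurd ⟨γ, hγ, hγx⟩ hn⟩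
    · obtain ⟨W, hW, h1⟩ := CNT.bad (C q) (hCc q) x₀ fun γ hγ hγx => hq ⟨γ, hγ, hγx⟩
      exact ⟨W, hW, fun hg => absurd hg hq, fun _ => h1⟩
  choose W hWn hWg hWb using hW
  have hrepinj : Function.Injective rep := by
    intro q q' h
    have h1 : (Quotient.out q : L) = Quotient.out q' := Subtype.ext h
    have h2 := congrArg (fun l : L => (QuotientGroup.mk l : L ⧸ K')) h1
    simpa using h2
  refine ⟨⋂ q, W q, Filter.iInter_mem.2 hWn, Finset.univ.image rep,
    (Finset.univ.filter good).card, ?_, ?_, ?_, ?_⟩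
  · exact ⟨rep (QuotientGroup.mk 1), Finset.mem_image_of_mem _ (Finset.mem_univ _)⟩
  · refine Finset.card_pos.2 ⟨QuotientGroup.mk 1, Finset.mem_filter.2 ⟨Finset.mem_univ _, 1, ?_,
      one_smul _ _⟩⟩
    exact (hCmk (QuotientGroup.mk 1) 1).2 rfl
  · intro r hr
    obtain ⟨q, -, rfl⟩ := Finset.mem_image.1 hr
    exact hrepL q
  · intro N hN y hy
    rw [Finset.sum_image fun a _ b _ h => hrepinj h]
    -- membership
    have hmem : ∀ q, y ∈ rep q • ((K : Set Γ) • N) ↔ ∃ γ ∈ C q, ∃ x ∈ N, γ • x = y := by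
      intro q
      constructor
      · intro h
        obtain ⟨z, hz, rfl⟩ := Set.mem_smul_set.1 h
        obtain ⟨k, hk, x, hx, rfl⟩ := Set.mem_smul.1 hz
        refine ⟨rep q * k, ?_, x, hx, mul_smul _ _ _⟩
        change (rep q)⁻¹ * (rep q * k) ∈ K
        simpa using hk
      · rintro ⟨γ, hγ, x, hx, rfl⟩
        refine Set.mem_smul_set.2 ⟨((rep q)⁻¹ * γ) • x, Set.mem_smul.2 ⟨_, hγ, x, hx, rfl⟩, ?_⟩
        rw [← mul_smul, mul_inv_cancel_left]
    by_cases hyL : y ∈ (L : Set Γ) • N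
    · obtain ⟨g, hg, x, hx, rfl⟩ := Set.mem_smul.1 hyL
      have hg' : g ∈ L := hg
      have hxZ : x ∈ Z := by
        have h1 := hZ g⁻¹ (L.inv_mem hg') (g • x) hy
        simpa using h1
      let gl : L := ⟨g, hg'⟩
      have hiff : ∀ q, g • x ∈ rep q • ((K : Set Γ) • N) ↔ good (gl⁻¹ • q) := by
        intro q
        rw [hmem q]
        constructor
        · rintro ⟨γ, hγ, x', hx', hγx⟩
          by_contra hb
          have h1 := hCt q gl⁻¹ γ hγ
          have h2 : (((gl⁻¹ : L) : Γ) * γ) • x' = x := by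
            rw [mul_smul, hγx, ← mul_smul]
            simp [gl]
          refine hWb (gl⁻¹ • q) hb _ h1 x' (Set.mem_iInter.1 (hN hx') _) ?_
          rw [h2]
          exact Set.mem_iInter.1 (hN hx) _
        · intro hgood
          obtain ⟨γ, hγ, hγx⟩ := hWg (gl⁻¹ • q) hgood x (Set.mem_iInter.1 (hN hx) _) hxZ
          refine ⟨g * γ, ?_, x, hx, ?_⟩
          · have h1 := hCt (gl⁻¹ • q) gl γ hγ
            rwa [smul_inv_smul] at h1
          · rw [mul_smul, hγx]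
      have h1 : ∀ q, (rep q • ((K : Set Γ) • N)).indicator (fun _ => (1 : ℂ)) (g • x) =
          if good (gl⁻¹ • q) then 1 else 0 := by
        intro q
        rw [Set.indicator_apply]
        exact if_congr (hiff q) rfl rfl
      rw [Finset.sum_congr rfl fun q _ => h1 q, Set.indicator_of_mem hyL, mul_one]
      have h2 : ∑ q : L ⧸ K', (if good (gl⁻¹ • q) then (1 : ℂ) else 0) =
          ∑ q : L ⧸ K', (if good q then (1 : ℂ) else 0) :=
        Equiv.sum_comp (MulAction.toPerm (gl⁻¹ : L)) fun q => if good q then (1 : ℂ) else 0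
      rw [h2, Finset.sum_ite, Finset.sum_const_zero, add_zero, Finset.sum_const, nsmul_eq_mul,
        mul_one]
    · rw [Set.indicator_of_notMem hyL, mul_zero]
      refine Finset.sum_eq_zero fun q _ => Set.indicator_of_notMem (fun h => hyL ?_) _
      obtain ⟨γ, hγ, x, hx, rfl⟩ := (hmem q).1 h
      exact Set.mem_smul.2 ⟨γ, hCL q γ hγ, x, hx, rfl⟩

end Pool.Agent.LPer
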