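import Pool.Agent.Work.MP_037d19_lp.Stmts2

/-! # Block CONT (helper95) -/

namespace Pool.Agent.LPer

open scoped Topology
open Filter

theorem stmt_CONT : Stmt_CONT := by
  intro F R K _ _ _ _ _ _ _ N D n hn hND hD
  have hcs : CompleteSpace R := FiniteDimensional.complete F R
  have h1 : HasStrictFDerivAt (fun v : R => v ^ n) ((n : F) • ContinuousLinearMap.id F R) 1 := by
    have h := (hasStrictFDerivAt_id (𝕜 := F) (1 : R)).fun_pow' n
    refine h.congr_fderiv ?_
    ext v
    simp only [id, one_pow, ContinuousLinearMap.sum_apply, ContinuousLinearMap.smul_apply,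
      ContinuousLinearMap.id_apply, Finset.sum_const, Finset.card_range, one_smul,
      MulOpposite.op_one, Nat.cast_smul_eq_nsmul]
  have h2 : map (fun v : R => v ^ n) (𝓝 1) = 𝓝 1 := by
    have h3 := h1.map_nhds_eq_of_surj (by
      rw [LinearMap.range_eq_top]
      intro y
      refine ⟨(n : F)⁻¹ • y, ?_⟩
      have hn0 : (n : F) ≠ 0 := by exact_mod_cast hn.ne'
      change (n : F) • ((n : F)⁻¹ • y) = y
      rw [smul_smul, mul_inv_cancel₀ hn0, one_smul])
    simpa only [one_pow] using h3
  have h4 : Tendsto (fun v : R => N (v ^ n)) (𝓝 1) (𝓝 (D 1)) := by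
    have : (fun v : R => N (v ^ n)) = D := funext hND
    rw [this]
    exact hD
  rw [← h2, tendsto_map'_iff]
  exact h4

end Pool.Agent.LPer
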