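import Pool.Agent.Work.MP_037d19_lp.Stmts2

/-!
# Block CTR: the contragredient representation
-/

namespace Pool.Agent.LPer

open scoped Topology
open MeasureTheory

namespace CTR

variable {G : Type} [Group G] [TopologicalSpace G] [IsTopologicalGroup G]

/-- Averaging over a finite orbit. -/
theorem avg {V : Type} [AddCommGroup V] [Module ℂ V] (π : Representation ℂ G V)
    (hsm : ∀ v : V, IsOpen {g : G | π g v = v}) (K : Subgroup G) (hKc : IsCompact (K : Set G))
    (v : V) : ∃ v₀ ∈ fixed π K, (∀ ψ : V →ₗ[ℂ] ℂ, (∀ k ∈ K, ∀ v, ψ (π k v) = ψ v) →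
      ψ v₀ = ψ v) ∧ ∀ W : Submodule ℂ V, (∀ g : G, ∀ v ∈ W, π g v ∈ W) → v ∈ W → v₀ ∈ W := by
  classical
  have hcK : CompactSpace K := isCompact_iff_compactSpace.1 hKc
  have hlc : IsLocallyConstant (fun k : K => π (k : G) v) := by
    rw [IsLocallyConstant.iff_exists_open]
    intro k
    refine ⟨{k' : K | π ((k : G)⁻¹ * (k' : G)) v = v}, ?_, ?_, ?_⟩
    · exact (hsm v).preimage (f := fun k' : K => (k : G)⁻¹ * (k' : G)) (by fun_prop)
    · show π ((k : G)⁻¹ * (k : G)) v = v
      simp
    · intro k' hk'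
      have h1 : π ((k : G)⁻¹ * (k' : G)) v = v := hk'
      have h2 : (k' : G) = (k : G) * ((k : G)⁻¹ * (k' : G)) := by group
      show π (k' : G) v = π (k : G) v
      rw [h2, map_mul, Module.End.mul_apply, h1]
  have hfin : (Set.range (fun k : K => π (k : G) v)).Finite := hlc.range_finite
  obtain ⟨O, hO⟩ : ∃ O : Finset V, ∀ w, w ∈ O ↔ ∃ k ∈ K, π k v = w := by
    refine ⟨hfin.toFinset, fun w => ?_⟩
    simp
  have hv : v ∈ O := (hO v).2 ⟨1, K.one_mem, by simp⟩
  have hcard : (O.card : ℂ) ≠ 0 := by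
    exact_mod_cast (Finset.card_pos.2 ⟨v, hv⟩).ne'
  have hsum : ∀ k ∈ K, π k (∑ w ∈ O, w) = ∑ w ∈ O, w := by
    intro k hk
    rw [map_sum]
    refine Finset.sum_nbij' (fun w => π k w) (fun w => π k⁻¹ w) ?_ ?_ ?_ ?_ ?_
    · intro w hw
      obtain ⟨k', hk', rfl⟩ := (hO w).1 hw
      exact (hO _).2 ⟨k * k', K.mul_mem hk hk', by rw [map_mul, Module.End.mul_apply]⟩
    · intro w hw
      obtain ⟨k', hk', rfl⟩ := (hO w).1 hw
      exact (hO _).2 ⟨k⁻¹ * k', K.mul_mem (K.inv_mem hk) hk', by
        rw [map_mul, Module.End.mul_apply]⟩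
    · intro w _
      show π k⁻¹ (π k w) = w
      rw [← Module.End.mul_apply, ← map_mul]
      simp
    · intro w _
      show π k (π k⁻¹ w) = w
      rw [← Module.End.mul_apply, ← map_mul]
      simp
    · intro w _
      rfl
  refine ⟨(O.card : ℂ)⁻¹ • ∑ w ∈ O, w, ?_, ?_, ?_⟩
  · intro k hk
    rw [map_smul, hsum k hk]
  · intro ψ hψ
    rw [map_smul, map_sum]
    have h1 : ∑ w ∈ O, ψ w = ∑ _w ∈ O, ψ v := by
      refine Finset.sum_congr rfl (fun w hw => ?_)
      obtain ⟨k, hk, rfl⟩ := (hO w).1 hw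
      exact hψ k hk v
    rw [h1, Finset.sum_const, nsmul_eq_mul, smul_eq_mul, ← mul_assoc, inv_mul_cancel₀ hcard,
      one_mul]
  · intro W hW hvW
    refine W.smul_mem _ (W.sum_mem fun w hw => ?_)
    obtain ⟨k, _, rfl⟩ := (hO w).1 hw
    exact hW k v hvW

/-- Invariant functionals which agree on the fixed vectors are equal. -/
theorem inj {V : Type} [AddCommGroup V] [Module ℂ V] (π : Representation ℂ G V)
    (hsm : ∀ v : V, IsOpen {g : G | π g v = v}) (K : Subgroup G) (hKc : IsCompact (K : Set G))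
    (φ ψ : V →ₗ[ℂ] ℂ) (hφ : ∀ k ∈ K, ∀ v, φ (π k v) = φ v)
    (hψ : ∀ k ∈ K, ∀ v, ψ (π k v) = ψ v) (h : ∀ v ∈ fixed π K, φ v = ψ v) : φ = ψ := by
  ext v
  obtain ⟨v₀, hv₀, hav, -⟩ := avg π hsm K hKc v
  rw [← hav φ hφ, ← hav ψ hψ]
  exact h v₀ hv₀

/-- The orbit maps are continuous in every functional. -/
theorem cont {V : Type} [AddCommGroup V] [Module ℂ V] (π : Representation ℂ G V)
    (hsm : ∀ v : V, IsOpen {g : G | π g v = v}) (φ : V →ₗ[ℂ] ℂ) (v : V) :
    Continuous fun g : G => φ (π g⁻¹ v) := by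
  have hlc : IsLocallyConstant (fun g : G => π g⁻¹ v) := by
    rw [IsLocallyConstant.iff_exists_open]
    intro g
    refine ⟨{g' : G | π (g * g'⁻¹) v = v}, ?_, ?_, ?_⟩
    · exact (hsm v).preimage (f := fun g' : G => g * g'⁻¹) (by fun_prop)
    · show π (g * g⁻¹) v = v
      simp
    · intro g' hg'
      have h1 : π (g * g'⁻¹) v = v := hg'
      have h2 : g'⁻¹ = g⁻¹ * (g * g'⁻¹) := by group
      show π g'⁻¹ v = π g⁻¹ v
      rw [h2, map_mul, Module.End.mul_apply, h1]
  exact (hlc.comp φ).continuous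

/-- Invariant functionals separate the fixed vectors. -/
theorem sep [T2Space G] [LocallyCompactSpace G] {V : Type} [AddCommGroup V] [Module ℂ V]
    (π : Representation ℂ G V) (hsm : ∀ v : V, IsOpen {g : G | π g v = v}) (K : Subgroup G)
    (hKo : IsOpen (K : Set G)) (hKc : IsCompact (K : Set G)) (v : V) (hv : v ∈ fixed π K)
    (hv0 : v ≠ 0) : ∃ φ : V →ₗ[ℂ] ℂ, (∀ k ∈ K, ∀ x, φ (π k x) = φ x) ∧ φ v ≠ 0 := by
  letI : MeasurableSpace G := borel G
  have hB : BorelSpace G := ⟨rfl⟩
  obtain ⟨φ₀, hφ₀⟩ : ∃ φ₀ : Module.Dual ℂ V, φ₀ v ≠ 0 := by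
    by_contra hcon
    push Not at hcon
    exact hv0 ((Module.forall_dual_apply_eq_zero_iff ℂ v).1 hcon)
  let μ : Measure G := Measure.haar
  have hint : ∀ x : V, IntegrableOn (fun g : G => φ₀ (π g⁻¹ x)) (K : Set G) μ := fun x =>
    (cont π hsm φ₀ x).continuousOn.integrableOn_compact hKc
  let φ : V →ₗ[ℂ] ℂ :=
    { toFun := fun x => ∫ g in (K : Set G), φ₀ (π g⁻¹ x) ∂μ
      map_add' := fun x y => by
        have h1 : (fun g : G => φ₀ (π g⁻¹ (x + y))) =
            fun g => φ₀ (π g⁻¹ x) + φ₀ (π g⁻¹ y) := by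
          funext g
          rw [map_add, map_add]
        rw [h1]
        exact integral_add (hint x) (hint y)
      map_smul' := fun c x => by
        have h1 : (fun g : G => φ₀ (π g⁻¹ (c • x))) = fun g => c • φ₀ (π g⁻¹ x) := by
          funext g
          rw [map_smul, map_smul]
        rw [h1]
        exact integral_smul c _ }
  have hφ : ∀ x, φ x = ∫ g in (K : Set G), φ₀ (π g⁻¹ x) ∂μ := fun x => rfl
  have hKm : MeasurableSet (K : Set G) := hKo.measurableSet
  refine ⟨φ, fun k hk x => ?_, ?_⟩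
  · rw [hφ, hφ, ← integral_indicator hKm, ← integral_indicator hKm,
      ← integral_mul_left_eq_self _ k]
    congr 1
    funext g
    by_cases hg : g ∈ K
    · have hkg : k * g ∈ (K : Set G) := K.mul_mem hk hg
      have hg' : g ∈ (K : Set G) := hg
      rw [Set.indicator_of_mem hkg, Set.indicator_of_mem hg', ← Module.End.mul_apply, ← map_mul]
      congr 3
      group
    · have hkg : k * g ∉ (K : Set G) := fun h => hg (by
        have := K.mul_mem (K.inv_mem hk) h
        simpa using this)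
      have hg' : g ∉ (K : Set G) := hg
      rw [Set.indicator_of_notMem hkg, Set.indicator_of_notMem hg']
  · rw [hφ]
    have h1 : ∫ g in (K : Set G), φ₀ (π g⁻¹ v) ∂μ = ∫ _g in (K : Set G), φ₀ v ∂μ := by
      refine setIntegral_congr_fun hKm fun g hg => ?_
      show φ₀ (π g⁻¹ v) = φ₀ v
      rw [hv g⁻¹ (K.inv_mem hg)]
    rw [h1, setIntegral_const]
    refine smul_ne_zero ?_ hφ₀
    have hpos : 0 < μ (K : Set G) := hKo.measure_pos μ ⟨1, K.one_mem⟩
    have hlt : μ (K : Set G) < ⊤ := hKc.measure_lt_top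
    exact (ENNReal.toReal_pos hpos.ne' hlt.ne).ne'

/-- The contragredient is smooth. -/
theorem smooth {V : Type} [AddCommGroup V] [Module ℂ V] (π : Representation ℂ G V)
    (φ : smoothDual π) : IsOpen {g : G | contra π g φ = φ} := by
  obtain ⟨K, hK, h⟩ := φ.2
  let S : Subgroup G :=
    { carrier := {g : G | contra π g φ = φ}
      mul_mem' := fun {a b} ha hb => by
        show contra π (a * b) φ = φ
        rw [map_mul, Module.End.mul_apply, hb, ha]
      one_mem' := by
        show contra π 1 φ = φ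
        rw [map_one]
        rfl
      inv_mem' := fun {a} ha => by
        show contra π a⁻¹ φ = φ
        have ha' : contra π a φ = φ := ha
        conv_lhs => rw [← ha']
        rw [← Module.End.mul_apply, ← map_mul, inv_mul_cancel, map_one]
        rfl }
  have hKS : K ≤ S := by
    intro k hk
    show contra π k φ = φ
    apply Subtype.ext
    ext v
    exact h k⁻¹ (K.inv_mem hk) v
  exact Subgroup.isOpen_mono hKS hK

theorem fixed_iff {V : Type} [AddCommGroup V] [Module ℂ V] (π : Representation ℂ G V)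
    (K : Subgroup G) (φ : smoothDual π) : φ ∈ fixed (contra π) K ↔
      ∀ k ∈ K, ∀ v, (φ : Module.Dual ℂ V) (π k v) = (φ : Module.Dual ℂ V) v := by
  constructor
  · intro h k hk v
    have h1 := h k⁻¹ (K.inv_mem hk)
    have h2 := congrArg (fun ψ : smoothDual π => (ψ : Module.Dual ℂ V) v) h1
    have h3 : ((contra π k⁻¹ φ : smoothDual π) : Module.Dual ℂ V) v =
        (φ : Module.Dual ℂ V) (π k⁻¹⁻¹ v) := rfl
    simp only [h3, inv_inv] at h2
    exact h2
  · intro h k hk
    apply Subtype.ext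
    ext v
    exact h k⁻¹ (K.inv_mem hk) v

/-- Restriction to the fixed vectors. -/
def res {V : Type} [AddCommGroup V] [Module ℂ V] (π : Representation ℂ G V)
    (K : Subgroup G) (U : Submodule ℂ (smoothDual π)) : U →ₗ[ℂ] Module.Dual ℂ (fixed π K) where
  toFun φ := ((φ : smoothDual π) : Module.Dual ℂ V).comp (fixed π K).subtype
  map_add' a b := by
    ext v
    rfl
  map_smul' c a := by
    ext v
    rfl

theorem res_apply {V : Type} [AddCommGroup V] [Module ℂ V] (π : Representation ℂ G V)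
    (K : Subgroup G) (U : Submodule ℂ (smoothDual π)) (φ : U) (v : fixed π K) :
    res π K U φ v = ((φ : smoothDual π) : Module.Dual ℂ V) (v : V) := rfl

end CTR

/-- CTR: the contragredient. -/
theorem stmt_CTR (hVD : Stmt_VD) : Stmt_CTR := by
  intro G _ _ _ _ _ _ V _ _ π hπ
  -- small compact open subgroups
  have hsmall : ∀ K : Subgroup G, IsOpen (K : Set G) → ∃ K' : Subgroup G,
      IsOpen (K' : Set G) ∧ IsCompact (K' : Set G) ∧ K' ≤ K := fun K hK =>
    hVD G (K : Set G) (hK.mem_nhds K.one_mem)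
  have hsep : ∀ v : V, v ≠ 0 → ∃ φ : smoothDual π, (φ : Module.Dual ℂ V) v ≠ 0 := by
    intro v hv
    obtain ⟨K, hKo, hKc, hKs⟩ := hVD G {g : G | π g v = v} ((hπ.smooth v).mem_nhds (by simp))
    obtain ⟨φ, hφ, hφv⟩ := CTR.sep π hπ.smooth K hKo hKc v (fun k hk => hKs hk) hv
    exact ⟨⟨φ, K, hKo, hφ⟩, hφv⟩
  have hirr' : IrrAdm (contra π) := by
    refine ⟨CTR.smooth π, ?_, ?_, ?_⟩
    · intro K hK
      obtain ⟨K', hK'o, hK'c, hK'K⟩ := hsmall K hK
      have hfd : FiniteDimensional ℂ (fixed π K') := hπ.admissible K' hK'o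
      refine FiniteDimensional.of_injective (CTR.res π K' (fixed (contra π) K)) ?_
      intro φ ψ h
      have hφ := (CTR.fixed_iff π K φ).1 φ.2
      have hψ := (CTR.fixed_iff π K ψ).1 ψ.2
      refine Subtype.ext (Subtype.ext ?_)
      refine CTR.inj π hπ.smooth K' hK'c _ _ (fun k hk => hφ k (hK'K hk))
        (fun k hk => hψ k (hK'K hk)) fun v hv => ?_
      exact congrArg (fun l : Module.Dual ℂ (fixed π K') => l ⟨v, hv⟩) h
    · obtain ⟨v, hv⟩ := @exists_ne V hπ.nontrivial 0
      obtain ⟨φ, hφ⟩ := hsep v hv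
      refine ⟨⟨φ, 0, fun h => hφ ?_⟩⟩
      rw [h]
      rfl
    · intro W hW
      let N : Submodule ℂ V :=
        { carrier := {v | ∀ φ ∈ W, (φ : Module.Dual ℂ V) v = 0}
          add_mem' := fun {a b} ha hb φ hφ => by
            rw [map_add, ha φ hφ, hb φ hφ, add_zero]
          zero_mem' := fun φ _ => map_zero _
          smul_mem' := fun c v hv φ hφ => by
            rw [map_smul, hv φ hφ, smul_zero] }
      have hN : ∀ g : G, ∀ v ∈ N, π g v ∈ N := by
        intro g v hv φ hφ
        have h1 := hv _ (hW g⁻¹ φ hφ)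
        have h2 : ((contra π g⁻¹ φ : smoothDual π) : Module.Dual ℂ V) v =
          (φ : Module.Dual ℂ V) (π g⁻¹⁻¹ v) := rfl
        rw [h2, inv_inv] at h1
        exact h1
      rcases hπ.irreducible N hN with h0 | h1
      · right
        rw [eq_top_iff]
        intro φ _
        obtain ⟨K₀, hK₀, hφ₀⟩ := φ.2
        obtain ⟨K, hKo, hKc, hKK⟩ := hsmall K₀ hK₀
        have hφ : ∀ k ∈ K, ∀ v, (φ : Module.Dual ℂ V) (π k v) = (φ : Module.Dual ℂ V) v :=
          fun k hk => hφ₀ k (hKK hk)
        have hfd : FiniteDimensional ℂ (fixed π K) := hπ.admissible K hKo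
        set B := CTR.res π K (W ⊓ fixed (contra π) K) with hB
        have hco : (LinearMap.range B).dualCoannihilator = ⊥ := by
          rw [Submodule.eq_bot_iff]
          intro v hv
          rw [Submodule.mem_dualCoannihilator] at hv
          have hvN : (v : V) ∈ N := by
            intro ψ hψ
            obtain ⟨ψ₀, hψ₀, hav, hin⟩ := CTR.avg (contra π) (CTR.smooth π) K hKc ψ
            have hψW : ψ₀ ∈ W := hin W hW hψ
            have h2 := hv (B ⟨ψ₀, hψW, hψ₀⟩) ⟨_, rfl⟩
            rw [hB, CTR.res_apply] at h2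
            have h3 := hav ((Module.Dual.eval ℂ V (v : V)).comp (smoothDual π).subtype)
              (fun k hk ψ => by
                show (ψ : Module.Dual ℂ V) (π k⁻¹ (v : V)) = (ψ : Module.Dual ℂ V) (v : V)
                rw [v.2 k⁻¹ (K.inv_mem hk)])
            have h4 : (ψ₀ : Module.Dual ℂ V) (v : V) = (ψ : Module.Dual ℂ V) (v : V) := h3
            rw [← h4]
            exact h2
          rw [h0, Submodule.mem_bot] at hvN
          exact Subtype.ext hvN
        have htop : LinearMap.range B = ⊤ := by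
          have h1 := Subspace.dualCoannihilator_dualAnnihilator_eq (W := LinearMap.range B)
          rw [hco, Submodule.dualAnnihilator_bot] at h1
          exact h1.symm
        obtain ⟨ψ, hψ⟩ : (φ : Module.Dual ℂ V).comp (fixed π K).subtype ∈ LinearMap.range B := by
          rw [htop]
          exact Submodule.mem_top
        have hψK := (CTR.fixed_iff π K ψ).1 ψ.2.2
        have h5 : (φ : Module.Dual ℂ V) = ((ψ : smoothDual π) : Module.Dual ℂ V) := by
          refine CTR.inj π hπ.smooth K hKc _ _ hφ hψK fun v hv => ?_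
          exact (congrArg (fun l : Module.Dual ℂ (fixed π K) => l ⟨v, hv⟩) hψ).symm
        have h6 : φ = (ψ : smoothDual π) := Subtype.ext h5
        rw [h6]
        exact ψ.2.1
      · left
        rw [Submodule.eq_bot_iff]
        intro φ hφ
        apply Subtype.ext
        ext v
        have hv : v ∈ N := by
          rw [h1]
          exact Submodule.mem_top
        exact hv φ hφ
  refine ⟨hπ, hirr', ?_, ?_, ?_⟩
  · intro g φ v
    show (φ : Module.Dual ℂ V) (π g⁻¹ (π g v)) = (φ : Module.Dual ℂ V) v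
    rw [← Module.End.mul_apply, ← map_mul, inv_mul_cancel, map_one]
    rfl
  · intro φ h
    apply Subtype.ext
    ext v
    exact h v
  · intro v h
    by_contra hv
    obtain ⟨φ, hφ⟩ := hsep v hv
    exact hφ (h φ)

end Pool.Agent.LPer
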