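import Pool.Agent.Work.MP_037d19_lp.Stmts
import Pool.Agent.Work.MP_257930_al.BaseChange

/-! Block DETR (helper69): left and right multiplication have the same determinant. -/

namespace Pool.Agent.LPer

open scoped Polynomial Topology TensorProduct
open Module (finrank)
open Matrix (fromBlocks)

namespace DETR

theorem span_inc (F A Ω : Type) [Field F] [Ring A] [Algebra F A] [Field Ω] [Algebra F Ω] :
    Submodule.span Ω (Set.range
      (Algebra.TensorProduct.includeRight : A →ₐ[F] Ω ⊗[F] A)) = ⊤ := by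
  rw [eq_top_iff]
  intro x _
  induction x using TensorProduct.induction_on with
  | zero => exact Submodule.zero_mem _
  | add x y hx hy => exact Submodule.add_mem _ (hx trivial) (hy trivial)
  | tmul w a =>
    have h : w ⊗ₜ[F] a = w • ((1 : Ω) ⊗ₜ[F] a) := by
      rw [TensorProduct.smul_tmul', smul_eq_mul, mul_one]
    rw [h]
    exact Submodule.smul_mem _ _ (Submodule.subset_span ⟨a, rfl⟩)

theorem split (F A : Type) [Field F] [Ring A] [Algebra F A] [Algebra.IsCentral F A]
    [IsSimpleRing A] [FiniteDimensional F A] :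
    ∃ (n : ℕ) (ψ : A →ₐ[F] Matrix (Fin n) (Fin n) (AlgebraicClosure F)),
      finrank F A = n ^ 2 ∧ Submodule.span (AlgebraicClosure F) (Set.range ψ) = ⊤ := by
  have hs : IsSimpleRing (AlgebraicClosure F ⊗[F] A) :=
    Pool.Agent.Work.MP_257930_al.isSimpleRing_bc F (AlgebraicClosure F) A
  obtain ⟨n, -, ⟨e⟩⟩ := IsSimpleRing.exists_algEquiv_matrix_of_isAlgClosed (AlgebraicClosure F)
    (AlgebraicClosure F ⊗[F] A)
  refine ⟨n, (e.toAlgHom.restrictScalars F).comp Algebra.TensorProduct.includeRight, ?_, ?_⟩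
  · have h1 : Module.finrank (AlgebraicClosure F) (AlgebraicClosure F ⊗[F] A) =
      Module.finrank F A := Module.finrank_baseChange
    have h2 := e.toLinearEquiv.finrank_eq
    rw [h1, Module.finrank_matrix, Module.finrank_self, Fintype.card_fin, mul_one] at h2
    rw [h2, sq]
  · have h1 : Set.range ((e.toAlgHom.restrictScalars F).comp
        (Algebra.TensorProduct.includeRight : A →ₐ[F] AlgebraicClosure F ⊗[F] A)) =
        e.toLinearEquiv '' Set.range
          (Algebra.TensorProduct.includeRight : A →ₐ[F] AlgebraicClosure F ⊗[F] A) := by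
      ext y
      constructor
      · rintro ⟨a, rfl⟩
        exact ⟨_, ⟨a, rfl⟩, rfl⟩
      · rintro ⟨_, ⟨a, rfl⟩, rfl⟩
        exact ⟨a, rfl⟩
    rw [h1, ← LinearEquiv.coe_coe, ← Submodule.map_span, span_inc, Submodule.map_top,
      LinearEquiv.range]

end DETR

theorem stmt_DETR (hCHP : Stmt_CHP) : Stmt_DETR := by
  intro F A _ _ _ _ _ _ _ x
  obtain ⟨n, ψ, hn, hψ⟩ := DETR.split F A
  have hn' : finrank F A = Fintype.card (Fin n) ^ 2 := by rw [Fintype.card_fin]; exact hn
  have h1 := hCHP F A (AlgebraicClosure F) (Fin n) ψ hn' hψ x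
  -- the opposite algebra
  let ψ' : Aᵐᵒᵖ →ₐ[F] Matrix (Fin n) (Fin n) (AlgebraicClosure F) :=
    ((Matrix.transposeAlgEquiv (Fin n) F (AlgebraicClosure F)).symm.toAlgHom).comp (AlgHom.op ψ)
  have hψ'x : ∀ y : A, ψ' (MulOpposite.op y) = (ψ y).transpose := fun y => rfl
  have hfr : finrank F Aᵐᵒᵖ = finrank F A := (MulOpposite.opLinearEquiv F).finrank_eq.symm
  have hfd : FiniteDimensional F Aᵐᵒᵖ := Module.Finite.equiv (MulOpposite.opLinearEquiv F)
  have hspan : Submodule.span (AlgebraicClosure F) (Set.range ψ') = ⊤ := by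
    have h2 : Set.range ψ' = (Matrix.transposeLinearEquiv (Fin n) (Fin n) (AlgebraicClosure F)
        (AlgebraicClosure F)) '' Set.range ψ := by
      ext y
      constructor
      · rintro ⟨a, rfl⟩
        exact ⟨_, ⟨a.unop, rfl⟩, rfl⟩
      · rintro ⟨_, ⟨a, rfl⟩, rfl⟩
        exact ⟨MulOpposite.op a, rfl⟩
    rw [h2, ← LinearEquiv.coe_coe, ← Submodule.map_span, hψ, Submodule.map_top, LinearEquiv.range]
  have h3 := hCHP F Aᵐᵒᵖ (AlgebraicClosure F) (Fin n) ψ' (hfr.trans hn') hspan (MulOpposite.op x)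
  rw [hψ'x, Matrix.charpoly_transpose, ← h1] at h3
  have h4 := Polynomial.map_injective _ (algebraMap F (AlgebraicClosure F)).injective h3
  have h5 : LinearMap.det (Algebra.lmul F Aᵐᵒᵖ (MulOpposite.op x)) =
      LinearMap.det (Algebra.lmul F A x) := by
    rw [LinearMap.det_eq_sign_charpoly_coeff, LinearMap.det_eq_sign_charpoly_coeff, h4, hfr]
  have h6 : LinearMap.mulLeft F x = Algebra.lmul F A x := rfl
  rw [h6, ← h5]
  have h7 := LinearMap.det_conj (LinearMap.mulRight F x) (MulOpposite.opLinearEquiv F)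
  rw [← h7]
  congr 1

end Pool.Agent.LPer
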