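import Pool.Agent.Work.MP_037d19_lp.Final

/-!
# Linear periods: block DUP, the dual period of a self-dual representation
-/

namespace Pool.Agent.LPer

open scoped Topology
open Module (finrank)
open MeasureTheory Filter

/-- DUP: a representation with an invariant form and a period has a dual period. -/
def Stmt_DUP : Prop :=
  ∀ (F E A : Type) [NontriviallyNormedField F] [CompleteSpace F] [ProperSpace F] [CharZero F]
    [TotallyDisconnectedSpace F] [NormedField E] [NormedAlgebra F E] [NormedRing A]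
    [NormedAlgebra F A] [Algebra.IsCentral F A] [IsSimpleRing A] [FiniteDimensional F A]
    (ι : E →ₐ[F] A) (k : ℕ) (δE : E) (a : F), Data F E A ι k δE a → ∀ (χ : E →*₀ ℂ),
    (∀ᶠ e in 𝓝 (1 : E), χ e = 1) →
    ∀ (V : Type) [AddCommGroup V] [Module ℂ V] (π : Representation ℂ Aˣ V), IrrAdm π →
    ∀ c : V →ₗ[ℂ] V →ₗ[ℂ] ℂ, c ≠ 0 →
    (∀ (g : Aˣ) (x y : V), c (π g x) (π g y) = χ (algebraMap F E (nrd F (g : A))) * c x y) →
    periods ι χ π ≠ ⊥ → periods ι (fun e => (χ e)⁻¹) (contra π) ≠ ⊥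

theorem stmt_DUP (hCTR : Stmt_CTR) (hCHAR : Stmt_CHAR) (hN0 : Stmt_N0) (hW : Stmt_W)
    (hTOPA : Stmt_TOPA) : Stmt_DUP := by
  intro F E A _ _ _ _ _ _ _ _ _ _ _ _ ι k δE a hD χ hχ V _ _ π hπ c hc0 hc hper
  obtain ⟨hLC, hTD, hT2, hOE⟩ := hTOPA F A
  obtain ⟨ψ, m, hψ, hmv, -, hmo, -⟩ := hCHAR F E A ι k δE a hD χ hχ
  have hδδ : ι δE * ι δE = algebraMap F A a := by
    rw [← map_mul, ← pow_two, hD.sq, AlgHom.commutes]
  obtain ⟨w, hw⟩ := hW F E A δE a (ι δE) hD.rankE hD.sq hD.nsq hδδ
  have hcj := conj_mem hD hw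
  have hψm : ∀ h : HH ι, (ψ ⟨w * h * w⁻¹, hcj h h.2⟩ : ℂ) * ψ h = m (h : Aˣ) := by
    intro h
    rw [hψ, hψ, hmv, ← map_mul]
    congr 1
    exact hN0 F E A ι k δE a hD w hw _ _ (by push_cast; rfl)
  have hdual := hCTR Aˣ V π hπ
  have hc' : ∀ (g : Aˣ) (x y : V), c (π g x) (π g y) = m g * c x y := fun g x y => by
    rw [hc, hmv]
  have hsm : ∀ x, c x ∈ smoothDual π := by
    intro x
    let K : Subgroup Aˣ :=
      { carrier := {g | π g x = x}
        mul_mem' := fun {a b} ha hb => by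
          change π (a * b) x = x
          rw [map_mul, Module.End.mul_apply, hb, ha]
        one_mem' := by
          change π 1 x = x
          rw [map_one, Module.End.one_apply]
        inv_mem' := fun {a} ha => by
          change π a⁻¹ x = x
          have ha' : π a x = x := ha
          conv_lhs => rw [← ha']
          rw [← Module.End.mul_apply, ← map_mul, inv_mul_cancel, map_one, Module.End.one_apply] }
    have hK : IsOpen (K : Set Aˣ) := hπ.smooth x
    refine ⟨K ⊓ m.ker, by simpa using hK.inter hmo, fun g hg v => ?_⟩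
    have h1 : π g x = x := hg.1
    have h2 : m g = 1 := hg.2
    have h3 := hc' g x v
    rw [h1, h2, Units.val_one, one_mul] at h3
    exact h3
  let C : V →ₗ[ℂ] smoothDual π := LinearMap.codRestrict (smoothDual π) c hsm
  have hC : ∀ g x, contra π g (C x) = (m g : ℂ)⁻¹ • C (π g x) := by
    intro g x
    apply Subtype.ext
    apply LinearMap.ext
    intro v
    change c x (π g⁻¹ v) = (m g : ℂ)⁻¹ * c (π g x) v
    have h1 := hc' g x (π g⁻¹ v)
    rw [← Module.End.mul_apply, ← map_mul, mul_inv_cancel, map_one, Module.End.one_apply] at h1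
    rw [h1, ← mul_assoc, inv_mul_cancel₀ (m g).ne_zero, one_mul]
  have hker : LinearMap.ker C = ⊥ := by
    rcases hπ.irreducible (LinearMap.ker C) (by
      intro g v hv
      rw [LinearMap.mem_ker] at hv ⊢
      have h1 := hC g v
      rw [hv, map_zero] at h1
      have h2 := congrArg (fun z => (m g : ℂ) • z) h1
      simp only [smul_zero, smul_smul, mul_inv_cancel₀ (m g).ne_zero, one_smul] at h2
      exact h2.symm) with h | h
    · exact h
    · exfalso
      apply hc0
      apply LinearMap.ext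
      intro x
      have : x ∈ LinearMap.ker C := by rw [h]; trivial
      exact congrArg Subtype.val (LinearMap.mem_ker.mp this)
  have hran : LinearMap.range C = ⊤ := by
    rcases hdual.irr'.irreducible (LinearMap.range C) (by
      rintro g _ ⟨x, rfl⟩
      rw [hC]
      exact Submodule.smul_mem _ _ ⟨_, rfl⟩) with h | h
    · exfalso
      apply hc0
      apply LinearMap.ext
      intro x
      have : C x ∈ LinearMap.range C := ⟨x, rfl⟩
      rw [h, Submodule.mem_bot] at this
      exact congrArg Subtype.val this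
    · exact h
  let e : V ≃ₗ[ℂ] smoothDual π :=
    LinearEquiv.ofBijective C ⟨LinearMap.ker_eq_bot.mp hker, LinearMap.range_eq_top.mp hran⟩
  have he : ∀ x, e x = C x := fun x => rfl
  obtain ⟨ℓ, hℓ, hℓ0⟩ := (Submodule.ne_bot_iff _).mp hper
  rw [Submodule.ne_bot_iff]
  refine ⟨ℓ ∘ₗ (π w) ∘ₗ e.symm.toLinearMap, ?_, ?_⟩
  · intro h hh φ
    obtain ⟨x, rfl⟩ := e.surjective φ
    have h1 : e.symm (contra π h (e x)) = (m h : ℂ)⁻¹ • π h x := by
      rw [LinearEquiv.symm_apply_eq, map_smul, he, he, hC]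
    change ℓ (π w (e.symm (contra π h (e x)))) = _ * ℓ (π w (e.symm (e x)))
    rw [h1, LinearEquiv.symm_apply_apply, map_smul, map_smul, smul_eq_mul]
    have h2 : π w (π h x) = π (w * h * w⁻¹) (π w x) := by
      rw [← Module.End.mul_apply, ← map_mul, ← Module.End.mul_apply, ← map_mul]
      congr 2
      group
    have h3 := hℓ (w * h * w⁻¹) (hcj h hh) (π w x)
    rw [h2, h3]
    have h4 := hψm ⟨h, hh⟩
    have h5 := hψ ⟨w * h * w⁻¹, hcj h hh⟩
    have h6 := hψ ⟨h, hh⟩
    change _ = (χ (nrd E (⟨(h : A), hh⟩ : Cent ι)))⁻¹ * _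
    rw [← h6, ← h5, ← h4]
    have n1 := (ψ ⟨w * h * w⁻¹, hcj h hh⟩).ne_zero
    have n2 := (ψ ⟨h, hh⟩).ne_zero
    field_simp
  · intro h0
    apply hℓ0
    apply LinearMap.ext
    intro v
    have h1 := LinearMap.congr_fun h0 (e (π w⁻¹ v))
    change ℓ (π w (e.symm (e (π w⁻¹ v)))) = 0 at h1
    rw [LinearEquiv.symm_apply_apply, ← Module.End.mul_apply, ← map_mul, mul_inv_cancel, map_one,
      Module.End.one_apply] at h1
    rw [h1, LinearMap.zero_apply]

end Pool.Agent.LPer
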