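import Pool.Agent.Work.MP_037d19_lp.Stmts

/-!
# Linear periods: block FIT
-/

namespace Pool.Agent.LPer

open scoped Polynomial

namespace FIT

variable {F A : Type} [Field F] [Ring A] [Algebra F A]

/-- `ν ^ r = ν ^ (r+1) y` for a polynomial `y` in `ν`. -/
theorem exists_pow [FiniteDimensional F A] (ν : A) :
    ∃ (y : A) (r : ℕ), y ∈ Algebra.adjoin F {ν} ∧ ν ^ r = ν ^ (r + 1) * y := by
  have hint : IsIntegral F ν := Algebra.IsIntegral.isIntegral ν
  have hne : minpoly F ν ≠ 0 := minpoly.ne_zero hint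
  obtain ⟨q, hq, hdvd⟩ := Polynomial.exists_eq_pow_rootMultiplicity_mul_and_not_dvd
    (minpoly F ν) hne 0
  set r := (minpoly F ν).rootMultiplicity 0 with hr
  rw [map_zero, sub_zero] at hq hdvd
  have hq0 : q.coeff 0 ≠ 0 := by
    intro h
    exact hdvd (Polynomial.X_dvd_iff.mpr h)
  have h1 : Polynomial.aeval ν (Polynomial.X ^ r * q) = 0 := by
    rw [← hq, minpoly.aeval]
  have h2 : q = Polynomial.X * q.divX + Polynomial.C (q.coeff 0) :=
    (Polynomial.X_mul_divX_add q).symm
  rw [h2] at h1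
  simp only [map_mul, map_add, map_pow, Polynomial.aeval_X, Polynomial.aeval_C] at h1
  have h3 : ν ^ r * algebraMap F A (q.coeff 0) = -(ν ^ (r + 1) * Polynomial.aeval ν q.divX) := by
    rw [mul_add, ← mul_assoc, ← pow_succ] at h1
    rw [eq_neg_iff_add_eq_zero, add_comm]
    exact h1
  refine ⟨Polynomial.aeval ν (Polynomial.C (-(q.coeff 0)⁻¹) * q.divX), r,
    Polynomial.aeval_mem_adjoin_singleton F ν, ?_⟩
  rw [map_mul, Polynomial.aeval_C]
  have h4 : ν ^ (r + 1) * (algebraMap F A (-(q.coeff 0)⁻¹) * Polynomial.aeval ν q.divX)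
      = algebraMap F A (-(q.coeff 0)⁻¹) * (ν ^ (r + 1) * Polynomial.aeval ν q.divX) := by
    rw [← mul_assoc, ← Algebra.commutes, mul_assoc]
  rw [h4]
  have h5 : ν ^ (r + 1) * Polynomial.aeval ν q.divX
      = -(ν ^ r * algebraMap F A (q.coeff 0)) := by
    rw [h3, neg_neg]
  rw [h5, map_neg, neg_mul_neg, ← Algebra.commutes, ← mul_assoc, ← map_mul,
    inv_mul_cancel₀ hq0, map_one, one_mul]

theorem pow_iter {ν y : A} {r : ℕ} (hc : Commute ν y) (h : ν ^ r = ν ^ (r + 1) * y) (k : ℕ) :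
    ν ^ r = ν ^ (r + k) * y ^ k := by
  induction k with
  | zero => simp
  | succ k ih =>
    have h1 : ν ^ (r + k) = ν ^ (r + k + 1) * y := by
      rw [add_comm r k, pow_add, h, ← mul_assoc, ← pow_add]
      ring_nf
    rw [ih]
    nth_rewrite 1 [h1]
    rw [mul_assoc, ← pow_succ']
    rfl

theorem commute_of_mem {ν y t : A} (hy : y ∈ Algebra.adjoin F {ν}) (ht : ν * t = t * ν) :
    y * t = t * y := by
  have h1 : Algebra.adjoin F {ν} ≤ Subalgebra.centralizer F {t} := by
    rw [Algebra.adjoin_le_iff]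
    rintro z hz
    rw [Set.mem_singleton_iff] at hz
    subst hz
    simp only [SetLike.mem_coe, Subalgebra.mem_centralizer_iff, Set.mem_singleton_iff,
      forall_eq]
    exact ht.symm
  have h2 := h1 hy
  simp only [Subalgebra.mem_centralizer_iff, Set.mem_singleton_iff, forall_eq] at h2
  exact h2.symm

/-- The Fitting idempotent. -/
theorem fitting [FiniteDimensional F A] (ν : A) :
    ∃ (e u : A) (n : ℕ), (∀ t, ν * t = t * ν → e * t = t * e) ∧
      (∀ t, ν * t = t * ν → u * t = t * u) ∧ e * e = e ∧ ν * u = e ∧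
      ν ^ n * (1 - e) = 0 := by
  obtain ⟨y, r, hy, h⟩ := exists_pow (F := F) ν
  have hc : Commute ν y := (commute_of_mem hy rfl).symm
  have hyc : ∀ t, ν * t = t * ν → Commute y t := fun t ht => commute_of_mem hy ht
  have h1 : ν ^ (r + 1) = ν ^ (r + 1 + 1) * y := by
    nth_rewrite 1 [pow_succ']
    rw [h, ← mul_assoc, ← pow_succ']
  have h2 := pow_iter hc h1 (r + 1)
  refine ⟨ν ^ (r + 1) * y ^ (r + 1), ν ^ r * y ^ (r + 1), r + 1, ?_, ?_, ?_, ?_, ?_⟩
  · intro t ht
    have a1 : Commute (ν ^ (r + 1)) t := Commute.pow_left ht _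
    have a2 : Commute (y ^ (r + 1)) t := (hyc t ht).pow_left _
    exact a1.mul_left a2
  · intro t ht
    have a1 : Commute (ν ^ r) t := Commute.pow_left ht _
    have a2 : Commute (y ^ (r + 1)) t := (hyc t ht).pow_left _
    exact a1.mul_left a2
  · have a3 : Commute (y ^ (r + 1)) (ν ^ (r + 1)) := (hc.symm.pow_left _).pow_right _
    calc ν ^ (r + 1) * y ^ (r + 1) * (ν ^ (r + 1) * y ^ (r + 1))
        = ν ^ (r + 1) * (y ^ (r + 1) * ν ^ (r + 1)) * y ^ (r + 1) := by noncomm_ring
      _ = ν ^ (r + 1) * (ν ^ (r + 1) * y ^ (r + 1)) * y ^ (r + 1) := by rw [a3.eq]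
      _ = (ν ^ (r + 1 + (r + 1)) * y ^ (r + 1)) * y ^ (r + 1) := by
          rw [← mul_assoc, ← pow_add]
      _ = ν ^ (r + 1) * y ^ (r + 1) := by rw [← h2]
  · rw [← mul_assoc, ← pow_succ']
  · rw [mul_sub, mul_one, ← mul_assoc, ← pow_add, ← h2, sub_self]

end FIT

open FIT in
theorem stmt_FIT : Stmt_FIT := by
  intro F A _ _ _ _ _ a δ x ha hδ hx
  obtain ⟨α, hα⟩ : ∃ α : A, α = algebraMap F A a := ⟨_, rfl⟩
  rw [← hα] at hδ hx
  have hαδ : δ * α = α * δ := by rw [hα]; exact (Algebra.commutes a δ).symm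
  have hαx : x * α = α * x := by rw [hα]; exact (Algebra.commutes a x).symm
  have hδδ : ∀ y, δ * (δ * y) = α * y := fun y => by rw [← mul_assoc, hδ]
  have hxx : ∀ y, x * (x * y) = α * y := fun y => by rw [← mul_assoc, hx]
  have hαδ' : ∀ y, δ * (α * y) = α * (δ * y) := fun y => by
    rw [← mul_assoc, hαδ, mul_assoc]
  have hαx' : ∀ y, x * (α * y) = α * (x * y) := fun y => by
    rw [← mul_assoc, hαx, mul_assoc]
  obtain ⟨ν, hν⟩ : ∃ ν : A, ν = 2 * α - (δ * x + x * δ) := ⟨_, rfl⟩
  have two_comm : ∀ t : A, t * 2 = 2 * t := fun t => by rw [mul_two, two_mul]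
  have hνδ : ν * δ = δ * ν := by
    rw [hν]
    simp only [sub_mul, mul_sub, add_mul, mul_add, mul_assoc, hδ, hδδ, two_mul, hαδ, hαx]
    abel
  have hνx : ν * x = x * ν := by
    rw [hν]
    simp only [sub_mul, mul_sub, add_mul, mul_add, mul_assoc, hx, hxx, two_mul, hαδ, hαx]
    abel
  obtain ⟨e, u, n, he, hu, hee, hνu, hnil⟩ := fitting (F := F) ν
  have heδ := he δ hνδ
  have hex := he x hνx
  have heν := he ν rfl
  have huδ := hu δ hνδ
  have hux := hu x hνx
  have huν := hu ν rfl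
  have hue : e * u = u * e := he u (by rw [huν])
  -- the idempotent `t = 1 - e`
  obtain ⟨t, ht⟩ : ∃ t : A, t = 1 - e := ⟨_, rfl⟩
  rw [← ht] at hnil
  have het : e * t = 0 := by rw [ht, mul_sub, mul_one, hee, sub_self]
  have hte : t * e = 0 := by rw [ht, sub_mul, one_mul, hee, sub_self]
  have htt : t * t = t := by
    nth_rewrite 1 [ht]
    rw [sub_mul, one_mul, het, sub_zero]
  have htδ : t * δ = δ * t := by
    rw [ht]
    simp only [sub_mul, mul_sub, heδ, one_mul, mul_one]
  have htx : t * x = x * t := by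
    rw [ht]
    simp only [sub_mul, mul_sub, hex, one_mul, mul_one]
  have htν : t * ν = ν * t := by
    rw [ht]
    rw [sub_mul, mul_sub, heν, one_mul, mul_one]
  -- the nilpotent part
  obtain ⟨N, hN⟩ : ∃ N : A, N = ν * t := ⟨_, rfl⟩
  have hNδ : N * δ = δ * N := by
    rw [hN, mul_assoc, htδ, ← mul_assoc, hνδ, mul_assoc]
  have hNx : N * x = x * N := by
    rw [hN, mul_assoc, htx, ← mul_assoc, hνx, mul_assoc]
  have hNe : N * e = e * N := by
    rw [hN, mul_assoc, hte, mul_zero, ← mul_assoc, heν, mul_assoc, het, mul_zero]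
  have hNt : N * t = t * N := by
    rw [hN, ← mul_assoc, htν]
  have hNν : N * ν = ν * N := by
    rw [hN, mul_assoc, htν]
  have hNnil : N ^ (n + 1) = 0 := by
    have h1 : ∀ m : ℕ, N ^ (m + 1) = ν ^ (m + 1) * t := by
      intro m
      induction m with
      | zero => rw [zero_add, pow_one, pow_one, hN]
      | succ m ih =>
        rw [pow_succ, ih, hN, mul_assoc, ← mul_assoc t ν t, htν, mul_assoc ν t t, htt,
          ← mul_assoc, ← pow_succ]
    rw [h1, pow_succ', mul_assoc, hnil, mul_zero]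
  -- the inverse of `4a - N`
  have h4 : (4 : F) * a ≠ 0 := mul_ne_zero (by norm_num) ha
  have hunit : IsUnit (4 * α - N) := by
    have h1 : IsUnit (algebraMap F A (4 * a)) := (IsUnit.mk0 _ h4).map (algebraMap F A)
    have h2 : IsNilpotent (-N) := IsNilpotent.neg ⟨n + 1, hNnil⟩
    have h3 := IsNilpotent.isUnit_add_left_of_commute h2 h1
      (Algebra.commutes (4 * a) (-N)).symm
    have h5 : algebraMap F A (4 * a) + -N = 4 * α - N := by
      rw [map_mul, map_ofNat, sub_eq_add_neg, hα]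
    rwa [h5] at h3
  obtain ⟨U, hU⟩ := hunit
  obtain ⟨V, hV⟩ : ∃ V : A, V = ((U⁻¹ : Aˣ) : A) := ⟨_, rfl⟩
  have hVU : (4 * α - N) * V = 1 := by rw [← hU, hV, Units.mul_inv]
  have hVc : ∀ s : A, (4 * α - N) * s = s * (4 * α - N) → V * s = s * V := by
    intro s hs
    have h1 : Commute s (U : A) := by
      rw [hU]
      exact hs.symm
    rw [hV]
    exact (h1.units_inv_right).eq.symm
  have h4α : ∀ s : A, (4 * α) * s = s * (4 * α) := by
    intro s
    have h1 : (4 : A) * α = algebraMap F A (4 * a) := by rw [map_mul, map_ofNat, hα]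
    rw [h1]
    exact Algebra.commutes _ s
  have hVδ : V * δ = δ * V := hVc δ (by rw [sub_mul, mul_sub, hNδ, h4α])
  have hVx : V * x = x * V := hVc x (by rw [sub_mul, mul_sub, hNx, h4α])
  have hVt : V * t = t * V := hVc t (by rw [sub_mul, mul_sub, hNt, h4α])
  have hVe : V * e = e * V := hVc e (by rw [sub_mul, mul_sub, hNe, h4α])
  have hVν : V * ν = ν * V := hVc ν (by rw [sub_mul, mul_sub, hNν, h4α])
  have hVN : V * N = N * V := hVc N (by rw [sub_mul, mul_sub, h4α])
  -- `D`
  obtain ⟨D, hD⟩ : ∃ D : A, D = δ - (2 * e - 1) * x := ⟨_, rfl⟩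
  obtain ⟨P, hP⟩ : ∃ P : A, P = δ - x := ⟨_, rfl⟩
  obtain ⟨Q, hQ⟩ : ∃ Q : A, Q = δ + x := ⟨_, rfl⟩
  have hePt : e + t = 1 := by rw [ht]; abel
  have hD' : D = P * e + Q * t := by
    have h1 : (2 * e - 1) = e - t := by rw [ht]; noncomm_ring
    rw [hD, h1, hP, hQ]
    calc δ - (e - t) * x = δ * 1 - (e * x - t * x) := by rw [mul_one, sub_mul]
      _ = δ * (e + t) - (x * e - x * t) := by rw [hePt, hex, htx]
      _ = (δ - x) * e + (δ + x) * t := by noncomm_ring
  have heP : e * P = P * e := by rw [hP, mul_sub, sub_mul, heδ, hex]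
  have heQ : e * Q = Q * e := by rw [hQ, mul_add, add_mul, heδ, hex]
  have htP : t * P = P * t := by rw [hP, mul_sub, sub_mul, htδ, htx]
  have htQ : t * Q = Q * t := by rw [hQ, mul_add, add_mul, htδ, htx]
  have hPP : P * P = ν := by
    rw [hP, hν]
    simp only [sub_mul, mul_sub, hδ, hx, two_mul]
    abel
  have hQQ : Q * Q = 4 * α - ν := by
    have h1 : (4 : A) * α = α + α + (α + α) := by
      have : (4 : A) = 1 + 1 + (1 + 1) := by norm_num
      rw [this]
      simp only [add_mul, one_mul]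
    rw [hQ, hν, h1]
    simp only [add_mul, mul_add, hδ, hx, two_mul]
    abel
  have hDD : D * D = ν * e + (4 * α - ν) * t := by
    have h1 : D * D = P * (e * P) * e + P * (e * Q) * t + Q * (t * P) * e + Q * (t * Q) * t := by
      rw [hD']
      noncomm_ring
    rw [h1, heP, heQ, htP, htQ]
    have h2 : P * (P * e) * e + P * (Q * e) * t + Q * (P * t) * e + Q * (Q * t) * t
        = (P * P) * (e * e) + P * Q * (e * t) + Q * P * (t * e) + (Q * Q) * (t * t) := by
      noncomm_ring
    rw [h2, hee, het, hte, htt, hPP, hQQ, mul_zero, mul_zero, add_zero, add_zero]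
  have hNt' : N * t = ν * t := by rw [hN, mul_assoc, htt]
  have hνt4 : (4 * α - ν) * t = (4 * α - N) * t := by
    rw [sub_mul, sub_mul, hNt']
  obtain ⟨W, hW⟩ : ∃ W : A, W = e * u + t * V := ⟨_, rfl⟩
  have hut : t * u = u * t := by
    rw [ht, sub_mul, mul_sub, hue, one_mul, mul_one]
  have hDDW : D * D * W = 1 := by
    rw [hDD, hνt4, hW]
    have h1 : (ν * e + (4 * α - N) * t) * (e * u + t * V)
        = ν * (e * e) * u + ν * (e * t) * V + (4 * α - N) * (t * e) * u
          + (4 * α - N) * (t * t) * V := by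
      noncomm_ring
    rw [h1, hee, het, hte, htt]
    simp only [mul_zero, zero_mul, add_zero]
    rw [mul_assoc ν e u, hue, ← mul_assoc, hνu, hee, mul_assoc, ← hVt, ← mul_assoc, hVU,
      one_mul]
    exact hePt
  have hWc : ∀ s, e * s = s * e → u * s = s * u → V * s = s * V → W * s = s * W := by
    intro s h1 h2 h3
    have hts : t * s = s * t := by rw [ht, sub_mul, mul_sub, h1, one_mul, mul_one]
    rw [hW, add_mul, mul_add, mul_assoc, h2, ← mul_assoc, h1, mul_assoc, mul_assoc, h3,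
      ← mul_assoc t s V, hts, mul_assoc]
  have hDc : ∀ s, s * δ = δ * s → s * x = x * s → s * e = e * s → s * D = D * s := by
    intro s h1 h2 h3
    have h4 : s * (2 * e - 1) = (2 * e - 1) * s := by
      rw [mul_sub, sub_mul, mul_one, one_mul, ← mul_assoc, two_comm, mul_assoc, h3, mul_assoc]
    have h5 : s * ((2 * e - 1) * x) = (2 * e - 1) * x * s := by
      rw [← mul_assoc, h4, mul_assoc, h2, mul_assoc]
    rw [hD, mul_sub, sub_mul δ, h1, h5]
  have heD : e * D = D * e := hDc e heδ hex rfl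
  have huD : u * D = D * u := hDc u huδ hux hue.symm
  have hVD : V * D = D * V := hDc V hVδ hVx hVe
  have hWD : W * D = D * W := hWc D heD huD hVD
  have hDu : IsUnit D := by
    refine ⟨⟨D, D * W, ?_, ?_⟩, rfl⟩
    · rw [← mul_assoc, hDDW]
    · rw [mul_assoc, hWD, ← mul_assoc, hDDW]
  -- `z`
  obtain ⟨R, hR⟩ : ∃ R : A, R = x * δ - δ * x := ⟨_, rfl⟩
  have hRδ : R * δ = -(δ * R) := by
    rw [hR]
    simp only [sub_mul, mul_sub, mul_assoc, hδ, hδδ, hαδ, hαx]
    abel
  have hRR : R * R = -(ν * (4 * α - ν)) := by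
    rw [← hQQ, ← hPP, hR, hP, hQ]
    simp only [sub_mul, mul_sub, add_mul, mul_add, mul_assoc, hδ, hδδ, hx, hxx, hαδ, hαx, hαδ',
      hαx']
    abel
  have hRt : t * R = R * t := by
    rw [hR, mul_sub, sub_mul, ← mul_assoc, htx, mul_assoc, htδ, ← mul_assoc, ← mul_assoc t δ x,
      htδ, mul_assoc δ t x, htx, ← mul_assoc]
  have hRV : V * R = R * V := by
    rw [hR, mul_sub, sub_mul, ← mul_assoc, hVx, mul_assoc, hVδ, ← mul_assoc, ← mul_assoc V δ x,
      hVδ, mul_assoc δ V x, hVx, ← mul_assoc]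
  have heR : e * (R * V * t) = 0 := by
    have h1 : R * V * t = t * (R * V) := by
      rw [mul_assoc, hVt, ← mul_assoc, ← hRt, mul_assoc]
    rw [h1, ← mul_assoc, het, zero_mul]
  have hzδ : (R * V * t) * δ = -(δ * (R * V * t)) := by
    calc R * V * t * δ = R * δ * (V * t) := by
          rw [mul_assoc, htδ, mul_assoc, ← mul_assoc V δ t, hVδ, mul_assoc, mul_assoc]
      _ = -(δ * (R * V * t)) := by rw [hRδ]; noncomm_ring
  have hznil : IsNilpotent (R * V * t) := by
    have h1 : (R * V * t) ^ 2 = -(N * V) := by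
      calc (R * V * t) ^ 2 = R * (V * (t * R)) * V * t := by noncomm_ring
        _ = R * R * V * t * V * t := by rw [hRt, ← mul_assoc V R t, hRV]; noncomm_ring
        _ = R * R * V * (t * V) * t := by noncomm_ring
        _ = R * R * V * V * (t * t) := by rw [← hVt]; noncomm_ring
        _ = -(ν * (4 * α - ν) * V * V * t) := by rw [hRR, htt]; noncomm_ring
        _ = -(ν * ((4 * α - ν) * t) * V * V) := by
            rw [mul_assoc _ V t, hVt, ← mul_assoc, mul_assoc _ V t, hVt]; noncomm_ring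
        _ = -(ν * t * ((4 * α - N) * V) * V) := by
            rw [hνt4]
            have h2 : (4 * α - N) * t = t * (4 * α - N) := by
              rw [sub_mul, mul_sub, hNt, h4α]
            rw [h2]; noncomm_ring
        _ = -(N * V) := by rw [hVU, hN, mul_one]
    have h2 : IsNilpotent ((R * V * t) ^ 2) := by
      rw [h1]
      refine IsNilpotent.neg ⟨n + 1, ?_⟩
      rw [(show Commute N V from hVN.symm).mul_pow, hNnil, zero_mul]
    obtain ⟨m, hm⟩ := h2
    exact ⟨2 * m, by rw [pow_mul, hm]⟩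
  refine ⟨e, R * V * t, hee, heδ, hex, hD ▸ hDu, heR, ?_, hznil, hzδ, ?_⟩
  · rw [mul_assoc, hte, mul_zero]
  · rw [← ht]
    have hzt : (R * V * t) * t = R * V * t := by rw [mul_assoc, htt]
    have hztx : (R * V * t) * (δ * t) = -(δ * (R * V * t)) := by
      rw [← mul_assoc, hzδ, neg_mul, mul_assoc, hzt]
    have hkey : Q * (R * V * t) = -(x - δ) * t := by
      have h1 : Q * R = -((x - δ) * (4 * α - ν)) := by
        rw [← hQQ, hQ, hR]
        simp only [sub_mul, mul_sub, add_mul, mul_add, mul_assoc, hδ, hδδ, hx, hxx, hαδ, hαx]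
        abel
      calc Q * (R * V * t) = Q * R * (V * t) := by noncomm_ring
        _ = -((x - δ) * ((4 * α - ν) * t) * V) := by rw [h1, hVt]; noncomm_ring
        _ = -((x - δ) * (t * ((4 * α - N) * V))) := by
            rw [hνt4]
            have h2 : (4 * α - N) * t = t * (4 * α - N) := by
              rw [sub_mul, mul_sub, hNt, h4α]
            rw [h2]; noncomm_ring
        _ = -(x - δ) * t := by rw [hVU, mul_one]; noncomm_ring
    calc x * (1 + R * V * t) * t = x * t + x * ((R * V * t) * t) := by noncomm_ring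
      _ = x * t + x * (R * V * t) := by rw [hzt]
      _ = δ * t + (-(δ * (R * V * t))) + ((x - δ) * t + Q * (R * V * t)) := by
          rw [hQ]; noncomm_ring
      _ = δ * t + (R * V * t) * (δ * t) + 0 := by
          rw [hztx, hkey]
          congr 1
          noncomm_ring
      _ = (1 + R * V * t) * δ * t := by noncomm_ring

end Pool.Agent.LPer
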