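import Pool.Agent.Work.MP_037d19_lp.Stmts2

/-!
# Block GLU: vanishing of a functional from local vanishing
-/

namespace Pool.Agent.LPer

open scoped Topology Pointwise
open Filter

namespace GLU

variable {X Γ : Type} [TopologicalSpace X] [Group Γ] [TopologicalSpace Γ]
    [IsTopologicalGroup Γ] [MulAction Γ X] [ContinuousSMul Γ X]

theorem exists_nbd [T2Space X] [LocallyCompactSpace X] [TotallyDisconnectedSpace X] (x : X)
    (U : Set X) (hU : U ∈ 𝓝 x) : ∃ N : Set X, x ∈ N ∧ IsOpen N ∧ IsCompact N ∧ N ⊆ U := by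
  obtain ⟨s, hs, hsU, hsc⟩ := LocallyCompactSpace.local_compact_nhds x U hU
  obtain ⟨t, ht, hxt, hts⟩ := (loc_compact_Haus_tot_disc_of_zero_dim (H := X)).mem_nhds_iff.1 hs
  exact ⟨t, hxt, IsClopen.isOpen ht, hsc.of_isClosed_subset (IsClopen.isClosed ht) hts,
    hts.trans hsU⟩

theorem compact_smul (K : Subgroup Γ) (hK : IsCompact (K : Set Γ)) (N : Set X)
    (hN : IsCompact N) : IsCompact ((K : Set Γ) • N) := by
  have h1 : (K : Set Γ) • N = (fun p : Γ × X => p.1 • p.2) '' ((K : Set Γ) ×ˢ N) := by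
    ext x
    simp only [Set.mem_smul, Set.mem_image, Set.mem_prod, Prod.exists]
    constructor
    · rintro ⟨k, hk, y, hy, rfl⟩
      exact ⟨k, y, ⟨hk, hy⟩, rfl⟩
    · rintro ⟨k, y, ⟨hk, hy⟩, rfl⟩
      exact ⟨k, hk, y, hy, rfl⟩
  rw [h1]
  exact (hK.prod hN).image continuous_smul

theorem subset_smul (K : Subgroup Γ) (N : Set X) : N ⊆ (K : Set Γ) • N := fun x hx =>
  Set.mem_smul.2 ⟨1, K.one_mem, x, hx, one_smul _ _⟩

theorem smul_mem_smul (K : Subgroup Γ) (N : Set X) {k : Γ} (hk : k ∈ K) (x : X) :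
    k • x ∈ (K : Set Γ) • N ↔ x ∈ (K : Set Γ) • N := by
  constructor
  · intro h
    obtain ⟨k', hk', y, hy, h⟩ := Set.mem_smul.1 h
    refine Set.mem_smul.2 ⟨k⁻¹ * k', K.mul_mem (K.inv_mem hk) hk', y, hy, ?_⟩
    rw [mul_smul, h, inv_smul_smul]
  · intro h
    obtain ⟨k', hk', y, hy, rfl⟩ := Set.mem_smul.1 h
    exact Set.mem_smul.2 ⟨k * k', K.mul_mem hk hk', y, hy, mul_smul _ _ _⟩

/-- The restriction of a member of `LCC X` to a clopen set. -/
theorem indicator_mem (f : LCC X) (B : Set X) (hB : IsClopen B) : B.indicator f.1 ∈ LCC X := by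
  refine ⟨?_, ?_⟩
  · have h := (LocallyConstant.indicator ⟨f.1, f.2.1⟩ hB).isLocallyConstant
    have h2 : ((LocallyConstant.indicator ⟨f.1, f.2.1⟩ hB : LocallyConstant X ℂ) : X → ℂ) =
        B.indicator f.1 := by
      ext x
      simp [LocallyConstant.indicator_apply, Set.indicator_apply]
    rw [← h2]
    exact h
  · apply f.2.2.mono
    intro x hx
    rw [Function.mem_support] at hx ⊢
    intro h
    apply hx
    simp [Set.indicator_apply, h]

theorem charFn_mem [T2Space X] (D : Set X) (hDo : IsOpen D) (hDc : IsCompact D) :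
    D.indicator (fun _ => (1 : ℂ)) ∈ LCC X := by
  refine ⟨?_, HasCompactSupport.intro hDc (fun x hx => Set.indicator_of_notMem hx _)⟩
  have h := (LocallyConstant.charFn ℂ (⟨hDc.isClosed, hDo⟩ : IsClopen D)).isLocallyConstant
  have h2 : ((LocallyConstant.charFn ℂ (⟨hDc.isClosed, hDo⟩ : IsClopen D) :
      LocallyConstant X ℂ) : X → ℂ) = D.indicator (fun _ => 1) := by
    rw [LocallyConstant.coe_charFn]
    rfl
  rw [← h2]
  exact h

theorem step [T2Space X] (K : Subgroup Γ) (hKc : IsCompact (K : Set Γ)) (T : LCC X →ₗ[ℂ] ℂ)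
    (f : LCC X) (hf : ∀ γ ∈ K, ∀ x, f.1 (γ • x) = f.1 x) (N : X → Set X)
    (hN : ∀ x, f.1 x ≠ 0 → IsOpen (N x) ∧ IsCompact (N x) ∧ (∀ y ∈ N x, f.1 y = f.1 x) ∧
      ∀ N' ⊆ N x, IsOpen N' → IsCompact N' → ∀ F : LCC X,
        (F.1 = ((K : Set Γ) • N').indicator fun _ => (1 : ℂ)) → T F = 0)
    (t : Finset X) : (∀ x ∈ t, f.1 x ≠ 0) → ∀ B : Set X, IsClopen B →
      (∀ k ∈ K, ∀ x, k • x ∈ B ↔ x ∈ B) →
      (∀ x ∈ B, f.1 x ≠ 0 → ∃ i ∈ t, x ∈ (K : Set Γ) • N i) → ∀ F : LCC X,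
      F.1 = B.indicator f.1 → T F = 0 := by
  classical
  induction t using Finset.induction_on with
  | empty =>
    intro _ B hB hK hcov F hF
    have h0 : F = 0 := by
      apply Subtype.ext
      rw [hF]
      ext x
      by_cases hx : x ∈ B
      · rw [Set.indicator_of_mem hx]
        by_contra h
        obtain ⟨i, hi, _⟩ := hcov x hx h
        simp at hi
      · rw [Set.indicator_of_notMem hx]
        rfl
    rw [h0, map_zero]
  | insert i t hi ih =>
    intro ht B hB hBK hcov F hF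
    have hi0 : f.1 i ≠ 0 := ht i (Finset.mem_insert_self _ _)
    obtain ⟨h2, h3, h4, h5⟩ := hN i hi0
    have hDo : IsOpen ((K : Set Γ) • N i) := h2.smul_left
    have hDc : IsCompact ((K : Set Γ) • N i) := compact_smul K hKc _ h3
    have hD : IsClopen ((K : Set Γ) • N i) := ⟨hDc.isClosed, hDo⟩
    have hB' : IsClopen (B \ ((K : Set Γ) • N i)) := hB.diff hD
    have hF' : T ⟨(B \ ((K : Set Γ) • N i)).indicator f.1, indicator_mem f _ hB'⟩ = 0 :=
      ih (fun x hx => ht x (Finset.mem_insert_of_mem hx)) _ hB' (by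
        intro k hk x
        rw [Set.mem_diff, Set.mem_diff, hBK k hk x, smul_mem_smul K _ hk]) (by
        intro x hx hx0
        obtain ⟨j, hj, hxj⟩ := hcov x hx.1 hx0
        rw [Finset.mem_insert] at hj
        rcases hj with rfl | hj
        · exact absurd hxj hx.2
        · exact ⟨j, hj, hxj⟩) _ rfl
    have hN'o : IsOpen (B ∩ N i) := hB.isOpen.inter h2
    have hN'c : IsCompact (B ∩ N i) := h3.inter_left hB.isClosed
    have hG : T ⟨((K : Set Γ) • (B ∩ N i)).indicator (fun _ => 1),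
        charFn_mem _ hN'o.smul_left (compact_smul K hKc _ hN'c)⟩ = 0 :=
      h5 _ Set.inter_subset_right hN'o hN'c _ rfl
    have hFG : F = ⟨(B \ ((K : Set Γ) • N i)).indicator f.1, indicator_mem f _ hB'⟩ +
        f.1 i • (⟨((K : Set Γ) • (B ∩ N i)).indicator (fun _ => 1),
        charFn_mem _ hN'o.smul_left (compact_smul K hKc _ hN'c)⟩ : LCC X) := by
      apply Subtype.ext
      rw [hF]
      ext x
      change B.indicator f.1 x = (B \ ((K : Set Γ) • N i)).indicator f.1 x +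
        f.1 i * ((K : Set Γ) • (B ∩ N i)).indicator (fun _ => 1) x
      have hmem : x ∈ (K : Set Γ) • (B ∩ N i) ↔ x ∈ B ∧ x ∈ (K : Set Γ) • N i := by
        constructor
        · intro h
          obtain ⟨k, hk, y, hy, rfl⟩ := Set.mem_smul.1 h
          exact ⟨(hBK k hk y).2 hy.1, Set.mem_smul.2 ⟨k, hk, y, hy.2, rfl⟩⟩
        · rintro ⟨hxB, hx⟩
          obtain ⟨k, hk, y, hy, rfl⟩ := Set.mem_smul.1 hx
          exact Set.mem_smul.2 ⟨k, hk, y, ⟨(hBK k hk y).1 hxB, hy⟩, rfl⟩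
      have hval : x ∈ (K : Set Γ) • N i → f.1 x = f.1 i := by
        intro hx
        obtain ⟨k, hk, y, hy, rfl⟩ := Set.mem_smul.1 hx
        rw [hf k hk y, h4 y hy]
      by_cases hxB : x ∈ B
      · by_cases hxD : x ∈ (K : Set Γ) • N i
        · rw [Set.indicator_of_mem hxB, Set.indicator_of_notMem (fun h => h.2 hxD),
            Set.indicator_of_mem (hmem.2 ⟨hxB, hxD⟩), hval hxD, zero_add, mul_one]
        · rw [Set.indicator_of_mem hxB, Set.indicator_of_mem (Set.mem_diff_of_mem hxB hxD),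
            Set.indicator_of_notMem (fun h => hxD (hmem.1 h).2), mul_zero, add_zero]
      · rw [Set.indicator_of_notMem hxB, Set.indicator_of_notMem (fun h => hxB h.1),
            Set.indicator_of_notMem (fun h => hxB (hmem.1 h).1), mul_zero, add_zero]
    rw [hFG, map_add, map_smul, hF', hG, smul_zero, add_zero]

end GLU

theorem stmt_GLU : Stmt_GLU := by
  intro X Γ _ _ _ _ _ _ _ _ _ K hKo hKc T f hf hloc
  have hex : ∀ x : X, ∃ N : Set X, f.1 x ≠ 0 → (x ∈ N ∧ IsOpen N ∧ IsCompact N ∧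
      (∀ y ∈ N, f.1 y = f.1 x) ∧ ∀ N' ⊆ N, IsOpen N' → IsCompact N' → ∀ F : LCC X,
        (F.1 = ((K : Set Γ) • N').indicator fun _ => (1 : ℂ)) → T F = 0) := by
    intro x
    by_cases hx : f.1 x = 0
    · exact ⟨∅, fun h => absurd hx h⟩
    · obtain ⟨W, hW, hW2⟩ := hloc x hx
      have h1 : f.1 ⁻¹' {f.1 x} ∈ 𝓝 x := (f.2.1.isOpen_fiber (f.1 x)).mem_nhds rfl
      obtain ⟨N, hxN, hNo, hNc, hNs⟩ := GLU.exists_nbd x _ (Filter.inter_mem hW h1)
      refine ⟨N, fun _ => ⟨hxN, hNo, hNc, fun y hy => (hNs hy).2, ?_⟩⟩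
      intro N' hN' hN'o hN'c
      exact hW2 N' (fun y hy => (hNs (hN' hy)).1) hN'o hN'c
  choose N hN using hex
  have hS : IsCompact (Function.support f.1) := by
    have h1 : IsClosed (Function.support f.1) := by
      have h2 : Function.support f.1 = (f.1 ⁻¹' {0})ᶜ := by
        ext x
        simp
      rw [h2]
      exact (f.2.1.isOpen_fiber 0).isClosed_compl
    exact IsCompact.of_isClosed_subset f.2.2 h1 (subset_tsupport _)
  obtain ⟨t, ht, hcov⟩ := hS.elim_nhds_subcover (fun x => (K : Set Γ) • N x) (by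
    intro x hx
    obtain ⟨h1, h2, _⟩ := hN x hx
    exact h2.smul_left.mem_nhds (GLU.subset_smul K _ h1))
  refine GLU.step K hKc T f hf N (fun x hx => (hN x hx).2) t (fun x hx => ht x hx) Set.univ
    isClopen_univ (fun _ _ _ => by simp) ?_ f (by simp)
  intro x _ hx
  have := hcov (show x ∈ Function.support f.1 from hx)
  simpa using this

end Pool.Agent.LPer
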