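import Pool.Agent.Work.MP_037d19_lp.Stmts2

/-!
# Block INVL: `ℓ(X f^∨) = ℓ'(Y f)`
-/

namespace Pool.Agent.LPer

open scoped Topology
open MeasureTheory Filter

namespace INVL

set_option linter.unusedSectionVars false

variable {G : Type} [Group G] [TopologicalSpace G] [IsTopologicalGroup G] [T2Space G]

/-- the characteristic function of a compact open set -/
noncomputable def ind (S : Set G) (ho : IsOpen S) (hc : IsCompact S) : LCC G :=
  ⟨S.indicator fun _ => (1 : ℂ), by
    refine ⟨?_, ?_⟩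
    · exact (LocallyConstant.charFn ℂ (⟨hc.isClosed, ho⟩ : IsClopen S)).isLocallyConstant
    · refine HasCompactSupport.intro hc fun x hx => ?_
      exact Set.indicator_of_notMem hx _⟩

open Classical in
theorem ind_apply (S : Set G) (ho : IsOpen S) (hc : IsCompact S) (g : G) :
    (ind S ho hc).1 g = if g ∈ S then 1 else 0 := by
  simp only [ind]
  rw [Set.indicator_apply]

theorem compact_right {K : Set G} (hK : IsCompact K) (x : G) : IsCompact {g | g * x⁻¹ ∈ K} := by
  have h : {g | g * x⁻¹ ∈ K} = (fun g => g * x) '' K := by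
    ext g
    constructor
    · intro hg; exact ⟨g * x⁻¹, hg, by simp⟩
    · rintro ⟨k, hk, rfl⟩; simpa using hk
  rw [h]
  exact hK.image (by fun_prop)

theorem compact_left {K : Set G} (hK : IsCompact K) (x : G) : IsCompact {g | x * g ∈ K} := by
  have h : {g | x * g ∈ K} = (fun g => x⁻¹ * g) '' K := by
    ext g
    constructor
    · intro hg; exact ⟨x * g, hg, by simp⟩
    · rintro ⟨k, hk, rfl⟩; simpa using hk
  rw [h]
  exact hK.image (by fun_prop)

/-- the characteristic function of `K x` -/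
noncomputable def indR (K : Subgroup G) (ho : IsOpen (K : Set G)) (hc : IsCompact (K : Set G)) (x : G) : LCC G :=
  ind {g | g * x⁻¹ ∈ (K : Set G)} (ho.preimage (by fun_prop)) (compact_right hc x)

/-- the characteristic function of `x⁻¹ K` -/
noncomputable def indL (K : Subgroup G) (ho : IsOpen (K : Set G)) (hc : IsCompact (K : Set G)) (x : G) : LCC G :=
  ind {g | x * g ∈ (K : Set G)} (ho.preimage (by fun_prop)) (compact_left hc x)

open Classical in
theorem indR_apply (K : Subgroup G) (ho : IsOpen (K : Set G)) (hc : IsCompact (K : Set G)) (x g : G) :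
    (indR K ho hc x).1 g = if g * x⁻¹ ∈ K then 1 else 0 := by
  rw [indR, ind_apply]
  rfl

open Classical in
theorem indL_apply (K : Subgroup G) (ho : IsOpen (K : Set G)) (hc : IsCompact (K : Set G)) (x g : G) :
    (indL K ho hc x).1 g = if x * g ∈ K then 1 else 0 := by
  rw [indL, ind_apply]
  rfl

/-- a locally constant function with compact support is invariant under an open neighbourhood -/
theorem exists_nhds (f : LCC G) : ∀ᶠ k in 𝓝 (1 : G), ∀ x ∈ tsupport f.1, f.1 (k * x) = f.1 x := by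
  refine f.2.2.isCompact.eventually_forall_of_forall_eventually fun y _ => ?_
  have h1 : ∀ᶠ z in 𝓝 ((1 : G), y), f.1 (z.1 * z.2) = f.1 y := by
    have hc : Tendsto (fun z : G × G => z.1 * z.2) (𝓝 ((1 : G), y)) (𝓝 y) := by
      have : Continuous fun z : G × G => z.1 * z.2 := continuous_mul
      simpa using this.tendsto ((1 : G), y)
    exact hc.eventually (f.2.1.eventually_eq y)
  have h2 : ∀ᶠ z in 𝓝 ((1 : G), y), f.1 z.2 = f.1 y := by
    have hc : Tendsto (fun z : G × G => z.2) (𝓝 ((1 : G), y)) (𝓝 y) := by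
      have : Continuous fun z : G × G => z.2 := continuous_snd
      simpa using this.tendsto ((1 : G), y)
    exact hc.eventually (f.2.1.eventually_eq y)
  filter_upwards [h1, h2] with z a b
  rw [a, b]

theorem exists_group (hVD : Stmt_VD) [LocallyCompactSpace G] [TotallyDisconnectedSpace G] (f : LCC G) :
    ∃ K : Subgroup G, IsOpen (K : Set G) ∧ IsCompact (K : Set G) ∧ ∀ k ∈ K, ∀ x, f.1 (k * x) = f.1 x := by
  obtain ⟨K, ho, hc, hK⟩ := hVD G _ (exists_nhds f)
  refine ⟨K, ho, hc, fun k hk x => ?_⟩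
  by_cases hx : x ∈ tsupport f.1
  · exact hK hk x hx
  · by_cases hkx : k * x ∈ tsupport f.1
    · have h := hK (K.inv_mem hk) (k * x) hkx
      rw [inv_mul_cancel_left] at h
      exact h.symm
    · rw [image_eq_zero_of_notMem_tsupport hx, image_eq_zero_of_notMem_tsupport hkx]

section maps

variable [MeasurableSpace G] [BorelSpace G]
  (μ : Measure G) [μ.IsHaarMeasure] [μ.IsMulRightInvariant] {V V' : Type}
  [AddCommGroup V] [Module ℂ V] [AddCommGroup V'] [Module ℂ V'] (π : Representation ℂ G V)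
  (π' : Representation ℂ G V') (P : V' →ₗ[ℂ] V →ₗ[ℂ] ℂ)

theorem rep_inv_apply (ρ : Representation ℂ G V) (k : G) (v : V) : ρ k (ρ k⁻¹ v) = v := by
  rw [← Module.End.mul_apply, ← map_mul, mul_inv_cancel, map_one, Module.End.one_apply]

theorem Y_right (hP : Dual2 π π' P) (ℓ : V →ₗ[ℂ] ℂ) (Y : LCC G →ₗ[ℂ] V')
    (hY : ∀ f v, P (Y f) v = ∫ g, f.1 g * ℓ (π g v) ∂μ) (k : G) (f f1 : LCC G)
    (h : ∀ g, f1.1 g = f.1 (g * k)) : Y f1 = π' k (Y f) := by
  have h1 : ∀ v, P (Y f1 - π' k (Y f)) v = 0 := by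
    intro v
    rw [map_sub, LinearMap.sub_apply, hY]
    have h2 : P (π' k (Y f)) v = P (Y f) (π k⁻¹ v) := by
      rw [← hP.inv k (Y f) (π k⁻¹ v), rep_inv_apply]
    rw [h2, hY]
    have h3 := integral_mul_right_eq_self (μ := μ) (fun g => f.1 g * ℓ (π g (π k⁻¹ v))) k
    rw [← h3, sub_eq_zero]
    refine integral_congr_ae (Filter.Eventually.of_forall fun g => ?_)
    simp only
    rw [h g]
    congr 2
    rw [← Module.End.mul_apply, ← map_mul, mul_assoc, mul_inv_cancel, mul_one]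
  exact sub_eq_zero.1 (hP.left _ h1)

theorem X_right (hP : Dual2 π π' P) (ℓ' : V' →ₗ[ℂ] ℂ) (X : LCC G →ₗ[ℂ] V)
    (hX : ∀ f v', P v' (X f) = ∫ g, f.1 g * ℓ' (π' g v') ∂μ) (k : G) (f f1 : LCC G)
    (h : ∀ g, f1.1 g = f.1 (g * k)) : X f1 = π k (X f) := by
  have h1 : ∀ v', P v' (X f1 - π k (X f)) = 0 := by
    intro v'
    rw [map_sub, hX]
    have h2 : P v' (π k (X f)) = P (π' k⁻¹ v') (X f) := by
      rw [← hP.inv k (π' k⁻¹ v') (X f), rep_inv_apply]
    rw [h2, hX]
    have h3 := integral_mul_right_eq_self (μ := μ) (fun g => f.1 g * ℓ' (π' g (π' k⁻¹ v'))) k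
    rw [← h3, sub_eq_zero]
    refine integral_congr_ae (Filter.Eventually.of_forall fun g => ?_)
    simp only
    rw [h g]
    congr 2
    rw [← Module.End.mul_apply, ← map_mul, mul_assoc, mul_inv_cancel, mul_one]
  exact sub_eq_zero.1 (hP.right _ h1)

theorem coset (hP : Dual2 π π' P) (ℓ : V →ₗ[ℂ] ℂ) (ℓ' : V' →ₗ[ℂ] ℂ) (Y : LCC G →ₗ[ℂ] V')
    (X : LCC G →ₗ[ℂ] V) (hY : ∀ f v, P (Y f) v = ∫ g, f.1 g * ℓ (π g v) ∂μ)
    (hX : ∀ f v', P v' (X f) = ∫ g, f.1 g * ℓ' (π' g v') ∂μ)
    (K : Subgroup G) (ho : IsOpen (K : Set G)) (hc : IsCompact (K : Set G)) (x : G) :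
    ℓ (X (indL K ho hc x)) = ℓ' (Y (indR K ho hc x)) := by
  classical
  set y := Y (indR K ho hc 1) with hy
  set u := X (indL K ho hc x) with hu
  have h1 : Y (indR K ho hc x) = π' x⁻¹ y := by
    refine Y_right μ π π' P hP ℓ Y hY x⁻¹ _ _ fun g => ?_
    rw [indR_apply, indR_apply, inv_one, mul_one]
  have h2 : ∀ k ∈ K, π k u = u := by
    intro k hk
    refine (X_right μ π π' P hP ℓ' X hX k _ _ fun g => ?_).symm
    rw [indL_apply, indL_apply, ← mul_assoc]
    simp only [K.mul_mem_cancel_right hk]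
  have h3 : ∀ k ∈ K, π' k y = y := by
    intro k hk
    refine (Y_right μ π π' P hP ℓ Y hY k _ _ fun g => ?_).symm
    rw [indR_apply, indR_apply, inv_one, mul_one, mul_one]
    simp only [K.mul_mem_cancel_right hk]
  set I : ℂ := ∫ g, (indR K ho hc 1).1 g ∂μ with hI
  have hI0 : I ≠ 0 := by
    have e1 : I = (μ.real (K : Set G) : ℂ) := by
      rw [hI]
      have e2 : (fun g => (indR K ho hc 1).1 g) = (K : Set G).indicator fun _ => (1 : ℂ) := by
        funext g
        rw [indR_apply, inv_one, mul_one, Set.indicator_apply]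
        rfl
      rw [e2, integral_indicator ho.measurableSet, setIntegral_const]
      simp
    rw [e1]
    have e3 : 0 < μ.real (K : Set G) := by
      rw [measureReal_def]
      exact ENNReal.toReal_pos (ho.measure_pos μ ⟨1, K.one_mem⟩).ne' hc.measure_lt_top.ne
    exact_mod_cast e3.ne'
  have h4 : P y u = I * ℓ u := by
    rw [hy, hY, hI, ← integral_mul_const]
    refine integral_congr_ae (Filter.Eventually.of_forall fun g => ?_)
    simp only
    rw [indR_apply]
    by_cases hg : g * 1⁻¹ ∈ K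
    · rw [inv_one, mul_one] at hg
      rw [h2 g hg]
    · rw [if_neg hg, zero_mul, zero_mul]
  have h5 : P y u = I * ℓ' (π' x⁻¹ y) := by
    rw [hu, hX, hI, ← integral_mul_const]
    rw [← integral_mul_left_eq_self (μ := μ) (fun g => (indL K ho hc x).1 g * ℓ' (π' g y)) x⁻¹]
    refine integral_congr_ae (Filter.Eventually.of_forall fun g => ?_)
    simp only
    rw [indL_apply, indR_apply, mul_inv_cancel_left, inv_one, mul_one]
    by_cases hg : g ∈ K
    · rw [map_mul, Module.End.mul_apply, h3 g hg]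
    · rw [if_neg hg, zero_mul, zero_mul]
  rw [h1]
  exact mul_left_cancel₀ hI0 (h4.symm.trans h5)

theorem finite_case (hP : Dual2 π π' P) (ℓ : V →ₗ[ℂ] ℂ) (ℓ' : V' →ₗ[ℂ] ℂ) (Y : LCC G →ₗ[ℂ] V')
    (X : LCC G →ₗ[ℂ] V) (hY : ∀ f v, P (Y f) v = ∫ g, f.1 g * ℓ (π g v) ∂μ)
    (hX : ∀ f v', P v' (X f) = ∫ g, f.1 g * ℓ' (π' g v') ∂μ)
    (K : Subgroup G) (ho : IsOpen (K : Set G)) (hc : IsCompact (K : Set G)) (t : Finset G) :
    ∀ f f' : LCC G, (∀ g, f'.1 g = f.1 g⁻¹) → (∀ k ∈ K, ∀ x, f.1 (k * x) = f.1 x) →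
      (∀ g, f.1 g ≠ 0 → ∃ x ∈ t, g * x⁻¹ ∈ K) → ℓ (X f') = ℓ' (Y f) := by
  classical
  induction t using Finset.induction_on with
  | empty =>
    intro f f' hf _ hs
    have h1 : ∀ g, f.1 g = 0 := by
      intro g
      by_contra h
      obtain ⟨x, hx, _⟩ := hs g h
      exact absurd hx (Finset.notMem_empty x)
    have h2 : f = 0 := Subtype.ext (funext h1)
    have h3 : f' = 0 := Subtype.ext (funext fun g => by rw [hf, h1]; rfl)
    rw [h2, h3, map_zero, map_zero, map_zero, map_zero]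
  | insert x t _ ih =>
    intro f f' hf hk hs
    have h1 := ih (f - f.1 x • indR K ho hc x) (f' - f.1 x • indL K ho hc x) ?_ ?_ ?_
    · have h2 := coset μ π π' P hP ℓ ℓ' Y X hY hX K ho hc x
      rw [map_sub, map_sub, map_smul, map_smul, map_sub, map_sub, map_smul, map_smul, h2] at h1
      exact sub_left_inj.1 h1
    · intro g
      change f'.1 g - f.1 x * (indL K ho hc x).1 g = f.1 g⁻¹ - f.1 x * (indR K ho hc x).1 g⁻¹
      rw [hf, indL_apply, indR_apply]
      have e : (g⁻¹ * x⁻¹ ∈ K) ↔ (x * g ∈ K) := by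
        rw [← mul_inv_rev]; exact K.inv_mem_iff
      simp only [e]
    · intro k hkK g
      change f.1 (k * g) - f.1 x * (indR K ho hc x).1 (k * g) = f.1 g - f.1 x * (indR K ho hc x).1 g
      rw [hk k hkK, indR_apply, indR_apply, mul_assoc]
      simp only [K.mul_mem_cancel_left hkK]
    · intro g hg
      change f.1 g - f.1 x * (indR K ho hc x).1 g ≠ 0 at hg
      rw [indR_apply] at hg
      by_cases h : g * x⁻¹ ∈ K
      · exfalso
        apply hg
        rw [if_pos h, mul_one]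
        have h3 := hk _ h x
        rw [inv_mul_cancel_right] at h3
        rw [h3, sub_self]
      · rw [if_neg h, mul_zero, sub_zero] at hg
        obtain ⟨z, hz, hzK⟩ := hs g hg
        rcases Finset.mem_insert.1 hz with rfl | hz
        · exact absurd hzK h
        · exact ⟨z, hz, hzK⟩

end maps

end INVL

theorem stmt_INVL (hVD : Stmt_VD) : Stmt_INVL := by
  intro G _ _ _ _ _ _ _ _ μ _ _ _ V V' _ _ _ _ π π' P hP ℓ ℓ' Y X hY hX f f' hf
  obtain ⟨K, ho, hc, hK⟩ := INVL.exists_group hVD f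
  obtain ⟨t, ht⟩ := f.2.2.isCompact.elim_finite_subcover (fun x : G => {g : G | g * x⁻¹ ∈ K})
    (fun x => ho.preimage (f := fun g : G => g * x⁻¹) (by fun_prop))
    (fun g _ => Set.mem_iUnion.2 ⟨g, by simp [K.one_mem]⟩)
  refine INVL.finite_case μ π π' P hP ℓ ℓ' Y X hY hX K ho hc t f f' hf hK fun g hg => ?_
  have h1 : g ∈ tsupport f.1 := subset_tsupport _ hg
  have h2 := ht h1
  simp only [Set.mem_iUnion, Set.mem_ofPred_eq] at h2
  obtain ⟨x, hx, hxK⟩ := h2
  exact ⟨x, hx, hxK⟩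

end Pool.Agent.LPer
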