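import Pool.Agent.Work.MP_037d19_lp.Stmts
import Pool.Agent.Work.MP_257930_al.Simple

/-!
# Linear periods: block J0
-/

namespace Pool.Agent.LPer

open scoped Polynomial Topology TensorProduct
open Module (finrank)
open Matrix (fromBlocks)

namespace J0

/-- two finite modules of the same dimension over a simple algebra are isomorphic -/
theorem iso (F B M N : Type) [Field F] [Ring B] [Algebra F B] [IsSimpleRing B]
    [FiniteDimensional F B] [AddCommGroup M] [Module F M] [Module B M] [IsScalarTower F B M]
    [FiniteDimensional F M] [AddCommGroup N] [Module F N] [Module B N] [IsScalarTower F B N]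
    [FiniteDimensional F N] (h : finrank F M = finrank F N) : Nonempty (M ≃ₗ[B] N) := by
  have hart : IsArtinianRing B := IsArtinianRing.of_finite F B
  by_cases hP : Nontrivial (M × N)
  · have hiso : IsIsotypic B (M × N) := IsSimpleRing.isIsotypic B (M × N)
    obtain ⟨S, hS⟩ := IsAtomic.exists_atom (Submodule B (M × N))
    rw [← isSimpleModule_iff_isAtom] at hS
    have hM : IsIsotypicOfType B M S :=
      (hiso S).of_injective (LinearMap.inl B M N) LinearMap.inl_injective
    have hN : IsIsotypicOfType B N S :=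
      (hiso S).of_injective (LinearMap.inr B M N) LinearMap.inr_injective
    have fM : Module.Finite B M := Module.Finite.of_restrictScalars_finite F B M
    have fN : Module.Finite B N := Module.Finite.of_restrictScalars_finite F B N
    obtain ⟨m, ⟨eM⟩⟩ := hM.linearEquiv_fun
    obtain ⟨n, ⟨eN⟩⟩ := hN.linearEquiv_fun
    have fS : FiniteDimensional F S :=
      FiniteDimensional.of_injective ((S.subtype).restrictScalars F) S.injective_subtype
    have h1 : finrank F M = m * finrank F S := by
      rw [(eM.restrictScalars F).finrank_eq, Module.finrank_pi_fintype]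
      simp
    have h2 : finrank F N = n * finrank F S := by
      rw [(eN.restrictScalars F).finrank_eq, Module.finrank_pi_fintype]
      simp
    have hS0 : 0 < finrank F S := by
      have : Nontrivial S := IsSimpleModule.nontrivial B S
      exact Module.finrank_pos
    have hmn : m = n := by
      rw [h1, h2] at h
      exact Nat.eq_of_mul_eq_mul_right hS0 h
    subst hmn
    exact ⟨eM.trans eN.symm⟩
  · rw [not_nontrivial_iff_subsingleton] at hP
    have sM : Subsingleton M := (LinearMap.inl_injective (R := B) (M := M) (M₂ := N)).subsingleton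
    have sN : Subsingleton N := (LinearMap.inr_injective (R := B) (M := M) (M₂ := N)).subsingleton
    exact ⟨LinearEquiv.ofSubsingleton M N⟩

section struct

variable {F E' R M : Type} [Field F] [Field E'] [Algebra F E'] [Ring R] [Algebra F R]
  [AddCommGroup M] [Module F M] [Module R M] [IsScalarTower F R M]

/-- the action of a field through endomorphisms, over `F` -/
def gmap (g0 : E' →ₐ[F] Module.End R M) : E' →ₐ[F] Module.End F M where
  toFun x := (g0 x).restrictScalars F
  map_one' := by
    rw [map_one]
    rfl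
  map_mul' x y := by
    rw [map_mul]
    rfl
  map_zero' := by
    rw [map_zero]
    rfl
  map_add' x y := by
    rw [map_add]
    rfl
  commutes' r := by
    rw [AlgHom.commutes]
    rfl

theorem gcomm (g0 : E' →ₐ[F] Module.End R M) (r : R) (x : E') :
    Commute (Algebra.lsmul F F M r) (gmap g0 x) := by
  apply LinearMap.ext
  intro m
  change r • (g0 x) m = (g0 x) (r • m)
  rw [map_smul]

/-- the action of the tensor product -/
noncomputable def act (g0 : E' →ₐ[F] Module.End R M) : R ⊗[F] E' →ₐ[F] Module.End F M :=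
  Algebra.TensorProduct.lift (Algebra.lsmul F F M) (gmap g0) (gcomm g0)

theorem act_r (g0 : E' →ₐ[F] Module.End R M) (r : R) (m : M) :
    act g0 (r ⊗ₜ 1) m = r • m := by
  unfold act
  rw [Algebra.TensorProduct.lift_tmul, map_one, mul_one]
  rfl

theorem act_x (g0 : E' →ₐ[F] Module.End R M) (x : E') (m : M) :
    act g0 (1 ⊗ₜ x) m = g0 x m := by
  unfold act
  rw [Algebra.TensorProduct.lift_tmul, map_one, one_mul]
  rfl

end struct

theorem pair (F R M N : Type) [Field F] [Ring R] [Algebra F R] [Algebra.IsCentral F R]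
    [IsSimpleRing R] [FiniteDimensional F R] [AddCommGroup M] [Module F M] [Module R M]
    [IsScalarTower F R M] [FiniteDimensional F M] [AddCommGroup N] [Module F N] [Module R N]
    [IsScalarTower F R N] [FiniteDimensional F N] (a : F) (d : M →ₗ[R] M) (d' : N →ₗ[R] N)
    (ha : ∀ b : F, b ^ 2 ≠ a) (hd : ∀ m, d (d m) = a • m) (hd' : ∀ m, d' (d' m) = a • m)
    (hMN : finrank F M = finrank F N) : ∃ s : M ≃ₗ[R] N, ∀ m, s (d m) = d' (s m) := by
  set f : F[X] := Polynomial.X ^ 2 - Polynomial.C a with hf
  have hmon : f.Monic := Polynomial.monic_X_pow_sub_C a two_ne_zero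
  have hdeg : f.natDegree = 2 := Polynomial.natDegree_X_pow_sub_C
  have hirr : Irreducible f := by
    rw [hmon.irreducible_iff_roots_eq_zero_of_degree_le_three (by omega) (by omega)]
    rw [Multiset.eq_zero_iff_forall_notMem]
    intro b hb
    rw [Polynomial.mem_roots hmon.ne_zero, Polynomial.IsRoot.def] at hb
    apply ha b
    simpa [hf, sub_eq_zero] using hb
  have hfact : Fact (Irreducible f) := ⟨hirr⟩
  have hsimple : IsSimpleRing (R ⊗[F] AdjoinRoot f) :=
    Pool.Agent.Work.MP_257930_al.isSimpleRing_tensor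
  have hfin0 : Module.Finite F (AdjoinRoot f) := (AdjoinRoot.powerBasis hmon.ne_zero).finite
  have hfin : FiniteDimensional F (R ⊗[F] AdjoinRoot f) := Module.Finite.tensorProduct F R _
  have hmin : minpoly F (AdjoinRoot.powerBasis hmon.ne_zero).gen = f := by
    rw [AdjoinRoot.powerBasis_gen, AdjoinRoot.minpoly_root hmon.ne_zero]
    simp [hmon.leadingCoeff]
  have h1 : Polynomial.aeval (d : Module.End R M)
      (minpoly F (AdjoinRoot.powerBasis hmon.ne_zero).gen) = 0 := by
    rw [hmin, hf]
    apply LinearMap.ext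
    intro m
    simp only [map_sub, map_mul, Polynomial.aeval_X, Polynomial.aeval_C, LinearMap.sub_apply,
      pow_two, Module.End.mul_apply, LinearMap.zero_apply, Module.algebraMap_end_apply]
    rw [hd, sub_self]
  have h2 : Polynomial.aeval (d' : Module.End R N)
      (minpoly F (AdjoinRoot.powerBasis hmon.ne_zero).gen) = 0 := by
    rw [hmin, hf]
    apply LinearMap.ext
    intro m
    simp only [map_sub, map_mul, Polynomial.aeval_X, Polynomial.aeval_C, LinearMap.sub_apply,
      pow_two, Module.End.mul_apply, LinearMap.zero_apply, Module.algebraMap_end_apply]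
    rw [hd', sub_self]
  let g1 : AdjoinRoot f →ₐ[F] Module.End R M := (AdjoinRoot.powerBasis hmon.ne_zero).lift d h1
  let g2 : AdjoinRoot f →ₐ[F] Module.End R N := (AdjoinRoot.powerBasis hmon.ne_zero).lift d' h2
  have hg1 : g1 (AdjoinRoot.powerBasis hmon.ne_zero).gen = d := PowerBasis.lift_gen _ _ _
  have hg2 : g2 (AdjoinRoot.powerBasis hmon.ne_zero).gen = d' := PowerBasis.lift_gen _ _ _
  let iM : Module (R ⊗[F] AdjoinRoot f) M := Module.compHom M (act g1).toRingHom
  let iN : Module (R ⊗[F] AdjoinRoot f) N := Module.compHom N (act g2).toRingHom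
  have tM : IsScalarTower F (R ⊗[F] AdjoinRoot f) M := ⟨by
    intro c b m
    change act g1 (c • b) m = c • act g1 b m
    rw [map_smul]
    rfl⟩
  have tN : IsScalarTower F (R ⊗[F] AdjoinRoot f) N := ⟨by
    intro c b m
    change act g2 (c • b) m = c • act g2 b m
    rw [map_smul]
    rfl⟩
  obtain ⟨e⟩ := iso F (R ⊗[F] AdjoinRoot f) M N hMN
  have er : ∀ (r : R) (m : M), e (r • m) = r • e m := by
    intro r m
    have h3 : ((r ⊗ₜ[F] (1 : AdjoinRoot f) : R ⊗[F] AdjoinRoot f)) • m = r • m := act_r g1 r m
    have h4 : ((r ⊗ₜ[F] (1 : AdjoinRoot f) : R ⊗[F] AdjoinRoot f)) • e m = r • e m :=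
      act_r g2 r (e m)
    rw [← h3, ← h4, map_smul]
  let s : M ≃ₗ[R] N :=
    { toFun := e
      map_add' := map_add e
      map_smul' := er
      invFun := e.symm
      left_inv := e.left_inv
      right_inv := e.right_inv }
  refine ⟨s, ?_⟩
  intro m
  change e (d m) = d' (e m)
  have h3 : (((1 : R) ⊗ₜ[F] (AdjoinRoot.powerBasis hmon.ne_zero).gen : R ⊗[F] AdjoinRoot f)) • m =
      d m := by
    have := act_x g1 (AdjoinRoot.powerBasis hmon.ne_zero).gen m
    rw [hg1] at this
    exact this
  have h4 : (((1 : R) ⊗ₜ[F] (AdjoinRoot.powerBasis hmon.ne_zero).gen : R ⊗[F] AdjoinRoot f)) •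
      e m = d' (e m) := by
    have := act_x g2 (AdjoinRoot.powerBasis hmon.ne_zero).gen (e m)
    rw [hg2] at this
    exact this
  rw [← h3, ← h4, map_smul]

end J0

/-- J0 -/
theorem stmt_J0 : Stmt_J0 := by
  intro F E R M _ _ _ _ _ _ _ _ _ _ _ _ _ _ δE a d _ _ ha hd
  obtain ⟨s, hs⟩ := J0.pair F R M M a d (-d) ha hd (by
    intro m
    rw [LinearMap.neg_apply, LinearMap.neg_apply, map_neg, neg_neg, hd]) rfl
  refine ⟨s, fun m => ?_⟩
  rw [hs m, LinearMap.neg_apply]

end Pool.Agent.LPer
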