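import Pool.Agent.Work.MP_037d19_lp.Stmts

/-!
# Linear periods: block JA
-/

namespace Pool.Agent.LPer

open Module (finrank)
open MulOpposite

namespace JA

variable {F A : Type} [Field F] [Ring A] [Algebra F A]

/-- The right ideal `{m | e m = m}` as a module over the opposite algebra. -/
def RI (e : A) : Submodule Aᵐᵒᵖ A where
  carrier := {m | e * m = m}
  add_mem' := fun {a b} ha hb => by
    change e * (a + b) = a + b
    have ha' : e * a = a := ha
    have hb' : e * b = b := hb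
    rw [mul_add, ha', hb']
  zero_mem' := mul_zero e
  smul_mem' := fun c m hm => by
    change e * (m * unop c) = m * unop c
    have hm' : e * m = m := hm
    rw [← mul_assoc, hm']

theorem mem_RI {e m : A} : m ∈ RI e ↔ e * m = m := Iff.rfl

/-- Left multiplication by an element commuting with `e`. -/
def lm (e d : A) (h : ∀ m, e * m = m → e * (d * m) = d * m) : RI e →ₗ[Aᵐᵒᵖ] RI e where
  toFun m := ⟨d * m, h m m.2⟩
  map_add' x y := Subtype.ext (mul_add d x y)
  map_smul' c x := Subtype.ext (by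
    change d * ((x : A) * unop c) = (d * x) * unop c
    rw [mul_assoc])

theorem lm_apply (e d : A) (h : ∀ m, e * m = m → e * (d * m) = d * m) (m : RI e) :
    ((lm e d h m : RI e) : A) = d * m := rfl

theorem lm_pow (e d : A) (h : ∀ m, e * m = m → e * (d * m) = d * m) (n : ℕ) (m : RI e) :
    ((((lm e d h : Module.End Aᵐᵒᵖ (RI e)) ^ n) m : RI e) : A) = d ^ n * m := by
  induction n generalizing m with
  | zero => simp
  | succ n ih =>
    rw [pow_succ, Module.End.mul_apply, ih, lm_apply, pow_succ, mul_assoc]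

theorem equiv_apply (e : A) (he : e * e = e) (s : RI e ≃ₗ[Aᵐᵒᵖ] RI e) (x : A) (y : RI e)
    (hy : (y : A) = e * x) : ((s y : RI e) : A) = (s ⟨e, he⟩ : RI e) * x := by
  have : y = (op x) • (⟨e, he⟩ : RI e) := Subtype.ext (by rw [hy]; rfl)
  rw [this, map_smul]
  rfl

end JA

open JA in
theorem stmt_JA (hJN : Stmt_JN) : Stmt_JA := by
  intro F E A _ _ _ _ _ _ _ _ _ δE a δ e z hE hsq hns hδ he heδ hzδ hez hze hz
  have h1e : (1 - e) * (1 - e) = 1 - e := by
    rw [mul_sub, sub_mul, sub_mul, one_mul, mul_one, he]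
    simp
  have key : ∀ (f d : A), d * d = algebraMap F A a → f * d = d * f → ∀ (zz : A),
      zz * d = -(d * zz) → f * zz = zz * f → IsNilpotent (zz * f) → f * f = f →
      ∃ s : RI f ≃ₗ[Aᵐᵒᵖ] RI f, (∀ m : RI f, ∀ n : RI f, (n : A) = d * m →
        ((s n : RI f) : A) = -(d * (s m : RI f))) ∧
        (∀ m : RI f, ∀ n : RI f, (n : A) = zz * m → ((s n : RI f) : A) = zz * (s m : RI f)) := by
    intro f d hd hfd zz hzzd hfz hnil hf
    have hd1 : ∀ m, f * m = m → f * (d * m) = d * m := fun m hm => by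
      rw [← mul_assoc, hfd, mul_assoc, hm]
    have hz1 : ∀ m, f * m = m → f * (zz * m) = zz * m := fun m hm => by
      rw [← mul_assoc, hfz, mul_assoc, hm]
    obtain ⟨n, hn⟩ := hnil
    have hpow : ∀ j : ℕ, (zz * f) ^ (j + 1) = zz ^ (j + 1) * f := by
      intro j
      induction j with
      | zero => simp
      | succ j ih =>
        rw [pow_succ, ih, pow_succ zz (j + 1)]
        calc zz ^ (j + 1) * f * (zz * f) = zz ^ (j + 1) * (f * zz) * f := by
              simp only [mul_assoc]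
          _ = zz ^ (j + 1) * (zz * f) * f := by rw [hfz]
          _ = zz ^ (j + 1) * zz * (f * f) := by simp only [mul_assoc]
          _ = _ := by rw [hf]
    have hnil' : IsNilpotent (lm f zz hz1 : Module.End Aᵐᵒᵖ (RI f)) := by
      refine ⟨n + 1, ?_⟩
      apply LinearMap.ext
      intro m
      apply Subtype.ext
      rw [lm_pow]
      have hm : f * (m : A) = m := m.2
      have h0 : zz ^ (n + 1) * f = 0 := by
        rw [← hpow, pow_succ, hn, zero_mul]
      calc zz ^ (n + 1) * (m : A) = zz ^ (n + 1) * (f * m) := by rw [hm]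
        _ = 0 := by rw [← mul_assoc, h0, zero_mul]
    have hdd : ∀ m : RI f, lm f d hd1 (lm f d hd1 m) = a • m := by
      intro m
      apply Subtype.ext
      rw [lm_apply, lm_apply, ← mul_assoc, hd]
      change algebraMap F A a * (m : A) = a • (m : A)
      rw [Algebra.smul_def]
    have hzd : ∀ m : RI f, lm f zz hz1 (lm f d hd1 m) = - lm f d hd1 (lm f zz hz1 m) := by
      intro m
      apply Subtype.ext
      change zz * (d * (m : A)) = -(d * (zz * m))
      rw [← mul_assoc, hzzd, neg_mul, mul_assoc]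
    let inc : RI f →ₗ[F] A :=
      { toFun := fun m => m
        map_add' := fun x y => rfl
        map_smul' := fun c x => rfl }
    have hfin : FiniteDimensional F (RI f) :=
      Module.Finite.of_injective inc Subtype.val_injective
    obtain ⟨s, hs1, hs2⟩ := hJN F E Aᵐᵒᵖ (RI f) δE a (lm f d hd1) (lm f zz hz1) hE hsq hns hdd hzd
      hnil'
    refine ⟨s, fun m n hmn => ?_, fun m n hmn => ?_⟩
    · have h2 : n = lm f d hd1 m := Subtype.ext hmn
      rw [h2, hs1]
      rfl
    · have h2 : n = lm f zz hz1 m := Subtype.ext hmn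
      rw [h2, hs2]
      rfl
  obtain ⟨s₁, hs1, -⟩ := key e δ hδ heδ 0 (by simp) (by simp) (by simp) he
  obtain ⟨s₂, hs2, hs2z⟩ := key (1 - e) δ hδ (by rw [sub_mul, mul_sub, heδ, one_mul, mul_one]) z hzδ
    (by rw [sub_mul, mul_sub, hez, hze, one_mul, mul_one])
    (by rw [mul_sub, hze, mul_one, sub_zero]; exact hz) h1e
  let E1 : RI e := ⟨e, he⟩
  let E2 : RI (1 - e) := ⟨1 - e, h1e⟩
  -- general facts
  have m1 : ∀ y : RI e, e * (y : A) = y := fun y => y.2
  have m2 : ∀ y : RI (1 - e), e * (y : A) = 0 := fun y => by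
    have h : (1 - e) * (y : A) = y := y.2
    rw [sub_mul, one_mul, sub_eq_self] at h
    exact h
  have m2' : ∀ y : RI (1 - e), (1 - e) * (y : A) = y := fun y => y.2
  have m1' : ∀ y : RI e, (1 - e) * (y : A) = 0 := fun y => by
    rw [sub_mul, one_mul, m1, sub_self]
  have comp : ∀ (s s' : RI e ≃ₗ[Aᵐᵒᵖ] RI e) (t t' : RI (1 - e) ≃ₗ[Aᵐᵒᵖ] RI (1 - e)),
      (∀ y, s (s' y) = y) → (∀ y, t (t' y) = y) →
      (((s E1 : RI e) : A) + (t E2 : RI (1 - e))) * (((s' E1 : RI e) : A) + (t' E2 : RI (1 - e)))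
        = 1 := by
    intro s s' t t' hs ht
    have q1 : ((s E1 : RI e) : A) * (s' E1 : RI e) = e := by
      rw [← equiv_apply e he s (s' E1 : RI e) (s' E1) (m1 _).symm, hs]
    have q2 : ((t E2 : RI (1 - e)) : A) * (t' E2 : RI (1 - e)) = 1 - e := by
      rw [← equiv_apply (1 - e) h1e t (t' E2 : RI (1 - e)) (t' E2) (m2' _).symm, ht]
    have q3 : ((s E1 : RI e) : A) * (t' E2 : RI (1 - e)) = 0 := by
      rw [← equiv_apply e he s (t' E2 : RI (1 - e)) 0 (by rw [m2]; rfl), map_zero]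
      rfl
    have q4 : ((t E2 : RI (1 - e)) : A) * (s' E1 : RI e) = 0 := by
      rw [← equiv_apply (1 - e) h1e t (s' E1 : RI e) 0 (by rw [m1']; rfl), map_zero]
      rfl
    rw [add_mul, mul_add, mul_add, q1, q2, q3, q4]
    simp
  let J : Aˣ := ⟨(s₁ E1 : RI e) + (s₂ E2 : RI (1 - e)), (s₁.symm E1 : RI e) +
    (s₂.symm E2 : RI (1 - e)),
    comp s₁ s₁.symm s₂ s₂.symm (fun y => s₁.apply_symm_apply y) (fun y => s₂.apply_symm_apply y),
    comp s₁.symm s₁ s₂.symm s₂ (fun y => s₁.symm_apply_apply y) (fun y => s₂.symm_apply_apply y)⟩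
  have hJ : (J : A) = (s₁ E1 : RI e) + (s₂ E2 : RI (1 - e)) := rfl
  refine ⟨J, ?_, ?_, ?_⟩
  · rw [hJ, add_mul]
    have r1 : ((s₁ E1 : RI e) : A) * δ = -(δ * (s₁ E1 : RI e)) := by
      have hmem : e * (δ * e) = δ * e := by rw [← mul_assoc, heδ, mul_assoc, he]
      rw [← equiv_apply e he s₁ δ ⟨δ * e, hmem⟩ heδ.symm]
      exact hs1 E1 _ rfl
    have r2 : ((s₂ E2 : RI (1 - e)) : A) * δ = -(δ * (s₂ E2 : RI (1 - e))) := by
      have hc : (1 - e) * δ = δ * (1 - e) := by rw [sub_mul, mul_sub, heδ, one_mul, mul_one]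
      have hmem : (1 - e) * (δ * (1 - e)) = δ * (1 - e) := by
        rw [← mul_assoc, hc, mul_assoc, h1e]
      rw [← equiv_apply (1 - e) h1e s₂ δ ⟨δ * (1 - e), hmem⟩ hc.symm]
      exact hs2 E2 _ rfl
    rw [r1, r2, mul_add, neg_add]
  · rw [hJ, add_mul, mul_add, m1, m2]
    have r1 : ((s₁ E1 : RI e) : A) * e = (s₁ E1 : RI e) := by
      rw [← equiv_apply e he s₁ e E1 he.symm]
    have r2 : ((s₂ E2 : RI (1 - e)) : A) * e = 0 := by
      rw [← equiv_apply (1 - e) h1e s₂ e 0 (by rw [sub_mul, one_mul, he, sub_self]; rfl), map_zero]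
      rfl
    rw [r1, r2]
  · rw [hJ, add_mul, mul_add]
    have r1 : ((s₁ E1 : RI e) : A) * z = 0 := by
      rw [← equiv_apply e he s₁ z 0 (by rw [hez]; rfl), map_zero]
      rfl
    have r3 : z * ((s₁ E1 : RI e) : A) = 0 := by
      rw [← m1 (s₁ E1), ← mul_assoc, hze, zero_mul]
    have r2 : ((s₂ E2 : RI (1 - e)) : A) * z = z * (s₂ E2 : RI (1 - e)) := by
      have hc : (1 - e) * z = z * (1 - e) := by
        rw [sub_mul, mul_sub, hez, hze, one_mul, mul_one]
      have hmem : (1 - e) * (z * (1 - e)) = z * (1 - e) := by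
        rw [← mul_assoc, hc, mul_assoc, h1e]
      rw [← equiv_apply (1 - e) h1e s₂ z ⟨z * (1 - e), hmem⟩ hc.symm]
      exact hs2z E2 _ rfl
    rw [r1, r2, r3]

end Pool.Agent.LPer
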