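import Pool.Agent.Work.MP_037d19_lp.Stmts

/-!
# Linear periods: block JN
-/

namespace Pool.Agent.LPer

open scoped Polynomial Topology TensorProduct
open Module (finrank)
open Matrix (fromBlocks)

namespace JN

section compl

variable {F R M : Type} [Field F] [CharZero F] [Ring R] [Algebra F R] [AddCommGroup M]
  [Module F M] [Module R M] [IsScalarTower F R M]

/-- A `d`-stable complement. -/
theorem compl [IsSemisimpleRing R] (a : F) (ha : a ≠ 0) (d : M →ₗ[R] M)
    (hd : ∀ m, d (d m) = a • m) (N : Submodule R M) (hN : ∀ n ∈ N, d n ∈ N) :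
    ∃ C : Submodule R M, IsCompl N C ∧ ∀ c ∈ C, d c ∈ C := by
  obtain ⟨C₀, hC₀⟩ := exists_isCompl N
  obtain ⟨p₁, hp₁⟩ : ∃ p₁ : M →ₗ[R] M, p₁ = Submodule.projection N C₀ hC₀ := ⟨_, rfl⟩
  have h1 : ∀ m, p₁ m ∈ N := fun m => by
    rw [hp₁]
    exact Submodule.projection_apply_mem hC₀ m
  have h2 : ∀ n ∈ N, p₁ n = n := fun n hn => by
    rw [hp₁]
    exact Submodule.projection_apply_of_mem_left hC₀ hn
  let p : M →ₗ[R] M := (2⁻¹ : F) • (p₁ + a⁻¹ • (d ∘ₗ p₁ ∘ₗ d))
  have hp : ∀ m, p m = (2⁻¹ : F) • (p₁ m + a⁻¹ • d (p₁ (d m))) := fun m => rfl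
  have hsm : ∀ (c : F), ∀ n ∈ N, c • n ∈ N := fun c n hn => by
    rw [← algebraMap_smul R c n]
    exact N.smul_mem _ hn
  have hdc : ∀ (c : F) (m : M), d (c • m) = c • d m := fun c m => LinearMap.map_smul_of_tower d c m
  have hpc : ∀ (c : F) (m : M), p₁ (c • m) = c • p₁ m := fun c m =>
    LinearMap.map_smul_of_tower p₁ c m
  have hp1 : ∀ m, p m ∈ N := fun m => by
    rw [hp]
    exact hsm _ _ (N.add_mem (h1 _) (hsm _ _ (hN _ (h1 _))))
  have hp2 : ∀ n ∈ N, p n = n := fun n hn => by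
    rw [hp, h2 n hn, h2 (d n) (hN n hn), hd, smul_smul, inv_mul_cancel₀ ha, one_smul, ← two_smul F n,
      smul_smul, inv_mul_cancel₀ (two_ne_zero), one_smul]
  have hp3 : ∀ m, p (d m) = d (p m) := fun m => by
    have e1 : a⁻¹ • d (p₁ (d (d m))) = d (p₁ m) := by
      rw [hd, hpc, hdc, smul_smul, inv_mul_cancel₀ ha, one_smul]
    have e2 : d (a⁻¹ • d (p₁ (d m))) = p₁ (d m) := by
      rw [hdc, hd, smul_smul, inv_mul_cancel₀ ha, one_smul]
    rw [hp, hp, e1, hdc, map_add, e2, add_comm]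
  refine ⟨LinearMap.ker p, ⟨?_, ?_⟩, ?_⟩
  · rw [Submodule.disjoint_def]
    intro x hx hx'
    rw [← hp2 x hx]
    exact hx'
  · rw [codisjoint_iff, Submodule.eq_top_iff']
    intro m
    rw [Submodule.mem_sup]
    refine ⟨p m, hp1 m, m - p m, ?_, by abel⟩
    rw [LinearMap.mem_ker, map_sub, hp2 _ (hp1 m), sub_self]
  · intro c hc
    rw [LinearMap.mem_ker] at hc ⊢
    rw [hp3, hc, map_zero]

/-- A section of `z` which anticommutes. -/
theorem sect [IsSemisimpleRing R] {N : Type} [AddCommGroup N] [Module F N] [Module R N]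
    [IsScalarTower F R N] (a : F) (ha : a ≠ 0) (d : M →ₗ[R] M) (dN : N →ₗ[R] N)
    (z : M →ₗ[R] N) (hz : Function.Surjective z) (hd : ∀ m, d (d m) = a • m)
    (hdN : ∀ n, dN (dN n) = a • n) (hzd : ∀ m, z (d m) = -dN (z m)) :
    ∃ q : N →ₗ[R] M, (∀ n, z (q n) = n) ∧ ∀ n, q (dN n) = -d (q n) := by
  obtain ⟨q₀, hq₀⟩ := IsSemisimpleModule.lifting_property (R := R) z hz LinearMap.id
  have h0 : ∀ n, z (q₀ n) = n := fun n => LinearMap.congr_fun hq₀ n
  let q : N →ₗ[R] M := (2⁻¹ : F) • (q₀ - a⁻¹ • (d ∘ₗ q₀ ∘ₗ dN))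
  have hq : ∀ n, q n = (2⁻¹ : F) • (q₀ n - a⁻¹ • d (q₀ (dN n))) := fun n => rfl
  have hdc : ∀ (c : F) (m : M), d (c • m) = c • d m := fun c m => LinearMap.map_smul_of_tower d c m
  have hzc : ∀ (c : F) (m : M), z (c • m) = c • z m := fun c m => LinearMap.map_smul_of_tower z c m
  have hqc : ∀ (c : F) (n : N), q₀ (c • n) = c • q₀ n := fun c n =>
    LinearMap.map_smul_of_tower q₀ c n
  refine ⟨q, fun n => ?_, fun n => ?_⟩
  · rw [hq, hzc, map_sub, h0, hzc, hzd, h0, hdN, smul_neg, smul_smul, inv_mul_cancel₀ ha, one_smul,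
      sub_neg_eq_add, ← two_smul F n, smul_smul, inv_mul_cancel₀ (two_ne_zero), one_smul]
  · have e1 : a⁻¹ • d (q₀ (dN (dN n))) = d (q₀ n) := by
      rw [hdN, hqc, hdc, smul_smul, inv_mul_cancel₀ ha, one_smul]
    have e2 : d (a⁻¹ • d (q₀ (dN n))) = q₀ (dN n) := by
      rw [hdc, hd, smul_smul, inv_mul_cancel₀ ha, one_smul]
    rw [hq, hq, e1, hdc, map_sub, e2, ← smul_neg, neg_sub]

end compl

/-- Gluing of maps. -/
theorem glue {R M M' : Type} [Ring R] [AddCommGroup M] [Module R M] [AddCommGroup M'] [Module R M']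
    (N U U' : Submodule R M) (h1 : Disjoint N U) (h2 : IsCompl (N ⊔ U) U') (f1 : N →ₗ[R] M')
    (f2 : U →ₗ[R] M') (f3 : U' →ₗ[R] M') : ∃ s : M →ₗ[R] M', (∀ n : N, s n = f1 n) ∧
      (∀ u : U, s u = f2 u) ∧ ∀ u : U', s u = f3 u := by
  have hN : IsCompl N (U ⊔ U') :=
    ⟨h1.disjoint_sup_right_of_disjoint_sup_left h2.disjoint, codisjoint_assoc.mp h2.codisjoint⟩
  have h2' : IsCompl (U ⊔ N) U' := by
    rw [sup_comm]
    exact h2
  have hU : IsCompl U (N ⊔ U') :=
    ⟨h1.symm.disjoint_sup_right_of_disjoint_sup_left h2'.disjoint,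
      codisjoint_assoc.mp h2'.codisjoint⟩
  have hU' : IsCompl U' (N ⊔ U) := h2.symm
  refine ⟨LinearMap.ofIsCompl hN f1 0 + LinearMap.ofIsCompl hU f2 0 +
    LinearMap.ofIsCompl hU' f3 0, fun n => ?_, fun u => ?_, fun u => ?_⟩
  · have e2 : LinearMap.ofIsCompl hU f2 0 (n : M) = 0 :=
      LinearMap.ofIsCompl_apply_right hU (⟨n, Submodule.mem_sup_left n.2⟩ : (N ⊔ U' : Submodule R M))
    have e3 : LinearMap.ofIsCompl hU' f3 0 (n : M) = 0 :=
      LinearMap.ofIsCompl_apply_right hU' (⟨n, Submodule.mem_sup_left n.2⟩ : (N ⊔ U : Submodule R M))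
    rw [LinearMap.add_apply, LinearMap.add_apply, LinearMap.ofIsCompl_apply_left, e2, e3, add_zero,
      add_zero]
  · have e1 : LinearMap.ofIsCompl hN f1 0 (u : M) = 0 :=
      LinearMap.ofIsCompl_apply_right hN (⟨u, Submodule.mem_sup_left u.2⟩ : (U ⊔ U' : Submodule R M))
    have e3 : LinearMap.ofIsCompl hU' f3 0 (u : M) = 0 :=
      LinearMap.ofIsCompl_apply_right hU'
        (⟨u, Submodule.mem_sup_right u.2⟩ : (N ⊔ U : Submodule R M))
    rw [LinearMap.add_apply, LinearMap.add_apply, LinearMap.ofIsCompl_apply_left, e1, e3, add_zero,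
      zero_add]
  · have e1 : LinearMap.ofIsCompl hN f1 0 (u : M) = 0 :=
      LinearMap.ofIsCompl_apply_right hN
        (⟨u, Submodule.mem_sup_right u.2⟩ : (U ⊔ U' : Submodule R M))
    have e2 : LinearMap.ofIsCompl hU f2 0 (u : M) = 0 :=
      LinearMap.ofIsCompl_apply_right hU
        (⟨u, Submodule.mem_sup_right u.2⟩ : (N ⊔ U' : Submodule R M))
    rw [LinearMap.add_apply, LinearMap.add_apply, LinearMap.ofIsCompl_apply_left, e1, e2, zero_add,
      zero_add]

theorem finSub {F R M : Type} [Field F] [Ring R] [Algebra F R] [AddCommGroup M]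
    [Module F M] [Module R M] [IsScalarTower F R M] [FiniteDimensional F M] (N : Submodule R M) :
    FiniteDimensional F N :=
  FiniteDimensional.of_injective (N.subtype.restrictScalars F) Subtype.val_injective

theorem main (hJ0 : Stmt_J0) (F E R : Type) [Field F] [CharZero F] [Field E] [Algebra F E]
    [Ring R] [Algebra F R] [Algebra.IsCentral F R] [IsSimpleRing R] [FiniteDimensional F R]
    (δE : E) (a : F) (hE : finrank F E = 2) (hδ : δE ^ 2 = algebraMap F E a)
    (ha : ∀ b : F, b ^ 2 ≠ a) (k : ℕ) : ∀ (M : Type) [AddCommGroup M]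
    [Module F M] [Module R M] [IsScalarTower F R M] [FiniteDimensional F M] (d z : M →ₗ[R] M),
    (∀ m, d (d m) = a • m) → (∀ m, z (d m) = - d (z m)) → (∀ m, z^[k] m = 0) →
    ∃ s : M ≃ₗ[R] M, (∀ m, s (d m) = - d (s m)) ∧ ∀ m, s (z m) = z (s m) := by
  have ha0 : a ≠ 0 := fun h => ha 0 (by rw [h]; simp)
  have : IsArtinianRing R := isArtinian_of_tower F inferInstance
  have : IsSemisimpleRing R := IsSimpleRing.isSemisimpleRing_iff_isArtinianRing.2 inferInstance
  induction k with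
  | zero =>
    intro M _ _ _ _ _ d z hd hzd hz
    have h0 : ∀ m : M, m = 0 := fun m => hz m
    exact ⟨LinearEquiv.refl R M, fun m => (h0 _).trans (h0 _).symm, fun m => rfl⟩
  | succ k ih =>
    intro M _ _ _ _ _ d z hd hzd hz
    obtain ⟨N, hN⟩ : ∃ N, N = LinearMap.range z := ⟨_, rfl⟩
    have hzN : ∀ m, z m ∈ N := fun m => by
      rw [hN]
      exact LinearMap.mem_range_self z m
    have hNz : ∀ n ∈ N, ∃ m, z m = n := fun n hn => by
      rw [hN] at hn
      exact hn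
    have hNd : ∀ n ∈ N, d n ∈ N := by
      intro n hn
      obtain ⟨m, rfl⟩ := hNz n hn
      have h1 : d (z m) = z (-d m) := by rw [map_neg, hzd, neg_neg]
      rw [h1]
      exact hzN _
    let dN : N →ₗ[R] N := d.restrict hNd
    let zN : N →ₗ[R] N := z.restrict (fun n _ => hzN n)
    let zr : M →ₗ[R] N := z.codRestrict N hzN
    have hdN : ∀ n : N, ((dN n : N) : M) = d n := fun n => rfl
    have hzN' : ∀ n : N, ((zN n : N) : M) = z n := fun n => rfl
    have hzr : ∀ m, ((zr m : N) : M) = z m := fun m => rfl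
    have hzrs : Function.Surjective zr := fun n => by
      obtain ⟨m, hm⟩ := hNz n n.2
      exact ⟨m, Subtype.ext hm⟩
    have hFN : FiniteDimensional F N := finSub N
    have hit : ∀ (j : ℕ) (n : N), ((zN^[j] n : N) : M) = z^[j] (n : M) := by
      intro j
      induction j with
      | zero => intro n; rfl
      | succ j hj =>
        intro n
        rw [Function.iterate_succ_apply', Function.iterate_succ_apply', hzN', hj]
    have hdNd : ∀ n, dN (dN n) = a • n := fun n => Subtype.ext (hd n)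
    have hzdN : ∀ m, zr (d m) = -dN (zr m) := fun m => Subtype.ext (hzd m)
    obtain ⟨s', hs'd, hs'z⟩ := ih N dN zN hdNd (fun n => Subtype.ext (hzd n)) (by
      intro n
      apply Subtype.ext
      rw [hit]
      obtain ⟨m, hm⟩ := hNz n n.2
      rw [← hm, ← Function.iterate_succ_apply]
      exact hz m)
    obtain ⟨q, hq1, hq2⟩ := sect a ha0 d dN zr hzrs hd hdNd hzdN
    obtain ⟨K, hK⟩ : ∃ K, K = LinearMap.ker z := ⟨_, rfl⟩
    have hKz : ∀ m, m ∈ K ↔ z m = 0 := fun m => by rw [hK, LinearMap.mem_ker]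
    have hKd : ∀ m ∈ K, d m ∈ K := fun m hm => by
      rw [hKz] at hm ⊢
      rw [hzd, hm, map_zero, neg_zero]
    obtain ⟨C, hC, hCd⟩ := compl a ha0 d hd (K ⊓ N) (fun n hn => ⟨hKd n hn.1, hNd n hn.2⟩)
    obtain ⟨U, hU⟩ : ∃ U, U = C ⊓ K := ⟨_, rfl⟩
    have hUd : ∀ u ∈ U, d u ∈ U := fun u hu => by
      rw [hU] at hu ⊢
      exact ⟨hCd u hu.1, hKd u hu.2⟩
    have hUK : ∀ u ∈ U, z u = 0 := fun u hu => by
      rw [hU] at hu
      exact (hKz u).1 hu.2
    have hKU : ∀ m, z m = 0 → ∃ n ∈ N, ∃ u ∈ U, m = n + u := by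
      intro m hm
      have h1 : K ⊓ N ⊔ C = ⊤ := hC.sup_eq_top
      have h2 : m ∈ K ⊓ N ⊔ C := by
        rw [h1]
        trivial
      obtain ⟨n, hn, c, hc, hnc⟩ := Submodule.mem_sup.1 h2
      refine ⟨n, hn.2, c, ?_, hnc.symm⟩
      rw [hU]
      refine ⟨hc, (hKz c).2 ?_⟩
      have h3 : z n = 0 := (hKz n).1 hn.1
      rw [← hnc, map_add, h3, zero_add] at hm
      exact hm
    have hNU : Disjoint N U := by
      rw [Submodule.disjoint_def]
      intro x hx hx'
      have hd1 := Submodule.disjoint_def.1 hC.disjoint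
      rw [hU] at hx'
      exact hd1 x ⟨hx'.2, hx⟩ hx'.1
    obtain ⟨U', hU', hU'd⟩ := compl a ha0 d hd (N ⊔ U) (fun x hx => by
      obtain ⟨n, hn, u, hu, rfl⟩ := Submodule.mem_sup.1 hx
      rw [map_add]
      exact Submodule.add_mem_sup (hNd n hn) (hUd u hu))
    have hdec : ∀ m, ∃ (n : N) (u : U) (u' : U'), m = (n : M) + u + u' := by
      intro m
      have h1 : N ⊔ U ⊔ U' = ⊤ := hU'.sup_eq_top
      have h2 : m ∈ N ⊔ U ⊔ U' := by
        rw [h1]
        trivial
      obtain ⟨x, hx, u', hu', rfl⟩ := Submodule.mem_sup.1 h2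
      obtain ⟨n, hn, u, hu, rfl⟩ := Submodule.mem_sup.1 hx
      exact ⟨⟨n, hn⟩, ⟨u, hu⟩, ⟨u', hu'⟩, rfl⟩
    have hFU : FiniteDimensional F U := finSub U
    obtain ⟨sU, hsU⟩ := hJ0 F E R U δE a (d.restrict hUd) hE hδ ha (fun u => Subtype.ext (hd u))
    have hsU' : ∀ u : U, ((sU ⟨d u, hUd u u.2⟩ : U) : M) = -d (sU u) := fun u =>
      congrArg Subtype.val (hsU u)
    have hs'd' : ∀ n : N, ((s' ⟨d n, hNd n n.2⟩ : N) : M) = -d (s' n) := fun n =>
      congrArg Subtype.val (hs'd n)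
    obtain ⟨s, hs1, hs2, hs3⟩ := glue N U U' hNU hU' (N.subtype ∘ₗ s'.toLinearMap)
      (U.subtype ∘ₗ sU.toLinearMap) (q ∘ₗ s'.toLinearMap ∘ₗ zr ∘ₗ U'.subtype)
    have hs1' : ∀ n : N, s n = s' n := hs1
    have hs2' : ∀ u : U, s u = sU u := hs2
    have hs3' : ∀ u : U', s u = q (s' (zr u)) := hs3
    have hsz : ∀ m, z (s m) = s (z m) := by
      intro m
      have hr : s (z m) = s' (zr m) := hs1' (zr m)
      rw [hr]
      obtain ⟨n, u, u', rfl⟩ := hdec m
      have h1 : zr (n : M) = zN n := rfl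
      have h2 : zr (u : M) = 0 := Subtype.ext (hUK u u.2)
      have h3 : z (q (s' (zr u'))) = s' (zr u') := congrArg Subtype.val (hq1 _)
      have h4 : zr ((n : M) + u + u') = zN n + zr u' := by rw [map_add, map_add, h1, h2, add_zero]
      have h5 : s ((n : M) + u + u') = (s' n : M) + sU u + q (s' (zr u')) := by
        rw [map_add, map_add, hs1', hs2', hs3']
      rw [h4, h5, map_add, map_add, hUK _ (sU u).2, add_zero, h3, map_add s', hs'z,
        Submodule.coe_add]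
      rfl
    have hsd : ∀ m, s (d m) = -d (s m) := by
      intro m
      obtain ⟨n, u, u', rfl⟩ := hdec m
      rw [map_add, map_add, map_add, map_add, map_add, map_add, map_add, map_add, hs1', hs2', hs3',
        neg_add, neg_add]
      have h1 : s (d n) = -d (s' n) := by
        rw [← hs'd']
        exact hs1' ⟨d n, hNd n n.2⟩
      have h2 : s (d u) = -d (sU u) := by
        rw [← hsU']
        exact hs2' ⟨d u, hUd u u.2⟩
      have h3 : s (d u') = -d (q (s' (zr u'))) := by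
        have h4 : s (d u') = q (s' (zr (d u'))) := hs3' ⟨d u', hU'd u' u'.2⟩
        rw [h4, hzdN, map_neg, hs'd, neg_neg, hq2]
      rw [h1, h2, h3]
    have hinj : Function.Injective s := by
      rw [injective_iff_map_eq_zero]
      intro m hm
      have h1 : z m = 0 := by
        have h2 : s (z m) = 0 := by rw [← hsz, hm, map_zero]
        have h3 : s (z m) = s' (zr m) := hs1' (zr m)
        rw [h3] at h2
        have h4 : s' (zr m) = 0 := Subtype.ext h2
        have h5 := (LinearEquiv.map_eq_zero_iff s').1 h4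
        exact congrArg Subtype.val h5
      obtain ⟨n, hn, u, hu, rfl⟩ := hKU m h1
      have e1 : s n = s' ⟨n, hn⟩ := hs1' ⟨n, hn⟩
      have e2 : s u = sU ⟨u, hu⟩ := hs2' ⟨u, hu⟩
      rw [map_add, e1, e2] at hm
      have h6 : ((s' ⟨n, hn⟩ : N) : M) = -(sU ⟨u, hu⟩ : U) := eq_neg_of_add_eq_zero_left hm
      have h7 : ((s' ⟨n, hn⟩ : N) : M) ∈ U := by
        rw [h6]
        exact U.neg_mem (sU ⟨u, hu⟩).2
      have h8 := Submodule.disjoint_def.1 hNU _ (s' ⟨n, hn⟩).2 h7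
      have h9 : s' ⟨n, hn⟩ = 0 := Subtype.ext h8
      have h10 : n = 0 := congrArg Subtype.val ((LinearEquiv.map_eq_zero_iff s').1 h9)
      rw [h8] at h6
      have h11 : sU ⟨u, hu⟩ = 0 := Subtype.ext (neg_eq_zero.1 h6.symm)
      have h12 : u = 0 := congrArg Subtype.val ((LinearEquiv.map_eq_zero_iff sU).1 h11)
      rw [h10, h12, add_zero]
    have hsur : Function.Surjective s :=
      (LinearMap.injective_iff_surjective (f := s.restrictScalars F)).1 hinj
    exact ⟨LinearEquiv.ofBijective s ⟨hinj, hsur⟩, hsd, fun m => (hsz m).symm⟩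

end JN

theorem stmt_JN (hJ0 : Stmt_J0) : Stmt_JN := by
  intro F E R M _ _ _ _ _ _ _ _ _ _ _ _ _ _ δE a d z hE hδ ha hd hzd hz
  obtain ⟨k, hk⟩ := hz
  refine JN.main hJ0 F E R δE a hE hδ ha k M d z hd hzd fun m => ?_
  have h1 := LinearMap.congr_fun hk m
  rw [Module.End.pow_apply] at h1
  exact h1

end Pool.Agent.LPer
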