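import Pool.Agent.Work.MP_037d19_lp.Defs2

/-! # Block LFD: local fields -/

namespace Pool.Agent.LPer

open scoped Topology
open MeasureTheory Filter

theorem stmt_LFD : Stmt_LFD := by
  intro p _ F _ _ _
  have h1 : CharZero F := charZero_of_injective_algebraMap (algebraMap ℚ_[p] F).injective
  have h2 : CompleteSpace F := FiniteDimensional.complete ℚ_[p] F
  have h3 : ProperSpace F := FiniteDimensional.proper ℚ_[p] F
  have h4 : IsUltrametricDist F := by
    apply IsUltrametricDist.isUltrametricDist_of_forall_norm_natCast_le_one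
    intro n
    have e1 : (n : F) = algebraMap ℚ_[p] F (n : ℚ_[p]) := by rw [map_natCast]
    rw [e1, norm_algebraMap']
    exact Padic.norm_int_le_one n
  refine ⟨h1, h2, h3, inferInstance, ?_⟩
  have h5 : {x : F | ‖x‖ = 1} = Metric.sphere (0 : F) 1 := by
    ext x
    simp
  rw [h5]
  exact IsUltrametricDist.isOpen_sphere 0 one_ne_zero

end Pool.Agent.LPer
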