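import Pool.Agent.Work.MP_037d19_lp.Stmts2

/-!
# Block LOC: the local step (helper79)
-/

namespace Pool.Agent.LPer

open scoped Topology Pointwise
open Filter

namespace LOC

section

variable {X : Type} [TopologicalSpace X]

theorem ind [T2Space X] {B : Set X} (ho : IsOpen B) (hc : IsCompact B) :
    (B.indicator fun _ => (1 : ℂ)) ∈ LCC X := by
  refine ⟨?_, ?_⟩
  · rw [IsLocallyConstant.iff_exists_open]
    intro x
    by_cases hx : x ∈ B
    · refine ⟨B, ho, hx, fun y hy => ?_⟩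
      rw [Set.indicator_of_mem hx, Set.indicator_of_mem hy]
    · refine ⟨Bᶜ, hc.isClosed.isOpen_compl, hx, fun y hy => ?_⟩
      rw [Set.indicator_of_notMem hx, Set.indicator_of_notMem hy]
  · exact HasCompactSupport.intro hc fun x hx => Set.indicator_of_notMem hx _

/-- the indicator function of a compact open set -/
noncomputable def I [T2Space X] (B : Set X) (ho : IsOpen B) (hc : IsCompact B) : LCC X :=
  ⟨B.indicator fun _ => (1 : ℂ), ind ho hc⟩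

theorem I_eq [T2Space X] {B : Set X} {ho : IsOpen B} {hc : IsCompact B} (x : X) :
    (I B ho hc).1 x = B.indicator (fun _ => (1 : ℂ)) x := rfl

theorem indicator_congr {B C : Set X} {x y : X} (h : x ∈ B ↔ y ∈ C) :
    B.indicator (fun _ => (1 : ℂ)) x = C.indicator (fun _ => (1 : ℂ)) y := by
  by_cases hx : x ∈ B
  · rw [Set.indicator_of_mem hx, Set.indicator_of_mem (h.1 hx)]
  · rw [Set.indicator_of_notMem hx, Set.indicator_of_notMem fun hy => hx (h.2 hy)]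

end

section

variable {X Γ : Type} [TopologicalSpace X] [T2Space X] [Group Γ] [TopologicalSpace Γ]
    [IsTopologicalGroup Γ] [MulAction Γ X] [ContinuousSMul Γ X]

theorem compact_smul {K : Set Γ} (hK : IsCompact K) {N : Set X} (hN : IsCompact N) :
    IsCompact (K • N) := by
  have h1 : K • N = (fun p : Γ × X => p.1 • p.2) '' (K ×ˢ N) := by
    ext x
    simp only [Set.mem_smul, Set.mem_image, Set.mem_prod, Prod.exists]
    constructor
    · rintro ⟨k, hk, y, hy, rfl⟩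
      exact ⟨k, y, ⟨hk, hy⟩, rfl⟩
    · rintro ⟨k, y, ⟨hk, hy⟩, rfl⟩
      exact ⟨k, hk, y, hy, rfl⟩
  rw [h1]
  exact (hK.prod hN).image continuous_smul

theorem compact_tr (γ : Γ) {B : Set X} (hB : IsCompact B) : IsCompact (γ • B) :=
  hB.image (continuous_const_smul γ)

theorem open_tr (γ : Γ) {B : Set X} (hB : IsOpen B) : IsOpen (γ • B) := hB.smul γ

variable (T : LCC X →ₗ[ℂ] ℂ)

theorem agree {k : ℕ} {ρ : X → ℕ} (hk : ∀ f : LCC X, (∀ x, k ≤ ρ x → f.1 x = 0) → T f = 0)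
    {f g : LCC X} (h : ∀ x, k ≤ ρ x → f.1 x = g.1 x) : T f = T g := by
  have h1 : T (f - g) = 0 := hk _ fun x hx => by
    have h2 : (f - g).1 x = f.1 x - g.1 x := rfl
    rw [h2, h x hx, sub_self]
  rw [map_sub] at h1
  exact sub_eq_zero.1 h1

theorem translate {Λ : Γ →* ℂˣ}
    (hT1 : ∀ γ (f f' : LCC X), (∀ x, f'.1 (γ • x) = f.1 x) → T f' = Λ γ * T f) (γ : Γ) {B : Set X}
    (ho : IsOpen B) (hc : IsCompact B) :
    T (I (γ • B) (open_tr γ ho) (compact_tr γ hc)) = Λ γ * T (I B ho hc) :=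
  hT1 γ _ _ fun x => indicator_congr Set.smul_mem_smul_set_iff

theorem count {Λ : Γ →* ℂˣ}
    (hT1 : ∀ γ (f f' : LCC X), (∀ x, f'.1 (γ • x) = f.1 x) → T f' = Λ γ * T f)
    {k : ℕ} {ρ : X → ℕ} (hk : ∀ f : LCC X, (∀ x, k ≤ ρ x → f.1 x = 0) → T f = 0)
    {s : Finset Γ} {c : ℕ} (hs : ∀ r ∈ s, Λ r = 1) {B C : Set X} (hBo : IsOpen B) (hBc : IsCompact B)
    (hCo : IsOpen C) (hCc : IsCompact C)
    (h : ∀ y, k ≤ ρ y → ∑ r ∈ s, (r • B).indicator (fun _ => (1 : ℂ)) y =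
      (c : ℂ) * C.indicator (fun _ => (1 : ℂ)) y) :
    (s.card : ℂ) * T (I B hBo hBc) = c * T (I C hCo hCc) := by
  have h1 : T (∑ r ∈ s, I (r • B) (open_tr r hBo) (compact_tr r hBc)) = T ((c : ℂ) • I C hCo hCc) := by
    refine agree T hk fun y hy => ?_
    have e1 : (∑ r ∈ s, I (r • B) (open_tr r hBo) (compact_tr r hBc)).1 y =
        ∑ r ∈ s, (r • B).indicator (fun _ => (1 : ℂ)) y := by
      have e2 : (∑ r ∈ s, I (r • B) (open_tr r hBo) (compact_tr r hBc)).1 =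
          ∑ r ∈ s, (I (r • B) (open_tr r hBo) (compact_tr r hBc)).1 :=
        map_sum (LCC X).subtype _ s
      rw [e2, Finset.sum_apply]
      rfl
    rw [e1, h y hy]
    rfl
  rw [map_sum, map_smul, smul_eq_mul] at h1
  rw [← h1]
  have h2 : ∀ r ∈ s, T (I (r • B) (open_tr r hBo) (compact_tr r hBc)) = T (I B hBo hBc) := by
    intro r hr
    rw [translate T hT1 r hBo hBc, hs r hr, Units.val_one, one_mul]
  rw [Finset.sum_congr rfl h2, Finset.sum_const, nsmul_eq_mul]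

end

end LOC

theorem stmt_LOC (hCNT : Stmt_CNT) : Stmt_LOC := by
  classical
  intro X Γ _ _ _ _ _ _ _ _ _ τ a Λ lam m ρ hB T hT1 hT2 k hk K hKo hKc hKΛ hKl x₀ hx₀
  rcases lt_or_eq_of_le hx₀ with hlt | heq
  · refine ⟨{x | k ≤ ρ x}ᶜ, (hB.clo k).isOpen_compl.mem_nhds (by
      simp only [Set.mem_compl_iff, Set.mem_ofPred_eq, not_le]
      exact hlt), ?_⟩
    intro N hN _ _ F hF
    apply hk
    intro x hx
    rw [hF]
    apply Set.indicator_of_notMem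
    intro hmem
    obtain ⟨γ, hγ, n, hn, rfl⟩ := Set.mem_smul.1 hmem
    rw [hB.inv] at hx
    exact hN hn hx
  · obtain ⟨γ₀, hγ₀, hmγ₀⟩ := hB.pt x₀
    -- the group `K'`
    obtain ⟨φ, hφ⟩ : ∃ φ : Γ →* Γ, ∀ γ, φ γ = γ₀⁻¹ * a γ * γ₀ :=
      ⟨(MulAut.conj γ₀⁻¹).toMonoidHom.comp a.toMulEquiv.toMonoidHom, fun γ => by
        change γ₀⁻¹ * a γ * (γ₀⁻¹)⁻¹ = _
        rw [inv_inv]⟩
    obtain ⟨h, hh⟩ : ∃ h : Γ ≃ₜ Γ, ∀ γ, h γ = γ₀⁻¹ * a γ * γ₀ :=
      ⟨a.toHomeomorph.trans ((Homeomorph.mulLeft γ₀⁻¹).trans (Homeomorph.mulRight γ₀)), fun γ => rfl⟩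
    obtain ⟨K', hK'⟩ : ∃ K' : Subgroup Γ, K' = K.map φ := ⟨_, rfl⟩
    have hK'm : ∀ γ, γ ∈ K' ↔ ∃ κ ∈ K, γ₀⁻¹ * a κ * γ₀ = γ := by
      intro γ
      rw [hK', Subgroup.mem_map]
      simp only [hφ]
    have hK's : (K' : Set Γ) = h '' (K : Set Γ) := by
      ext γ
      simp only [SetLike.mem_coe, hK'm, Set.mem_image, hh]
    have hK'o : IsOpen (K' : Set Γ) := by
      rw [hK's]
      exact h.isOpenMap _ hKo
    have hK'c : IsCompact (K' : Set Γ) := by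
      rw [hK's]
      exact hKc.image h.continuous
    obtain ⟨K'', hK''⟩ : ∃ K'' : Subgroup Γ, K'' = K ⊓ K' := ⟨_, rfl⟩
    have hK''s : (K'' : Set Γ) = (K : Set Γ) ∩ (K' : Set Γ) := by rw [hK'', Subgroup.coe_inf]
    have hK''o : IsOpen (K'' : Set Γ) := by
      rw [hK''s]
      exact hKo.inter hK'o
    have hK''c : IsCompact (K'' : Set Γ) := by
      rw [hK''s]
      exact hKc.inter_right (Subgroup.isClosed_of_isOpen K' hK'o)
    have hK''K : K'' ≤ K := hK'' ▸ inf_le_left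
    have hK''K' : K'' ≤ K' := hK'' ▸ inf_le_right
    have hΛK : ∀ r ∈ K, Λ r = 1 := fun r hr => hKΛ hr
    have hlK : ∀ r ∈ K, lam r = 1 := fun r hr => hKl hr
    have hΛK' : ∀ r ∈ K', Λ r = 1 := by
      intro r hr
      obtain ⟨κ, hκ, rfl⟩ := (hK'm r).1 hr
      have h1 := hB.lamΛ κ
      rw [hΛK κ hκ, hlK κ hκ, one_mul] at h1
      rw [map_mul, map_mul, h1, mul_one, ← map_mul, inv_mul_cancel, map_one]
    -- the closed set `Z`
    obtain ⟨Z, hZ⟩ : ∃ Z : Set X, Z = {x | k ≤ ρ x} := ⟨_, rfl⟩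
    have hZm : ∀ x, x ∈ Z ↔ k ≤ ρ x := fun x => by
      rw [hZ]
      rfl
    have hZinv : ∀ (γ : Γ) (x : X), γ • x ∈ Z ↔ x ∈ Z := fun γ x => by rw [hZm, hZm, hB.inv]
    have hρτ : ∀ x, ρ (τ x) = ρ x := by
      intro x
      obtain ⟨γ, hγ, -⟩ := hB.pt x
      rw [hγ, hB.inv]
    have hle : 𝓝[Z] x₀ ≤ 𝓝[{x | ρ x = ρ x₀}] x₀ := by
      apply nhdsWithin_le_of_mem
      rw [mem_nhdsWithin]
      refine ⟨{x | k + 1 ≤ ρ x}ᶜ, (hB.clo (k + 1)).isOpen_compl, ?_, ?_⟩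
      · simp only [Set.mem_compl_iff, Set.mem_ofPred_eq, not_le]
        omega
      · rintro x ⟨h1, h2⟩
        rw [hZm] at h2
        simp only [Set.mem_compl_iff, Set.mem_ofPred_eq, not_le] at h1
        simp only [Set.mem_ofPred_eq]
        omega
    have hstab : ∀ γ : Γ, γ • x₀ = x₀ → ∀ O ∈ 𝓝 γ, ∀ᶠ x in 𝓝[Z] x₀, ∃ γ' ∈ O, γ' • x = x :=
      fun γ h O hO => (hB.stab x₀ γ h O hO).filter_mono hle
    obtain ⟨W₁, hW₁, s₁, c₁, hs₁, hc₁, hsK₁, hsum₁⟩ := hCNT X Γ K K'' Z x₀ hKo hKc hK''o hK''K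
      (fun γ _ x hx => (hZinv γ x).2 hx) hstab
    obtain ⟨W₂, hW₂, s₂, c₂, hs₂, hc₂, hsK₂, hsum₂⟩ := hCNT X Γ K' K'' Z x₀ hK'o hK'c hK''o hK''K'
      (fun γ _ x hx => (hZinv γ x).2 hx) hstab
    have hO : {γ : Γ | γ₀⁻¹ * γ ∈ K'} ∈ 𝓝 γ₀ := by
      have h1 : IsOpen {γ : Γ | γ₀⁻¹ * γ ∈ K'} := hK'o.preimage (continuous_const.mul continuous_id)
      refine h1.mem_nhds ?_
      simp only [Set.mem_ofPred_eq, inv_mul_cancel]
      exact K'.one_mem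
    have htr := (hB.trans x₀ γ₀ hγ₀.symm _ hO).filter_mono hle
    rw [Filter.Eventually, mem_nhdsWithin_iff_exists_mem_nhds_inter] at htr
    obtain ⟨W₃, hW₃, hW₃s⟩ := htr
    have hW₄ : {x | m x = m x₀} ∈ 𝓝 x₀ := (hB.mloc {m x₀}).mem_nhds rfl
    refine ⟨W₁ ∩ W₂ ∩ W₃ ∩ {x | m x = m x₀},
      inter_mem (inter_mem (inter_mem hW₁ hW₂) hW₃) hW₄, ?_⟩
    intro N hN hNo hNc F hF
    have hN₁ : N ⊆ W₁ := fun x hx => (hN hx).1.1.1
    have hN₂ : N ⊆ W₂ := fun x hx => (hN hx).1.1.2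
    have hN₃ : N ⊆ W₃ := fun x hx => (hN hx).1.2
    have hN₄ : ∀ x ∈ N, m x = m x₀ := fun x hx => (hN hx).2
    have oK : IsOpen ((K : Set Γ) • N) := hNo.smul_left
    have cK : IsCompact ((K : Set Γ) • N) := LOC.compact_smul hKc hNc
    have oK' : IsOpen ((K' : Set Γ) • N) := hNo.smul_left
    have cK' : IsCompact ((K' : Set Γ) • N) := LOC.compact_smul hK'c hNc
    have oK'' : IsOpen ((K'' : Set Γ) • N) := hNo.smul_left
    have cK'' : IsCompact ((K'' : Set Γ) • N) := LOC.compact_smul hK''c hNc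
    have hFe : F = LOC.I _ oK cK := Subtype.ext hF
    rw [hFe]
    -- step (2)
    have e1 := LOC.count T hT1 hk (fun r hr => hΛK r (hsK₁ r hr)) oK'' cK'' oK cK
      (fun y hy => hsum₁ N hN₁ y ((hZm y).2 hy))
    have e2 := LOC.count T hT1 hk (fun r hr => hΛK' r (hsK₂ r hr)) oK'' cK'' oK' cK'
      (fun y hy => hsum₂ N hN₂ y ((hZm y).2 hy))
    -- step (1)
    have oτ : IsOpen (τ '' ((K : Set Γ) • N)) := τ.isOpenMap _ oK
    have cτ : IsCompact (τ '' ((K : Set Γ) • N)) := cK.image τ.continuous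
    have e3 : T ((m x₀ : ℂ) • LOC.I _ oτ cτ) = - T (LOC.I _ oK cK) := by
      refine hT2 _ _ fun x => ?_
      have h1 : ((m x₀ : ℂ) • LOC.I _ oτ cτ).1 (τ x) =
          (m x₀ : ℂ) * (τ '' ((K : Set Γ) • N)).indicator (fun _ => (1 : ℂ)) (τ x) := rfl
      rw [h1, LOC.I_eq]
      by_cases hx : x ∈ (K : Set Γ) • N
      · rw [Set.indicator_of_mem (Set.mem_image_of_mem τ hx), Set.indicator_of_mem hx]
        obtain ⟨κ, hκ, n, hn, rfl⟩ := Set.mem_smul.1 hx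
        rw [hB.mlam, hlK κ hκ, one_mul, hN₄ n hn]
      · have hx' : τ x ∉ τ '' ((K : Set Γ) • N) := by
          rintro ⟨y, hy, hyx⟩
          exact hx (τ.injective hyx ▸ hy)
        rw [Set.indicator_of_notMem hx, Set.indicator_of_notMem hx', mul_zero, mul_zero]
    have e4 : T (LOC.I _ oτ cτ) = T (LOC.I (γ₀ • ((K' : Set Γ) • N)) (LOC.open_tr γ₀ oK')
        (LOC.compact_tr γ₀ cK')) := by
      refine LOC.agree T hk fun y hy => LOC.indicator_congr ?_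
      constructor
      · rintro ⟨z, hz, rfl⟩
        obtain ⟨κ, hκ, x, hx, rfl⟩ := Set.mem_smul.1 hz
        rw [hρτ, hB.inv] at hy
        obtain ⟨γ', hγ', hγx⟩ := hW₃s ⟨hN₃ hx, (hZm x).2 hy⟩
        rw [hB.τa, ← hγx]
        refine Set.mem_smul_set.2 ⟨((γ₀⁻¹ * a κ * γ₀) * (γ₀⁻¹ * γ')) • x, Set.mem_smul.2 ⟨_, ?_, x, hx, rfl⟩, ?_⟩
        · exact K'.mul_mem ((hK'm _).2 ⟨κ, hκ, rfl⟩) hγ'
        · rw [← mul_smul, ← mul_smul]
          congr 1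
          group
      · intro hmem
        obtain ⟨z, hz, rfl⟩ := Set.mem_smul_set.1 hmem
        obtain ⟨κ₁, hκ₁, x, hx, rfl⟩ := Set.mem_smul.1 hz
        simp only [hB.inv] at hy
        obtain ⟨γ', hγ', hγx⟩ := hW₃s ⟨hN₃ hx, (hZm x).2 hy⟩
        have h1 : κ₁ * (γ₀⁻¹ * γ')⁻¹ ∈ K' := K'.mul_mem hκ₁ (K'.inv_mem hγ')
        obtain ⟨κ, hκ, hκe⟩ := (hK'm _).1 h1
        refine ⟨κ • x, Set.mem_smul.2 ⟨κ, hκ, x, hx, rfl⟩, ?_⟩
        rw [hB.τa, ← hγx, ← mul_smul, ← mul_smul]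
        congr 1
        have h2 : κ₁ = (γ₀⁻¹ * a κ * γ₀) * (γ₀⁻¹ * γ') := by
          rw [hκe]
          group
        rw [h2]
        group
    have e5 := LOC.translate T hT1 γ₀ oK' cK'
    have hm1 : (m x₀ : ℂ) * (Λ γ₀ : ℂ) = 1 := by
      rw [← Units.val_mul, hmγ₀, Units.val_one]
    have e6 : T (LOC.I _ oK' cK') = - T (LOC.I _ oK cK) := by
      rw [← e3, map_smul, smul_eq_mul, e4, e5, ← mul_assoc, hm1, one_mul]
    rw [e6] at e2
    have hc₁' : (c₁ : ℂ) ≠ 0 := by exact_mod_cast hc₁.ne'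
    have hc₂' : (c₂ : ℂ) ≠ 0 := by exact_mod_cast hc₂.ne'
    have h7 : ((s₁.card * c₂ + s₂.card * c₁ : ℕ) : ℂ) * T (LOC.I _ oK'' cK'') = 0 := by
      push_cast
      linear_combination (c₂ : ℂ) * e1 + (c₁ : ℂ) * e2
    have h8 : ((s₁.card * c₂ + s₂.card * c₁ : ℕ) : ℂ) ≠ 0 := by
      have h9 : 0 < s₁.card * c₂ := Nat.mul_pos (Finset.card_pos.2 hs₁) hc₂
      exact_mod_cast (Nat.add_pos_left h9 _).ne'
    have h10 : T (LOC.I _ oK'' cK'') = 0 := (mul_eq_zero.1 h7).resolve_left h8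
    rw [h10, mul_zero] at e1
    exact (mul_eq_zero.1 e1.symm).resolve_left hc₁'

end Pool.Agent.LPer
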