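import Pool.Agent.Work.MP_037d19_lp.BlockMat

/-!
# Linear periods: block MUL
-/

namespace Pool.Agent.LPer

open Matrix (fromBlocks)

theorem stmt_MUL (hNRD : Stmt_NRD) : Stmt_MUL := by
  intro F E A _ _ _ _ _ _ _ _ _ ι k δE a hD
  obtain ⟨Ω, _, _, _, _, φ, hφδ, hF, hE, -, -⟩ := hNRD F E A ι k δE a hD.rankE hD.rankA hD.sq hD.nsq
  have hchar : CharZero Ω := charZero_of_injective_algebraMap (algebraMap F Ω).injective
  have hα : algebraMap E Ω δE ≠ 0 := by
    intro h
    have h1 : δE = 0 := by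
      rwa [map_eq_zero] at h
    have h2 := hD.sq
    rw [h1] at h2
    apply hD.nsq 0
    apply (algebraMap F E).injective
    rw [← h2]
    simp
  have hdiag : ∀ x : Cent ι, φ (x : A) = fromBlocks (φ (x : A)).toBlocks₁₁ 0 0
      (φ (x : A)).toBlocks₂₂ := by
    intro x
    apply BM.diag_of_comm hα
    rw [← hφδ, ← map_mul, ← map_mul, (hD.cent x).mp x.2]
  refine ⟨fun x y => ?_, ?_, fun x y => ?_, ?_⟩
  · apply (algebraMap F Ω).injective
    rw [map_mul, hF, hF, hF, map_mul, Matrix.det_mul]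
  · apply (algebraMap F Ω).injective
    rw [hF, map_one, map_one, Matrix.det_one]
  · apply (algebraMap E Ω).injective
    rw [map_mul, hE, hE, hE, ← Matrix.det_mul]
    congr 1
    have : ((x * y : Cent ι) : A) = (x : A) * y := rfl
    rw [this, map_mul, hdiag x, hdiag y, Matrix.fromBlocks_multiply]
    simp
  · apply (algebraMap E Ω).injective
    rw [hE]
    have : ((1 : Cent ι) : A) = 1 := rfl
    rw [this, map_one, map_one, ← Matrix.fromBlocks_one, Matrix.toBlocks_fromBlocks₁₁,
      Matrix.det_one]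

end Pool.Agent.LPer
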