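import Pool.Agent.Work.MP_037d19_lp.BlockMat

/-!
# Linear periods: block N0
-/

namespace Pool.Agent.LPer

open Matrix (fromBlocks)

theorem stmt_N0 (hNRD : Stmt_NRD) : Stmt_N0 := by
  intro F E A _ _ _ _ _ _ _ _ _ ι k δE a hD J hJ h h' hh'
  obtain ⟨Ω, _, _, _, _, φ, hφδ, hF, hE, -, -⟩ := hNRD F E A ι k δE a hD.rankE hD.rankA hD.sq hD.nsq
  have hchar : CharZero Ω := charZero_of_injective_algebraMap (algebraMap F Ω).injective
  have hα : algebraMap E Ω δE ≠ 0 := by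
    intro h
    have h1 : δE = 0 := by
      rwa [map_eq_zero] at h
    have h2 := hD.sq
    rw [h1] at h2
    apply hD.nsq 0
    apply (algebraMap F E).injective
    rw [← h2]
    simp
  have hdiag : φ (h : A) = fromBlocks (φ (h : A)).toBlocks₁₁ 0 0
      (φ (h : A)).toBlocks₂₂ := by
    apply BM.diag_of_comm hα
    rw [← hφδ, ← map_mul, ← map_mul, (hD.cent h).mp h.2]
  have hJm : φ (J : A) = fromBlocks 0 (φ (J : A)).toBlocks₁₂ (φ (J : A)).toBlocks₂₁ 0 := by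
    apply BM.anti_of_anticomm hα
    rw [← hφδ, ← map_mul, ← map_mul, hJ, map_neg]
  have hJi : ((J⁻¹ : Aˣ) : A) * ι δE = -(ι δE * ((J⁻¹ : Aˣ) : A)) := by
    have : ((J⁻¹ : Aˣ) : A) * ((J : A) * ι δE) * ((J⁻¹ : Aˣ) : A) =
        ((J⁻¹ : Aˣ) : A) * (-(ι δE * J)) * ((J⁻¹ : Aˣ) : A) := by rw [hJ]
    rw [← mul_assoc, Units.inv_mul, one_mul, mul_neg, neg_mul, mul_assoc, mul_assoc,
      Units.mul_inv, mul_one] at this
    rw [this, neg_neg]
  have hKm : φ ((J⁻¹ : Aˣ) : A) = fromBlocks 0 (φ ((J⁻¹ : Aˣ) : A)).toBlocks₁₂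
      (φ ((J⁻¹ : Aˣ) : A)).toBlocks₂₁ 0 := by
    apply BM.anti_of_anticomm hα
    rw [← hφδ, ← map_mul, ← map_mul, hJi, map_neg]
  set P := (φ (J : A)).toBlocks₁₂
  set Q := (φ (J : A)).toBlocks₂₁
  set R := (φ ((J⁻¹ : Aˣ) : A)).toBlocks₁₂
  set S := (φ ((J⁻¹ : Aˣ) : A)).toBlocks₂₁
  have hPS : P * S = 1 := by
    have : φ (J : A) * φ ((J⁻¹ : Aˣ) : A) = 1 := by
      rw [← map_mul, Units.mul_inv, map_one]
    rw [hJm, hKm, Matrix.fromBlocks_multiply, ← Matrix.fromBlocks_one, Matrix.fromBlocks_inj] at this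
    simpa using this.1
  apply (algebraMap E Ω).injective
  rw [map_mul, hE, hE, ← IsScalarTower.algebraMap_apply, hF, hh', map_mul, map_mul, hJm, hKm]
  rw [hdiag, Matrix.fromBlocks_multiply, Matrix.fromBlocks_multiply]
  simp only [Matrix.toBlocks_fromBlocks₁₁, Matrix.det_fromBlocks_zero₂₁, zero_mul, mul_zero,
    add_zero, zero_add]
  rw [Matrix.det_mul, Matrix.det_mul]
  have hdet : P.det * S.det = 1 := by rw [← Matrix.det_mul, hPS, Matrix.det_one]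
  linear_combination (φ (h : A)).toBlocks₂₂.det * (φ (h : A)).toBlocks₁₁.det * hdet

end Pool.Agent.LPer
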