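import Pool.Agent.Work.MP_037d19_lp.Stmts

/-!
# Linear periods: block N1
-/

namespace Pool.Agent.LPer

open scoped Polynomial Topology TensorProduct
open Module (finrank)
open Matrix (fromBlocks)

namespace N1

theorem key {Ω : Type} [Field Ω] {k : ℕ} (α : Ω) (c P Q R S : Matrix (Fin k) (Fin k) Ω)
    (hc : c = α • (1 : Matrix (Fin k) (Fin k) Ω))
    (h11 : P * P + Q * R = c * c) (h12 : P * Q + Q * S = 0) (h21 : R * P + S * R = 0)
    (h22 : R * Q + S * S = c * c)
    (hD : (fromBlocks (c - P) (-Q) (-R) (-c - S)).det ≠ 0) :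
    (fromBlocks (c - P) (-Q) (-R) (-c - S)).det =
      (-1) ^ k * ((fromBlocks (c - P) (-Q) (-R) (-c - S) *
        fromBlocks (c - P) (-Q) (-R) (-c - S)).toBlocks₁₁).det := by
  have hcl : ∀ M : Matrix (Fin k) (Fin k) Ω, c * M = α • M := by
    intro M
    rw [hc, Matrix.smul_mul, one_mul]
  have hcr : ∀ M : Matrix (Fin k) (Fin k) Ω, M * c = α • M := by
    intro M
    rw [hc, Matrix.mul_smul, mul_one]
  have e11 : (c - P) * (c - P) + -Q * -R = (2 * α) • (c - P) := by
    have h : (c - P) * (c - P) + -Q * -R = c * c - c * P - P * c + (P * P + Q * R) := by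
      noncomm_ring
    rw [h, h11, hcl P, hcr P, hcl c]
    module
  have e12 : (c - P) * -Q + -Q * (-c - S) = 0 := by
    have h : (c - P) * -Q + -Q * (-c - S) = Q * c - c * Q + (P * Q + Q * S) := by
      noncomm_ring
    rw [h, h12, hcl Q, hcr Q]
    module
  have e21 : -R * (c - P) + (-c - S) * -R = 0 := by
    have h : -R * (c - P) + (-c - S) * -R = c * R - R * c + (R * P + S * R) := by
      noncomm_ring
    rw [h, h21, hcl R, hcr R]
    module
  have e22 : -R * -Q + (-c - S) * (-c - S) = (2 * α) • (c + S) := by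
    have h : -R * -Q + (-c - S) * (-c - S) = c * c + c * S + S * c + (R * Q + S * S) := by
      noncomm_ring
    rw [h, h22, hcl S, hcr S, hcl c]
    module
  have hDD : fromBlocks (c - P) (-Q) (-R) (-c - S) * fromBlocks (c - P) (-Q) (-R) (-c - S) =
      fromBlocks ((2 * α) • (c - P)) 0 0 ((2 * α) • (c + S)) := by
    rw [Matrix.fromBlocks_multiply, e11, e12, e21, e22]
  have hne : (c + S).det ≠ 0 := by
    intro h0
    have h1 : (fromBlocks (c - P) (-Q) (-R) (-c - S) *
        fromBlocks (c - P) (-Q) (-R) (-c - S)).det = 0 := by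
      rw [hDD, Matrix.det_fromBlocks_zero₂₁, Matrix.det_smul (c + S), h0, mul_zero, mul_zero]
    rw [Matrix.det_mul] at h1
    exact hD (by simpa using h1)
  have hU : fromBlocks (c - P) (-Q) (-R) (-c - S) *
      fromBlocks (1 : Matrix (Fin k) (Fin k) Ω) Q 0 (c + S) =
      fromBlocks (c - P) 0 (-R) ((-(2 * α)) • (c + S)) := by
    rw [Matrix.fromBlocks_multiply]
    have f12 : (c - P) * Q + -Q * (c + S) = 0 := by
      have h : (c - P) * Q + -Q * (c + S) = c * Q - Q * c - (P * Q + Q * S) := by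
        noncomm_ring
      rw [h, h12, hcl Q, hcr Q]
      module
    have f22 : -R * Q + (-c - S) * (c + S) = (-(2 * α)) • (c + S) := by
      have h : -R * Q + (-c - S) * (c + S) = - (c * c) - c * S - S * c - (R * Q + S * S) := by
        noncomm_ring
      rw [h, h22, hcl S, hcr S, hcl c]
      module
    rw [f12, f22, mul_one, mul_zero, add_zero, mul_one, mul_zero, add_zero]
  have hdet := congrArg Matrix.det hU
  rw [Matrix.det_mul, Matrix.det_fromBlocks_zero₂₁, Matrix.det_fromBlocks_zero₁₂,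
    Matrix.det_smul (c + S), Matrix.det_one, one_mul] at hdet
  rw [hDD, Matrix.toBlocks_fromBlocks₁₁, Matrix.det_smul (c - P)]
  have h3 : (fromBlocks (c - P) (-Q) (-R) (-c - S)).det * (c + S).det =
      ((-1) ^ k * ((2 * α) ^ Fintype.card (Fin k) * (c - P).det)) * (c + S).det := by
    rw [hdet, Fintype.card_fin, neg_pow (2 * α) k]
    ring
  exact mul_right_cancel₀ hne h3

end N1

theorem stmt_N1 (hNRD : Stmt_NRD) : Stmt_N1 := by
  intro F E A _ _ _ _ _ _ _ _ _ ι k δE a hd X hX hu h hh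
  obtain ⟨Ω, _, _, _, _, φ, hφ, hF, hE, -, -⟩ :=
    hNRD F E A ι k δE a hd.rankE hd.rankA hd.sq hd.nsq
  set α : Ω := algebraMap E Ω δE with hα
  obtain ⟨P, Q, R, S, hPQ⟩ : ∃ P Q R S : Matrix (Fin k) (Fin k) Ω,
      φ X = fromBlocks P Q R S :=
    ⟨(φ X).toBlocks₁₁, (φ X).toBlocks₁₂, (φ X).toBlocks₂₁, (φ X).toBlocks₂₂,
      (Matrix.fromBlocks_toBlocks _).symm⟩
  set c : Matrix (Fin k) (Fin k) Ω := α • (1 : Matrix (Fin k) (Fin k) Ω) with hc
  have hcc : c * c = (α ^ 2) • (1 : Matrix (Fin k) (Fin k) Ω) := by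
    rw [hc, Matrix.smul_mul, one_mul, smul_smul, sq]
  have hsq : fromBlocks P Q R S * fromBlocks P Q R S = fromBlocks (c * c) 0 0 (c * c) := by
    rw [← hPQ, ← map_mul, hX, AlgHom.commutes, hcc]
    have h1 : α ^ 2 = algebraMap F Ω a := by
      rw [hα, ← map_pow, hd.sq, ← IsScalarTower.algebraMap_apply]
    rw [h1, Algebra.algebraMap_eq_smul_one, algebraMap_smul, ← Matrix.fromBlocks_one,
      Matrix.fromBlocks_smul, smul_zero]
  rw [Matrix.fromBlocks_multiply, Matrix.fromBlocks_inj] at hsq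
  obtain ⟨h11, h12, h21, h22⟩ := hsq
  have hD : φ (ι δE - X) = fromBlocks (c - P) (-Q) (-R) (-c - S) := by
    rw [map_sub, hφ, hPQ, sub_eq_add_neg, Matrix.fromBlocks_neg, Matrix.fromBlocks_add, zero_add,
      zero_add, ← sub_eq_add_neg, ← sub_eq_add_neg]
  have hne : (fromBlocks (c - P) (-Q) (-R) (-c - S)).det ≠ 0 := by
    have h1 : IsUnit (φ (ι δE - X)) := hu.map φ
    rw [hD, Matrix.isUnit_iff_isUnit_det] at h1
    exact h1.ne_zero
  have hk := N1.key α c P Q R S hc h11 h12 h21 h22 hne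
  rw [← hD, ← map_mul, ← hh, ← hF, ← hE] at hk
  apply (algebraMap E Ω).injective
  rw [← IsScalarTower.algebraMap_apply, hk, map_mul, map_pow, map_neg, map_one]

end Pool.Agent.LPer
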