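import Pool.Agent.Work.MP_037d19_lp.Stmts

/-!
# Linear periods: block N2
-/

namespace Pool.Agent.LPer

open scoped Polynomial Topology TensorProduct
open Module (finrank)
open Matrix (fromBlocks)

namespace N2

section mat

set_option linter.unusedSectionVars false

variable {n Ω : Type} [Fintype n] [DecidableEq n] [Field Ω] [CharZero Ω]

theorem self_neg (α : Ω) (hα : α ≠ 0) (B : Matrix n n Ω) (h : α • B = -(α • B)) : B = 0 := by
  have h2 : (2 * α) • B = 0 := by
    rw [mul_smul, two_smul]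
    nth_rewrite 2 [h]
    exact add_neg_cancel _
  rcases smul_eq_zero.mp h2 with h3 | h3
  · exfalso
    rcases mul_eq_zero.mp h3 with h4 | h4
    · exact two_ne_zero h4
    · exact hα h4
  · exact h3

/-- a matrix commuting with `diag(α, -α)` is block diagonal -/
theorem blk_comm (α : Ω) (hα : α ≠ 0) (X : Matrix (n ⊕ n) (n ⊕ n) Ω)
    (h : X * fromBlocks (α • (1 : Matrix n n Ω)) 0 0 (-(α • (1 : Matrix n n Ω))) =
      fromBlocks (α • (1 : Matrix n n Ω)) 0 0 (-(α • (1 : Matrix n n Ω))) * X) :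
    ∃ P Q : Matrix n n Ω, X = fromBlocks P 0 0 Q := by
  rw [← Matrix.fromBlocks_toBlocks X] at h ⊢
  generalize X.toBlocks₁₁ = A at *
  generalize X.toBlocks₁₂ = B at *
  generalize X.toBlocks₂₁ = C at *
  generalize X.toBlocks₂₂ = D at *
  rw [Matrix.fromBlocks_multiply, Matrix.fromBlocks_multiply, Matrix.fromBlocks_inj] at h
  obtain ⟨-, h2, h3, -⟩ := h
  have hB : B = 0 := by
    apply self_neg α hα
    simp only [mul_zero, zero_add, zero_mul, add_zero, Matrix.mul_neg, Matrix.mul_smul,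
      Matrix.mul_one, Matrix.smul_mul, Matrix.one_mul] at h2
    exact h2.symm
  have hC : C = 0 := by
    apply self_neg α hα
    simp only [mul_zero, zero_add, zero_mul, add_zero, Matrix.neg_mul, Matrix.mul_smul,
      Matrix.mul_one, Matrix.smul_mul, Matrix.one_mul] at h3
    exact h3
  exact ⟨A, D, by rw [hB, hC]⟩

/-- a matrix anticommuting with `diag(α, -α)` is block antidiagonal -/
theorem blk_anti (α : Ω) (hα : α ≠ 0) (X : Matrix (n ⊕ n) (n ⊕ n) Ω)
    (h : X * fromBlocks (α • (1 : Matrix n n Ω)) 0 0 (-(α • (1 : Matrix n n Ω))) =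
      -(fromBlocks (α • (1 : Matrix n n Ω)) 0 0 (-(α • (1 : Matrix n n Ω))) * X)) :
    ∃ P Q : Matrix n n Ω, X = fromBlocks 0 P Q 0 := by
  rw [← Matrix.fromBlocks_toBlocks X] at h ⊢
  generalize X.toBlocks₁₁ = A at *
  generalize X.toBlocks₁₂ = B at *
  generalize X.toBlocks₂₁ = C at *
  generalize X.toBlocks₂₂ = D at *
  rw [Matrix.fromBlocks_multiply, Matrix.fromBlocks_multiply, Matrix.fromBlocks_neg,
    Matrix.fromBlocks_inj] at h
  obtain ⟨h1, -, -, h4⟩ := h
  have hA : A = 0 := by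
    apply self_neg α hα
    simp only [mul_zero, zero_mul, add_zero, Matrix.mul_smul,
      Matrix.mul_one, Matrix.smul_mul, Matrix.one_mul] at h1
    exact h1
  have hD : D = 0 := by
    apply self_neg α hα
    simp only [mul_zero, zero_add, zero_mul, Matrix.mul_smul, Matrix.mul_neg,
      Matrix.neg_mul, Matrix.mul_one, Matrix.smul_mul, Matrix.one_mul, neg_neg] at h4
    exact h4.symm
  exact ⟨B, C, by rw [hA, hD]⟩

theorem blocks_sub (A B C D A' B' C' D' : Matrix n n Ω) :
    fromBlocks A B C D - fromBlocks A' B' C' D' =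
      fromBlocks (A - A') (B - B') (C - C') (D - D') := by
  ext i j
  cases i <;> cases j <;> simp

theorem det_S (P : Matrix n n Ω) : (fromBlocks (1 - P) P P (1 - P)).det = (1 - P - P).det := by
  have h : fromBlocks (1 : Matrix n n Ω) 1 0 1 * fromBlocks (1 - P) P P (1 - P) *
      fromBlocks (1 : Matrix n n Ω) (-1) 0 1 = fromBlocks 1 0 P (1 - P - P) := by
    rw [Matrix.fromBlocks_multiply, Matrix.fromBlocks_multiply]
    congr 1
    · noncomm_ring
    · noncomm_ring
    · noncomm_ring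
    · noncomm_ring
  have h2 := congrArg Matrix.det h
  rw [Matrix.det_mul, Matrix.det_mul, Matrix.det_fromBlocks_zero₂₁, Matrix.det_fromBlocks_zero₂₁,
    Matrix.det_fromBlocks_zero₁₂, Matrix.det_one, one_mul, one_mul, one_mul, mul_one] at h2
  exact h2

/-- the determinant identity -/
theorem det_main (P Q J12 J21 L12 L21 : Matrix n n Ω) (hP : P * P = P) (h1 : J12 * L21 = 1)
    (h2 : J21 * L12 = 1) (hJQ : J12 * Q = P * J12)
    (hJP : J21 * P = Q * J21) :
    (fromBlocks (1 - P) (P * J12) (Q * J21) (1 - Q)).det * (P * (L12 * L21) - (1 - P)).det =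
      (-1) ^ Fintype.card n := by
  set Mm : Matrix n n Ω := J12 * J21 with hM
  have hPM : P * Mm = Mm * P := by
    rw [hM, ← mul_assoc, ← hJQ, mul_assoc, ← hJP, mul_assoc]
  have hML : Mm * (L12 * L21) = 1 := by
    rw [hM, mul_assoc, ← mul_assoc J21, h2, one_mul, h1]
  have hLM : (L12 * L21) * Mm = 1 := mul_eq_one_comm.mp hML
  -- conjugation
  have e1 : fromBlocks 1 0 0 J12 * fromBlocks (1 - P) (P * J12) (Q * J21) (1 - Q) *
      fromBlocks 1 0 0 L21 = fromBlocks (1 - P) P (P * Mm) (1 - P) := by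
    rw [Matrix.fromBlocks_multiply, Matrix.fromBlocks_multiply]
    congr 1
    · simp
    · simp only [Matrix.one_mul, Matrix.zero_mul, Matrix.mul_zero, zero_add, add_zero]
      rw [mul_assoc, h1, mul_one]
    · simp only [Matrix.mul_one, Matrix.zero_mul, Matrix.mul_zero, zero_add, add_zero]
      rw [hM, ← mul_assoc, hJQ, mul_assoc]
    · have h3 : J12 * (1 - Q) * L21 = 1 - P := by
        rw [mul_sub, mul_one, hJQ, sub_mul, h1, mul_assoc, h1, mul_one]
      simp only [Matrix.zero_mul, zero_add, Matrix.mul_zero]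
      exact h3
  have e2 : fromBlocks (1 - P) P (P * Mm) (1 - P) =
      fromBlocks (1 - P) P P (1 - P) * fromBlocks (P * Mm + (1 - P)) 0 0 1 := by
    rw [Matrix.fromBlocks_multiply]
    have hz : (1 - P) * P = 0 := by rw [sub_mul, one_mul, hP, sub_self]
    have hz' : P * (1 - P) = 0 := by rw [mul_sub, mul_one, hP, sub_self]
    have b1 : (1 - P) * (P * Mm + (1 - P)) = 1 - P := by
      rw [mul_add, ← mul_assoc, hz, zero_mul, zero_add, mul_sub, mul_one, hz, sub_zero]
    have b2 : P * (P * Mm + (1 - P)) = P * Mm := by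
      rw [mul_add, ← mul_assoc, hP, hz', add_zero]
    congr 1
    · simp only [Matrix.mul_zero, add_zero]
      exact b1.symm
    · simp
    · simp only [Matrix.mul_zero, add_zero]
      exact b2.symm
    · simp
  have e3 : (fromBlocks (1 - P) (P * J12) (Q * J21) (1 - Q)).det =
      (1 - P - P).det * (P * Mm + (1 - P)).det := by
    have h3 := congrArg Matrix.det e1
    rw [Matrix.det_mul, Matrix.det_mul, Matrix.det_fromBlocks_zero₂₁,
      Matrix.det_fromBlocks_zero₂₁, e2, Matrix.det_mul, Matrix.det_fromBlocks_zero₂₁, det_S,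
      Matrix.det_one, one_mul, one_mul, mul_one] at h3
    have h4 : J12.det * L21.det = 1 := by
      rw [← Matrix.det_mul, h1, Matrix.det_one]
    rw [← h3, mul_comm J12.det, mul_assoc, h4, mul_one]
  have e4 : (P * Mm + (1 - P)) * (P * (L12 * L21) - (1 - P)) = -(1 - P - P) := by
    have hz : (1 - P) * P = 0 := by rw [sub_mul, one_mul, hP, sub_self]
    have hz' : P * (1 - P) = 0 := by rw [mul_sub, mul_one, hP, sub_self]
    have hz2 : (1 - P) * (1 - P) = 1 - P := by rw [sub_mul, one_mul, hz', sub_zero]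
    have a1 : P * Mm * (P * (L12 * L21)) = P := by
      rw [hPM, mul_assoc, ← mul_assoc P, hP, hM, ← hM, ← mul_assoc, ← hPM, mul_assoc, hML, mul_one]
    have a2 : P * Mm * (1 - P) = 0 := by rw [hPM, mul_assoc, hz', mul_zero]
    have a3 : (1 - P) * (P * (L12 * L21)) = 0 := by rw [← mul_assoc, hz, zero_mul]
    rw [add_mul, mul_sub (P * Mm), mul_sub (1 - P), a1, a2, a3, hz2]
    noncomm_ring
  have e5 : (1 - P - P) * -(1 - P - P) = -1 := by
    have : (1 - P - P) * -(1 - P - P) = -1 + (4 : ℕ) • P - (4 : ℕ) • (P * P) := by noncomm_ring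
    rw [this, hP]
    abel
  rw [e3, mul_assoc, ← Matrix.det_mul, e4, ← Matrix.det_mul, e5, Matrix.det_neg, Matrix.det_one,
    mul_one]

end mat

end N2

/-- N2 -/
theorem stmt_N2 (h0 : Stmt_NRD) : Stmt_N2 := by
  intro F E A _ _ _ _ _ _ _ _ _ ι k δE a hD J e hJ he heδ hJe h hh
  obtain ⟨Ω, iΩ, iE, iF, iT, φ, p1, p2, p3, -, -⟩ :=
    h0 F E A ι k δE a hD.rankE hD.rankA hD.sq hD.nsq
  have hch : CharZero Ω := charZero_of_injective_algebraMap (algebraMap F Ω).injective
  have hδ0 : δE ≠ 0 := by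
    rintro rfl
    have h1 := hD.sq
    rw [zero_pow two_ne_zero] at h1
    have h2 : a = 0 := by
      apply (algebraMap F E).injective
      rw [← h1, map_zero]
    exact hD.nsq 0 (by rw [h2, zero_pow two_ne_zero])
  have hα : algebraMap E Ω δE ≠ 0 := by
    intro h1
    exact hδ0 ((algebraMap E Ω).injective (by rw [h1, map_zero]))
  obtain ⟨P, Q, hPQ⟩ := N2.blk_comm (algebraMap E Ω δE) hα (φ e) (by
    rw [← p1, ← map_mul, ← map_mul, heδ])
  obtain ⟨J12, J21, hJJ⟩ := N2.blk_anti (algebraMap E Ω δE) hα (φ (J : A)) (by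
    rw [← p1, ← map_mul, ← map_mul, hJ, map_neg])
  have hJi : ((J⁻¹ : Aˣ) : A) * ι δE = -(ι δE * ((J⁻¹ : Aˣ) : A)) := by
    have h1 : ι δE * (J : A) = -((J : A) * ι δE) := by rw [hJ, neg_neg]
    calc ((J⁻¹ : Aˣ) : A) * ι δE = ((J⁻¹ : Aˣ) : A) * (ι δE * (J : A)) * ((J⁻¹ : Aˣ) : A) := by
          rw [mul_assoc, mul_assoc, Units.mul_inv, mul_one]
      _ = -(ι δE * ((J⁻¹ : Aˣ) : A)) := by
          rw [h1, mul_neg, neg_mul, ← mul_assoc, Units.inv_mul, one_mul]
  obtain ⟨L12, L21, hLL⟩ := N2.blk_anti (algebraMap E Ω δE) hα (φ ((J⁻¹ : Aˣ) : A)) (by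
    rw [← p1, ← map_mul, ← map_mul, hJi, map_neg])
  have q1 : φ (J : A) * φ ((J⁻¹ : Aˣ) : A) = 1 := by rw [← map_mul, Units.mul_inv, map_one]
  have q2 : φ ((J⁻¹ : Aˣ) : A) * φ (J : A) = 1 := by rw [← map_mul, Units.inv_mul, map_one]
  have q3 : φ e * φ e = φ e := by rw [← map_mul, he]
  have q4 : φ (J : A) * φ e = φ e * φ (J : A) := by rw [← map_mul, hJe, map_mul]
  rw [hJJ, hLL, Matrix.fromBlocks_multiply, ← Matrix.fromBlocks_one, Matrix.fromBlocks_inj] at q1
  rw [hJJ, hLL, Matrix.fromBlocks_multiply, ← Matrix.fromBlocks_one, Matrix.fromBlocks_inj] at q2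
  rw [hPQ, Matrix.fromBlocks_multiply, Matrix.fromBlocks_inj] at q3
  rw [hPQ, hJJ, Matrix.fromBlocks_multiply, Matrix.fromBlocks_multiply, Matrix.fromBlocks_inj] at q4
  simp only [Matrix.mul_zero, Matrix.zero_mul, zero_add, add_zero] at q1 q2 q3 q4
  have key := N2.det_main P Q J12 J21 L12 L21 q3.1 q1.1 q1.2.2.2 q4.2.1 q4.2.2.1
  apply (algebraMap E Ω).injective
  rw [map_mul, ← IsScalarTower.algebraMap_apply, p2, p3, hh]
  have e1 : φ (e * (J : A) + (1 - e)) = fromBlocks (1 - P) (P * J12) (Q * J21) (1 - Q) := by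
    rw [map_add, map_mul, map_sub, map_one, hPQ, hJJ, Matrix.fromBlocks_multiply,
      ← Matrix.fromBlocks_one, N2.blocks_sub, Matrix.fromBlocks_add]
    simp
  have e2 : (φ (e * ((J⁻¹ : Aˣ) : A) * ((J⁻¹ : Aˣ) : A) - (1 - e))).toBlocks₁₁ =
      P * (L12 * L21) - (1 - P) := by
    rw [map_sub, map_mul, map_mul, map_sub, map_one, hPQ, hLL, Matrix.fromBlocks_multiply,
      Matrix.fromBlocks_multiply, ← Matrix.fromBlocks_one, N2.blocks_sub,
      N2.blocks_sub, Matrix.toBlocks_fromBlocks₁₁]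
    simp [mul_assoc]
  rw [e1, e2, key, Fintype.card_fin]
  simp

end Pool.Agent.LPer
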