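import Pool.Agent.Work.MP_037d19_lp.BlockMat

/-! # Block N2P (helper95) -/

namespace Pool.Agent.LPer

open Matrix (fromBlocks)

theorem N2P.det_anti {k : ℕ} {Ω : Type} [Field Ω] (P Q : Matrix (Fin k) (Fin k) Ω) :
    (fromBlocks 0 P Q 0).det = (-1) ^ k * (P.det * Q.det) := by
  have h1 : fromBlocks 0 P Q 0 = fromBlocks P 0 0 Q *
      fromBlocks (0 : Matrix (Fin k) (Fin k) Ω) (1 : Matrix (Fin k) (Fin k) Ω)
      (1 : Matrix (Fin k) (Fin k) Ω) (0 : Matrix (Fin k) (Fin k) Ω) := by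
    rw [Matrix.fromBlocks_multiply]
    simp
  have h2 : (fromBlocks (0 : Matrix (Fin k) (Fin k) Ω) (1 : Matrix (Fin k) (Fin k) Ω)
      (1 : Matrix (Fin k) (Fin k) Ω) (0 : Matrix (Fin k) (Fin k) Ω)) * fromBlocks (1 : Matrix (Fin k) (Fin k) Ω)
      (1 : Matrix (Fin k) (Fin k) Ω) (0 : Matrix (Fin k) (Fin k) Ω) (1 : Matrix (Fin k) (Fin k) Ω) =
      fromBlocks (0 : Matrix (Fin k) (Fin k) Ω) (1 : Matrix (Fin k) (Fin k) Ω)
      (1 : Matrix (Fin k) (Fin k) Ω) (1 : Matrix (Fin k) (Fin k) Ω) := by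
    rw [Matrix.fromBlocks_multiply]
    simp
  have h3 : (fromBlocks (0 : Matrix (Fin k) (Fin k) Ω) (1 : Matrix (Fin k) (Fin k) Ω)
      (1 : Matrix (Fin k) (Fin k) Ω) (0 : Matrix (Fin k) (Fin k) Ω)).det = (-1) ^ k := by
    have h4 := congrArg Matrix.det h2
    rw [Matrix.det_mul, Matrix.det_fromBlocks_zero₂₁, Matrix.det_fromBlocks_one₂₂] at h4
    simpa [Matrix.det_neg] using h4
  rw [h1, Matrix.det_mul, h3, Matrix.det_fromBlocks_zero₂₁]
  ring

theorem stmt_N2P (hNRD : Stmt_NRD) : Stmt_N2' := by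
  intro F E A _ _ _ _ _ _ _ _ _ ι k δE a hD J hJ h hh
  obtain ⟨Ω, _, _, _, _, φ, hφδ, hF, hE, -, -⟩ := hNRD F E A ι k δE a hD.rankE hD.rankA hD.sq hD.nsq
  have hchar : CharZero Ω := charZero_of_injective_algebraMap (algebraMap F Ω).injective
  have hα : algebraMap E Ω δE ≠ 0 := by
    intro h
    have h1 : δE = 0 := by
      rwa [map_eq_zero] at h
    have h2 := hD.sq
    rw [h1] at h2
    apply hD.nsq 0
    apply (algebraMap F E).injective
    rw [← h2]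
    simp
  have hJm : φ (J : A) = fromBlocks 0 (φ (J : A)).toBlocks₁₂ (φ (J : A)).toBlocks₂₁ 0 := by
    apply BM.anti_of_anticomm hα
    rw [← hφδ, ← map_mul, ← map_mul, hJ, map_neg]
  apply (algebraMap E Ω).injective
  rw [map_mul, hE, ← IsScalarTower.algebraMap_apply, hF, hh, map_mul, hJm, N2P.det_anti,
    Matrix.fromBlocks_multiply]
  simp only [Matrix.toBlocks_fromBlocks₁₁, zero_mul, zero_add, Matrix.det_mul, map_pow, map_neg,
    map_one]
  rw [← mul_assoc, ← mul_pow]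
  simp

end Pool.Agent.LPer
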