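import Pool.Agent.Work.MP_037d19_lp.Defs2
import Pool.Agent.Work.MP_037d19_lp.B_N0

/-!
# Linear periods: block NNM (norm of the reduced norm, and reduced norms of scalars)
-/

namespace Pool.Agent.LPer

open Matrix (fromBlocks)
open Module (finrank)
open scoped Polynomial

namespace NNM

/-- The quadratic extension: coordinates, the conjugation and the norm. -/
theorem exists_sigma {F E : Type} [Field F] [CharZero F] [Field E] [Algebra F E] {δE : E} {a : F}
    (h2 : finrank F E = 2) (hsq : δE ^ 2 = algebraMap F E a) (hns : ∀ b : F, b ^ 2 ≠ a) :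
    (∀ z : E, ∃ x y : F, z = algebraMap F E x + algebraMap F E y * δE) ∧
    ∃ σ : E ≃ₐ[F] E, σ δE = -δE ∧ ∀ z : E, algebraMap F E (Algebra.norm F z) = z * σ z := by
  have : FiniteDimensional F E := Module.finite_of_finrank_pos (by rw [h2]; norm_num)
  have : CharZero E := charZero_of_injective_algebraMap (algebraMap F E).injective
  have hδ0 : δE ≠ 0 := by
    intro h
    rw [h] at hsq
    apply hns 0
    apply (algebraMap F E).injective
    rw [← hsq]
    simp
  have hnot : ∀ x : F, algebraMap F E x ≠ δE := by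
    intro x hx
    apply hns x
    apply (algebraMap F E).injective
    rw [← hsq, ← hx, map_pow]
  have hli : LinearIndependent F ![(1 : E), δE] := by
    rw [LinearIndependent.pair_iff]
    intro s t hst
    have ht : t = 0 := by
      by_contra ht
      apply hnot (-(s / t))
      have ht' : algebraMap F E t ≠ 0 := by
        rwa [Ne, map_eq_zero]
      rw [Algebra.smul_def, Algebra.smul_def, mul_one] at hst
      rw [map_neg, map_div₀]
      field_simp
      linear_combination -hst
    rw [ht, zero_smul, add_zero, Algebra.smul_def, mul_one, map_eq_zero] at hst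
    exact ⟨hst, ht⟩
  have hspan : Submodule.span F (Set.range ![(1 : E), δE]) = ⊤ :=
    hli.span_eq_top_of_card_eq_finrank (by rw [h2]; rfl)
  have hcoord : ∀ z : E, ∃ x y : F, z = algebraMap F E x + algebraMap F E y * δE := by
    intro z
    have hz : z ∈ Submodule.span F (Set.range ![(1 : E), δE]) := by
      rw [hspan]; exact Submodule.mem_top
    rw [Matrix.range_cons, Matrix.range_cons, Matrix.range_empty, Set.union_empty,
      Set.singleton_union, Submodule.mem_span_pair] at hz
    obtain ⟨x, y, hxy⟩ := hz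
    refine ⟨x, y, ?_⟩
    rw [← hxy, Algebra.smul_def, Algebra.smul_def, mul_one]
  refine ⟨hcoord, ?_⟩
  have : Algebra.IsQuadraticExtension F E := ⟨h2⟩
  have hcard : Fintype.card (E ≃ₐ[F] E) = 2 := by
    rw [← Nat.card_eq_fintype_card, IsGalois.card_aut_eq_finrank, h2]
  obtain ⟨σ, hσ⟩ : ∃ σ : E ≃ₐ[F] E, σ ≠ 1 := by
    have : Nontrivial (E ≃ₐ[F] E) := Fintype.one_lt_card_iff_nontrivial.mp (by omega)
    exact exists_ne 1
  have hσδ : σ δE = -δE := by
    have h3 : (σ δE) ^ 2 = δE ^ 2 := by
      rw [← map_pow, hsq, AlgEquiv.commutes]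
    rcases sq_eq_sq_iff_eq_or_eq_neg.mp h3 with h4 | h4
    · exfalso
      apply hσ
      apply AlgEquiv.ext
      intro z
      obtain ⟨x, y, hz⟩ := hcoord z
      rw [hz, map_add, map_mul, AlgEquiv.commutes, AlgEquiv.commutes, h4, AlgEquiv.one_apply]
    · exact h4
  refine ⟨σ, hσδ, fun z => ?_⟩
  classical
  rw [Algebra.norm_eq_prod_automorphisms]
  have huniv : (Finset.univ : Finset (E ≃ₐ[F] E)) = {1, σ} := by
    symm
    apply Finset.eq_univ_of_card
    rw [Finset.card_pair (Ne.symm hσ), hcard]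
  rw [huniv, Finset.prod_pair (Ne.symm hσ), AlgEquiv.one_apply]

section semilinear

variable {E R : Type} [Field E] [Ring R] [Algebra E R] [FiniteDimensional E R]

/-- Characteristic polynomials under a semilinear ring automorphism. -/
theorem charpoly_semilinear (σ : E ≃+* E) (c : R ≃+* R)
    (hc : ∀ (e : E) (x : R), c (e • x) = σ e • c x) (x : R) :
    (Algebra.lmul E R (c x)).charpoly =
      ((Algebra.lmul E R x).charpoly).map (σ : E →+* E) := by
  classical
  have hci : ∀ (e : E) (x : R), c.symm (e • x) = σ.symm e • c.symm x := by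
    intro e x
    apply c.injective
    rw [hc, RingEquiv.apply_symm_apply, RingEquiv.apply_symm_apply, RingEquiv.apply_symm_apply]
  let b := Module.finBasis E R
  let L : R ≃ₗ[E] (Fin (finrank E R) → E) :=
    { toFun := fun x i => σ (b.repr (c.symm x) i)
      map_add' := fun x y => by
        funext i
        simp only [map_add, Finsupp.add_apply, Pi.add_apply]
      map_smul' := fun e x => by
        funext i
        simp only [hci, map_smul, Finsupp.smul_apply, smul_eq_mul, map_mul,
          RingEquiv.apply_symm_apply, RingHom.id_apply, Pi.smul_apply]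
      invFun := fun v => c (b.equivFun.symm (fun i => σ.symm (v i)))
      left_inv := fun x => by
        have h1 : (fun i => σ.symm (σ (b.repr (c.symm x) i))) = b.equivFun (c.symm x) := by
          funext i
          rw [RingEquiv.symm_apply_apply, Module.Basis.equivFun_apply]
        show c (b.equivFun.symm (fun i => σ.symm (σ (b.repr (c.symm x) i)))) = x
        rw [h1, LinearEquiv.symm_apply_apply, RingEquiv.apply_symm_apply]
      right_inv := fun v => by
        funext i
        show σ (b.repr (c.symm (c (b.equivFun.symm (fun i => σ.symm (v i))))) i) = v i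
        rw [RingEquiv.symm_apply_apply, ← Module.Basis.equivFun_apply,
          LinearEquiv.apply_symm_apply, RingEquiv.apply_symm_apply] }
  let b' : Module.Basis (Fin (finrank E R)) E R := Module.Basis.ofEquivFun L
  have hb'r : ∀ (y : R) (i : Fin (finrank E R)), b'.repr y i = σ (b.repr (c.symm y) i) := by
    intro y i
    rw [← Module.Basis.equivFun_apply]
    show (Module.Basis.ofEquivFun L).equivFun y i = _
    rw [Module.Basis.equivFun_ofEquivFun]
    rfl
  have hb' : ∀ i, b' i = c (b i) := by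
    intro i
    apply b'.repr.injective
    ext j
    rw [hb'r (c (b i)) j, RingEquiv.symm_apply_apply, Module.Basis.repr_self,
      Module.Basis.repr_self, Finsupp.single_apply]
    split_ifs <;> simp
  rw [← LinearMap.charpoly_toMatrix (Algebra.lmul E R (c x)) b',
    ← LinearMap.charpoly_toMatrix (Algebra.lmul E R x) b, ← Matrix.charpoly_map]
  congr 1
  ext i j
  rw [Matrix.map_apply, LinearMap.toMatrix_apply, LinearMap.toMatrix_apply, hb'r, hb' j]
  have h1 : (Algebra.lmul E R (c x)) (c (b j)) = c (x * b j) := by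
    rw [map_mul]; rfl
  rw [h1, RingEquiv.symm_apply_apply]
  rfl

/-- Uniqueness of monic roots. -/
theorem monic_pow_inj {P Q : E[X]} (hP : P.Monic) (hQ : Q.Monic) {d : ℕ} (hd : d ≠ 0)
    (h : P ^ d = Q ^ d) : P = Q := by
  apply Polynomial.eq_of_monic_of_associated hP hQ
  apply associated_of_dvd_dvd
  · rw [← IsIntegrallyClosed.pow_dvd_pow_iff hd, h]
  · rw [← IsIntegrallyClosed.pow_dvd_pow_iff hd, h]

theorem redCharpoly_semilinear [Nontrivial R] (σ : E ≃+* E) (c : R ≃+* R)
    (hc : ∀ (e : E) (x : R), c (e • x) = σ e • c x) (x : R) :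
    redCharpoly E (c x) = (redCharpoly E x).map (σ : E →+* E) := by
  have hd : redDeg E R ≠ 0 := by
    have h1 : 0 < finrank E R := Module.finrank_pos
    unfold redDeg
    rw [Ne, Nat.sqrt_eq_zero]
    omega
  have hcp := charpoly_semilinear σ c hc x
  unfold redCharpoly
  by_cases h : ∃ P : E[X], P.Monic ∧ P ^ redDeg E R = (Algebra.lmul E R x).charpoly
  · have h' : ∃ P : E[X], P.Monic ∧ P ^ redDeg E R = (Algebra.lmul E R (c x)).charpoly := by
      obtain ⟨P, hP, hPd⟩ := h
      exact ⟨P.map (σ : E →+* E), hP.map _, by rw [hcp, ← hPd, Polynomial.map_pow]⟩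
    rw [dif_pos h, dif_pos h']
    apply monic_pow_inj h'.choose_spec.1 (h.choose_spec.1.map _) hd
    rw [h'.choose_spec.2, ← Polynomial.map_pow, h.choose_spec.2, hcp]
  · have h' : ¬ ∃ P : E[X], P.Monic ∧ P ^ redDeg E R = (Algebra.lmul E R (c x)).charpoly := by
      rintro ⟨P, hP, hPd⟩
      apply h
      refine ⟨P.map (σ.symm : E →+* E), hP.map _, ?_⟩
      rw [← Polynomial.map_pow, hPd, hcp, Polynomial.map_map]
      have : ((σ.symm : E →+* E).comp (σ : E →+* E)) = RingHom.id E := by
        ext e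
        simp
      rw [this, Polynomial.map_id]
    rw [dif_neg h, dif_neg h', Polynomial.map_one]

theorem nrd_semilinear [Nontrivial R] (σ : E ≃+* E) (c : R ≃+* R)
    (hc : ∀ (e : E) (x : R), c (e • x) = σ e • c x) (x : R) :
    nrd E (c x) = σ (nrd E x) := by
  unfold nrd
  rw [redCharpoly_semilinear σ c hc x, Polynomial.coeff_map, map_mul, map_pow, map_neg, map_one]
  rfl

end semilinear

end NNM

open NNM in
theorem stmt_NNM (_hNRP : Stmt_NRP) (_hCEN : Stmt_CEN) (hW : Stmt_W) (hNRD : Stmt_NRD) :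
    Stmt_NNM := by
  intro F E A _ _ _ _ _ _ _ _ _ ι k δE a hD
  obtain ⟨hcoord, σ, hσδ, hnorm⟩ := exists_sigma hD.rankE hD.sq hD.nsq
  obtain ⟨Ω, _, _, _, _, φ, hφδ, hF, hE, -, -⟩ := hNRD F E A ι k δE a hD.rankE hD.rankA hD.sq hD.nsq
  refine ⟨fun h => ?_, fun z => ?_, fun z => ?_⟩
  · obtain ⟨w, hw⟩ := hW F E A δE a (ι δE) hD.rankE hD.sq hD.nsq (by
      rw [← map_mul, ← sq, hD.sq, AlgHom.commutes])
    have hwι : ∀ e : E, (w : A) * ι e = ι (σ e) * w := by
      intro e
      obtain ⟨x, y, rfl⟩ := hcoord e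
      rw [map_add, map_mul, AlgHom.commutes, AlgHom.commutes, map_add, map_mul,
        AlgEquiv.commutes, AlgEquiv.commutes, hσδ, map_add, map_mul, AlgHom.commutes,
        AlgHom.commutes, map_neg, mul_add, add_mul, ← Algebra.commutes x (w : A), ← mul_assoc,
        ← Algebra.commutes y (w : A), mul_assoc, hw]
      noncomm_ring
    have hσσ : ∀ e, σ (σ e) = e := by
      intro e
      obtain ⟨x, y, rfl⟩ := hcoord e
      simp [hσδ]
    have hmem : ∀ x : A, x ∈ Cent ι → (w : A) * x * ((w⁻¹ : Aˣ) : A) ∈ Cent ι := by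
      intro x hx
      rw [mem_Cent_iff] at hx ⊢
      intro e
      have h1 : ι e * (w : A) = w * ι (σ e) := by
        rw [hwι, hσσ]
      have h2 : ι (σ e) * ((w⁻¹ : Aˣ) : A) = ((w⁻¹ : Aˣ) : A) * ι e := by
        have h3 : ((w⁻¹ : Aˣ) : A) * ((w : A) * ι (σ e)) * ((w⁻¹ : Aˣ) : A) =
            ((w⁻¹ : Aˣ) : A) * (ι e * (w : A)) * ((w⁻¹ : Aˣ) : A) := by rw [h1]
        rwa [← mul_assoc, Units.inv_mul, one_mul, mul_assoc, mul_assoc, Units.mul_inv,
          mul_one] at h3
      calc ι e * ((w : A) * x * ((w⁻¹ : Aˣ) : A)) = (ι e * w) * x * ((w⁻¹ : Aˣ) : A) := by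
            simp only [mul_assoc]
        _ = w * (ι (σ e) * x) * ((w⁻¹ : Aˣ) : A) := by rw [h1]; simp only [mul_assoc]
        _ = w * (x * ι (σ e)) * ((w⁻¹ : Aˣ) : A) := by rw [hx]
        _ = w * x * (ι (σ e) * ((w⁻¹ : Aˣ) : A)) := by simp only [mul_assoc]
        _ = w * x * ((w⁻¹ : Aˣ) : A) * ι e := by rw [h2]; simp only [mul_assoc]
    have hwinv : ((w⁻¹ : Aˣ) : A) * ι δE = -(ι δE * ((w⁻¹ : Aˣ) : A)) := by
      have : ((w⁻¹ : Aˣ) : A) * ((w : A) * ι δE) * ((w⁻¹ : Aˣ) : A) =
          ((w⁻¹ : Aˣ) : A) * (-(ι δE * w)) * ((w⁻¹ : Aˣ) : A) := by rw [hw]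
      rw [← mul_assoc, Units.inv_mul, one_mul, mul_neg, neg_mul, mul_assoc, mul_assoc,
        Units.mul_inv, mul_one] at this
      rw [this, neg_neg]
    have hmem' : ∀ x : A, x ∈ Cent ι → ((w⁻¹ : Aˣ) : A) * x * (w : A) ∈ Cent ι := by
      intro x hx
      rw [hD.cent] at hx ⊢
      have h4 : ι δE * ((w⁻¹ : Aˣ) : A) = -(((w⁻¹ : Aˣ) : A) * ι δE) := by
        rw [hwinv, neg_neg]
      calc ι δE * (((w⁻¹ : Aˣ) : A) * x * (w : A)) = (ι δE * ((w⁻¹ : Aˣ) : A)) * x * (w : A) := by
            simp only [mul_assoc]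
        _ = -(((w⁻¹ : Aˣ) : A) * (ι δE * x) * (w : A)) := by
            rw [h4]; simp only [mul_assoc, neg_mul]
        _ = -(((w⁻¹ : Aˣ) : A) * x * (ι δE * (w : A))) := by
            rw [hx]; simp only [mul_assoc]
        _ = ((w⁻¹ : Aˣ) : A) * x * (-(ι δE * (w : A))) := by rw [mul_neg]
        _ = ((w⁻¹ : Aˣ) : A) * x * (w : A) * ι δE := by
            rw [← hw]; simp only [mul_assoc]
    let c : Cent ι ≃+* Cent ι :=
      { toFun := fun x => ⟨(w : A) * x * ((w⁻¹ : Aˣ) : A), hmem x x.2⟩
        invFun := fun x => ⟨((w⁻¹ : Aˣ) : A) * x * (w : A), hmem' x x.2⟩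
        left_inv := fun x => by
          apply Subtype.ext
          show ((w⁻¹ : Aˣ) : A) * ((w : A) * x * ((w⁻¹ : Aˣ) : A)) * (w : A) = x
          simp [mul_assoc]
        right_inv := fun x => by
          apply Subtype.ext
          show (w : A) * (((w⁻¹ : Aˣ) : A) * x * (w : A)) * ((w⁻¹ : Aˣ) : A) = x
          simp [mul_assoc]
        map_mul' := fun x y => by
          apply Subtype.ext
          show (w : A) * ((x : A) * y) * ((w⁻¹ : Aˣ) : A) =
            ((w : A) * x * ((w⁻¹ : Aˣ) : A)) * ((w : A) * y * ((w⁻¹ : Aˣ) : A))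
          simp [mul_assoc]
        map_add' := fun x y => by
          apply Subtype.ext
          show (w : A) * ((x : A) + y) * ((w⁻¹ : Aˣ) : A) =
            (w : A) * x * ((w⁻¹ : Aˣ) : A) + (w : A) * y * ((w⁻¹ : Aˣ) : A)
          rw [mul_add, add_mul] }
    have : Nontrivial (Cent ι) := ⟨⟨0, 1, fun h0 => by
      have : (0 : A) = 1 := congrArg Subtype.val h0
      exact zero_ne_one this⟩⟩
    have hN0 := stmt_N0 hNRD F E A ι k δE a hD w hw h (c h) rfl
    have hcs : nrd E (c h) = σ (nrd E h) := by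
      apply nrd_semilinear σ.toRingEquiv c _ h
      intro e x
      apply Subtype.ext
      show (w : A) * (ι e * x) * ((w⁻¹ : Aˣ) : A) = ι (σ e) * ((w : A) * x * ((w⁻¹ : Aˣ) : A))
      rw [← mul_assoc, hwι]
      simp only [mul_assoc]
    apply (algebraMap F E).injective
    rw [← hN0, hcs, hnorm, mul_comm]
  · apply (algebraMap E Ω).injective
    rw [hE, map_pow, ← IsScalarTower.algebraMap_apply]
    have h1 : ((algebraMap F (Cent ι) z : Cent ι) : A) = algebraMap F A z := rfl
    rw [h1, AlgHom.commutes, Matrix.algebraMap_eq_diagonal]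
    have h2 : (Matrix.diagonal (algebraMap F ((Fin k ⊕ Fin k) → Ω) z)).toBlocks₁₁ =
        Matrix.diagonal (fun _ : Fin k => algebraMap F Ω z) := by
      ext i j
      simp [Matrix.toBlocks₁₁, Matrix.diagonal_apply]
    rw [h2, Matrix.det_diagonal]
    simp
  · apply (algebraMap F Ω).injective
    rw [hF, AlgHom.commutes, Matrix.algebraMap_eq_diagonal, Matrix.det_diagonal]
    simp [two_mul]

end Pool.Agent.LPer
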