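import Pool.Agent.Work.MP_037d19_lp.Stmts

/-!
# Linear periods: block NRD
-/

namespace Pool.Agent.LPer

open scoped Polynomial Topology TensorProduct
open Module (finrank)
open Matrix (fromBlocks)

theorem stmt_NRD (hNRP : Stmt_NRP) (hSPL : Stmt_SPL) (hCEN : Stmt_CEN) (hW : Stmt_W) :
    Stmt_NRD := by
  intro F E A _ _ _ _ _ _ _ _ _ ι k δE a hE hA hsq hns
  have hEchar : CharZero E := charZero_of_injective_algebraMap (algebraMap F E).injective
  have hEfin : FiniteDimensional F E := Module.finite_of_finrank_pos (by omega)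
  have hkpos : 0 < k := by
    rcases Nat.eq_zero_or_pos k with h | h
    · subst h
      have : 0 < finrank F A := Module.finrank_pos
      rw [hA] at this
      simp at this
    · exact h
  have halg : Algebra.IsAlgebraic F (AlgebraicClosure E) := Algebra.IsAlgebraic.trans F E _
  have hδδ : ι δE * ι δE = algebraMap F A a := by
    rw [← map_mul, ← pow_two, hsq, AlgHom.commutes]
  obtain ⟨w, hw⟩ := hW F E A δE a (ι δE) hE hsq hns hδδ
  have hα : (algebraMap E (AlgebraicClosure E) δE) ^ 2 = algebraMap F (AlgebraicClosure E) a := by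
    rw [← map_pow, hsq, ← IsScalarTower.algebraMap_apply]
  have ha : a ≠ 0 := fun h => hns 0 (by rw [h]; simp)
  obtain ⟨φ, hφ, hφδ⟩ := hSPL F A (AlgebraicClosure E) k (ι δE) w a _ hA hδδ hα ha w.isUnit hw
  obtain ⟨hC, ψ, hψ, hψv⟩ := hCEN F E A (AlgebraicClosure E) ι k δE a w φ hE hA hsq hns
    w.isUnit hw hφ hφδ
  have hne : Nonempty (Fin k) := ⟨⟨0, hkpos⟩⟩
  have hcard : Fintype.card (Fin k ⊕ Fin k) = 2 * k := by
    rw [Fintype.card_sum, Fintype.card_fin]
    ring
  obtain ⟨a1, a2⟩ := hNRP F A (AlgebraicClosure E) (Fin k ⊕ Fin k) φ (by rw [hcard, hA]) hφ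
  obtain ⟨b1, b2⟩ := hNRP E (Cent ι) (AlgebraicClosure E) (Fin k) ψ
    (by rw [Fintype.card_fin, hC]) hψ
  refine ⟨AlgebraicClosure E, inferInstance, inferInstance, inferInstance, inferInstance, φ,
    hφδ, a1, fun x => ?_, fun x => ?_, fun x => ?_⟩
  · rw [b1, hψv]
  · rw [← a2, hcard]
  · rw [← b2, Fintype.card_fin]

end Pool.Agent.LPer
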