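import Pool.Agent.Work.MP_037d19_lp.Stmts

/-! # Linear periods: block NRP (the reduced norm through a spanning matrix representation) -/

set_option autoImplicit false

namespace Pool.Agent.LPer

open scoped Polynomial Topology TensorProduct
open Module (finrank)

namespace NRP

lemma monic_root_unique {K : Type} [Field K] {P P' : K[X]} {d : ℕ} (hd : 0 < d)
    (hP : P.Monic) (hP' : P'.Monic) (h : P ^ d = P' ^ d) : P = P' := by
  have h1 : P ∣ P' := (IsIntegrallyClosed.pow_dvd_pow_iff hd.ne').mp (dvd_of_eq h)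
  have h2 : P' ∣ P := (IsIntegrallyClosed.pow_dvd_pow_iff hd.ne').mp (dvd_of_eq h.symm)
  exact Polynomial.eq_of_monic_of_associated hP hP' (associated_of_dvd_dvd h1 h2)

end NRP

theorem stmt_NRP (hCHP : Stmt_CHP) (hROOT : Stmt_ROOT) : Stmt_NRP := by
  intro K R Ω _ _ _ _ _ _ _ _ _ n _ _ _ ψ hdim hspan
  have hd : 0 < Fintype.card n := Fintype.card_pos
  have hred : redDeg K R = Fintype.card n := by
    unfold redDeg
    rw [hdim, Nat.sqrt_eq']
  have key : ∀ x : R, (redCharpoly K x).map (algebraMap K Ω) = (ψ x).charpoly ∧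
      redCharpoly K x ^ Fintype.card n = (Algebra.lmul K R x).charpoly := by
    intro x
    have hc := hCHP K R Ω n ψ hdim hspan x
    obtain ⟨P₀, h1, h2, h3⟩ := hROOT K Ω _ _ (Fintype.card n) hd (Matrix.charpoly_monic (ψ x)) hc
    have hex : ∃ P : K[X], P.Monic ∧ P ^ redDeg K R = (Algebra.lmul K R x).charpoly :=
      ⟨P₀, h1, by rw [hred, h3]⟩
    have hdef : redCharpoly K x = hex.choose := by
      unfold redCharpoly
      rw [dif_pos hex]
    obtain ⟨m1, m2⟩ := hex.choose_spec
    rw [← hdef] at m1 m2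
    rw [hred] at m2
    have heq : redCharpoly K x = P₀ := NRP.monic_root_unique hd m1 h1 (by rw [m2, h3])
    exact ⟨by rw [heq, h2], m2⟩
  refine ⟨fun x => ?_, fun x => ?_⟩
  · obtain ⟨k1, _⟩ := key x
    unfold nrd
    rw [hred, map_mul, map_pow, map_neg, map_one, Matrix.det_eq_sign_charpoly_coeff, ← k1,
      Polynomial.coeff_map]
  · obtain ⟨_, k2⟩ := key x
    unfold nrd
    rw [hred, LinearMap.det_eq_sign_charpoly_coeff, ← k2, hdim, mul_pow, ← pow_mul, ← sq]
    congr 1
    rw [Polynomial.coeff_zero_eq_eval_zero, Polynomial.coeff_zero_eq_eval_zero,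
      Polynomial.eval_pow]

end Pool.Agent.LPer
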