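import Pool.Agent.Work.MP_037d19_lp.Stmts

/-!
# Linear periods: block PA
-/

namespace Pool.Agent.LPer

open scoped Polynomial Topology TensorProduct
open Module (finrank)
open Matrix (fromBlocks)

namespace PA

section Alg

variable {F A : Type} [Field F] [Ring A] [Algebra F A]

/-- The configuration of block PA. -/
structure Cfg (a : F) (δ x e z : A) (D J : Aˣ) : Prop where
  hδ : δ * δ = algebraMap F A a
  hx : x * x = algebraMap F A a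
  he : e * e = e
  heδ : e * δ = δ * e
  hex : e * x = x * e
  hD : (D : A) = δ - (2 * e - 1) * x
  hez : e * z = 0
  hze : z * e = 0
  hzn : IsNilpotent z
  hxz : x * (1 + z) * (1 - e) = (1 + z) * δ * (1 - e)
  hJδ : (J : A) * δ = -(δ * J)
  hJe : (J : A) * e = e * J
  hJz : (J : A) * z = z * J

variable {a : F} {δ x e z : A} {D J : Aˣ}

theorem Cfg.ee2 (h : Cfg a δ x e z D J) : e * (1 - e) = 0 := by
  rw [mul_sub, mul_one, h.he, sub_self]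

theorem Cfg.e2e (h : Cfg a δ x e z D J) : (1 - e) * e = 0 := by
  rw [sub_mul, one_mul, h.he, sub_self]

theorem Cfg.e2e2 (h : Cfg a δ x e z D J) : (1 - e) * (1 - e) = 1 - e := by
  rw [mul_sub, mul_one, h.e2e, sub_zero]

theorem Cfg.es (h : Cfg a δ x e z D J) : e * (2 * e - 1) = e := by
  have h1 : e * (2 * e - 1) = e * e + e * e - e := by noncomm_ring
  rw [h1, h.he]
  noncomm_ring

theorem Cfg.se (h : Cfg a δ x e z D J) : (2 * e - 1) * e = e := by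
  have h1 : (2 * e - 1) * e = e * e + e * e - e := by noncomm_ring
  rw [h1, h.he]
  noncomm_ring

theorem Cfg.e2s (h : Cfg a δ x e z D J) : (1 - e) * (2 * e - 1) = -(1 - e) := by
  have h1 : (1 - e) * (2 * e - 1) = e + e + e - 1 - (e * e + e * e) := by noncomm_ring
  rw [h1, h.he]
  noncomm_ring

theorem Cfg.ss (h : Cfg a δ x e z D J) : (2 * e - 1) * (2 * e - 1) = 1 := by
  have h1 : (2 * e - 1) * (2 * e - 1) =
      (e * e + e * e + e * e + e * e) - (e + e + e + e) + 1 := by noncomm_ring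
  rw [h1, h.he]
  noncomm_ring

theorem Cfg.sx (h : Cfg a δ x e z D J) : x * (2 * e - 1) = (2 * e - 1) * x := by
  have h1 : x * (2 * e - 1) = x * e + x * e - x := by noncomm_ring
  have h2 : (2 * e - 1) * x = e * x + e * x - x := by noncomm_ring
  rw [h1, h2, h.hex]

theorem Cfg.XX (h : Cfg a δ x e z D J) :
    ((2 * e - 1) * x) * ((2 * e - 1) * x) = algebraMap F A a := by
  have h1 : ((2 * e - 1) * x) * ((2 * e - 1) * x) = (2 * e - 1) * (x * (2 * e - 1)) * x := by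
    simp only [mul_assoc]
  have h2 : (2 * e - 1) * ((2 * e - 1) * x) * x = ((2 * e - 1) * (2 * e - 1)) * (x * x) := by
    simp only [mul_assoc]
  rw [h1, h.sx, h2, h.ss, one_mul, h.hx]

theorem Cfg.De (h : Cfg a δ x e z D J) : (D : A) * e = e * D := by
  have h1 : (2 * e - 1) * x * e = e * ((2 * e - 1) * x) := by
    rw [mul_assoc, ← h.hex, ← mul_assoc, h.se, ← mul_assoc, h.es]
  rw [h.hD, sub_mul, mul_sub, h.heδ, h1]

theorem Cfg.De2 (h : Cfg a δ x e z D J) : (D : A) * (1 - e) = (1 - e) * D := by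
  rw [mul_sub, sub_mul, h.De, mul_one, one_mul]

theorem Cfg.Dδ (h : Cfg a δ x e z D J) : (D : A) * δ = -(((2 * e - 1) * x) * D) := by
  rw [h.hD, sub_mul, mul_sub, h.XX, h.hδ]
  abel

theorem Cfg.DX (h : Cfg a δ x e z D J) : (D : A) * ((2 * e - 1) * x) = -(δ * D) := by
  rw [h.hD, sub_mul, mul_sub, h.XX, h.hδ]
  abel

theorem Cfg.Deδ (h : Cfg a δ x e z D J) : (D : A) * (e * δ) = -(x * (D * e)) := by
  calc (D : A) * (e * δ) = (D * e) * δ := by rw [mul_assoc]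
    _ = e * (D * δ) := by rw [h.De, mul_assoc]
    _ = -((e * (2 * e - 1)) * x * D) := by rw [h.Dδ]; simp only [mul_neg, mul_assoc]
    _ = -(x * (D * e)) := by rw [h.es, h.hex, h.De, mul_assoc]

theorem Cfg.De2δ (h : Cfg a δ x e z D J) : (D : A) * ((1 - e) * δ) = x * (D * (1 - e)) := by
  have h1 : (1 - e) * x = x * (1 - e) := by rw [mul_sub, sub_mul, h.hex, mul_one, one_mul]
  calc (D : A) * ((1 - e) * δ) = (D * (1 - e)) * δ := by rw [mul_assoc]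
    _ = (1 - e) * (D * δ) := by rw [h.De2, mul_assoc]
    _ = -(((1 - e) * (2 * e - 1)) * x * D) := by rw [h.Dδ]; simp only [mul_neg, mul_assoc]
    _ = x * (D * (1 - e)) := by
      rw [h.e2s, h.De2, neg_mul, neg_mul, neg_neg, h1, mul_assoc]

theorem Cfg.Dex (h : Cfg a δ x e z D J) : (D : A) * (e * x) = -(δ * (D * e)) := by
  calc (D : A) * (e * x) = D * ((e * (2 * e - 1)) * x) := by rw [h.es]
    _ = (D * e) * ((2 * e - 1) * x) := by simp only [mul_assoc]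
    _ = e * (D * ((2 * e - 1) * x)) := by rw [h.De, mul_assoc]
    _ = -(e * δ * D) := by rw [h.DX]; simp only [mul_neg, mul_assoc]
    _ = -(δ * (D * e)) := by rw [h.heδ, h.De, mul_assoc]

theorem Cfg.De2x (h : Cfg a δ x e z D J) : (D : A) * ((1 - e) * x) = δ * (D * (1 - e)) := by
  have h1 : (1 - e) * δ = δ * (1 - e) := by rw [mul_sub, sub_mul, h.heδ, mul_one, one_mul]
  have h2 : (1 - e) * x = -((1 - e) * (2 * e - 1) * x) := by rw [h.e2s]; noncomm_ring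
  calc (D : A) * ((1 - e) * x) = -(D * ((1 - e) * (2 * e - 1) * x)) := by rw [h2]; simp
    _ = -((D * (1 - e)) * ((2 * e - 1) * x)) := by simp only [mul_assoc]
    _ = -((1 - e) * (D * ((2 * e - 1) * x))) := by rw [h.De2, mul_assoc]
    _ = (1 - e) * δ * D := by rw [h.DX]; simp only [mul_neg, mul_assoc, neg_neg]
    _ = δ * (D * (1 - e)) := by rw [h1, h.De2, mul_assoc]

theorem Cfg.Je2 (h : Cfg a δ x e z D J) : (J : A) * (1 - e) = (1 - e) * J := by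
  rw [mul_sub, sub_mul, h.hJe, mul_one, one_mul]

theorem Cfg.Jx (h : Cfg a δ x e z D J) : (1 - e) * (J * x) = -((1 - e) * (x * J)) := by
  obtain ⟨u, hu⟩ := h.hzn.isUnit_one_add
  have hue : (u : A) * (1 - e) = (1 - e) * u := by
    rw [hu]
    have h1 : (1 + z) * (1 - e) = 1 - e + z - z * e := by noncomm_ring
    have h2 : (1 - e) * (1 + z) = 1 - e + z - e * z := by noncomm_ring
    rw [h1, h2, h.hez, h.hze]
  have huJ : (J : A) * u = u * J := by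
    rw [hu, mul_add, add_mul, mul_one, one_mul, h.hJz]
  have hx1 : (1 - e) * x = x * (1 - e) := by rw [mul_sub, sub_mul, h.hex, mul_one, one_mul]
  have h0 := h.hxz
  rw [← hu] at h0
  have h3 : (J : A) * x * (1 - e) * u = -(x * (1 - e) * J) * u := by
    calc (J : A) * x * (1 - e) * u = J * (x * u * (1 - e)) := by
          simp only [mul_assoc]; rw [hue]
      _ = J * (u * δ * (1 - e)) := by rw [h0]
      _ = (J * u) * δ * (1 - e) := by simp only [mul_assoc]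
      _ = u * (J * δ) * (1 - e) := by rw [huJ]; simp only [mul_assoc]
      _ = -(u * δ * (J * (1 - e))) := by
          rw [h.hJδ]; simp only [mul_neg, neg_mul, mul_assoc]
      _ = -((u * δ * (1 - e)) * J) := by rw [h.Je2]; simp only [mul_assoc]
      _ = -((x * u * (1 - e)) * J) := by rw [h0]
      _ = -(x * (u * (1 - e)) * J) := by simp only [mul_assoc]
      _ = -(x * (1 - e) * (u * J)) := by rw [hue]; simp only [mul_assoc]
      _ = -(x * (1 - e) * J) * u := by rw [← huJ]; simp only [mul_assoc, neg_mul]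
  have h4 : (J : A) * x * (1 - e) = -(x * (1 - e) * J) := u.isUnit.mul_right_cancel h3
  calc (1 - e) * (J * x) = (J * (1 - e)) * x := by rw [h.Je2, mul_assoc]
    _ = J * x * (1 - e) := by rw [mul_assoc, hx1, mul_assoc]
    _ = -(x * (1 - e) * J) := h4
    _ = -((1 - e) * (x * J)) := by rw [← hx1, mul_assoc]

/-- The unit `e + (1 - e) J`. -/
def P (h : Cfg a δ x e z D J) : Aˣ where
  val := e + (1 - e) * J
  inv := e + (1 - e) * (J⁻¹ : Aˣ)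
  val_inv := by
    have h1 : (e + (1 - e) * J) * (e + (1 - e) * (J⁻¹ : Aˣ)) =
        e * e + (e * (1 - e)) * (J⁻¹ : Aˣ) + (1 - e) * (J * e) +
          (1 - e) * (J * (1 - e)) * (J⁻¹ : Aˣ) := by
      simp only [mul_add, add_mul, mul_assoc]
      abel
    rw [h1, h.he, h.ee2, h.hJe, h.Je2, ← mul_assoc (1 - e) e, h.e2e, ← mul_assoc (1 - e) (1 - e),
      h.e2e2, mul_assoc (1 - e) (J : A), Units.mul_inv]
    noncomm_ring
  inv_val := by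
    have hJi : ((J⁻¹ : Aˣ) : A) * e = e * (J⁻¹ : Aˣ) := by
      have := (Commute.units_inv_left (show Commute (J : A) e from h.hJe))
      exact this
    have hJi2 : ((J⁻¹ : Aˣ) : A) * (1 - e) = (1 - e) * (J⁻¹ : Aˣ) := by
      rw [mul_sub, sub_mul, hJi, mul_one, one_mul]
    have h1 : (e + (1 - e) * (J⁻¹ : Aˣ)) * (e + (1 - e) * J) =
        e * e + (e * (1 - e)) * J + (1 - e) * ((J⁻¹ : Aˣ) * e) +
          (1 - e) * ((J⁻¹ : Aˣ) * (1 - e)) * J := by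
      simp only [mul_add, add_mul, mul_assoc]
      abel
    rw [h1, h.he, h.ee2, hJi, hJi2, ← mul_assoc (1 - e) e, h.e2e, ← mul_assoc (1 - e) (1 - e),
      h.e2e2, mul_assoc (1 - e) ((J⁻¹ : Aˣ) : A), Units.inv_mul]
    noncomm_ring

/-- The unit `e J + (1 - e)`. -/
def Q (h : Cfg a δ x e z D J) : Aˣ where
  val := e * J + (1 - e)
  inv := e * (J⁻¹ : Aˣ) + (1 - e)
  val_inv := by
    have h1 : (e * J + (1 - e)) * (e * (J⁻¹ : Aˣ) + (1 - e)) =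
        e * (J * e) * (J⁻¹ : Aˣ) + e * (J * (1 - e)) + ((1 - e) * e) * (J⁻¹ : Aˣ) +
          (1 - e) * (1 - e) := by
      simp only [mul_add, add_mul, mul_assoc]
      abel
    rw [h1, h.hJe, h.Je2, ← mul_assoc e (1 - e), h.ee2, h.e2e, h.e2e2, ← mul_assoc e e, h.he,
      mul_assoc e (J : A), Units.mul_inv]
    noncomm_ring
  inv_val := by
    have hJi : ((J⁻¹ : Aˣ) : A) * e = e * (J⁻¹ : Aˣ) := by
      have := (Commute.units_inv_left (show Commute (J : A) e from h.hJe))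
      exact this
    have hJi2 : ((J⁻¹ : Aˣ) : A) * (1 - e) = (1 - e) * (J⁻¹ : Aˣ) := by
      rw [mul_sub, sub_mul, hJi, mul_one, one_mul]
    have h1 : (e * (J⁻¹ : Aˣ) + (1 - e)) * (e * J + (1 - e)) =
        e * ((J⁻¹ : Aˣ) * e) * J + e * ((J⁻¹ : Aˣ) * (1 - e)) + ((1 - e) * e) * J +
          (1 - e) * (1 - e) := by
      simp only [mul_add, add_mul, mul_assoc]
      abel
    rw [h1, hJi, hJi2, ← mul_assoc e (1 - e), h.ee2, h.e2e, h.e2e2, ← mul_assoc e e, h.he,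
      mul_assoc e ((J⁻¹ : Aˣ) : A), Units.inv_mul]
    noncomm_ring

theorem P_val (h : Cfg a δ x e z D J) : (P h : A) = e + (1 - e) * J := rfl

theorem Q_val (h : Cfg a δ x e z D J) : (Q h : A) = e * J + (1 - e) := rfl

theorem Q_inv (h : Cfg a δ x e z D J) : ((Q h)⁻¹ : Aˣ) = e * (J⁻¹ : Aˣ) + (1 - e) := rfl

theorem Pδ (h : Cfg a δ x e z D J) : ((D * P h : Aˣ) : A) * δ = -(x * (D * P h : Aˣ)) := by
  rw [Units.val_mul, P_val]
  have h1 : (D : A) * (e + (1 - e) * J) * δ =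
      D * (e * δ) + D * ((1 - e) * (J * δ)) := by
    simp only [mul_add, add_mul, mul_assoc]
  have h2 : (D : A) * ((1 - e) * (J * δ)) = -(D * ((1 - e) * δ) * J) := by
    rw [h.hJδ]
    simp only [mul_neg, mul_assoc]
  rw [h1, h2, h.Deδ, h.De2δ]
  simp only [mul_add, mul_assoc, neg_add]

theorem Px (h : Cfg a δ x e z D J) : ((D * P h : Aˣ) : A) * x = -(δ * (D * P h : Aˣ)) := by
  rw [Units.val_mul, P_val]
  have h1 : (D : A) * (e + (1 - e) * J) * x =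
      D * (e * x) + D * ((1 - e) * (J * x)) := by
    simp only [mul_add, add_mul, mul_assoc]
  have h2 : (D : A) * ((1 - e) * (J * x)) = -(D * ((1 - e) * x) * J) := by
    rw [h.Jx]
    simp only [mul_neg, mul_assoc]
  rw [h1, h2, h.Dex, h.De2x]
  simp only [mul_add, mul_assoc, neg_add]

theorem Qδ (h : Cfg a δ x e z D J) : ((D * Q h : Aˣ) : A) * δ = x * (D * Q h : Aˣ) := by
  rw [Units.val_mul, Q_val]
  have h1 : (D : A) * (e * J + (1 - e)) * δ =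
      D * (e * (J * δ)) + D * ((1 - e) * δ) := by
    simp only [mul_add, add_mul, mul_assoc]
  have h2 : (D : A) * (e * (J * δ)) = -(D * (e * δ) * J) := by
    rw [h.hJδ]
    simp only [mul_neg, mul_assoc]
  rw [h1, h2, h.Deδ, h.De2δ]
  simp only [mul_add, mul_assoc, neg_mul, neg_neg]

/-- `(e + (1 - e) J) D = D (e - (1 - e) J)` -/
theorem PD (h : Cfg a δ x e z D J) : (P h : A) * D = D * (e - (1 - e) * J) := by
  have h1 : (1 - e) * (J * D) = -((1 - e) * (D * J)) := by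
    have h3 : (J : A) * D = J * δ - J * ((2 * e - 1) * x) := by rw [h.hD, mul_sub]
    have h4 : (1 - e) * (J * ((2 * e - 1) * x)) = (1 - e) * (x * J) := by
      calc (1 - e) * (J * ((2 * e - 1) * x)) = ((1 - e) * J) * (2 * e - 1) * x := by
            simp only [mul_assoc]
        _ = J * ((1 - e) * (2 * e - 1)) * x := by rw [← h.Je2]; simp only [mul_assoc]
        _ = -((J * (1 - e)) * x) := by rw [h.e2s]; simp only [mul_neg, neg_mul]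
        _ = -((1 - e) * (J * x)) := by rw [h.Je2]; simp only [mul_assoc]
        _ = (1 - e) * (x * J) := by rw [h.Jx, neg_neg]
    have h5 : (1 - e) * (D * J) = (1 - e) * (δ * J) - ((1 - e) * (2 * e - 1)) * (x * J) := by
      have h6 : (δ - (2 * e - 1) * x) * (J : A) = δ * J - (2 * e - 1) * (x * J) := by
        rw [sub_mul, mul_assoc]
      rw [h.hD, h6, mul_sub, ← mul_assoc (1 - e) (2 * e - 1)]
    rw [h3, mul_sub, h4, h5, h.e2s, h.hJδ]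
    noncomm_ring
  rw [P_val, add_mul, mul_sub, h.De, ← mul_assoc (D : A) (1 - e), h.De2, mul_assoc (1 - e) (J : A),
    h1, mul_assoc (1 - e) (D : A)]
  abel

theorem final (h : Cfg a δ x e z D J) :
    (((D * Q h)⁻¹ * (D * P h) * (D * Q h)⁻¹ * (D * P h)⁻¹ : Aˣ) : A) =
      (e * (J⁻¹ : Aˣ) * (J⁻¹ : Aˣ) - (1 - e)) * ((D⁻¹ * D⁻¹ : Aˣ) : A) := by
  have hJi : ((J⁻¹ : Aˣ) : A) * e = e * (J⁻¹ : Aˣ) := by
    have := (Commute.units_inv_left (show Commute (J : A) e from h.hJe))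
    exact this
  have hJi2 : ((J⁻¹ : Aˣ) : A) * (1 - e) = (1 - e) * (J⁻¹ : Aˣ) := by
    rw [mul_sub, sub_mul, hJi, mul_one, one_mul]
  -- multiply by `D * D * P` on the right
  have h1 : ((D * Q h)⁻¹ * (D * P h) * (D * Q h)⁻¹ * (D * P h)⁻¹ : Aˣ) * (D * (P h * D)) =
      (Q h)⁻¹ * P h * (Q h)⁻¹ := by group
  have h2 : (((Q h)⁻¹ * P h * (Q h)⁻¹ : Aˣ) : A) = e * (J⁻¹ : Aˣ) * (J⁻¹ : Aˣ) + (1 - e) * J := by
    rw [Units.val_mul, Units.val_mul, Q_inv, P_val]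
    have h3 : (e * ((J⁻¹ : Aˣ) : A) + (1 - e)) * (e + (1 - e) * J) =
        e * (J⁻¹ : Aˣ) + (1 - e) * J := by
      have h4 : (e * ((J⁻¹ : Aˣ) : A) + (1 - e)) * (e + (1 - e) * J) =
          e * ((J⁻¹ : Aˣ) * e) + e * ((J⁻¹ : Aˣ) * (1 - e)) * J + (1 - e) * e +
            ((1 - e) * (1 - e)) * J := by
        simp only [mul_add, add_mul, mul_assoc]
        abel
      rw [h4, hJi, hJi2, ← mul_assoc e e, h.he, ← mul_assoc e (1 - e), h.ee2, h.e2e, h.e2e2]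
      noncomm_ring
    rw [h3]
    have h5 : (e * ((J⁻¹ : Aˣ) : A) + (1 - e) * J) * (e * (J⁻¹ : Aˣ) + (1 - e)) =
        e * ((J⁻¹ : Aˣ) * e) * (J⁻¹ : Aˣ) + e * ((J⁻¹ : Aˣ) * (1 - e)) +
          (1 - e) * (J * e) * (J⁻¹ : Aˣ) + (1 - e) * (J * (1 - e)) := by
      simp only [mul_add, add_mul, mul_assoc]
      abel
    rw [h5, hJi, hJi2, h.hJe, h.Je2, ← mul_assoc e e, h.he, ← mul_assoc e (1 - e), h.ee2,
      ← mul_assoc (1 - e) e, h.e2e, ← mul_assoc (1 - e) (1 - e), h.e2e2]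
    noncomm_ring
  have h6 : (e * ((J⁻¹ : Aˣ) : A) * (J⁻¹ : Aˣ) - (1 - e)) * (e - (1 - e) * J) =
      e * (J⁻¹ : Aˣ) * (J⁻¹ : Aˣ) + (1 - e) * J := by
    have h7 : (e * ((J⁻¹ : Aˣ) : A) * (J⁻¹ : Aˣ) - (1 - e)) * (e - (1 - e) * J) =
        e * (J⁻¹ : Aˣ) * ((J⁻¹ : Aˣ) * e) - e * (J⁻¹ : Aˣ) * ((J⁻¹ : Aˣ) * (1 - e)) * J -
          (1 - e) * e + ((1 - e) * (1 - e)) * J := by
      simp only [mul_sub, sub_mul, mul_assoc]
      abel
    have h8 : e * ((J⁻¹ : Aˣ) : A) * (e * (J⁻¹ : Aˣ)) = e * (J⁻¹ : Aˣ) * (J⁻¹ : Aˣ) := by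
      rw [← mul_assoc, mul_assoc e, hJi, ← mul_assoc, h.he]
    have h9 : e * ((J⁻¹ : Aˣ) : A) * ((1 - e) * (J⁻¹ : Aˣ)) = 0 := by
      rw [← mul_assoc, mul_assoc e, hJi2, ← mul_assoc, h.ee2, zero_mul, zero_mul]
    rw [h7, hJi, hJi2, h8, h9, h.e2e, h.e2e2]
    noncomm_ring
  have h10 : IsUnit ((D * (P h * D) : Aˣ) : A) := Units.isUnit _
  apply h10.mul_right_cancel
  rw [← Units.val_mul, h1, h2]
  have h11 : ((D⁻¹ * D⁻¹ : Aˣ) : A) * ((D * (P h * D) : Aˣ) : A) = e - (1 - e) * J := by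
    rw [Units.val_mul (D : Aˣ), Units.val_mul (P h) D, PD h, Units.val_mul]
    have h12 : ((D⁻¹ : Aˣ) : A) * ((D⁻¹ : Aˣ) : A) * (D * (D * (e - (1 - e) * J))) =
        ((D⁻¹ : Aˣ) : A) * (((D⁻¹ : Aˣ) : A) * D) * (D * (e - (1 - e) * J)) := by
      simp only [mul_assoc]
    rw [h12, Units.inv_mul, mul_one, ← mul_assoc, Units.inv_mul, one_mul]
  have h13 : (e * ((J⁻¹ : Aˣ) : A) * (J⁻¹ : Aˣ) - (1 - e)) * ((D⁻¹ * D⁻¹ : Aˣ) : A) *
      ((D * (P h * D) : Aˣ) : A) = (e * ((J⁻¹ : Aˣ) : A) * (J⁻¹ : Aˣ) - (1 - e)) *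
        (e - (1 - e) * J) := by
    rw [mul_assoc, h11]
  rw [h13, h6]

end Alg

end PA

theorem stmt_PA (hFIT : Stmt_FIT) (hJA : Stmt_JA) (hN0 : Stmt_N0) (hN1 : Stmt_N1)
    (hN2 : Stmt_N2) (hMUL : Stmt_MUL) : Stmt_PA := by
  intro F E A _ _ _ _ _ _ _ _ _ ι k δE a hd w hw g
  classical
  have ha : a ≠ 0 := by
    intro h0
    exact hd.nsq 0 (by rw [h0]; simp)
  obtain ⟨δ, hδdef⟩ : ∃ δ : A, δ = ι δE := ⟨_, rfl⟩
  rw [← hδdef] at hw
  have hδ : δ * δ = algebraMap F A a := by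
    rw [hδdef, ← map_mul, ← sq, hd.sq, AlgHom.commutes]
  obtain ⟨x, hxdef⟩ : ∃ x : A, x = g * δ * (g⁻¹ : Aˣ) := ⟨_, rfl⟩
  have hx : x * x = algebraMap F A a := by
    have h1 : x * x = g * δ * (((g⁻¹ : Aˣ) : A) * g) * δ * (g⁻¹ : Aˣ) := by
      rw [hxdef]
      simp only [mul_assoc]
    rw [h1, Units.inv_mul, mul_one, mul_assoc (g : A) δ δ, hδ, ← Algebra.commutes a (g : A),
      mul_assoc, Units.mul_inv, mul_one]
  obtain ⟨e, z, he, heδ, hex, hDu, hez, hze, hzn, hzδ, hxz⟩ := hFIT F A a δ x ha hδ hx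
  obtain ⟨D, hD⟩ := hDu
  obtain ⟨J, hJδ, hJe, hJz⟩ := hJA F E A δE a δ e z hd.rankE hd.sq hd.nsq hδ he heδ hzδ hez hze hzn
  have h : PA.Cfg a δ x e z D J := ⟨hδ, hx, he, heδ, hex, hD, hez, hze, hzn, hxz, hJδ, hJe, hJz⟩
  have hc : ∀ y : A, y ∈ Cent ι ↔ δ * y = y * δ := by
    intro y
    rw [hδdef]
    exact hd.cent y
  -- the norm as a function on `A`
  obtain ⟨N, hNy⟩ : ∃ N : A → E, ∀ (y : A) (hy : y ∈ Cent ι),
      nrd E (⟨y, hy⟩ : Cent ι) = N y := by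
    refine ⟨fun y => if hy : y ∈ Cent ι then nrd E (⟨y, hy⟩ : Cent ι) else 0, ?_⟩
    intro y hy
    simp only [dif_pos hy]
  obtain ⟨hmF, hF1, hmE, hE1⟩ := hMUL F E A ι k δE a hd
  have hNm : ∀ y y' : A, y ∈ Cent ι → y' ∈ Cent ι → N (y * y') = N y * N y' := by
    intro y y' hy hy'
    have h1 := hmE ⟨y, hy⟩ ⟨y', hy'⟩
    rw [hNy y hy, hNy y' hy'] at h1
    rw [← h1, ← hNy (y * y') (mul_mem hy hy')]
    rfl
  have hN1' : N 1 = 1 := by
    rw [← hNy 1 (one_mem _), ← hE1]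
    rfl
  have hyδ0 := PA.Pδ h
  have hyx0 := PA.Px h
  have hgδ0 := PA.Qδ h
  have hfin := PA.final h
  obtain ⟨y, hy⟩ : ∃ y : Aˣ, y = D * PA.P h := ⟨_, rfl⟩
  obtain ⟨gt, hgt⟩ : ∃ gt : Aˣ, gt = D * PA.Q h := ⟨_, rfl⟩
  rw [← hy] at hyδ0 hyx0 hfin
  rw [← hgt] at hgδ0 hfin
  have hyδ : (y : A) * δ = -(x * y) := hyδ0
  have hyx : (y : A) * x = -(δ * y) := hyx0
  have hgδ : (gt : A) * δ = x * gt := hgδ0
  have hgx : (g : A) * δ = x * g := by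
    rw [hxdef, mul_assoc, Units.inv_mul, mul_one]
  have hgix : ((g⁻¹ : Aˣ) : A) * x = δ * (g⁻¹ : Aˣ) := by
    rw [hxdef, ← mul_assoc, ← mul_assoc, Units.inv_mul, one_mul]
  have hgtix : ((gt⁻¹ : Aˣ) : A) * x = δ * (gt⁻¹ : Aˣ) := by
    have h1 : ((gt⁻¹ : Aˣ) : A) * (x * gt) = ((gt⁻¹ : Aˣ) : A) * (gt * δ) := by rw [hgδ]
    rw [← mul_assoc, ← mul_assoc, Units.inv_mul, one_mul] at h1
    have h2 : ((gt⁻¹ : Aˣ) : A) * x * gt * (gt⁻¹ : Aˣ) = δ * (gt⁻¹ : Aˣ) := by rw [h1]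
    rw [mul_assoc _ (gt : A), Units.mul_inv, mul_one] at h2
    exact h2
  have hyiδ : ((y⁻¹ : Aˣ) : A) * δ = -(x * (y⁻¹ : Aˣ)) := by
    have h1 : ((y⁻¹ : Aˣ) : A) * (y * x) * (y⁻¹ : Aˣ) =
        -(((y⁻¹ : Aˣ) : A) * (δ * y) * (y⁻¹ : Aˣ)) := by
      rw [hyx]
      simp only [mul_neg, neg_mul]
    have h2 : ((y⁻¹ : Aˣ) : A) * (y * x) * (y⁻¹ : Aˣ) = x * (y⁻¹ : Aˣ) := by
      rw [← mul_assoc, Units.inv_mul, one_mul]
    have h3 : ((y⁻¹ : Aˣ) : A) * (δ * y) * (y⁻¹ : Aˣ) = ((y⁻¹ : Aˣ) : A) * δ := by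
      rw [← mul_assoc, mul_assoc _ (y : A), Units.mul_inv, mul_one]
    rw [h2, h3] at h1
    rw [h1, neg_neg]
  have hwi : ((w⁻¹ : Aˣ) : A) * δ = -(δ * (w⁻¹ : Aˣ)) := by
    have h1 : ((w⁻¹ : Aˣ) : A) * (w * δ) * (w⁻¹ : Aˣ) =
        -(((w⁻¹ : Aˣ) : A) * (δ * w) * (w⁻¹ : Aˣ)) := by
      rw [hw]
      simp only [mul_neg, neg_mul]
    have h2 : ((w⁻¹ : Aˣ) : A) * (w * δ) * (w⁻¹ : Aˣ) = δ * (w⁻¹ : Aˣ) := by
      rw [← mul_assoc, Units.inv_mul, one_mul]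
    have h3 : ((w⁻¹ : Aˣ) : A) * (δ * w) * (w⁻¹ : Aˣ) = ((w⁻¹ : Aˣ) : A) * δ := by
      rw [← mul_assoc, mul_assoc _ (w : A), Units.mul_inv, mul_one]
    rw [h2, h3] at h1
    rw [h1, neg_neg]
  have hm1 : ((w * g⁻¹ * y⁻¹ : Aˣ) : A) ∈ Cent ι := by
    rw [hc, Units.val_mul, Units.val_mul]
    have h1 : (w : A) * ((g⁻¹ : Aˣ) : A) * ((y⁻¹ : Aˣ) : A) * δ =
        -((w : A) * (((g⁻¹ : Aˣ) : A) * x) * ((y⁻¹ : Aˣ) : A)) := by
      rw [mul_assoc _ _ δ, hyiδ]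
      simp only [mul_neg, mul_assoc]
    rw [h1, hgix, ← mul_assoc (w : A), hw]
    simp only [neg_mul, neg_neg, mul_assoc]
  have hm2 : ((g⁻¹ * y * w⁻¹ : Aˣ) : A) ∈ Cent ι := by
    rw [hc, Units.val_mul, Units.val_mul]
    have h1 : ((g⁻¹ : Aˣ) : A) * (y : A) * ((w⁻¹ : Aˣ) : A) * δ =
        -(((g⁻¹ : Aˣ) : A) * ((y : A) * δ) * ((w⁻¹ : Aˣ) : A)) := by
      rw [mul_assoc _ _ δ, hwi]
      simp only [mul_neg, mul_assoc]
    rw [h1, hyδ]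
    have h2 : -(((g⁻¹ : Aˣ) : A) * -(x * (y : A)) * ((w⁻¹ : Aˣ) : A)) =
        (((g⁻¹ : Aˣ) : A) * x) * y * ((w⁻¹ : Aˣ) : A) := by
      simp only [mul_neg, neg_mul, neg_neg, mul_assoc]
    rw [h2, hgix]
    simp only [mul_assoc]
  refine ⟨w * g⁻¹ * y⁻¹, g⁻¹ * y * w⁻¹, hm1, hm2, ?_, ?_⟩
  · have h1 : (w * g⁻¹ * y⁻¹) * g * (g⁻¹ * y * w⁻¹) = w * g⁻¹ * w⁻¹ := by group
    rw [← h1]
  · rw [hNy, hNy]
    -- `h = gt⁻¹ g`
    have hmh : ((g⁻¹ * gt : Aˣ) : A) ∈ Cent ι := by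
      rw [hc, Units.val_mul, mul_assoc _ _ δ, hgδ, ← mul_assoc, ← mul_assoc, hgix]
    have hJ1 : ((gt⁻¹ * y : Aˣ) : A) * δ = -(δ * (gt⁻¹ * y : Aˣ)) := by
      rw [Units.val_mul, mul_assoc, hyδ, mul_neg, ← mul_assoc, hgtix, mul_assoc]
    have hJi : ((J⁻¹ : Aˣ) : A) * δ = -(δ * (J⁻¹ : Aˣ)) := by
      have h1 : ((J⁻¹ : Aˣ) : A) * (J * δ) * (J⁻¹ : Aˣ) =
          -(((J⁻¹ : Aˣ) : A) * (δ * J) * (J⁻¹ : Aˣ)) := by
        rw [hJδ]
        simp only [mul_neg, neg_mul]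
      have h2 : ((J⁻¹ : Aˣ) : A) * (J * δ) * (J⁻¹ : Aˣ) = δ * (J⁻¹ : Aˣ) := by
        rw [← mul_assoc, Units.inv_mul, one_mul]
      have h3 : ((J⁻¹ : Aˣ) : A) * (δ * J) * (J⁻¹ : Aˣ) = ((J⁻¹ : Aˣ) : A) * δ := by
        rw [← mul_assoc, mul_assoc _ (J : A), Units.mul_inv, mul_one]
      rw [h2, h3] at h1
      rw [h1, neg_neg]
    -- membership of the pieces
    have hDD : δ * ((D : A) * D) = ((D : A) * D) * δ := by
      calc δ * ((D : A) * D) = -((D : A) * ((2 * e - 1) * x)) * D := by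
            rw [h.DX]; simp only [neg_neg, mul_assoc]
        _ = -((D : A) * (((2 * e - 1) * x) * D)) := by simp only [mul_assoc, neg_mul]
        _ = (D : A) * (D * δ) := by rw [h.Dδ]; simp only [mul_neg]
        _ = ((D : A) * D) * δ := by rw [mul_assoc]
    have hmDD : ((D * D : Aˣ) : A) ∈ Cent ι := by
      rw [hc, Units.val_mul, hDD]
    have hmDi : ((D⁻¹ * D⁻¹ : Aˣ) : A) ∈ Cent ι := by
      have h1 : Commute δ ((D * D : Aˣ) : A) := by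
        show δ * ((D * D : Aˣ) : A) = ((D * D : Aˣ) : A) * δ
        rw [Units.val_mul, hDD]
      have h2 := h1.units_inv_right
      rw [hc]
      have h3 : ((D * D)⁻¹ : Aˣ) = D⁻¹ * D⁻¹ := by group
      rw [h3] at h2
      exact h2
    set c₁ : A := e * (J⁻¹ : Aˣ) * (J⁻¹ : Aˣ) - (1 - e) with hc₁
    have hmc : c₁ ∈ Cent ι := by
      rw [hc, hc₁]
      have h1 : e * ((J⁻¹ : Aˣ) : A) * ((J⁻¹ : Aˣ) : A) * δ =
          δ * (e * ((J⁻¹ : Aˣ) : A) * ((J⁻¹ : Aˣ) : A)) := by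
        rw [mul_assoc _ _ δ, hJi]
        have h2 : e * ((J⁻¹ : Aˣ) : A) * -(δ * ((J⁻¹ : Aˣ) : A)) =
            -(e * (((J⁻¹ : Aˣ) : A) * δ) * ((J⁻¹ : Aˣ) : A)) := by
          simp only [mul_neg, mul_assoc]
        rw [h2, hJi]
        have h3 : -(e * -(δ * ((J⁻¹ : Aˣ) : A)) * ((J⁻¹ : Aˣ) : A)) =
            (e * δ) * ((J⁻¹ : Aˣ) : A) * ((J⁻¹ : Aˣ) : A) := by
          simp only [mul_neg, neg_mul, neg_neg, mul_assoc]
        rw [h3, heδ]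
        simp only [mul_assoc]
      rw [mul_sub, sub_mul, h1, mul_sub, sub_mul, heδ, mul_one, one_mul]
    -- (N0)
    have hJ1i : (((gt⁻¹ * y)⁻¹ : Aˣ) : A) * δ = -(δ * ((gt⁻¹ * y)⁻¹ : Aˣ)) := by
      have h1 : (((gt⁻¹ * y)⁻¹ : Aˣ) : A) * (((gt⁻¹ * y : Aˣ) : A) * δ) *
          (((gt⁻¹ * y)⁻¹ : Aˣ) : A) = -((((gt⁻¹ * y)⁻¹ : Aˣ) : A) *
            (δ * ((gt⁻¹ * y : Aˣ) : A)) * (((gt⁻¹ * y)⁻¹ : Aˣ) : A)) := by
        rw [hJ1]
        simp only [mul_neg, neg_mul]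
      have h2 : (((gt⁻¹ * y)⁻¹ : Aˣ) : A) * (((gt⁻¹ * y : Aˣ) : A) * δ) *
          (((gt⁻¹ * y)⁻¹ : Aˣ) : A) = δ * (((gt⁻¹ * y)⁻¹ : Aˣ) : A) := by
        rw [← mul_assoc, Units.inv_mul, one_mul]
      have h3 : (((gt⁻¹ * y)⁻¹ : Aˣ) : A) * (δ * ((gt⁻¹ * y : Aˣ) : A)) *
          (((gt⁻¹ * y)⁻¹ : Aˣ) : A) = (((gt⁻¹ * y)⁻¹ : Aˣ) : A) * δ := by
        rw [← mul_assoc, mul_assoc _ ((gt⁻¹ * y : Aˣ) : A), Units.mul_inv, mul_one]
      rw [h2, h3] at h1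
      rw [h1, neg_neg]
    obtain ⟨cj, hcj⟩ : ∃ cj : Aˣ, cj = (gt⁻¹ * y) * (g⁻¹ * gt) * (gt⁻¹ * y)⁻¹ := ⟨_, rfl⟩
    have hhδ := (hc _).1 hmh
    have hmcj : ((cj : Aˣ) : A) ∈ Cent ι := by
      rw [hc, hcj, Units.val_mul, Units.val_mul]
      have h1 : ((gt⁻¹ * y : Aˣ) : A) * ((g⁻¹ * gt : Aˣ) : A) * (((gt⁻¹ * y)⁻¹ : Aˣ) : A) * δ =
          -(((gt⁻¹ * y : Aˣ) : A) * (((g⁻¹ * gt : Aˣ) : A) * δ) *
            (((gt⁻¹ * y)⁻¹ : Aˣ) : A)) := by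
        rw [mul_assoc _ _ δ, hJ1i]
        simp only [mul_neg, mul_assoc]
      have h2 : ((gt⁻¹ * y : Aˣ) : A) * (δ * ((g⁻¹ * gt : Aˣ) : A)) *
            (((gt⁻¹ * y)⁻¹ : Aˣ) : A) = (((gt⁻¹ * y : Aˣ) : A) * δ) *
              ((g⁻¹ * gt : Aˣ) : A) * (((gt⁻¹ * y)⁻¹ : Aˣ) : A) := by
        simp only [mul_assoc]
      rw [h1, ← hhδ, h2, hJ1]
      simp only [neg_mul, neg_neg, mul_assoc]
    have n0 := hN0 F E A ι k δE a hd (gt⁻¹ * y) (by rw [← hδdef]; exact hJ1)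
      ⟨_, hmh⟩ ⟨_, hmcj⟩ (by
        change ((cj : Aˣ) : A) = _
        rw [hcj, Units.val_mul, Units.val_mul])
    rw [hNy _ hmcj, hNy _ hmh] at n0
    change N ((cj : Aˣ) : A) * N ((g⁻¹ * gt : Aˣ) : A) =
      algebraMap F E (nrd F ((g⁻¹ * gt : Aˣ) : A)) at n0
    -- (N1)
    have n1 := hN1 F E A ι k δE a hd ((2 * e - 1) * x) h.XX (by
      rw [← hδdef, ← h.hD]; exact D.isUnit) ⟨_, hmDD⟩ (by
        change ((D * D : Aˣ) : A) = _
        rw [← hδdef, ← h.hD, Units.val_mul])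
    rw [← hδdef, ← h.hD, hNy _ hmDD] at n1
    -- (N2)
    have n2 := hN2 F E A ι k δE a hd J e (by rw [← hδdef]; exact hJδ) he
      (by rw [← hδdef]; exact heδ) hJe ⟨_, hmc⟩ rfl
    rw [hNy _ hmc] at n2
    have hNQ : (PA.Q h : A) = e * J + (1 - e) := rfl
    rw [← hNQ] at n2
    -- the products
    have e1 : N ((w * g⁻¹ * y⁻¹ : Aˣ) : A) * N ((g⁻¹ * y * w⁻¹ : Aˣ) : A) =
        N ((g⁻¹ * gt : Aˣ) : A) * N ((cj : Aˣ) : A) * (N c₁ * N ((D⁻¹ * D⁻¹ : Aˣ) : A)) := by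
      rw [mul_comm, ← hNm _ _ hm2 hm1, ← Units.val_mul, ← hNm _ _ hmh hmcj,
        ← hNm _ _ hmc hmDi, ← hfin, ← hNm _ _ (mul_mem hmh hmcj) (by
          rw [hfin]
          exact mul_mem hmc hmDi), ← Units.val_mul, ← Units.val_mul]
      congr 2
      rw [hcj]
      group
    have e2 : N ((D * D : Aˣ) : A) * N ((D⁻¹ * D⁻¹ : Aˣ) : A) = 1 := by
      rw [← hNm _ _ hmDD hmDi, ← Units.val_mul]
      have h3 : (D * D * (D⁻¹ * D⁻¹) : Aˣ) = 1 := by group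
      rw [h3, Units.val_one, hN1']
    have e3 : algebraMap F E (nrd F (g : A)) * algebraMap F E (nrd F ((g⁻¹ * gt : Aˣ) : A)) =
        algebraMap F E (nrd F (D : A)) * algebraMap F E (nrd F (PA.Q h : A)) := by
      rw [← map_mul, ← map_mul, ← hmF, ← hmF, ← Units.val_mul, ← Units.val_mul, ← hgt]
      have h3 : (g * (g⁻¹ * gt) : Aˣ) = gt := by group
      rw [h3]
    have e4 : ((-1 : E) ^ k) * (-1) ^ k = 1 := by
      rw [← mul_pow]
      simp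
    calc algebraMap F E (nrd F (g : A)) * N ((w * g⁻¹ * y⁻¹ : Aˣ) : A) *
          N ((g⁻¹ * y * w⁻¹ : Aˣ) : A)
        = algebraMap F E (nrd F (g : A)) *
          (N ((w * g⁻¹ * y⁻¹ : Aˣ) : A) * N ((g⁻¹ * y * w⁻¹ : Aˣ) : A)) := by ring
      _ = algebraMap F E (nrd F (g : A)) * (N ((cj : Aˣ) : A) * N ((g⁻¹ * gt : Aˣ) : A)) *
          (N c₁ * N ((D⁻¹ * D⁻¹ : Aˣ) : A)) := by rw [e1]; ring
      _ = (algebraMap F E (nrd F (g : A)) *
            algebraMap F E (nrd F ((g⁻¹ * gt : Aˣ) : A))) *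
          (N c₁ * N ((D⁻¹ * D⁻¹ : Aˣ) : A)) := by rw [n0]
      _ = algebraMap F E (nrd F (D : A)) * (algebraMap F E (nrd F (PA.Q h : A)) * N c₁) *
          N ((D⁻¹ * D⁻¹ : Aˣ) : A) := by rw [e3]; ring
      _ = ((-1 : E) ^ k * (-1) ^ k) * (N ((D * D : Aˣ) : A) * N ((D⁻¹ * D⁻¹ : Aˣ) : A)) := by
          rw [n1, n2]; ring
      _ = 1 := by rw [e4, e2, one_mul]

end Pool.Agent.LPer
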