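import Pool.Agent.Work.MP_037d19_lp.Stmts

/-!
# Linear periods: block QE
-/

namespace Pool.Agent.LPer

open scoped Polynomial Topology TensorProduct
open Module (finrank)
open Matrix (fromBlocks)

namespace QE

theorem gen (F E : Type) [Field F] [Field E] [Algebra F E] (h : finrank F E = 2) {x : E}
    (hx : x ∉ Set.range (algebraMap F E)) (e : E) :
    ∃ b c : F, e = algebraMap F E b + algebraMap F E c * x := by
  have hli : LinearIndependent F ![(1 : E), x] := by
    rw [LinearIndependent.pair_iff]
    intro s t hst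
    have ht : t = 0 := by
      by_contra ht
      apply hx
      refine ⟨-(s / t), ?_⟩
      have h1 : algebraMap F E t ≠ 0 := by
        rw [Ne, map_eq_zero]
        exact ht
      rw [Algebra.smul_def, Algebra.smul_def, mul_one] at hst
      rw [map_neg, map_div₀]
      field_simp
      linear_combination (-1 : E) * hst
    subst ht
    rw [zero_smul, add_zero, Algebra.smul_def, mul_one, map_eq_zero] at hst
    exact ⟨hst, rfl⟩
  have hsp := hli.span_eq_top_of_card_eq_finrank (by simp [h])
  have he : e ∈ Submodule.span F (Set.range ![(1 : E), x]) := hsp ▸ Submodule.mem_top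
  have hr : Set.range ![(1 : E), x] = {1, x} := by
    ext y
    simp only [Set.mem_range, Fin.exists_fin_two, Matrix.cons_val_zero, Matrix.cons_val_one, Set.mem_insert_iff,
      Set.mem_singleton_iff, eq_comm]
  rw [hr, Submodule.mem_span_pair] at he
  obtain ⟨b, c, hbc⟩ := he
  refine ⟨b, c, ?_⟩
  rw [← hbc, Algebra.smul_def, Algebra.smul_def, mul_one]

end QE

theorem stmt_QE : Stmt_QE := by
  intro F E A _ _ _ _ _ _ ι h
  obtain ⟨x, hx⟩ : ∃ x : E, x ∉ Set.range (algebraMap F E) := by
    by_contra hcon
    push Not at hcon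
    have h1 : Module.finrank F E = 1 := by
      refine finrank_eq_one_iff_of_nonzero' (1 : E) one_ne_zero |>.2 fun w => ?_
      obtain ⟨c, hc⟩ := hcon w
      exact ⟨c, by rw [← hc, Algebra.smul_def, mul_one]⟩
    omega
  obtain ⟨p, q, hpq⟩ := QE.gen F E h hx (x ^ 2)
  have hch : CharZero E := charZero_of_injective_algebraMap (algebraMap F E).injective
  have hδ : x - algebraMap F E q / 2 ∉ Set.range (algebraMap F E) := by
    rintro ⟨c, hc⟩
    apply hx
    refine ⟨c + q / 2, ?_⟩
    rw [map_add, map_div₀, map_ofNat, hc]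
    ring
  refine ⟨x - algebraMap F E q / 2, p + q ^ 2 / 4, ?_, ?_, ?_⟩
  · rw [map_add, map_div₀, map_pow, map_ofNat]
    linear_combination hpq
  · intro b hb
    have h5 : (x - algebraMap F E q / 2) ^ 2 = (algebraMap F E b) ^ 2 := by
      rw [← map_pow, hb, map_add, map_div₀, map_pow, map_ofNat]
      linear_combination hpq
    rcases sq_eq_sq_iff_eq_or_eq_neg.1 h5 with h6 | h6
    · exact hδ ⟨b, h6.symm⟩
    · exact hδ ⟨-b, by rw [map_neg]; exact h6.symm⟩
  · intro y
    rw [mem_Cent_iff]
    constructor
    · intro h7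
      exact h7 _
    · intro h7 e
      obtain ⟨b, c, rfl⟩ := QE.gen F E h hδ e
      rw [map_add, map_mul, ι.commutes, ι.commutes, add_mul, mul_add, mul_assoc, h7,
        Algebra.commutes b y, ← mul_assoc, Algebra.commutes c y, mul_assoc]

end Pool.Agent.LPer
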