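import Pool.Agent.Work.MP_037d19_lp.Stmts2

/-!
# Block RFU: representation of smooth functionals
-/

namespace Pool.Agent.LPer

open scoped Topology

namespace RFU

variable {G : Type} [Group G] [TopologicalSpace G] [IsTopologicalGroup G]

/-- Averaging over a finite orbit. -/
theorem avg {V : Type} [AddCommGroup V] [Module ℂ V] (π : Representation ℂ G V)
    (hsm : ∀ v : V, IsOpen {g : G | π g v = v}) (K : Subgroup G) (hKc : IsCompact (K : Set G))
    (v : V) : ∃ v₀ ∈ fixed π K, ∀ ψ : V →ₗ[ℂ] ℂ, (∀ k ∈ K, ∀ v, ψ (π k v) = ψ v) →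
      ψ v₀ = ψ v := by
  classical
  haveI : CompactSpace K := isCompact_iff_compactSpace.1 hKc
  have hlc : IsLocallyConstant (fun k : K => π (k : G) v) := by
    rw [IsLocallyConstant.iff_exists_open]
    intro k
    refine ⟨{k' : K | π ((k : G)⁻¹ * (k' : G)) v = v}, ?_, ?_, ?_⟩
    · exact (hsm v).preimage (f := fun k' : K => (k : G)⁻¹ * (k' : G)) (by fun_prop)
    · show π ((k : G)⁻¹ * (k : G)) v = v
      simp
    · intro k' hk'
      have h1 : π ((k : G)⁻¹ * (k' : G)) v = v := hk'
      have h2 : (k' : G) = (k : G) * ((k : G)⁻¹ * (k' : G)) := by group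
      show π (k' : G) v = π (k : G) v
      rw [h2, map_mul, Module.End.mul_apply, h1]
  have hfin : (Set.range (fun k : K => π (k : G) v)).Finite := hlc.range_finite
  obtain ⟨O, hO⟩ : ∃ O : Finset V, ∀ w, w ∈ O ↔ ∃ k ∈ K, π k v = w := by
    refine ⟨hfin.toFinset, fun w => ?_⟩
    simp
  have hv : v ∈ O := (hO v).2 ⟨1, K.one_mem, by simp⟩
  have hcard : (O.card : ℂ) ≠ 0 := by
    exact_mod_cast (Finset.card_pos.2 ⟨v, hv⟩).ne'
  have hsum : ∀ k ∈ K, π k (∑ w ∈ O, w) = ∑ w ∈ O, w := by
    intro k hk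
    rw [map_sum]
    refine Finset.sum_nbij' (fun w => π k w) (fun w => π k⁻¹ w) ?_ ?_ ?_ ?_ ?_
    · intro w hw
      obtain ⟨k', hk', rfl⟩ := (hO w).1 hw
      exact (hO _).2 ⟨k * k', K.mul_mem hk hk', by rw [map_mul, Module.End.mul_apply]⟩
    · intro w hw
      obtain ⟨k', hk', rfl⟩ := (hO w).1 hw
      exact (hO _).2 ⟨k⁻¹ * k', K.mul_mem (K.inv_mem hk) hk', by
        rw [map_mul, Module.End.mul_apply]⟩
    · intro w _
      show π k⁻¹ (π k w) = w
      rw [← Module.End.mul_apply, ← map_mul]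
      simp
    · intro w _
      show π k (π k⁻¹ w) = w
      rw [← Module.End.mul_apply, ← map_mul]
      simp
    · intro w _
      rfl
  refine ⟨(O.card : ℂ)⁻¹ • ∑ w ∈ O, w, ?_, ?_⟩
  · intro k hk
    rw [map_smul, hsum k hk]
  · intro ψ hψ
    rw [map_smul, map_sum]
    have h1 : ∑ w ∈ O, ψ w = ∑ _w ∈ O, ψ v := by
      refine Finset.sum_congr rfl (fun w hw => ?_)
      obtain ⟨k, hk, rfl⟩ := (hO w).1 hw
      exact hψ k hk v
    rw [h1, Finset.sum_const, nsmul_eq_mul, smul_eq_mul, ← mul_assoc, inv_mul_cancel₀ hcard,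
      one_mul]

end RFU

/-- RFU: representation of smooth functionals. -/
theorem stmt_RFU : Stmt_RFU := by
  intro G _ _ _ V V' _ _ _ _ π π' P hD K hKo hKc φ hφ
  haveI : FiniteDimensional ℂ (fixed π K) := hD.irr.admissible K hKo
  -- the functionals `P v'` for fixed `v'`
  have hinv' : ∀ v' ∈ fixed π' K, ∀ k ∈ K, ∀ v, P v' (π k v) = P v' v := by
    intro v' hv' k hk v
    have h1 := hD.inv k v' v
    rw [hv' k hk] at h1
    exact h1
  have hinv : ∀ v ∈ fixed π K, ∀ k ∈ K, ∀ v', P (π' k v') v = P v' v := by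
    intro v hv k hk v'
    have h1 := hD.inv k v' v
    rw [hv k hk] at h1
    exact h1
  -- the pairing of the fixed vectors
  let B : fixed π' K →ₗ[ℂ] Module.Dual ℂ (fixed π K) :=
    { toFun := fun v' => (P (v' : V')).comp (fixed π K).subtype
      map_add' := fun a b => by
        ext v
        simp
      map_smul' := fun c a => by
        ext v
        simp }
  have hB : ∀ (v' : fixed π' K) (v : fixed π K), B v' v = P (v' : V') (v : V) := fun _ _ => rfl
  have hco : (LinearMap.range B).dualCoannihilator = ⊥ := by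
    rw [Submodule.eq_bot_iff]
    intro v hv
    rw [Submodule.mem_dualCoannihilator] at hv
    have h0 : (v : V) = 0 := by
      apply hD.right
      intro v'
      obtain ⟨v₀, hv₀, hav⟩ := RFU.avg π' hD.irr'.smooth K hKc v'
      have h1 := hav (P.flip (v : V)) (fun k hk w => by
        rw [LinearMap.flip_apply, LinearMap.flip_apply]
        exact hinv v v.2 k hk w)
      rw [LinearMap.flip_apply, LinearMap.flip_apply] at h1
      rw [← h1]
      have h2 := hv (B ⟨v₀, hv₀⟩) ⟨_, rfl⟩
      rw [hB] at h2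
      exact h2
    exact Subtype.ext h0
  have htop : LinearMap.range B = ⊤ := by
    have h1 := Subspace.dualCoannihilator_dualAnnihilator_eq (W := LinearMap.range B)
    rw [hco, Submodule.dualAnnihilator_bot] at h1
    exact h1.symm
  obtain ⟨v', hv'⟩ : φ.comp (fixed π K).subtype ∈ LinearMap.range B := by
    rw [htop]
    exact Submodule.mem_top
  refine ⟨(v' : V'), fun v => ?_⟩
  obtain ⟨v₀, hv₀, hav⟩ := RFU.avg π hD.irr.smooth K hKc v
  rw [← hav φ hφ, ← hav (P (v' : V')) (hinv' v' v'.2)]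
  have h3 := congrArg (fun ψ : Module.Dual ℂ (fixed π K) => ψ ⟨v₀, hv₀⟩) hv'
  simp only [hB] at h3
  exact h3.symm

end Pool.Agent.LPer
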