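import Pool.Agent.Work.MP_037d19_lp.Stmts

/-!
# Linear periods: block ROOT
-/

namespace Pool.Agent.LPer

open scoped Polynomial Topology TensorProduct
open Module (finrank)
open Matrix (fromBlocks)

namespace ROOT

theorem eq_of_pow {Ω : Type} [Field Ω] {P Q : Polynomial Ω} {d : ℕ} (hd : 0 < d) (hP : P.Monic)
    (hQ : Q.Monic) (h : P ^ d = Q ^ d) : P = Q := by
  apply Polynomial.eq_of_monic_of_associated hP hQ
  have h1 : ∀ {P Q : Polynomial Ω}, P ^ d = Q ^ d → P ∣ Q := by
    intro P Q h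
    exact (UniqueFactorizationMonoid.pow_dvd_pow_iff_dvd hd.ne').1 (h ▸ dvd_refl _)
  exact associated_of_dvd_dvd (h1 h) (h1 h.symm)

end ROOT

theorem stmt_ROOT : Stmt_ROOT := by
  intro K Ω _ _ _ _ _ _ Q P d hd hP h
  have hcl : IsAlgClosure K Ω := ⟨inferInstance, inferInstance⟩
  have hg : IsGalois K Ω := IsAlgClosure.isGalois K Ω
  have hfix : ∀ σ : Ω ≃ₐ[K] Ω, P.map (σ : Ω →+* Ω) = P := by
    intro σ
    apply ROOT.eq_of_pow hd (hP.map _) hP
    have h1 : (algebraMap K Ω) = ((σ : Ω →+* Ω)).comp (algebraMap K Ω) := by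
      ext x
      exact (σ.commutes x).symm
    rw [← Polynomial.map_pow, ← h, Polynomial.map_map]
    conv_rhs => rw [h1]
  have hl : P ∈ Polynomial.lifts (algebraMap K Ω) := by
    rw [Polynomial.lifts_iff_coeff_lifts]
    intro n
    rw [InfiniteGalois.mem_range_algebraMap_iff_fixed]
    intro σ
    have h2 := congrArg (fun R => R.coeff n) (hfix σ)
    rw [Polynomial.coeff_map] at h2
    exact h2
  obtain ⟨P₀, hP₀⟩ := hl
  have hP₀' : P₀.map (algebraMap K Ω) = P := hP₀
  have hinj : Function.Injective (algebraMap K Ω) := (algebraMap K Ω).injective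
  refine ⟨P₀, ?_, hP₀', ?_⟩
  · apply Polynomial.monic_of_injective hinj
    rw [hP₀']
    exact hP
  · apply Polynomial.map_injective _ hinj
    rw [Polynomial.map_pow, hP₀', h]

end Pool.Agent.LPer
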