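import Pool.Agent.Work.MP_037d19_lp.Stmts2

/-! # Block SLF: homomorphisms from `GL(M)` to a commutative group factor through the determinant -/

set_option autoImplicit false

namespace Pool.Agent.LPer

open scoped Polynomial Topology TensorProduct Pointwise
open Module (finrank)
open MeasureTheory Filter

namespace SLF

section mat

variable {F : Type} [Field F] {n : Type} [Fintype n] [DecidableEq n] {Q : Type} [CommGroup Q]

/-- the unit of a transvection -/
def tu (i j : n) (h : i ≠ j) (s : F) : (Matrix n n F)ˣ :=
  ⟨Matrix.transvection i j s, Matrix.transvection i j (-s), by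
    rw [Matrix.transvection_mul_transvection_same i j h]; simp, by
    rw [Matrix.transvection_mul_transvection_same i j h]; simp⟩

/-- the unit of a diagonal matrix -/
def du : (n → Fˣ) →* (Matrix n n F)ˣ where
  toFun d := ⟨Matrix.diagonal fun i => (d i : F), Matrix.diagonal fun i => ((d i)⁻¹ : Fˣ),
    by rw [Matrix.diagonal_mul_diagonal]; simp, by rw [Matrix.diagonal_mul_diagonal]; simp⟩
  map_one' := by ext i j; simp
  map_mul' d e := by
    apply Units.ext
    rw [Units.val_mul]
    change Matrix.diagonal _ = Matrix.diagonal _ * Matrix.diagonal _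
    rw [Matrix.diagonal_mul_diagonal]
    rfl

/-- the unit of a permutation matrix -/
def wu (σ : Equiv.Perm n) : (Matrix n n F)ˣ :=
  ⟨σ.permMatrix F, (σ⁻¹).permMatrix F, by
    rw [← Matrix.permMatrix_mul]; simp, by rw [← Matrix.permMatrix_mul]; simp⟩

theorem c_tu [CharZero F] (c : (Matrix n n F)ˣ →* Q) (i j : n) (h : i ≠ j) (s : F) :
    c (tu i j h s) = 1 := by
  let D : (Matrix n n F)ˣ := du (Pi.mulSingle i (Units.mk0 (2 : F) two_ne_zero))
  have h1 : D * tu i j h s = tu i j h s * tu i j h s * D := by
    apply Units.ext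
    have h2 : ((tu i j h s * tu i j h s : (Matrix n n F)ˣ) : Matrix n n F) =
        Matrix.transvection i j (s + s) := by
      change Matrix.transvection i j s * Matrix.transvection i j s = _
      rw [Matrix.transvection_mul_transvection_same i j h]
    rw [Units.val_mul, Units.val_mul (tu i j h s * tu i j h s), h2]
    change Matrix.diagonal _ * Matrix.transvection i j s =
      Matrix.transvection i j (s + s) * Matrix.diagonal _
    ext a b
    rw [Matrix.diagonal_mul, Matrix.mul_diagonal, Matrix.transvection, Matrix.transvection,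
      Matrix.add_apply, Matrix.add_apply]
    by_cases hab : a = b
    · subst hab
      have h3 : ∀ t : F, Matrix.single i j t a a = 0 := by
        intro t
        apply Matrix.single_apply_of_ne
        rintro ⟨rfl, rfl⟩
        exact h rfl
      rw [h3, h3]
      simp
    · rw [Matrix.one_apply_ne hab]
      by_cases h4 : i = a ∧ j = b
      · obtain ⟨rfl, rfl⟩ := h4
        rw [Matrix.single_apply_same, Matrix.single_apply_same]
        have h5 : (Pi.mulSingle i (Units.mk0 (2 : F) two_ne_zero) : n → Fˣ) j = 1 :=
          Pi.mulSingle_eq_of_ne (Ne.symm h) _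
        rw [h5, Pi.mulSingle_eq_same]
        simp
        ring
      · rw [Matrix.single_apply_of_ne _ _ _ _ _ h4, Matrix.single_apply_of_ne _ _ _ _ _ h4]
        simp
  have h2 := congrArg c h1
  rw [map_mul, map_mul, map_mul, mul_comm] at h2
  have h3 := mul_right_cancel h2
  exact (left_eq_mul.1 h3)

theorem c_single (c : (Matrix n n F)ˣ →* Q) (i j : n) (t : Fˣ) :
    c (du (Pi.mulSingle i t)) = c (du (Pi.mulSingle j t)) := by
  let σ : Equiv.Perm n := Equiv.swap i j
  have h1 : wu σ * du (Pi.mulSingle i t) = du (Pi.mulSingle j t) * (wu σ : (Matrix n n F)ˣ) := by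
    apply Units.ext
    rw [Units.val_mul, Units.val_mul]
    change σ.permMatrix F * Matrix.diagonal _ = Matrix.diagonal _ * σ.permMatrix F
    ext a b
    rw [Matrix.diagonal_mul, Matrix.mul_diagonal]
    by_cases h2 : σ a = b
    · have h3 : (Pi.mulSingle i t : n → Fˣ) b = (Pi.mulSingle j t : n → Fˣ) a := by
        subst h2
        by_cases h4 : a = j
        · subst h4
          simp [σ]
        · by_cases h5 : a = i
          · subst h5
            rw [Pi.mulSingle_eq_of_ne h4]
            have : σ a = j := Equiv.swap_apply_left _ _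
            rw [this, Pi.mulSingle_eq_of_ne (Ne.symm h4)]
          · have : σ a = a := Equiv.swap_apply_of_ne_of_ne h5 h4
            rw [this, Pi.mulSingle_eq_of_ne h4, Pi.mulSingle_eq_of_ne h5]
      rw [h3, mul_comm]
    · have h3 : σ.permMatrix F a b = 0 := by
        rw [Equiv.Perm.permMatrix, PEquiv.toMatrix_apply]
        simp [h2]
      rw [h3]
      simp
  have h2 := congrArg c h1
  rw [map_mul, map_mul, mul_comm] at h2
  exact mul_right_cancel h2

theorem c_det [CharZero F] (c : (Matrix n n F)ˣ →* Q) (i₀ : n) (u : (Matrix n n F)ˣ) :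
    c u = c (du (Pi.mulSingle i₀ (Matrix.GeneralLinearGroup.det u))) := by
  let κ : Fˣ →* Q := (c.comp du).comp (MonoidHom.mulSingle (fun _ : n => Fˣ) i₀)
  have hκ : ∀ t, κ t = c (du (Pi.mulSingle i₀ t)) := fun t => rfl
  rw [← hκ]
  have key : ∀ M : Matrix n n F, M.det ≠ 0 → ∀ u : (Matrix n n F)ˣ, (u : Matrix n n F) = M →
      c u = κ (Matrix.GeneralLinearGroup.det u) := by
    intro M hM
    refine Matrix.diagonal_transvection_induction_of_det_ne_zero (fun M => ∀ u : (Matrix n n F)ˣ,
      (u : Matrix n n F) = M → c u = κ (Matrix.GeneralLinearGroup.det u)) M hM ?_ ?_ ?_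
    · intro D hD u hu
      have h1 : ∀ i, D i ≠ 0 := by
        intro i hi
        apply hD
        rw [Matrix.det_diagonal]
        exact Finset.prod_eq_zero (Finset.mem_univ i) hi
      let d : n → Fˣ := fun i => Units.mk0 (D i) (h1 i)
      have h2 : u = du d := by
        apply Units.ext
        rw [hu]
        rfl
      have h3 : Matrix.GeneralLinearGroup.det u = ∏ i, d i := by
        apply Units.ext
        rw [Matrix.GeneralLinearGroup.val_det_apply, hu, Matrix.det_diagonal, Units.coe_prod]
        rfl
      rw [h3, map_prod, h2]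
      have h4 : c (du d) = (c.comp du) (∏ i, Pi.mulSingle i (d i)) := by
        rw [Finset.univ_prod_mulSingle]
        rfl
      rw [h4, map_prod]
      refine Finset.prod_congr rfl fun i _ => ?_
      rw [hκ]
      exact c_single c i i₀ (d i)
    · rintro ⟨i, j, h, s⟩ u hu
      have h2 : u = tu i j h s := Units.ext hu
      have h3 : Matrix.GeneralLinearGroup.det u = 1 := by
        apply Units.ext
        rw [Matrix.GeneralLinearGroup.val_det_apply, hu, Matrix.TransvectionStruct.det]
        rfl
      rw [h3, map_one, h2, c_tu]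
    · intro A B hA hB hPA hPB u hu
      let a : (Matrix n n F)ˣ := Matrix.GeneralLinearGroup.mkOfDetNeZero A hA
      let b : (Matrix n n F)ˣ := Matrix.GeneralLinearGroup.mkOfDetNeZero B hB
      have h1 : u = a * b := by
        apply Units.ext
        rw [hu, Units.val_mul]
        rfl
      rw [h1, map_mul, map_mul, map_mul, hPA a rfl, hPB b rfl]
  refine key u ?_ u rfl
  exact (Matrix.isUnits_det_units u).ne_zero

end mat

end SLF

theorem stmt_SLF : Stmt_SLF := by
  intro F M Q _ _ _ _ _ _ c g hg
  let b := Module.finBasis F M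
  let E : (Matrix (Fin (finrank F M)) (Fin (finrank F M)) F)ˣ ≃* (M ≃ₗ[F] M) :=
    (Units.mapEquiv (Matrix.toLinAlgEquiv b).toMulEquiv).trans
      (LinearMap.GeneralLinearGroup.generalLinearEquiv F M)
  let c' : (Matrix (Fin (finrank F M)) (Fin (finrank F M)) F)ˣ →* Q := c.comp E.toMonoidHom
  have hE : ∀ u, ((E u : M ≃ₗ[F] M) : M →ₗ[F] M) = Matrix.toLin b b (u : Matrix _ _ F) := by
    intro u
    rfl
  obtain ⟨u, rfl⟩ := E.surjective g
  have h1 : c (E u) = c' u := rfl
  rw [h1]
  rcases isEmpty_or_nonempty (Fin (finrank F M)) with hem | ⟨⟨i₀⟩⟩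
  · have : u = 1 := by
      apply Units.ext
      ext i j
      exact hem.elim i
    rw [this, map_one]
  · rw [SLF.c_det c' i₀ u]
    have h2 : Matrix.GeneralLinearGroup.det u = 1 := by
      apply Units.ext
      rw [Matrix.GeneralLinearGroup.val_det_apply, ← LinearMap.det_toLin b, ← hE, hg]
      rfl
    rw [h2, Pi.mulSingle_one, map_one, map_one]

end Pool.Agent.LPer
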