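import Pool.Agent.Work.MP_037d19_lp.Stmts
import Pool.Agent.Work.MP_257930_al.BaseChange

/-!
# Block SPL (MP_037d19_al): splitting with `δ` in block diagonal form (helper88)
-/

namespace Pool.Agent.LPer

open scoped Polynomial Topology TensorProduct
open Module (finrank)
open Matrix (fromBlocks)

namespace SPL

/-- two complementary eigenspaces, exchanged by an invertible map: a good basis -/
theorem exists_basis {Ω V : Type} [Field Ω] [CharZero Ω] [AddCommGroup V] [Module Ω V]
    [FiniteDimensional Ω V] (k : ℕ) (hV : finrank Ω V = 2 * k) (T W : V →ₗ[Ω] V) (α : Ω)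
    (hα : α ≠ 0) (hT : ∀ v, T (T v) = (α ^ 2) • v) (hW : Function.Injective W)
    (hWT : ∀ v, W (T v) = -(T (W v))) :
    ∃ b : Module.Basis (Fin k ⊕ Fin k) Ω V, (∀ i, T (b (Sum.inl i)) = α • b (Sum.inl i)) ∧
      ∀ i, T (b (Sum.inr i)) = -(α • b (Sum.inr i)) := by
  obtain ⟨P, hP⟩ : ∃ P : Submodule Ω V, ∀ v, v ∈ P ↔ T v = α • v :=
    ⟨LinearMap.ker (T - α • LinearMap.id), fun v => by
      rw [LinearMap.mem_ker, LinearMap.sub_apply, LinearMap.smul_apply, LinearMap.id_apply,
        sub_eq_zero]⟩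
  obtain ⟨Q, hQ⟩ : ∃ Q : Submodule Ω V, ∀ v, v ∈ Q ↔ T v = -(α • v) :=
    ⟨LinearMap.ker (T + α • LinearMap.id), fun v => by
      rw [LinearMap.mem_ker, LinearMap.add_apply, LinearMap.smul_apply, LinearMap.id_apply,
        add_eq_zero_iff_eq_neg]⟩
  have h2 : (2 : Ω) ≠ 0 := two_ne_zero
  have hc : IsCompl P Q := by
    rw [isCompl_iff, disjoint_iff, codisjoint_iff]
    constructor
    · rw [Submodule.eq_bot_iff]
      intro v hv
      rw [Submodule.mem_inf, hP, hQ] at hv
      have h3 : (2 * α) • v = 0 := by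
        have : α • v = -(α • v) := hv.1.symm.trans hv.2
        rw [mul_smul, two_smul]
        nth_rw 1 [this]
        exact neg_add_cancel _
      exact (smul_eq_zero.1 h3).resolve_left (mul_ne_zero h2 hα)
    · rw [Submodule.eq_top_iff']
      intro v
      rw [Submodule.mem_sup]
      refine ⟨(2 * α)⁻¹ • (α • v + T v), ?_, (2 * α)⁻¹ • (α • v - T v), ?_, ?_⟩
      · rw [hP, map_smul, map_add, map_smul, hT]
        module
      · rw [hQ, map_smul, map_sub, map_smul, hT]
        module
      · have h4 : (2 * α)⁻¹ • (α • v + T v) + (2 * α)⁻¹ • (α • v - T v) =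
            ((2 * α)⁻¹ * (2 * α)) • v := by module
        rw [h4, inv_mul_cancel₀ (mul_ne_zero h2 hα), one_smul]
  have hPQ : ∀ v ∈ P, W v ∈ Q := by
    intro v hv
    rw [hP] at hv
    rw [hQ]
    have := hWT v
    rw [hv, map_smul] at this
    rw [this, neg_neg]
  have hQP : ∀ v ∈ Q, W v ∈ P := by
    intro v hv
    rw [hQ] at hv
    rw [hP]
    have := hWT v
    rw [hv, map_neg, map_smul] at this
    exact (neg_injective this).symm
  have f1 : finrank Ω P ≤ finrank Ω Q :=
    LinearMap.finrank_le_finrank_of_injective (f := W.restrict hPQ) (by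
      intro x y h
      apply Subtype.ext
      apply hW
      exact congrArg Subtype.val h)
  have f2 : finrank Ω Q ≤ finrank Ω P :=
    LinearMap.finrank_le_finrank_of_injective (f := W.restrict hQP) (by
      intro x y h
      apply Subtype.ext
      apply hW
      exact congrArg Subtype.val h)
  have f3 := Submodule.finrank_add_eq_of_isCompl hc
  have g1 : finrank Ω P = k := by omega
  have g2 : finrank Ω Q = k := by omega
  refine ⟨((Module.finBasisOfFinrankEq Ω P g1).prod (Module.finBasisOfFinrankEq Ω Q g2)).map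
    (Submodule.prodEquivOfIsCompl P Q hc), fun i => ?_, fun i => ?_⟩
  · rw [Module.Basis.map_apply, Module.Basis.prod_apply]
    simp only [Sum.elim_inl, Function.comp_apply, LinearMap.coe_inl, Sum.elim_inr,
      Submodule.coe_prodEquivOfIsCompl']
    rw [Submodule.coe_zero, add_zero]
    exact (hP _).1 (Subtype.property _)
  · rw [Module.Basis.map_apply, Module.Basis.prod_apply]
    simp only [Sum.elim_inr, Function.comp_apply, LinearMap.coe_inr,
      Submodule.coe_prodEquivOfIsCompl']
    rw [Submodule.coe_zero, zero_add]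
    exact (hQ _).1 (Subtype.property _)

end SPL

theorem stmt_SPL : Stmt_SPL := by
  intro F A Ω _ _ _ _ _ _ _ _ _ _ k δ w a α hfr hδ hα ha hw hwδ
  have hinj : Function.Injective (algebraMap F Ω) := (algebraMap F Ω).injective
  haveI : CharZero Ω := charZero_of_injective_algebraMap hinj
  have hα0 : α ≠ 0 := by
    intro h
    rw [h, zero_pow two_ne_zero] at hα
    exact ha (hinj (by rw [← hα, map_zero]))
  haveI : IsSimpleRing (Ω ⊗[F] A) := Pool.Agent.Work.MP_257930_al.isSimpleRing_bc F Ω A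
  obtain ⟨N, hN, ⟨e⟩⟩ := IsSimpleRing.exists_algEquiv_matrix_of_isAlgClosed Ω (Ω ⊗[F] A)
  have hNk : N = 2 * k := by
    have h1 := e.toLinearEquiv.finrank_eq
    rw [Module.finrank_baseChange, hfr, Module.finrank_matrix, Module.finrank_self,
      Fintype.card_fin, mul_one, ← pow_two] at h1
    exact (Nat.pow_left_injective (two_ne_zero) h1).symm
  let E1 : (Ω ⊗[F] A) ≃ₐ[Ω] ((Fin N → Ω) →ₗ[Ω] (Fin N → Ω)) := e.trans Matrix.toLinAlgEquiv'
  have hmul : ∀ x y : A, E1 (1 ⊗ₜ[F] (x * y)) = E1 (1 ⊗ₜ[F] x) * E1 (1 ⊗ₜ[F] y) := by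
    intro x y
    rw [← map_mul, Algebra.TensorProduct.tmul_mul_tmul, mul_one]
  have hscal : ∀ c : F, E1 (1 ⊗ₜ[F] algebraMap F A c) =
      (algebraMap F Ω c) • (1 : (Fin N → Ω) →ₗ[Ω] (Fin N → Ω)) := by
    intro c
    have h1 : (1 : Ω) ⊗ₜ[F] algebraMap F A c = (algebraMap F Ω c) • ((1 : Ω) ⊗ₜ[F] (1 : A)) := by
      rw [Algebra.algebraMap_eq_smul_one, TensorProduct.tmul_smul, TensorProduct.smul_tmul',
        TensorProduct.smul_tmul', Algebra.smul_def, smul_eq_mul]
    rw [h1, map_smul]
    congr 1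
    exact map_one E1
  obtain ⟨b, hb1, hb2⟩ := SPL.exists_basis (V := Fin N → Ω) k (by simp [hNk])
    (E1 (1 ⊗ₜ[F] δ)) (E1 (1 ⊗ₜ[F] w)) α hα0 (by
      intro v
      have h1 : E1 (1 ⊗ₜ[F] δ) * E1 (1 ⊗ₜ[F] δ) =
          (algebraMap F Ω a) • (1 : (Fin N → Ω) →ₗ[Ω] (Fin N → Ω)) := by
        rw [← hmul, hδ, hscal]
      have h2 := congrArg (fun f => f v) h1
      simp only [Module.End.mul_apply, LinearMap.smul_apply, Module.End.one_apply] at h2
      rw [h2, hα]) (by
      obtain ⟨u, rfl⟩ := hw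
      have h1 : E1 (1 ⊗ₜ[F] ((u⁻¹ : Aˣ) : A)) * E1 (1 ⊗ₜ[F] (u : A)) = 1 := by
        rw [← hmul, Units.inv_mul]
        exact map_one E1
      intro x y h
      have h2 := congrArg (fun f => f x) h1
      have h3 := congrArg (fun f => f y) h1
      simp only [Module.End.mul_apply, Module.End.one_apply] at h2 h3
      rw [← h2, ← h3, h]) (by
      intro v
      have h1 : E1 (1 ⊗ₜ[F] w) * E1 (1 ⊗ₜ[F] δ) = -(E1 (1 ⊗ₜ[F] δ) * E1 (1 ⊗ₜ[F] w)) := by
        rw [← hmul, ← hmul, hwδ, TensorProduct.tmul_neg, map_neg]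
      have h2 := congrArg (fun f => f v) h1
      simpa only [Module.End.mul_apply, LinearMap.neg_apply] using h2)
  let E2 : (Ω ⊗[F] A) ≃ₐ[Ω] Matrix (Fin k ⊕ Fin k) (Fin k ⊕ Fin k) Ω :=
    E1.trans (LinearMap.toMatrixAlgEquiv b)
  refine ⟨(E2.toAlgHom.restrictScalars F).comp Algebra.TensorProduct.includeRight, ?_, ?_⟩
  · rw [Submodule.eq_top_iff']
    intro x
    obtain ⟨y, rfl⟩ := E2.surjective x
    induction y using TensorProduct.induction_on with
    | zero => rw [map_zero]; exact Submodule.zero_mem _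
    | tmul c z =>
      have h1 : c ⊗ₜ[F] z = c • ((1 : Ω) ⊗ₜ[F] z) := by
        rw [TensorProduct.smul_tmul', smul_eq_mul, mul_one]
      rw [h1, map_smul]
      exact Submodule.smul_mem _ _ (Submodule.subset_span ⟨z, rfl⟩)
    | add y z hy hz => rw [map_add]; exact Submodule.add_mem _ hy hz
  · have h1 : ((E2.toAlgHom.restrictScalars F).comp Algebra.TensorProduct.includeRight) δ =
        LinearMap.toMatrixAlgEquiv b (E1 (1 ⊗ₜ[F] δ)) := rfl
    rw [h1]
    ext i j
    rw [LinearMap.toMatrixAlgEquiv_apply]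
    rcases j with j | j
    · rw [hb1, map_smul, Module.Basis.repr_self, Finsupp.smul_apply]
      rcases i with i | i
      · simp only [Matrix.fromBlocks_apply₁₁, Matrix.smul_apply, Matrix.one_apply,
          Finsupp.single_apply, Sum.inl.injEq]
        congr 1
        by_cases hij : i = j
        · simp [hij]
        · simp [hij, Ne.symm hij]
      · simp [Finsupp.single_apply]
    · rw [hb2, map_neg, map_smul, Module.Basis.repr_self, Finsupp.neg_apply, Finsupp.smul_apply]
      rcases i with i | i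
      · simp [Finsupp.single_apply]
      · simp only [Matrix.fromBlocks_apply₂₂, Matrix.neg_apply, Matrix.smul_apply,
          Matrix.one_apply, Finsupp.single_apply, Sum.inr.injEq]
        congr 2
        by_cases hij : i = j
        · simp [hij]
        · simp [hij, Ne.symm hij]

end Pool.Agent.LPer
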