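import Pool.Agent.Work.MP_037d19_lp.Defs2

/-!
# Linear periods: block STR
-/

namespace Pool.Agent.LPer

open scoped Topology
open Module (finrank)
open MeasureTheory Filter

namespace STR

section alg

variable {F A : Type} [Field F] [Ring A] [Algebra F A]

/-- `g δ g⁻¹` -/
def xg (δ : A) (g : Aˣ) : A := (g : A) * δ * ((g⁻¹ : Aˣ) : A)

theorem xg_mul (δ : A) (g : Aˣ) : xg δ g * (g : A) = g * δ := by
  unfold xg
  rw [mul_assoc, Units.inv_mul, mul_one]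

theorem inv_xg (δ : A) (g : Aˣ) : ((g⁻¹ : Aˣ) : A) * xg δ g = δ * ((g⁻¹ : Aˣ) : A) := by
  unfold xg
  rw [← mul_assoc, ← mul_assoc, Units.inv_mul, one_mul]

/-- conjugation by a unit -/
def conjE (F : Type) {A : Type} [Field F] [Ring A] [Algebra F A] (u : Aˣ) : A ≃ₗ[F] A where
  toFun y := (u : A) * y * ((u⁻¹ : Aˣ) : A)
  map_add' x y := by rw [mul_add, add_mul]
  map_smul' c y := by
    rw [mul_smul_comm, smul_mul_assoc]
    rfl
  invFun y := ((u⁻¹ : Aˣ) : A) * y * (u : A)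
  left_inv y := by
    change ((u⁻¹ : Aˣ) : A) * ((u : A) * y * ((u⁻¹ : Aˣ) : A)) * (u : A) = y
    rw [mul_assoc, mul_assoc, Units.inv_mul, mul_one, ← mul_assoc, Units.inv_mul, one_mul]
  right_inv y := by
    change (u : A) * (((u⁻¹ : Aˣ) : A) * y * (u : A)) * ((u⁻¹ : Aˣ) : A) = y
    rw [mul_assoc, mul_assoc, Units.mul_inv, mul_one, ← mul_assoc, Units.mul_inv, one_mul]

/-- left multiplication by a unit -/
def leftE (F : Type) {A : Type} [Field F] [Ring A] [Algebra F A] (u : Aˣ) : A ≃ₗ[F] A where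
  toFun y := (u : A) * y
  map_add' x y := mul_add _ _ _
  map_smul' c y := mul_smul_comm _ _ _
  invFun y := ((u⁻¹ : Aˣ) : A) * y
  left_inv y := by
    change ((u⁻¹ : Aˣ) : A) * ((u : A) * y) = y
    rw [← mul_assoc, Units.inv_mul, one_mul]
  right_inv y := by
    change (u : A) * (((u⁻¹ : Aˣ) : A) * y) = y
    rw [← mul_assoc, Units.mul_inv, one_mul]

theorem finrank_equiv (e : A ≃ₗ[F] A) (S T : Submodule F A) (h : ∀ y, y ∈ S ↔ e y ∈ T) :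
    finrank F S = finrank F T := by
  have hT : T = S.map (e : A →ₗ[F] A) := by
    ext z
    rw [Submodule.mem_map]
    constructor
    · intro hz
      refine ⟨e.symm z, ?_, ?_⟩
      · rw [h, e.apply_symm_apply]
        exact hz
      · exact e.apply_symm_apply z
    · rintro ⟨y, hy, rfl⟩
      exact (h y).1 hy
  rw [hT]
  exact (LinearEquiv.finrank_map_eq e S).symm

/-- the common centralizer -/
theorem mem_L (δ : A) (g : Aˣ) (y : A) :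
    y ∈ Subalgebra.toSubmodule (Subalgebra.centralizer F
      ({δ, (g : A) * δ * ((g⁻¹ : Aˣ) : A)} : Set A)) ↔ δ * y = y * δ ∧ xg δ g * y = y * xg δ g := by
  rw [Subalgebra.mem_toSubmodule, Subalgebra.mem_centralizer_iff]
  simp only [Set.mem_insert_iff, Set.mem_singleton_iff, forall_eq_or_imp, forall_eq]
  rfl

/-- the stratification function is invariant -/
theorem rho_conj (δ : A) (g h₁ h₂ : Aˣ) (c₁ : δ * (h₁ : A) = h₁ * δ)
    (c₂ : δ * (h₂ : A) = h₂ * δ) : rho F δ (h₁ * g * h₂⁻¹) = rho F δ g := by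
  have e1 : xg δ (h₁ * g * h₂⁻¹) = (h₁ : A) * xg δ g * ((h₁⁻¹ : Aˣ) : A) := by
    have c3 : ((h₂⁻¹ : Aˣ) : A) * δ * (h₂ : A) = δ := by
      rw [mul_assoc, c₂, ← mul_assoc, Units.inv_mul, one_mul]
    unfold xg
    rw [mul_inv_rev, mul_inv_rev, inv_inv]
    simp only [Units.val_mul]
    calc (h₁ : A) * (g : A) * ((h₂⁻¹ : Aˣ) : A) * δ * ((h₂ : A) * (((g⁻¹ : Aˣ) : A) *
        ((h₁⁻¹ : Aˣ) : A))) = (h₁ : A) * (g : A) * (((h₂⁻¹ : Aˣ) : A) * δ * (h₂ : A)) *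
        ((g⁻¹ : Aˣ) : A) * ((h₁⁻¹ : Aˣ) : A) := by simp only [mul_assoc]
      _ = _ := by rw [c3]; simp only [mul_assoc]
  have e2 : δ = (h₁ : A) * δ * ((h₁⁻¹ : Aˣ) : A) := by
    rw [← c₁, mul_assoc, Units.mul_inv, mul_one]
  unfold rho
  symm
  refine finrank_equiv (conjE F h₁) _ _ ?_
  intro y
  rw [mem_L, mem_L, e1]
  have hmul : ∀ a b : A, ((h₁ : A) * a * ((h₁⁻¹ : Aˣ) : A)) * ((h₁ : A) * b * ((h₁⁻¹ : Aˣ) : A)) =
      (h₁ : A) * (a * b) * ((h₁⁻¹ : Aˣ) : A) := by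
    intro a b
    calc ((h₁ : A) * a * ((h₁⁻¹ : Aˣ) : A)) * ((h₁ : A) * b * ((h₁⁻¹ : Aˣ) : A)) =
        (h₁ : A) * a * (((h₁⁻¹ : Aˣ) : A) * (h₁ : A)) * b * ((h₁⁻¹ : Aˣ) : A) := by
          simp only [mul_assoc]
      _ = _ := by rw [Units.inv_mul, mul_one]; simp only [mul_assoc]
  have hinj : ∀ a b : A, (h₁ : A) * a * ((h₁⁻¹ : Aˣ) : A) = (h₁ : A) * b * ((h₁⁻¹ : Aˣ) : A) ↔
      a = b := fun a b => (conjE F h₁).injective.eq_iff
  have e3 : δ * (conjE F h₁ y) = (h₁ : A) * (δ * y) * ((h₁⁻¹ : Aˣ) : A) := by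
    rw [← hmul, ← e2]
    rfl
  have e4 : (conjE F h₁ y) * δ = (h₁ : A) * (y * δ) * ((h₁⁻¹ : Aˣ) : A) := by
    rw [← hmul, ← e2]
    rfl
  have e5 : (h₁ : A) * xg δ g * ((h₁⁻¹ : Aˣ) : A) * (conjE F h₁ y) =
      (h₁ : A) * (xg δ g * y) * ((h₁⁻¹ : Aˣ) : A) := by
    rw [← hmul]
    rfl
  have e6 : (conjE F h₁ y) * ((h₁ : A) * xg δ g * ((h₁⁻¹ : Aˣ) : A)) =
      (h₁ : A) * (y * xg δ g) * ((h₁⁻¹ : Aˣ) : A) := by
    rw [← hmul]
    rfl
  rw [e3, e4, e5, e6, hinj, hinj]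

/-- the transporters: from `h₁ g h₂⁻¹ = w g⁻¹ w⁻¹` -/
theorem trans_mem (δ : A) (w g h₁ h₂ : Aˣ) (hw : (w : A) * δ = -(δ * w))
    (c₁ : δ * (h₁ : A) = h₁ * δ) (c₂ : δ * (h₂ : A) = h₂ * δ)
    (h : h₁ * g * h₂⁻¹ = w * g⁻¹ * w⁻¹) :
    ((g * h₂⁻¹ * w : Aˣ) : A) * δ = -(xg δ g * ((g * h₂⁻¹ * w : Aˣ) : A)) ∧
    ((g * h₂⁻¹ * w : Aˣ) : A) * xg δ g = -(δ * ((g * h₂⁻¹ * w : Aˣ) : A)) := by
  have c₁' : δ * ((h₁⁻¹ : Aˣ) : A) = ((h₁⁻¹ : Aˣ) : A) * δ := by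
    calc δ * ((h₁⁻¹ : Aˣ) : A) = ((h₁⁻¹ : Aˣ) : A) * ((h₁ : A) * δ) * ((h₁⁻¹ : Aˣ) : A) := by
          rw [← mul_assoc, Units.inv_mul, one_mul]
      _ = _ := by rw [← c₁, mul_assoc, mul_assoc, Units.mul_inv, mul_one]
  have c₂' : δ * ((h₂⁻¹ : Aˣ) : A) = ((h₂⁻¹ : Aˣ) : A) * δ := by
    calc δ * ((h₂⁻¹ : Aˣ) : A) = ((h₂⁻¹ : Aˣ) : A) * ((h₂ : A) * δ) * ((h₂⁻¹ : Aˣ) : A) := by
          rw [← mul_assoc, Units.inv_mul, one_mul]
      _ = _ := by rw [← c₂, mul_assoc, mul_assoc, Units.mul_inv, mul_one]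
  have e1 : g * h₂⁻¹ * w = h₁⁻¹ * w * g⁻¹ := by
    have h' : g * h₂⁻¹ = h₁⁻¹ * (w * g⁻¹ * w⁻¹) := by
      rw [← h]
      group
    rw [h']
    group
  constructor
  · simp only [Units.val_mul]
    calc (g : A) * ((h₂⁻¹ : Aˣ) : A) * (w : A) * δ =
        (g : A) * ((h₂⁻¹ : Aˣ) : A) * ((w : A) * δ) := by simp only [mul_assoc]
      _ = -((g : A) * (((h₂⁻¹ : Aˣ) : A) * δ) * (w : A)) := by
          rw [hw]
          simp only [mul_assoc, mul_neg]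
      _ = -(((g : A) * δ) * ((h₂⁻¹ : Aˣ) : A) * (w : A)) := by
          rw [← c₂']
          simp only [mul_assoc]
      _ = _ := by
          rw [← xg_mul]
          simp only [mul_assoc]
  · rw [e1]
    simp only [Units.val_mul]
    calc ((h₁⁻¹ : Aˣ) : A) * (w : A) * ((g⁻¹ : Aˣ) : A) * xg δ g =
        ((h₁⁻¹ : Aˣ) : A) * (w : A) * (((g⁻¹ : Aˣ) : A) * xg δ g) := by simp only [mul_assoc]
      _ = ((h₁⁻¹ : Aˣ) : A) * ((w : A) * δ) * ((g⁻¹ : Aˣ) : A) := by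
          rw [inv_xg]
          simp only [mul_assoc]
      _ = -((((h₁⁻¹ : Aˣ) : A) * δ) * (w : A) * ((g⁻¹ : Aˣ) : A)) := by
          rw [hw]
          simp only [mul_assoc, mul_neg, neg_mul]
      _ = _ := by
          rw [← c₁']
          simp only [mul_assoc]

/-- the dimension of the space of the transporters -/
theorem finrank_N (δ : A) (g y : Aˣ) (N : Submodule F A)
    (hN : ∀ z : A, z ∈ N ↔ z * δ = -(xg δ g * z) ∧ z * xg δ g = -(δ * z))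
    (h1 : (y : A) * δ = -(xg δ g * y)) (h2 : (y : A) * xg δ g = -(δ * y)) :
    finrank F N = rho F δ g := by
  unfold rho
  symm
  refine finrank_equiv (leftE F y) _ _ ?_
  intro z
  rw [mem_L, hN]
  change _ ↔ ((y : A) * z) * δ = -(xg δ g * ((y : A) * z)) ∧
    ((y : A) * z) * xg δ g = -(δ * ((y : A) * z))
  have hinj : ∀ a b : A, (y : A) * a = (y : A) * b ↔ a = b := fun a b => y.mul_right_inj
  have e1 : -(xg δ g * ((y : A) * z)) = (y : A) * (δ * z) := by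
    rw [← mul_assoc, ← mul_assoc, h1, neg_mul]
  have e2 : -(δ * ((y : A) * z)) = (y : A) * (xg δ g * z) := by
    rw [← mul_assoc, ← mul_assoc, h2, neg_mul]
  rw [e1, e2, mul_assoc, mul_assoc, hinj, hinj]
  constructor
  · rintro ⟨a, b⟩
    exact ⟨a.symm, b.symm⟩
  · rintro ⟨a, b⟩
    exact ⟨a.symm, b.symm⟩

end alg

section top

variable {F A : Type} [NontriviallyNormedField F] [NormedRing A] [NormedAlgebra F A]

theorem xg_cont (δ : A) : Continuous (fun g : Aˣ => xg δ g) := by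
  unfold xg
  exact (Units.continuous_val.mul continuous_const).mul (Units.continuous_val.comp continuous_inv)

/-- the equations of the common centralizer -/
noncomputable def Φ1 (F : Type) {A : Type} [NontriviallyNormedField F] [NormedRing A]
    [NormedAlgebra F A] (δ : A) (g : Aˣ) : A →L[F] A × A :=
  (ContinuousLinearMap.inl F A A).comp
      ((ContinuousLinearMap.mul F A).flip δ - ContinuousLinearMap.mul F A δ) +
    (ContinuousLinearMap.inr F A A).comp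
      ((ContinuousLinearMap.mul F A).flip (xg δ g) - ContinuousLinearMap.mul F A (xg δ g))

/-- the equations of the transporters -/
noncomputable def Φ2 (F : Type) {A : Type} [NontriviallyNormedField F] [NormedRing A]
    [NormedAlgebra F A] (δ : A) (g : Aˣ) : A →L[F] A × A :=
  (ContinuousLinearMap.inl F A A).comp
      ((ContinuousLinearMap.mul F A).flip δ + ContinuousLinearMap.mul F A (xg δ g)) +
    (ContinuousLinearMap.inr F A A).comp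
      ((ContinuousLinearMap.mul F A).flip (xg δ g) + ContinuousLinearMap.mul F A δ)

theorem Φ1_zero (δ : A) (g : Aˣ) (y : A) :
    Φ1 F δ g y = 0 ↔ δ * y = y * δ ∧ xg δ g * y = y * xg δ g := by
  have e : Φ1 F δ g y = (y * δ - δ * y, y * xg δ g - xg δ g * y) := by
    unfold Φ1
    simp
  rw [e, Prod.mk_eq_zero, sub_eq_zero, sub_eq_zero]
  constructor
  · rintro ⟨a, b⟩
    exact ⟨a.symm, b.symm⟩
  · rintro ⟨a, b⟩
    exact ⟨a.symm, b.symm⟩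

theorem Φ2_zero (δ : A) (g : Aˣ) (y : A) :
    Φ2 F δ g y = 0 ↔ y * δ = -(xg δ g * y) ∧ y * xg δ g = -(δ * y) := by
  have e : Φ2 F δ g y = (y * δ + xg δ g * y, y * xg δ g + δ * y) := by
    unfold Φ2
    simp
  rw [e, Prod.mk_eq_zero, add_eq_zero_iff_eq_neg, add_eq_zero_iff_eq_neg]

theorem Φ1_cont (δ : A) : Continuous (fun g : Aˣ => Φ1 F δ g) := by
  unfold Φ1
  refine continuous_const.add (continuous_const.clm_comp ?_)
  exact ((ContinuousLinearMap.mul F A).flip.continuous.comp (xg_cont δ)).sub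
    ((ContinuousLinearMap.mul F A).continuous.comp (xg_cont δ))

theorem Φ2_cont (δ : A) : Continuous (fun g : Aˣ => Φ2 F δ g) := by
  unfold Φ2
  refine (continuous_const.clm_comp ?_).add (continuous_const.clm_comp ?_)
  · exact continuous_const.add ((ContinuousLinearMap.mul F A).continuous.comp (xg_cont δ))
  · exact ((ContinuousLinearMap.mul F A).flip.continuous.comp (xg_cont δ)).add continuous_const

theorem Φ1_rank (δ : A) (g : Aˣ) :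
    finrank F (LinearMap.ker (Φ1 F δ g).toLinearMap) = rho F δ g := by
  have hk : LinearMap.ker (Φ1 F δ g).toLinearMap = Subalgebra.toSubmodule
      (Subalgebra.centralizer F ({δ, (g : A) * δ * ((g⁻¹ : Aˣ) : A)} : Set A)) := by
    ext y
    rw [mem_L, LinearMap.mem_ker]
    exact Φ1_zero δ g y
  unfold rho
  rw [hk]

/-- neighbourhoods in `H × H` -/
theorem nbhd {E : Type} [Field E] [Algebra F E] (ι : E →ₐ[F] A)
    (hopen : Topology.IsOpenEmbedding (Units.val : Aˣ → A)) (f : Aˣ × Aˣ → Aˣ × Aˣ)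
    (hf : Continuous f) (u₀ x₀ : Aˣ) (γ : HH ι × HH ι) (hγ : f (u₀, x₀) = ((γ.1 : Aˣ), (γ.2 : Aˣ)))
    (O : Set (HH ι × HH ι)) (hO : O ∈ 𝓝 γ) : ∃ O' ∈ 𝓝 (u₀ : A), ∃ U ∈ 𝓝 x₀, ∀ v ∈ O',
      ∃ u : Aˣ, (u : A) = v ∧ ∀ x ∈ U, ∀ (m₁ : (f (u, x)).1 ∈ HH ι) (m₂ : (f (u, x)).2 ∈ HH ι),
        ((⟨_, m₁⟩, ⟨_, m₂⟩) : HH ι × HH ι) ∈ O := by
  have hind : Topology.IsInducing (Prod.map (Subtype.val : HH ι → Aˣ) (Subtype.val : HH ι → Aˣ)) :=
    Topology.IsInducing.subtypeVal.prodMap Topology.IsInducing.subtypeVal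
  rw [hind.nhds_eq_comap, Filter.mem_comap] at hO
  obtain ⟨T, hT, hTO⟩ := hO
  have hT' : T ∈ 𝓝 (f (u₀, x₀)) := by
    rw [hγ]
    exact hT
  have h2 : f ⁻¹' T ∈ 𝓝 (u₀, x₀) := hf.continuousAt hT'
  rw [mem_nhds_prod_iff] at h2
  obtain ⟨W1, hW1, W2, hW2, hW⟩ := h2
  refine ⟨Units.val '' W1, hopen.isOpenMap.image_mem_nhds hW1, W2, hW2, ?_⟩
  rintro _ ⟨u, hu, rfl⟩
  refine ⟨u, rfl, fun x hx m₁ m₂ => hTO ?_⟩
  exact hW ⟨hu, hx⟩

end top

end STR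

/-- STR -/
theorem stmt_STR (h0 : Stmt_CKR) : Stmt_STR := by
  intro F E A _ _ _ _ _ _ _ _ ι δ w hcent hw hopen hpt
  obtain ⟨c1, c2⟩ := h0 F A (A × A) Aˣ (STR.Φ1 F δ) (STR.Φ1_cont δ)
  obtain ⟨-, d2⟩ := h0 F A (A × A) Aˣ (STR.Φ2 F δ) (STR.Φ2_cont δ)
  simp only [STR.Φ1_rank] at c1 c2
  have hHH : ∀ g : Aˣ, g ∈ HH ι ↔ δ * (g : A) = g * δ := fun g => by
    rw [mem_HH, hcent]
  have hγ : ∀ γ : HH ι × HH ι, δ * ((γ.1 : Aˣ) : A) = ((γ.1 : Aˣ) : A) * δ ∧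
      δ * ((γ.2 : Aˣ) : A) = ((γ.2 : Aˣ) : A) * δ := fun γ =>
    ⟨(hHH _).1 γ.1.2, (hHH _).1 γ.2.2⟩
  have hΦ2 : ∀ g : Aˣ, finrank F (LinearMap.ker (STR.Φ2 F δ g).toLinearMap) = rho F δ g := by
    intro g
    obtain ⟨γ, hg⟩ := hpt g
    rw [tauW_apply, smul_HH] at hg
    have h3 := STR.trans_mem δ w g γ.1 γ.2 hw (hγ γ).1 (hγ γ).2 hg.symm
    refine STR.finrank_N δ g (g * (γ.2 : Aˣ)⁻¹ * w) _ ?_ h3.1 h3.2
    intro z
    rw [LinearMap.mem_ker]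
    exact STR.Φ2_zero δ g z
  simp only [hΦ2] at d2
  refine ⟨⟨finrank F A + 1, fun g => ?_⟩, c1, ?_, ?_, ?_⟩
  · exact Nat.lt_succ_of_le (Submodule.finrank_le _)
  · intro γ g
    rw [smul_HH]
    exact STR.rho_conj δ g _ _ (hγ γ).1 (hγ γ).2
  · intro x₀ γ hx₀ O hO
    rw [smul_HH] at hx₀
    have e1 : (γ.1 : Aˣ) * x₀ = x₀ * (γ.2 : Aˣ) := by
      rw [← mul_inv_eq_iff_eq_mul]
      exact hx₀
    have e2 : x₀⁻¹ * (γ.1 : Aˣ) * x₀ = (γ.2 : Aˣ) := by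
      rw [mul_assoc, e1]
      group
    obtain ⟨O', hO', U, hU, hOU⟩ := STR.nbhd ι hopen (fun q => (q.1, q.2⁻¹ * q.1 * q.2))
      (by fun_prop) (γ.1 : Aˣ) x₀ γ (by rw [e2]) O hO
    have h4 : STR.Φ1 F δ x₀ ((γ.1 : Aˣ) : A) = 0 := by
      rw [STR.Φ1_zero]
      refine ⟨(hγ γ).1, ?_⟩
      have e3 : (((γ.1 : Aˣ) : A)) * (x₀ : A) = x₀ * ((γ.2 : Aˣ) : A) := by
        rw [← Units.val_mul, e1, Units.val_mul]
      have e4 : ((x₀⁻¹ : Aˣ) : A) * ((γ.1 : Aˣ) : A) = ((γ.2 : Aˣ) : A) * ((x₀⁻¹ : Aˣ) : A) := by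
        rw [← Units.val_mul, ← Units.val_mul]
        congr 1
        rw [← e2]
        group
      unfold STR.xg
      rw [mul_assoc, e4, mul_assoc, ← mul_assoc δ, (hγ γ).2, ← mul_assoc, ← mul_assoc, ← e3]
      simp only [mul_assoc]
    filter_upwards [c2 x₀ ((γ.1 : Aˣ) : A) h4 O' hO', mem_nhdsWithin_of_mem_nhds hU] with x hx hxU
    obtain ⟨v, hv, hv0⟩ := hx
    obtain ⟨u, rfl, hu⟩ := hOU v hv
    rw [STR.Φ1_zero] at hv0
    have m₁ : u ∈ HH ι := (hHH u).2 hv0.1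
    have m₂ : x⁻¹ * u * x ∈ HH ι := by
      rw [hHH]
      simp only [Units.val_mul]
      calc δ * (((x⁻¹ : Aˣ) : A) * (u : A) * (x : A)) =
          (δ * ((x⁻¹ : Aˣ) : A)) * (u : A) * (x : A) := by simp only [mul_assoc]
        _ = ((x⁻¹ : Aˣ) : A) * (STR.xg δ x * (u : A)) * (x : A) := by
            rw [← STR.inv_xg]
            simp only [mul_assoc]
        _ = ((x⁻¹ : Aˣ) : A) * (u : A) * (STR.xg δ x * (x : A)) := by
            rw [hv0.2]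
            simp only [mul_assoc]
        _ = _ := by
            rw [STR.xg_mul]
            simp only [mul_assoc]
    refine ⟨(⟨u, m₁⟩, ⟨x⁻¹ * u * x, m₂⟩), hu x hxU m₁ m₂, ?_⟩
    rw [smul_HH]
    group
  · intro x₀ γ hx₀ O hO
    rw [tauW_apply, smul_HH] at hx₀
    have e1 : x₀ * (γ.2 : Aˣ)⁻¹ * w = (γ.1 : Aˣ)⁻¹ * w * x₀⁻¹ := by
      have h' : x₀ * (γ.2 : Aˣ)⁻¹ = (γ.1 : Aˣ)⁻¹ * (w * x₀⁻¹ * w⁻¹) := by
        rw [← hx₀]
        group
      rw [h']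
      group
    obtain ⟨O', hO', U, hU, hOU⟩ := STR.nbhd ι hopen
      (fun q => (w * q.2⁻¹ * q.1⁻¹, w * q.1⁻¹ * q.2))
      (by fun_prop) (x₀ * (γ.2 : Aˣ)⁻¹ * w) x₀ γ (by
        refine Prod.ext ?_ ?_
        · change w * x₀⁻¹ * (x₀ * (γ.2 : Aˣ)⁻¹ * w)⁻¹ = (γ.1 : Aˣ)
          rw [e1]
          group
        · change w * (x₀ * (γ.2 : Aˣ)⁻¹ * w)⁻¹ * x₀ = (γ.2 : Aˣ)
          group) O hO
    have h3 := STR.trans_mem δ w x₀ γ.1 γ.2 hw (hγ γ).1 (hγ γ).2 hx₀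
    have h4 : STR.Φ2 F δ x₀ ((x₀ * (γ.2 : Aˣ)⁻¹ * w : Aˣ) : A) = 0 := by
      rw [STR.Φ2_zero]
      exact h3
    have hwi : ((w⁻¹ : Aˣ) : A) * δ = -(δ * ((w⁻¹ : Aˣ) : A)) := by
      have h5 : δ * (w : A) = -((w : A) * δ) := by rw [hw, neg_neg]
      calc ((w⁻¹ : Aˣ) : A) * δ = ((w⁻¹ : Aˣ) : A) * (δ * (w : A)) * ((w⁻¹ : Aˣ) : A) := by
            rw [mul_assoc, mul_assoc, Units.mul_inv, mul_one]
        _ = _ := by rw [h5, mul_neg, neg_mul, ← mul_assoc, Units.inv_mul, one_mul]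
    filter_upwards [d2 x₀ _ h4 O' hO', mem_nhdsWithin_of_mem_nhds hU] with x hx hxU
    obtain ⟨v, hv, hv0⟩ := hx
    obtain ⟨y, rfl, hy⟩ := hOU v hv
    rw [STR.Φ2_zero] at hv0
    have m₁' : y * x * w⁻¹ ∈ HH ι := by
      rw [hHH]
      simp only [Units.val_mul]
      symm
      calc (y : A) * (x : A) * ((w⁻¹ : Aˣ) : A) * δ =
          (y : A) * (x : A) * (((w⁻¹ : Aˣ) : A) * δ) := by simp only [mul_assoc]
        _ = -((y : A) * ((x : A) * δ) * ((w⁻¹ : Aˣ) : A)) := by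
            rw [hwi]
            simp only [mul_assoc, mul_neg]
        _ = -(((y : A) * STR.xg δ x) * (x : A) * ((w⁻¹ : Aˣ) : A)) := by
            rw [← STR.xg_mul δ x]
            simp only [mul_assoc]
        _ = _ := by
            rw [hv0.2]
            simp only [mul_assoc, neg_mul, neg_neg]
    have m₂' : x⁻¹ * y * w⁻¹ ∈ HH ι := by
      rw [hHH]
      simp only [Units.val_mul]
      symm
      calc ((x⁻¹ : Aˣ) : A) * (y : A) * ((w⁻¹ : Aˣ) : A) * δ =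
          ((x⁻¹ : Aˣ) : A) * (y : A) * (((w⁻¹ : Aˣ) : A) * δ) := by simp only [mul_assoc]
        _ = -(((x⁻¹ : Aˣ) : A) * ((y : A) * δ) * ((w⁻¹ : Aˣ) : A)) := by
            rw [hwi]
            simp only [mul_assoc, mul_neg]
        _ = ((x⁻¹ : Aˣ) : A) * STR.xg δ x * (y : A) * ((w⁻¹ : Aˣ) : A) := by
            rw [hv0.1]
            simp only [mul_assoc, neg_mul, neg_neg, mul_neg]
        _ = _ := by
            rw [STR.inv_xg]
            simp only [mul_assoc]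
    have m₁ : w * x⁻¹ * y⁻¹ ∈ HH ι := by
      have h6 := (HH ι).inv_mem m₁'
      have e5 : (y * x * w⁻¹)⁻¹ = w * x⁻¹ * y⁻¹ := by group
      rwa [e5] at h6
    have m₂ : w * y⁻¹ * x ∈ HH ι := by
      have h6 := (HH ι).inv_mem m₂'
      have e5 : (x⁻¹ * y * w⁻¹)⁻¹ = w * y⁻¹ * x := by group
      rwa [e5] at h6
    refine ⟨(⟨w * x⁻¹ * y⁻¹, m₁⟩, ⟨w * y⁻¹ * x, m₂⟩), hy x hxU m₁ m₂, ?_⟩
    rw [smul_HH, tauW_apply]
    group

end Pool.Agent.LPer
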