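import Pool.Agent.Work.MP_037d19_lp.Stmts2

/-! # Block TOPA (helper55) -/

namespace Pool.Agent.LPer

open scoped Topology

theorem stmt_TOPA : Stmt_TOPA := by
  intro F A _ _ _ _ _ _ _
  have hc : CompleteSpace A := FiniteDimensional.complete F A
  have hp : ProperSpace A := FiniteDimensional.proper F A
  have ho : Topology.IsOpenEmbedding (Units.val : Aˣ → A) := Units.isOpenEmbedding_val
  let e : A ≃L[F] (Fin (Module.finrank F A) → F) := (Module.finBasis F A).equivFunL
  have hemb : Topology.IsEmbedding (fun a : Aˣ => e (a : A)) :=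
    e.toHomeomorph.isEmbedding.comp ho.isEmbedding
  refine ⟨ho.locallyCompactSpace, ?_, inferInstance, ho⟩
  refine ⟨?_⟩
  refine isTotallyDisconnected_of_image (f := fun a : Aˣ => e (a : A))
    hemb.continuous.continuousOn hemb.injective ?_
  exact isTotallyDisconnected_of_totallyDisconnectedSpace _

end Pool.Agent.LPer
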