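import Pool.Agent.Work.MP_037d19_lp.Stmts2

/-! # Block UNI (helper9): the unit group is unimodular -/

namespace Pool.Agent.LPer

open scoped Topology Pointwise NNReal ENNReal
open MeasureTheory Filter

namespace UNI

/-- coset decomposition of a compact subgroup -/
theorem coset {G : Type} [Group G] [TopologicalSpace G] [IsTopologicalGroup G]
    [MeasurableSpace G] [BorelSpace G] (K H : Subgroup G) (hK : IsCompact (K : Set G))
    (hH : IsOpen (H : Set G)) (hHK : H ≤ K) : ∃ N : ℕ, ∀ m : Measure G,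
      (∀ k ∈ K, m (k • (H : Set G)) = m (H : Set G)) → m (K : Set G) = N * m (H : Set G) := by
  haveI : CompactSpace K := isCompact_iff_compactSpace.1 hK
  have hopen : IsOpen ((H.subgroupOf K : Subgroup K) : Set K) :=
    hH.preimage continuous_subtype_val
  haveI : Finite (K ⧸ H.subgroupOf K) := Subgroup.quotient_finite_of_isOpen _ hopen
  haveI := Fintype.ofFinite (K ⧸ H.subgroupOf K)
  refine ⟨Fintype.card (K ⧸ H.subgroupOf K), fun m hm => ?_⟩
  have hU : (K : Set G) = ⋃ q : K ⧸ H.subgroupOf K, ((q.out : K) : G) • (H : Set G) := by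
    ext x
    constructor
    · intro hx
      refine Set.mem_iUnion.2 ⟨QuotientGroup.mk ⟨x, hx⟩, ?_⟩
      rw [Set.mem_smul_set_iff_inv_smul_mem]
      have h1 := QuotientGroup.eq.1
        (QuotientGroup.out_eq' (QuotientGroup.mk ⟨x, hx⟩ : K ⧸ H.subgroupOf K))
      exact h1
    · intro hx
      obtain ⟨q, hq⟩ := Set.mem_iUnion.1 hx
      obtain ⟨h, hh, rfl⟩ := hq
      exact K.mul_mem q.out.2 (hHK hh)
  have hd : Pairwise (Function.onFun Disjoint
      fun q : K ⧸ H.subgroupOf K => ((q.out : K) : G) • (H : Set G)) := by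
    intro q q' hqq
    rw [Function.onFun, Set.disjoint_left]
    rintro x ⟨h, hh, rfl⟩ ⟨h', hh', he⟩
    apply hqq
    rw [← QuotientGroup.out_eq' q, ← QuotientGroup.out_eq' q', QuotientGroup.eq]
    show ((q.out : K) : G)⁻¹ * ((q'.out : K) : G) ∈ H
    have he' : ((q'.out : K) : G) * h' = ((q.out : K) : G) * h := he
    have h2 : ((q.out : K) : G)⁻¹ * ((q'.out : K) : G) = h * h'⁻¹ := by
      rw [eq_mul_inv_iff_mul_eq, mul_assoc, he', inv_mul_cancel_left]
    rw [h2]
    exact H.mul_mem hh (H.inv_mem hh')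
  have hmeas : ∀ q : K ⧸ H.subgroupOf K, MeasurableSet (((q.out : K) : G) • (H : Set G)) :=
    fun q => (hH.smul _).measurableSet
  rw [hU, measure_iUnion hd hmeas, tsum_fintype]
  rw [Finset.sum_congr rfl fun q _ => hm _ q.out.2, Finset.sum_const, nsmul_eq_mul,
    Finset.card_univ]

section char

variable {F A : Type} [NontriviallyNormedField F] [CompleteSpace F] [ProperSpace F]
  [NormedRing A] [NormedAlgebra F A] [FiniteDimensional F A] [MeasurableSpace A] [BorelSpace A]
  [LocallyCompactSpace A]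

/-- the continuous equivalence -/
noncomputable def toC (T : A ≃ₗ[F] A) : A ≃ₜ+ A :=
  T.toContinuousLinearEquiv.toContinuousAddEquiv

omit [ProperSpace F] [MeasurableSpace A] [BorelSpace A] [LocallyCompactSpace A] in
theorem toC_apply (T : A ≃ₗ[F] A) (x : A) : toC T x = T x := rfl

omit [ProperSpace F] in
/-- the modulus -/
noncomputable def cc : (A ≃ₗ[F] A) →* ℝ≥0ˣ where
  toFun T := Units.mk0 (addEquivAddHaarChar (toC T)) (addEquivAddHaarChar_pos _).ne'
  map_one' := by
    apply Units.ext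
    have h1 : toC (1 : A ≃ₗ[F] A) = ContinuousAddEquiv.refl A := by
      ext x
      rfl
    rw [Units.val_mk0, h1, addEquivAddHaarChar_refl]
    rfl
  map_mul' S T := by
    apply Units.ext
    have h1 : toC (S * T) = (toC T).trans (toC S) := by
      ext x
      rfl
    rw [Units.val_mk0, h1, addEquivAddHaarChar_trans, mul_comm]
    rfl

end char

/-- left multiplication by a unit -/
def lft (F : Type) {A : Type} [Field F] [Ring A] [Algebra F A] (g : Aˣ) : A ≃ₗ[F] A where
  toFun x := g * x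
  map_add' x y := mul_add _ _ _
  map_smul' r x := by rw [mul_smul_comm]; rfl
  invFun x := ((g⁻¹ : Aˣ) : A) * x
  left_inv x := by simp
  right_inv x := by simp

/-- conjugation by a unit -/
def cnj (F : Type) {A : Type} [Field F] [Ring A] [Algebra F A] (g : Aˣ) : A ≃ₗ[F] A where
  toFun x := g * x * ((g⁻¹ : Aˣ) : A)
  map_add' x y := by rw [mul_add, add_mul]
  map_smul' r x := by rw [mul_smul_comm, smul_mul_assoc]; rfl
  invFun x := ((g⁻¹ : Aˣ) : A) * x * g
  left_inv x := by simp [mul_assoc]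
  right_inv x := by simp [mul_assoc]

theorem cnj_det {F A : Type} [Field F] [Ring A] [Algebra F A]
    (hdet : ∀ x : A, LinearMap.det (LinearMap.mulLeft F x) =
      LinearMap.det (LinearMap.mulRight F x)) (g : Aˣ) :
    LinearMap.det (cnj F g : A →ₗ[F] A) = 1 := by
  have h1 : (cnj F g : A →ₗ[F] A) = LinearMap.mulLeft F (g : A) ∘ₗ
      LinearMap.mulRight F ((g⁻¹ : Aˣ) : A) := by
    ext x
    show (g : A) * x * ((g⁻¹ : Aˣ) : A) = (g : A) * (x * ((g⁻¹ : Aˣ) : A))
    rw [mul_assoc]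
  rw [h1, LinearMap.det_comp, ← hdet, ← LinearMap.det_comp]
  have h2 : LinearMap.mulLeft F (g : A) ∘ₗ LinearMap.mulLeft F ((g⁻¹ : Aˣ) : A) =
      LinearMap.id := by
    ext x
    show (g : A) * (((g⁻¹ : Aˣ) : A) * x) = x
    simp
  rw [h2, LinearMap.det_id]

/-- conjugation on the group -/
def cj {G : Type} [Group G] [TopologicalSpace G] [IsTopologicalGroup G] (g : G) : G ≃ₜ* G where
  toFun x := g * x * g⁻¹
  invFun x := g⁻¹ * x * g
  left_inv x := by simp [mul_assoc]
  right_inv x := by simp [mul_assoc]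
  map_mul' x y := by simp [mul_assoc]
  continuous_toFun := by fun_prop
  continuous_invFun := by fun_prop

theorem eq_one_of_mul {c : ℝ≥0} {x : ℝ≥0∞} (h0 : x ≠ 0) (h1 : x ≠ ∞)
    (h : c • x = x) : c = 1 := by
  have h2 : (c : ℝ≥0∞) * x = 1 * x := by
    rw [one_mul]
    exact h
  have h3 := (ENNReal.mul_left_inj h0 h1).1 h2
  exact_mod_cast h3

end UNI

open UNI in
theorem stmt_UNI (hTOPA : Stmt_TOPA) (hVD : Stmt_VD) (hSLF : Stmt_SLF) : Stmt_UNI := by
  intro F A _ _ _ _ _ _ _ _ _ _ hdet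
  obtain ⟨hlc, htd, ht2, hoe⟩ := hTOPA F A
  letI : MeasurableSpace A := borel A
  haveI : BorelSpace A := ⟨rfl⟩
  haveI : ProperSpace A := FiniteDimensional.proper F A
  let ν : Measure A := Measure.addHaar
  let μ : Measure Aˣ := Measure.haar
  let lam : Measure Aˣ := ν.comap Units.val
  have hme : MeasurableEmbedding (Units.val : Aˣ → A) := hoe.measurableEmbedding
  have hlam : ∀ S, lam S = ν (Units.val '' S) := fun S => hme.comap_apply ν S
  have hc : ∀ (T : A ≃ₗ[F] A) (X : Set A), addEquivAddHaarChar (toC T) • ν (T ⁻¹' X) = ν X :=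
    fun T X => addEquivAddHaarChar_smul_preimage ν (toC T)
  have hpos : ∀ L : Subgroup Aˣ, IsOpen (L : Set Aˣ) → IsCompact (L : Set Aˣ) →
      lam L ≠ 0 ∧ lam L ≠ ∞ := by
    intro L hL hL'
    rw [hlam]
    refine ⟨?_, ?_⟩
    · refine (IsOpen.measure_pos ν (hoe.isOpenMap _ hL) ?_).ne'
      exact ⟨_, Set.mem_image_of_mem _ L.one_mem⟩
    · exact (hL'.image hoe.continuous).measure_lt_top.ne
  -- translations
  have htr : ∀ (g : Aˣ) (S : Set Aˣ),
      addEquivAddHaarChar (toC (lft F g)) • lam S = lam (g • S) := by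
    intro g S
    have h1 := hc (lft F g) (Units.val '' (g • S))
    have h2 : (lft F g) ⁻¹' (Units.val '' (g • S)) = Units.val '' S := by
      ext y
      constructor
      · rintro ⟨u, ⟨s, hs, rfl⟩, hu⟩
        refine ⟨s, hs, ?_⟩
        have h3 : (g : A) * (s : A) = (g : A) * y := hu
        exact (Units.mul_right_inj g).1 h3
      · rintro ⟨s, hs, rfl⟩
        exact ⟨g • s, Set.smul_mem_smul_set hs, rfl⟩
    rw [h2, ← hlam, ← hlam] at h1
    exact h1
  obtain ⟨K, hKo, hKc, -⟩ := hVD Aˣ Set.univ univ_mem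
  have hKp := hpos K hKo hKc
  have hlK : ∀ k ∈ K, ∀ S : Set Aˣ, lam (k • S) = lam S := by
    intro k hk S
    have h1 := htr k K
    rw [smul_coe_set hk] at h1
    have h2 := eq_one_of_mul hKp.1 hKp.2 h1
    rw [← htr k S, h2, one_smul]
  -- conjugations
  have hcj : ∀ g : Aˣ, ∀ X : Set Aˣ, μ ((cj g) ⁻¹' X) = μ X := by
    intro g
    let H : Subgroup Aˣ := K ⊓ K.comap (MulAut.conj g).toMonoidHom
    let H' : Subgroup Aˣ := K ⊓ K.comap (MulAut.conj g⁻¹).toMonoidHom
    have mH : ∀ x, x ∈ H ↔ x ∈ K ∧ g * x * g⁻¹ ∈ K := fun x => Iff.rfl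
    have mH' : ∀ x, x ∈ H' ↔ x ∈ K ∧ g⁻¹ * x * g ∈ K := by
      intro x
      show x ∈ K ∧ g⁻¹ * x * g⁻¹⁻¹ ∈ K ↔ _
      rw [inv_inv]
    have oH : IsOpen (H : Set Aˣ) := by
      have h1 : Continuous fun x : Aˣ => g * x * g⁻¹ := by fun_prop
      exact hKo.inter (hKo.preimage h1)
    have oH' : IsOpen (H' : Set Aˣ) := by
      have h1 : Continuous fun x : Aˣ => g⁻¹ * x * g⁻¹⁻¹ := by fun_prop
      exact hKo.inter (hKo.preimage h1)
    have cH : IsCompact (H : Set Aˣ) :=
      hKc.of_isClosed_subset (H.isClosed_of_isOpen oH) inf_le_left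
    have cH' : IsCompact (H' : Set Aˣ) :=
      hKc.of_isClosed_subset (H'.isClosed_of_isOpen oH') inf_le_left
    have pH := hpos H oH cH
    -- equality of the additive measures
    have e1 : lam H = lam H' := by
      have h1 : cc (cnj F g) = 1 := hSLF F A ℝ≥0ˣ cc (cnj F g) (cnj_det hdet g)
      have h2 : addEquivAddHaarChar (toC (cnj F g)) = 1 := congrArg Units.val h1
      have h3 := hc (cnj F g) (Units.val '' (H' : Set Aˣ))
      rw [h2, one_smul] at h3
      have h4 : (cnj F g) ⁻¹' (Units.val '' (H' : Set Aˣ)) = Units.val '' (H : Set Aˣ) := by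
        ext y
        constructor
        · rintro ⟨u, hu, hy⟩
          have hy' : (u : A) = (g : A) * y * ((g⁻¹ : Aˣ) : A) := hy
          refine ⟨g⁻¹ * u * g, ?_, ?_⟩
          · have := (mH' u).1 hu
            refine (mH _).2 ⟨this.2, ?_⟩
            have h5 : g * (g⁻¹ * u * g) * g⁻¹ = u := by group
            rw [h5]
            exact this.1
          · rw [Units.val_mul, Units.val_mul, hy']
            simp [mul_assoc]
        · rintro ⟨u, hu, rfl⟩
          have := (mH u).1 hu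
          refine ⟨g * u * g⁻¹, (mH' _).2 ⟨this.2, ?_⟩, rfl⟩
          have h5 : g⁻¹ * (g * u * g⁻¹) * g = u := by group
          rw [h5]
          exact this.1
      rw [h4, ← hlam, ← hlam] at h3
      exact h3
    obtain ⟨N, hN⟩ := coset K H hKc oH inf_le_left
    obtain ⟨N', hN'⟩ := coset K H' hKc oH' inf_le_left
    have f1 := hN lam fun k hk => hlK k hk _
    have f2 := hN' lam fun k hk => hlK k hk _
    have f3 := hN μ fun k _ => measure_smul μ k _
    have f4 := hN' μ fun k _ => measure_smul μ k _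
    have f5 : (N : ℝ≥0∞) = N' := by
      rw [f1, ← e1] at f2
      exact (ENNReal.mul_left_inj pH.1 pH.2).1 f2
    have f6 : (N : ℝ≥0∞) ≠ 0 := by
      intro h0
      rw [h0, zero_mul] at f1
      exact hKp.1 f1
    have f7 : μ H = μ H' := by
      rw [f3, ← f5] at f4
      exact (ENNReal.mul_right_inj f6 (ENNReal.natCast_ne_top N)).1 f4
    have f8 : (cj g) ⁻¹' (H' : Set Aˣ) = (H : Set Aˣ) := by
      ext x
      show g * x * g⁻¹ ∈ H' ↔ x ∈ H
      rw [mH', mH]
      have h5 : g⁻¹ * (g * x * g⁻¹) * g = x := by group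
      rw [h5]
      exact and_comm
    have f9 := mulEquivHaarChar_smul_preimage μ (cj g) (X := (H' : Set Aˣ))
    rw [f8, ← f7] at f9
    have f10 := eq_one_of_mul (IsOpen.measure_pos μ oH ⟨1, H.one_mem⟩).ne'
      cH.measure_lt_top.ne f9
    intro X
    have f11 := mulEquivHaarChar_smul_preimage μ (cj g) (X := X)
    rwa [f10, one_smul] at f11
  have hr : μ.IsMulRightInvariant := by
    refine ⟨fun g => ?_⟩
    ext X hX
    rw [Measure.map_apply (by fun_prop) hX]
    have h1 : (fun x : Aˣ => x * g) ⁻¹' X = (fun x : Aˣ => g * x) ⁻¹' ((cj g⁻¹) ⁻¹' X) := by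
      ext x
      show x * g ∈ X ↔ g⁻¹ * (g * x) * g⁻¹⁻¹ ∈ X
      rw [inv_inv, inv_mul_cancel_left]
    rw [h1, measure_preimage_mul, hcj]
  refine ⟨μ, inferInstance, hr, ⟨?_⟩⟩
  have h1 : μ.inv = μ.inv.haarScalarFactor μ • μ :=
    Measure.isMulLeftInvariant_eq_smul_of_regular μ.inv μ
  have h2 : μ.inv (K : Set Aˣ) = μ (K : Set Aˣ) := by
    rw [Measure.inv_apply]
    congr 1
    exact inv_coe_set
  have h3 : μ.inv.haarScalarFactor μ • μ (K : Set Aˣ) = μ (K : Set Aˣ) := by
    conv_rhs => rw [← h2, h1]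
    rfl
  have h4 := eq_one_of_mul (IsOpen.measure_pos μ hKo ⟨1, K.one_mem⟩).ne' hKc.measure_lt_top.ne h3
  rw [h1, h4, one_smul]

end Pool.Agent.LPer
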