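import Pool.Agent.Work.MP_037d19_lp.Defs2

/-!
# Block UPP: the conjugate pairing in the essentially unitary case
-/

namespace Pool.Agent.LPer

open scoped Topology
open Filter

namespace UPP

/-- The space `V` with the conjugate scalars. -/
def CV (V : Type) : Type := V

instance instGrp (V : Type) [AddCommGroup V] : AddCommGroup (CV V) :=
  inferInstanceAs (AddCommGroup V)

instance instMod (V : Type) [AddCommGroup V] [Module ℂ V] : Module ℂ (CV V) :=
  Module.compHom V (starRingEnd ℂ)

/-- The identity. -/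
def jj (V : Type) [AddCommGroup V] : CV V ≃+ V := AddEquiv.refl V

theorem jj_smul (V : Type) [AddCommGroup V] [Module ℂ V] (c : ℂ) (v : CV V) :
    jj V (c • v) = starRingEnd ℂ c • jj V v := rfl

theorem jj_symm_smul (V : Type) [AddCommGroup V] [Module ℂ V] (c : ℂ) (v : V) :
    (jj V).symm (starRingEnd ℂ c • v) = c • (jj V).symm v := rfl

variable {G V : Type} [Group G] [AddCommGroup V] [Module ℂ V]

/-- The twisted conjugate representation. -/
def rep (π : Representation ℂ G V) (c : G →* ℂ) : Representation ℂ G (CV V) where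
  toFun g :=
    { toFun := fun v => (jj V).symm (c g • π g (jj V v))
      map_add' := fun a b => by
        rw [map_add, map_add, smul_add, map_add]
      map_smul' := fun r a => by
        rw [jj_smul, (π g).map_smul, smul_comm, jj_symm_smul]
        rfl }
  map_one' := by
    ext v
    simp
  map_mul' g h := by
    ext v
    simp [mul_smul]

theorem rep_apply (π : Representation ℂ G V) (c : G →* ℂ) (g : G) (v : CV V) :
    jj V (rep π c g v) = c g • π g (jj V v) := by
  change jj V ((jj V).symm (c g • π g (jj V v))) = _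
  simp

/-- The pairing. -/
def pair (S : V →ₗ⋆[ℂ] V →ₗ[ℂ] ℂ) : CV V →ₗ[ℂ] V →ₗ[ℂ] ℂ where
  toFun v := S (jj V v)
  map_add' a b := by rw [map_add, map_add]
  map_smul' c a := by
    rw [jj_smul, LinearMap.map_smulₛₗ]
    simp

theorem pair_apply (S : V →ₗ⋆[ℂ] V →ₗ[ℂ] ℂ) (v : CV V) (w : V) : pair S v w = S (jj V v) w := rfl

/-- The identity as a conjugate linear map. -/
def jl (V : Type) [AddCommGroup V] [Module ℂ V] : CV V →ₗ⋆[ℂ] V where
  toFun := jj V
  map_add' a b := map_add _ _ _
  map_smul' c a := jj_smul V c a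

/-- The identity as a conjugate linear map. -/
def jl' (V : Type) [AddCommGroup V] [Module ℂ V] : V →ₗ⋆[ℂ] CV V where
  toFun := (jj V).symm
  map_add' a b := map_add _ _ _
  map_smul' c a := by
    rw [← jj_symm_smul]
    simp

variable [TopologicalSpace G] [IsTopologicalGroup G]

theorem irrAdm (π : Representation ℂ G V) (c : G →* ℂ) (hc : ∀ g, c g ≠ 0)
    (U : Subgroup G) (hU : IsOpen (U : Set G)) (hU1 : ∀ g ∈ U, c g = 1) (h : IrrAdm π) :
    IrrAdm (rep π c) where
  smooth := by
    intro v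
    rw [isOpen_iff_mem_nhds]
    intro g₀ hg₀
    have h1 : IsOpen ({g : G | π g (jj V v) = jj V v} ∩ (U : Set G)) := (h.smooth _).inter hU
    have h2 : (fun g => g₀⁻¹ * g) ⁻¹' ({g : G | π g (jj V v) = jj V v} ∩ (U : Set G)) ∈ 𝓝 g₀ := by
      apply (h1.preimage (by fun_prop)).mem_nhds
      simp only [Set.mem_preimage, inv_mul_cancel, Set.mem_inter_iff]
      exact ⟨by simp, U.one_mem⟩
    filter_upwards [h2] with g hg
    have h3 : rep π c (g₀⁻¹ * g) v = v := by
      apply (jj V).injective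
      rw [rep_apply, hU1 _ hg.2, one_smul]
      exact hg.1
    have h4 : g = g₀ * (g₀⁻¹ * g) := by group
    change rep π c g v = v
    rw [h4, map_mul, Module.End.mul_apply, h3]
    exact hg₀
  admissible := by
    intro K hK
    have h1 := h.admissible (K ⊓ U) (by simpa using hK.inter hU)
    have h2 : ∀ v : CV V, v ∈ fixed (rep π c) K → jj V v ∈ fixed π (K ⊓ U) := by
      intro v hv k hk
      have h3 := hv k hk.1
      have h4 := rep_apply π c k v
      rw [h3, hU1 k hk.2, one_smul] at h4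
      exact h4.symm
    have h5 : ((fixed π (K ⊓ U)).map (jl' V)).FG :=
      Submodule.FG.map (jl' V) ((Submodule.fg_iff_finiteDimensional _).2 h1)
    have h6 : FiniteDimensional ℂ ((fixed π (K ⊓ U)).map (jl' V)) :=
      (Submodule.fg_iff_finiteDimensional _).1 h5
    have h7 : fixed (rep π c) K ≤ (fixed π (K ⊓ U)).map (jl' V) := by
      intro v hv
      exact ⟨jj V v, h2 v hv, (jj V).symm_apply_apply v⟩
    exact Submodule.finiteDimensional_of_le h7
  nontrivial := by
    haveI := h.nontrivial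
    exact (jj V).symm.injective.nontrivial
  irreducible := by
    intro W hW
    have h1 := h.irreducible (W.map (jl V)) (by
      rintro g _ ⟨w, hw, rfl⟩
      refine ⟨(starRingEnd ℂ (c g)⁻¹) • rep π c g w, W.smul_mem _ (hW g w hw), ?_⟩
      change jj V _ = π g (jj V w)
      rw [jj_smul, rep_apply, Complex.conj_conj, smul_smul, inv_mul_cancel₀ (hc g), one_smul])
    rcases h1 with h1 | h1
    · left
      rw [Submodule.eq_bot_iff] at h1 ⊢
      intro w hw
      apply (jj V).injective
      rw [map_zero]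
      exact h1 _ ⟨w, hw, rfl⟩
    · right
      rw [Submodule.eq_top_iff'] at h1 ⊢
      intro w
      obtain ⟨w', hw', h2⟩ := h1 (jj V w)
      have h3 : w' = w := (jj V).injective h2
      rwa [← h3]

end UPP

theorem stmt_UPP : Stmt_UPP := by
  intro F A _ _ _ _ _ _ _ _ _ _ hmul hone hopen V _ _ π hπ s S hS
  have hne : ∀ g : Aˣ, nrd F (g : A) ≠ 0 := by
    intro g h0
    have h1 := hmul (g : A) ((g⁻¹ : Aˣ) : A)
    rw [Units.mul_inv, hone, h0, zero_mul] at h1
    exact one_ne_zero h1
  have hpos : ∀ g : Aˣ, 0 < ‖nrd F (g : A)‖ ^ s := fun g =>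
    Real.rpow_pos_of_pos (norm_pos_iff.2 (hne g)) s
  let c : Aˣ →* ℂ :=
    { toFun := fun g => ((‖nrd F (g : A)‖ ^ s : ℝ) : ℂ)⁻¹
      map_one' := by
        rw [Units.val_one, hone, norm_one, Real.one_rpow]
        simp
      map_mul' := fun g h => by
        rw [Units.val_mul, hmul, norm_mul, Real.mul_rpow (norm_nonneg _) (norm_nonneg _),
          Complex.ofReal_mul, mul_inv] }
  let U : Subgroup Aˣ :=
    { carrier := {g | ‖nrd F (g : A)‖ = 1}
      mul_mem' := fun {a b} ha hb => by
        change ‖nrd F ((a * b : Aˣ) : A)‖ = 1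
        have ha' : ‖nrd F (a : A)‖ = 1 := ha
        have hb' : ‖nrd F (b : A)‖ = 1 := hb
        rw [Units.val_mul, hmul, norm_mul, ha', hb', one_mul]
      one_mem' := by
        change ‖nrd F ((1 : Aˣ) : A)‖ = 1
        rw [Units.val_one, hone, norm_one]
      inv_mem' := fun {a} ha => by
        change ‖nrd F ((a⁻¹ : Aˣ) : A)‖ = 1
        have ha' : ‖nrd F (a : A)‖ = 1 := ha
        have h1 := hmul (a : A) ((a⁻¹ : Aˣ) : A)
        rw [Units.mul_inv, hone] at h1
        have h2 := congrArg norm h1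
        rw [norm_mul, ha', one_mul, norm_one] at h2
        exact h2.symm }
  have hcne : ∀ g, c g ≠ 0 := by
    intro g
    change ((‖nrd F (g : A)‖ ^ s : ℝ) : ℂ)⁻¹ ≠ 0
    exact inv_ne_zero (Complex.ofReal_ne_zero.2 (hpos g).ne')
  have hcconj : ∀ g, starRingEnd ℂ (c g) = c g := by
    intro g
    change starRingEnd ℂ ((‖nrd F (g : A)‖ ^ s : ℝ) : ℂ)⁻¹ = ((‖nrd F (g : A)‖ ^ s : ℝ) : ℂ)⁻¹
    rw [map_inv₀, Complex.conj_ofReal]
  have hU1 : ∀ g ∈ U, c g = 1 := by
    intro g hg
    have hg' : ‖nrd F (g : A)‖ = 1 := hg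
    change ((‖nrd F (g : A)‖ ^ s : ℝ) : ℂ)⁻¹ = 1
    rw [hg', Real.one_rpow]
    simp
  refine ⟨UPP.CV V, UPP.instGrp V, UPP.instMod V, UPP.rep π c, UPP.pair S, UPP.jj V,
    ⟨hπ, UPP.irrAdm π c hcne U hopen hU1 hπ, ?_, ?_, ?_⟩, UPP.jj_smul V, UPP.rep_apply π c⟩
  · intro g v' v
    rw [UPP.pair_apply, UPP.pair_apply, UPP.rep_apply, LinearMap.map_smulₛₗ,
      LinearMap.smul_apply, hS.inv, smul_eq_mul, hcconj, ← mul_assoc]
    change ((‖nrd F (g : A)‖ ^ s : ℝ) : ℂ)⁻¹ * ((‖nrd F (g : A)‖ ^ s : ℝ) : ℂ) * _ = _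
    rw [inv_mul_cancel₀ (Complex.ofReal_ne_zero.2 (hpos g).ne'), one_mul]
  · intro v' h
    by_contra h0
    have h1 : UPP.jj V v' ≠ 0 := by
      intro h2
      exact h0 ((UPP.jj V).injective (by rw [h2, map_zero]))
    have h2 := hS.pos _ h1
    have h3 := h (UPP.jj V v')
    rw [UPP.pair_apply] at h3
    rw [h3] at h2
    simp at h2
  · intro v h
    by_contra h0
    have h2 := hS.pos _ h0
    have h3 := h ((UPP.jj V).symm v)
    rw [UPP.pair_apply, AddEquiv.apply_symm_apply] at h3
    rw [h3] at h2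
    simp at h2

end Pool.Agent.LPer
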