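import Pool.Agent.Work.MP_037d19_lp.Defs2

/-!
# Linear periods: block UPR
-/

namespace Pool.Agent.LPer

open scoped Topology
open Module (finrank)
open MeasureTheory Filter

namespace UPR

/-- Schur's lemma for irreducible admissible representations. -/
theorem schur {G : Type} [Group G] [TopologicalSpace G] [IsTopologicalGroup G] {V : Type}
    [AddCommGroup V] [Module ℂ V] (π : Representation ℂ G V) (hπ : IrrAdm π) (T : V →ₗ[ℂ] V)
    (hT : ∀ g v, T (π g v) = π g (T v)) : ∃ ω : ℂ, ∀ v, T v = ω • v := by
  have := hπ.nontrivial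
  obtain ⟨v₀, hv₀⟩ := exists_ne (0 : V)
  let K : Subgroup G :=
    { carrier := {g | π g v₀ = v₀}
      mul_mem' := fun {a b} ha hb => by
        change π (a * b) v₀ = v₀
        rw [map_mul, Module.End.mul_apply, hb, ha]
      one_mem' := by
        change π 1 v₀ = v₀
        rw [map_one, Module.End.one_apply]
      inv_mem' := fun {a} ha => by
        change π a⁻¹ v₀ = v₀
        have ha' : π a v₀ = v₀ := ha
        conv_lhs => rw [← ha']
        rw [← Module.End.mul_apply, ← map_mul, inv_mul_cancel, map_one, Module.End.one_apply] }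
  have hK : IsOpen (K : Set G) := hπ.smooth v₀
  have hfin := hπ.admissible K hK
  have hstab : ∀ v ∈ fixed π K, T v ∈ fixed π K := by
    intro v hv k hk
    rw [← hT, hv k hk]
  have hne : Nontrivial (fixed π K) :=
    ⟨⟨⟨v₀, fun k hk => hk⟩, 0, fun h => hv₀ (congrArg Subtype.val h)⟩⟩
  obtain ⟨ω, hω⟩ := Module.End.exists_eigenvalue (T.restrict hstab)
  obtain ⟨u, hu⟩ := hω.exists_hasEigenvector
  have hu1 : T (u : V) = ω • (u : V) := by
    have := hu.apply_eq_smul
    exact congrArg Subtype.val this
  have hu2 : (u : V) ≠ 0 := fun h => hu.2 (Subtype.ext h)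
  have hker := hπ.irreducible (LinearMap.ker (T - ω • LinearMap.id)) (by
    intro g v hv
    rw [LinearMap.mem_ker, LinearMap.sub_apply, LinearMap.smul_apply, LinearMap.id_apply,
      sub_eq_zero] at hv ⊢
    rw [hT, hv, map_smul])
  rcases hker with h | h
  · exfalso
    apply hu2
    have : (u : V) ∈ LinearMap.ker (T - ω • LinearMap.id) := by
      rw [LinearMap.mem_ker, LinearMap.sub_apply, LinearMap.smul_apply, LinearMap.id_apply,
        sub_eq_zero]
      exact hu1
    rw [h] at this
    simpa using this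
  · refine ⟨ω, fun v => ?_⟩
    have : v ∈ LinearMap.ker (T - ω • LinearMap.id) := by rw [h]; trivial
    rwa [LinearMap.mem_ker, LinearMap.sub_apply, LinearMap.smul_apply, LinearMap.id_apply,
        sub_eq_zero] at this

theorem continuous_norm' (F E : Type) [NontriviallyNormedField F] [CompleteSpace F]
    [NormedField E] [NormedAlgebra F E] [FiniteDimensional F E] :
    Continuous fun x : E => Algebra.norm F x := by
  have h : (fun x : E => Algebra.norm F x) = fun x : E =>
      ContinuousLinearMap.det (LinearMap.toContinuousLinearMap (Algebra.lmul F E x)) := by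
    funext x
    rw [Algebra.norm_apply]
    rfl
  rw [h]
  apply ContinuousLinearMap.continuous_det.comp
  have : Continuous ((LinearMap.toContinuousLinearMap : (E →ₗ[F] E) ≃ₗ[F] (E →L[F] E)).toLinearMap ∘ₗ
      (Algebra.lmul F E).toLinearMap) := LinearMap.continuous_of_finiteDimensional _
  exact this

end UPR

open UPR in
theorem stmt_UPR (hANN : Stmt_ANN) (hNNM : Stmt_NNM) (hMUL : Stmt_MUL) : Stmt_UPR := by
  intro F E A _ _ _ _ _ _ _ _ _ _ _ ι k δE a hD χ hχ V _ _ π hπ s S hS ℓ hℓ hℓ0 h hh
  obtain ⟨n1, n2, n3⟩ := hNNM F E A ι k δE a hD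
  obtain ⟨hm, h1, hmE, h1E⟩ := hMUL F E A ι k δE a hD
  have hEfin : FiniteDimensional F E := Module.finite_of_finrank_pos (by rw [hD.rankE]; omega)
  have hEprop : ProperSpace E := FiniteDimensional.proper F E
  have hkpos : 0 < k := by
    rcases Nat.eq_zero_or_pos k with h | h
    · subst h
      have : 0 < finrank F A := Module.finrank_pos
      rw [hD.rankA] at this
      simp at this
    · exact h
  -- the central character
  have hz : ∀ z : F, z ≠ 0 → ‖χ (algebraMap F E z)‖ ^ 2 = (‖z‖ ^ 2) ^ s := by
    intro z hz0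
    let zu : Aˣ := Units.map (algebraMap F A).toMonoidHom (Units.mk0 z hz0)
    have hzu : (zu : A) = algebraMap F A z := rfl
    have hzc : ∀ g : Aˣ, zu * g = g * zu := fun g => Units.ext (by
      rw [Units.val_mul, Units.val_mul, hzu, Algebra.commutes])
    obtain ⟨ω, hω⟩ := schur π hπ (π zu) (fun g v => by
      rw [← Module.End.mul_apply, ← map_mul, hzc, map_mul, Module.End.mul_apply])
    have hzmem : (zu : A) ∈ Cent ι := by
      rw [hzu]
      exact (Cent ι).algebraMap_mem z
    have hωχ : ω = χ (algebraMap F E z) ^ k := by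
      obtain ⟨v, hv⟩ : ∃ v, ℓ v ≠ 0 := by
        by_contra hcon
        push Not at hcon
        exact hℓ0 (LinearMap.ext hcon)
      have e1 := hℓ zu hzmem v
      rw [hω, map_smul, smul_eq_mul] at e1
      have e2 := mul_right_cancel₀ hv e1
      rw [e2, ← map_pow, ← n2 z]
      rfl
    have hωn : ‖ω‖ ^ 2 = (‖z‖ ^ (2 * k)) ^ s := by
      have := hπ.nontrivial
      obtain ⟨v, hv⟩ := exists_ne (0 : V)
      have e1 := hS.inv zu v v
      rw [hω, hzu, n3, norm_pow] at e1
      rw [map_smul, LinearMap.map_smulₛₗ, LinearMap.smul_apply, smul_smul, smul_eq_mul] at e1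
      have hne : S v v ≠ 0 := fun h0 => by
        have := hS.pos v hv
        rw [h0] at this
        simp at this
      have e2 := mul_right_cancel₀ hne e1
      rw [Complex.mul_conj'] at e2
      exact_mod_cast e2
    have h2 : (‖χ (algebraMap F E z)‖ ^ 2) ^ k = ((‖z‖ ^ 2) ^ s) ^ k := by
      rw [← pow_mul, mul_comm 2 k, pow_mul, ← norm_pow, ← hωχ, hωn, pow_mul,
        ← Real.rpow_natCast ((‖z‖ ^ 2) ^ s) k, ← Real.rpow_mul (by positivity),
        mul_comm s, Real.rpow_mul (by positivity), Real.rpow_natCast]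
    exact (pow_left_inj₀ (by positivity) (by positivity) hkpos.ne').mp h2
  have hNz : ∀ x : E, x ≠ 0 → Algebra.norm F x ≠ 0 := fun x hx => by
    rwa [Ne, Algebra.norm_eq_zero_iff]
  have hχne : ∀ x : E, x ≠ 0 → χ x ≠ 0 := fun x hx => by
    rwa [Ne, map_eq_zero]
  have key := hANN F E (fun e => ‖χ e‖ ^ 2 * (‖Algebra.norm F e‖ ^ s)⁻¹)
    (fun x y => by
      rw [map_mul, map_mul, norm_mul, norm_mul, Real.mul_rpow (norm_nonneg _) (norm_nonneg _),
        mul_inv]
      ring)
    (fun x hx => by
      have := hχne x hx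
      have := hNz x hx
      positivity)
    (by
      intro x hx
      have hx' : x ≠ 0 := hx
      apply ContinuousAt.continuousWithinAt
      apply ContinuousAt.mul
      · apply ContinuousAt.pow
        apply ContinuousAt.norm
        have hev : ∀ᶠ y in 𝓝 x, χ y = χ x := by
          have hc : Continuous fun y : E => y * x⁻¹ := by fun_prop
          have := (hc.tendsto' x 1 (mul_inv_cancel₀ hx')).eventually hχ
          filter_upwards [this] with y hy
          rw [map_mul, map_inv₀] at hy
          have h3 := hχne x hx'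
          field_simp at hy
          exact hy
        exact (continuousAt_const (y := χ x)).congr (by
          filter_upwards [hev] with y hy
          exact hy.symm)
      · apply ContinuousAt.inv₀
        · apply ContinuousAt.rpow_const
          · exact (continuous_norm' F E).norm.continuousAt
          · left
            exact norm_ne_zero_iff.mpr (hNz x hx')
        · have := hNz x hx'
          positivity)
    (fun z hz0 => by
      rw [hz z hz0, Algebra.norm_algebraMap, hD.rankE, norm_pow]
      have : 0 < (‖z‖ ^ 2) ^ s := by positivity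
      field_simp)
  have hne : nrd E (⟨(h : A), hh⟩ : Cent ι) ≠ 0 := by
    have h5 : ((h⁻¹ : Aˣ) : A) ∈ Cent ι := (HH ι).inv_mem (x := h) hh
    intro h0
    have := hmE (⟨(h : A), hh⟩ : Cent ι) (⟨((h⁻¹ : Aˣ) : A), h5⟩ : Cent ι)
    rw [h0, zero_mul] at this
    have h6 : (⟨(h : A), hh⟩ : Cent ι) * (⟨((h⁻¹ : Aˣ) : A), h5⟩ : Cent ι) = 1 :=
      Subtype.ext (by
        change (h : A) * ((h⁻¹ : Aˣ) : A) = 1
        rw [Units.mul_inv])
    rw [h6, h1E] at this
    exact one_ne_zero this
  have h7 := key _ hne
  have h8 := n1 (⟨(h : A), hh⟩ : Cent ι)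
  have h9 : nrd F (h : A) = Algebra.norm F (nrd E (⟨(h : A), hh⟩ : Cent ι)) := h8
  rw [h9]
  have h10 : 0 < ‖Algebra.norm F (nrd E (⟨(h : A), hh⟩ : Cent ι))‖ ^ s := by
    have := hNz _ hne
    positivity

  field_simp at h7
  exact h7

end Pool.Agent.LPer
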