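import Pool.Agent.Work.MP_037d19_lp.Stmts2

namespace Pool.Agent.LPer

open scoped Topology Pointwise

/-- Block UST: the open stabilizer of a locally constant compactly supported function. -/
theorem stmt_UST : Stmt_UST := by
  intro X Γ _ _ _ _ _ _ _ hK f U hU
  have hc : IsCompact (tsupport f.1) := f.2.2
  have h : ∀ᶠ γ in 𝓝 (1 : Γ), ∀ y ∈ tsupport f.1, f.1 (γ • y) = f.1 y := by
    refine hc.eventually_forall_of_forall_eventually ?_
    intro y _
    have h1 : Filter.Tendsto (fun p : Γ × X => p.1 • p.2) (𝓝 ((1 : Γ), y)) (𝓝 y) := by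
      have h2 := (continuous_smul (M := Γ) (X := X)).tendsto ((1 : Γ), y)
      simpa using h2
    have h3 : ∀ᶠ z in 𝓝 y, f.1 z = f.1 y := f.2.1.eventually_eq y
    have h4 : ∀ᶠ p : Γ × X in 𝓝 ((1 : Γ), y), f.1 (p.1 • p.2) = f.1 y := h1.eventually h3
    have h5 : ∀ᶠ p : Γ × X in 𝓝 ((1 : Γ), y), f.1 p.2 = f.1 y :=
      (continuous_snd.tendsto ((1 : Γ), y)).eventually h3
    filter_upwards [h4, h5] with p hp1 hp2
    rw [hp1, hp2]
  obtain ⟨K, hKo, hKc, hKs⟩ := hK _ (Filter.inter_mem h hU)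
  refine ⟨K, hKo, hKc, fun γ hγ => (hKs hγ).2, ?_⟩
  intro γ hγ x
  have hA : ∀ γ ∈ K, ∀ y ∈ tsupport f.1, f.1 (γ • y) = f.1 y := fun γ hγ => (hKs hγ).1
  by_cases hx : x ∈ tsupport f.1
  · exact hA γ hγ x hx
  · have hx0 : f.1 x = 0 := image_eq_zero_of_notMem_tsupport hx
    by_contra hne
    rw [hx0] at hne
    have h6 : γ • x ∈ tsupport f.1 := subset_tsupport _ hne
    have h7 := hA γ⁻¹ (K.inv_mem hγ) _ h6
    rw [inv_smul_smul, hx0] at h7
    exact hne h7.symm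

end Pool.Agent.LPer
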