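import Pool.Agent.Work.MP_037d19_lp.Stmts2

/-! # Block VD (helper95) -/

namespace Pool.Agent.LPer

open scoped Topology
open Filter

theorem stmt_VD : Stmt_VD := by
  intro G _ _ _ _ _ _ U hU
  obtain ⟨L, hL, hLU, hLc⟩ := local_compact_nhds hU
  obtain ⟨W, hW, h1W, hWL⟩ := (loc_compact_Haus_tot_disc_of_zero_dim (H := G)).mem_nhds_iff.1 hL
  have hWc : IsCompact W := hLc.of_isClosed_subset hW.isClosed hWL
  let K : Subgroup G :=
    { carrier := {k | ∀ w ∈ W, w * k ∈ W ∧ w * k⁻¹ ∈ W}
      mul_mem' := by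
        intro a b ha hb w hw
        constructor
        · rw [← mul_assoc]
          exact (hb _ (ha w hw).1).1
        · rw [mul_inv_rev, ← mul_assoc]
          exact (ha _ (hb w hw).2).2
      one_mem' := by
        intro w hw
        simp only [inv_one, mul_one, and_self]
        exact hw
      inv_mem' := by
        intro a ha w hw
        refine ⟨(ha w hw).2, ?_⟩
        rw [inv_inv]
        exact (ha w hw).1 }
  have hKW : (K : Set G) ⊆ W := by
    intro k hk
    have := (hk 1 h1W).1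
    rwa [one_mul] at this
  have hKn : (K : Set G) ∈ 𝓝 (1 : G) := by
    have h2 : ∀ᶠ k : G in 𝓝 1, ∀ w ∈ W, w * k ∈ W ∧ w * k⁻¹ ∈ W := by
      refine hWc.eventually_forall_of_forall_eventually fun w hw => ?_
      have c1 : Tendsto (fun z : G × G => z.2 * z.1) (𝓝 (1, w)) (𝓝 (w * 1)) :=
        (continuous_snd.mul continuous_fst).tendsto (1, w)
      have c2 : Tendsto (fun z : G × G => z.2 * z.1⁻¹) (𝓝 (1, w)) (𝓝 (w * 1⁻¹)) :=
        (continuous_snd.mul continuous_fst.inv).tendsto (1, w)
      rw [mul_one] at c1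
      rw [inv_one, mul_one] at c2
      have hWn : W ∈ 𝓝 w := hW.isOpen.mem_nhds hw
      filter_upwards [c1 hWn, c2 hWn] with z h3 h4
      exact ⟨h3, h4⟩
    exact h2
  have hKo : IsOpen (K : Set G) := Subgroup.isOpen_of_mem_nhds K hKn
  have hKcl : IsClosed (K : Set G) := Subgroup.isClosed_of_isOpen K hKo
  exact ⟨K, hKo, hWc.of_isClosed_subset hKcl hKW, hKW.trans (hWL.trans hLU)⟩

end Pool.Agent.LPer
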