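import Pool.Agent.Work.MP_037d19_lp.Defs2

/-! # Block VDH (helper95) -/

namespace Pool.Agent.LPer

open scoped Topology
open Filter

theorem stmt_VDH (hVD : Stmt_VD) (hTOPA : Stmt_TOPA) : Stmt_VDH := by
  intro F E A _ _ _ _ _ _ _ _ _ ι U hU
  obtain ⟨h1, h2, h3, -⟩ := hTOPA F A
  have hcl : IsClosed ((HH ι : Subgroup Aˣ) : Set Aˣ) := by
    have : ((HH ι : Subgroup Aˣ) : Set Aˣ) = ⋂ e : E, {g : Aˣ | ι e * (g : A) = g * ι e} := by
      ext g
      simp only [SetLike.mem_coe, mem_HH, mem_Cent_iff, Set.mem_iInter, Set.mem_setOf_eq]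
    rw [this]
    refine isClosed_iInter fun e => isClosed_eq ?_ ?_
    · exact continuous_const.mul Units.continuous_val
    · exact Units.continuous_val.mul continuous_const
  have h4 : LocallyCompactSpace (HH ι) := hcl.isClosedEmbedding_subtypeVal.locallyCompactSpace
  have h5 : TotallyDisconnectedSpace (HH ι) := inferInstance
  exact hVD (HH ι × HH ι) U hU

end Pool.Agent.LPer
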