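import Pool.Agent.Work.MP_037d19_lp.Stmts

/-!
# Linear periods: block W
-/

namespace Pool.Agent.LPer

open scoped Polynomial Topology TensorProduct
open Module (finrank)
open Matrix (fromBlocks)

namespace W

theorem isSimpleRing_op (A : Type) [Ring A] [IsSimpleRing A] : IsSimpleRing Aᵐᵒᵖ :=
  ⟨(TwoSidedIdeal.opOrderIso (R := A)).symm.isSimpleOrder⟩

theorem isCentral_op (F A : Type) [Field F] [Ring A] [Algebra F A] [Algebra.IsCentral F A] :
    Algebra.IsCentral F Aᵐᵒᵖ := by
  refine ⟨fun x hx => ?_⟩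
  rw [Subalgebra.mem_center_iff] at hx
  have h1 : MulOpposite.unop x ∈ Subalgebra.center F A := by
    rw [Subalgebra.mem_center_iff]
    intro b
    have h2 := congrArg MulOpposite.unop (hx (MulOpposite.op b))
    simpa using h2.symm
  have h3 := Algebra.IsCentral.out (K := F) (D := A) h1
  rw [Algebra.mem_bot] at h3 ⊢
  obtain ⟨r, hr⟩ := h3
  refine ⟨r, ?_⟩
  apply MulOpposite.unop_injective
  rw [← hr]
  rfl

/-- Left multiplication by `δ`. -/
def dl {A : Type} [Ring A] (δ : A) : A →ₗ[Aᵐᵒᵖ] A where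
  toFun x := δ * x
  map_add' := mul_add δ
  map_smul' r x := by
    change δ * (x * MulOpposite.unop r) = δ * x * MulOpposite.unop r
    rw [mul_assoc]

theorem map_eq {A : Type} [Ring A] (s : A ≃ₗ[Aᵐᵒᵖ] A) (x : A) : s x = s 1 * x := by
  have h : x = MulOpposite.op x • (1 : A) := by
    change x = 1 * x
    rw [one_mul]
  conv_lhs => rw [h, map_smul]
  rfl

end W

theorem stmt_W (hJ0 : Stmt_J0) : Stmt_W := by
  intro F E A _ _ _ _ _ _ _ _ _ δE a δ hE hδE ha hδ
  have := W.isSimpleRing_op A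
  have := W.isCentral_op F A
  have : FiniteDimensional F Aᵐᵒᵖ :=
    FiniteDimensional.of_injective (MulOpposite.opLinearEquiv F (M := A)).symm.toLinearMap
      (MulOpposite.opLinearEquiv F (M := A)).symm.injective
  have : IsScalarTower F Aᵐᵒᵖ A := ⟨fun r x y => by
    change y * (r • MulOpposite.unop x) = r • (y * MulOpposite.unop x)
    rw [mul_smul_comm]⟩
  obtain ⟨s, hs⟩ := hJ0 F E Aᵐᵒᵖ A δE a (W.dl δ) hE hδE ha (by
    intro m
    change δ * (δ * m) = a • m
    rw [← mul_assoc, hδ, Algebra.smul_def])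
  refine ⟨⟨s 1, s.symm 1, ?_, ?_⟩, ?_⟩
  · rw [← W.map_eq, LinearEquiv.apply_symm_apply]
  · rw [← W.map_eq, LinearEquiv.symm_apply_apply]
  · have h1 := hs 1
    change s (δ * 1) = -(δ * s 1) at h1
    rw [mul_one, W.map_eq s δ] at h1
    exact h1

end Pool.Agent.LPer
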