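import Pool.Agent.Work.MP_037d19_lp.Stmts2

/-!
# Block YMAP: the map `f ↦ ℓ ∘ π(f)`
-/

namespace Pool.Agent.LPer

open scoped Topology Pointwise
open MeasureTheory Filter

namespace YMAP

/-- A locally constant compactly supported function is right invariant under some compact open
subgroup. -/
theorem exists_subgroup (hVD : Stmt_VD) {G : Type} [Group G] [TopologicalSpace G]
    [IsTopologicalGroup G] [T2Space G] [LocallyCompactSpace G] [TotallyDisconnectedSpace G]
    (f : LCC G) : ∃ K : Subgroup G, IsOpen (K : Set G) ∧ IsCompact (K : Set G) ∧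
      ∀ k ∈ K, ∀ g, f.1 (g * k) = f.1 g := by
  classical
  obtain ⟨f, hf, hc⟩ := f
  have h1 : ∀ g : G, ∃ K : Subgroup G, IsOpen (K : Set G) ∧ IsCompact (K : Set G) ∧
      ∀ k ∈ K, f (g * k) = f g := by
    intro g
    obtain ⟨U, hU, hgU, hfU⟩ := hf.exists_open g
    have hn : (fun x => g * x) ⁻¹' U ∈ 𝓝 (1 : G) := by
      apply (hU.preimage (continuous_const_mul g)).mem_nhds
      simpa using hgU
    obtain ⟨K, hKo, hKc, hK⟩ := hVD G _ hn
    exact ⟨K, hKo, hKc, fun k hk => hfU _ (hK hk)⟩
  choose K hKo hKc hK using h1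
  have hcov : tsupport f ⊆ ⋃ g : G, (fun x => g⁻¹ * x) ⁻¹' (K g : Set G) := by
    intro x _
    rw [Set.mem_iUnion]
    exact ⟨x, by simp [(K x).one_mem]⟩
  obtain ⟨t, ht⟩ := hc.isCompact.elim_finite_subcover _
    (fun g => (hKo g).preimage (continuous_const_mul g⁻¹)) hcov
  obtain ⟨K0, hK0o, hK0c, -⟩ := hVD G Set.univ univ_mem
  refine ⟨K0 ⊓ ⨅ g ∈ t, K g, ?_, ?_, ?_⟩
  · have : ((K0 ⊓ ⨅ g ∈ t, K g : Subgroup G) : Set G) = (K0 : Set G) ∩ ⋂ g ∈ t, (K g : Set G) := by
      simp
    rw [this]
    exact hK0o.inter (isOpen_biInter_finset fun g _ => hKo g)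
  · have : ((K0 ⊓ ⨅ g ∈ t, K g : Subgroup G) : Set G) = (K0 : Set G) ∩ ⋂ g ∈ t, (K g : Set G) := by
      simp
    rw [this]
    exact hK0c.inter_right (isClosed_biInter fun g _ => (hKc g).isClosed)
  · have key : ∀ k ∈ (K0 ⊓ ⨅ g ∈ t, K g : Subgroup G), ∀ x ∈ tsupport f, f (x * k) = f x := by
      intro k hk x hx
      have hk' : ∀ g ∈ t, k ∈ K g := by
        have := hk.2
        simpa [Subgroup.mem_iInf] using this
      have := ht hx
      simp only [Set.mem_iUnion, Set.mem_preimage, SetLike.mem_coe, exists_prop] at this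
      obtain ⟨g, hg, hgx⟩ := this
      have e1 : f x = f g := by
        have := hK g _ hgx
        rwa [mul_inv_cancel_left] at this
      have e2 : f (x * k) = f g := by
        have := hK g _ ((K g).mul_mem hgx (hk' g hg))
        rwa [← mul_assoc, mul_inv_cancel_left] at this
      rw [e1, e2]
    intro k hk g
    by_cases hg : g ∈ tsupport f
    · exact key k hk g hg
    · by_cases hgk : g * k ∈ tsupport f
      · have := key k⁻¹ (Subgroup.inv_mem _ hk) (g * k) hgk
        rw [mul_inv_cancel_right] at this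
        exact this.symm
      · show f (g * k) = f g
        rw [image_eq_zero_of_notMem_tsupport hg, image_eq_zero_of_notMem_tsupport hgk]

theorem cont {G : Type} [Group G] [TopologicalSpace G] [IsTopologicalGroup G] {V : Type}
    [AddCommGroup V] [Module ℂ V] (π : Representation ℂ G V)
    (hs : ∀ v : V, IsOpen {g : G | π g v = v}) (ℓ : V →ₗ[ℂ] ℂ) (v : V) :
    Continuous fun g => ℓ (π g v) := by
  rw [continuous_iff_continuousAt]
  intro g₀
  have h : (fun g => ℓ (π g v)) =ᶠ[𝓝 g₀] fun _ => ℓ (π g₀ v) := by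
    have hn : (fun x => g₀⁻¹ * x) ⁻¹' {g : G | π g v = v} ∈ 𝓝 g₀ := by
      apply ((hs v).preimage (continuous_const_mul g₀⁻¹)).mem_nhds
      simp
    filter_upwards [hn] with g hg
    have hg' : π (g₀⁻¹ * g) v = v := hg
    have : π g v = π g₀ v := by
      calc π g v = π (g₀ * (g₀⁻¹ * g)) v := by rw [mul_inv_cancel_left]
        _ = π g₀ (π (g₀⁻¹ * g) v) := by rw [map_mul]; rfl
        _ = π g₀ v := by rw [hg']
    rw [this]
  exact (continuousAt_const.congr h.symm)

theorem integrable {G : Type} [Group G] [TopologicalSpace G] [IsTopologicalGroup G] [T2Space G]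
    [LocallyCompactSpace G] [MeasurableSpace G] [BorelSpace G] (μ : Measure G) [μ.IsHaarMeasure]
    {V : Type} [AddCommGroup V] [Module ℂ V] (π : Representation ℂ G V)
    (hs : ∀ v : V, IsOpen {g : G | π g v = v}) (ℓ : V →ₗ[ℂ] ℂ) (f : LCC G) (v : V) :
    Integrable (fun g => f.1 g * ℓ (π g v)) μ := by
  apply Continuous.integrable_of_hasCompactSupport
  · exact f.2.1.continuous.mul (cont π hs ℓ v)
  · exact f.2.2.mul_right

end YMAP

theorem stmt_YMAP (hRFU : Stmt_RFU) (hVD : Stmt_VD) : Stmt_YMAP := by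
  intro G _ _ _ _ _ _ _ _ μ _ _ V V' _ _ _ _ π π' P hP ℓ
  have hint := fun f v => YMAP.integrable μ π hP.irr.smooth ℓ f v
  let Φ : LCC G →ₗ[ℂ] (V →ₗ[ℂ] ℂ) :=
    { toFun := fun f =>
        { toFun := fun v => ∫ g, f.1 g * ℓ (π g v) ∂μ
          map_add' := fun v w => by
            rw [← integral_add (hint f v) (hint f w)]
            congr 1
            ext g
            rw [map_add, map_add, mul_add]
          map_smul' := fun c v => by
            rw [RingHom.id_apply, smul_eq_mul, ← integral_const_mul]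
            congr 1
            ext g
            rw [map_smul, map_smul, smul_eq_mul]
            ring }
      map_add' := fun f f' => by
        ext v
        show ∫ g, (f + f').1 g * ℓ (π g v) ∂μ = (∫ g, f.1 g * ℓ (π g v) ∂μ) +
          ∫ g, f'.1 g * ℓ (π g v) ∂μ
        rw [← integral_add (hint f v) (hint f' v)]
        congr 1
        ext g
        show (f.1 g + f'.1 g) * _ = _
        rw [add_mul]
      map_smul' := fun c f => by
        ext v
        show ∫ g, (c • f).1 g * ℓ (π g v) ∂μ = c * ∫ g, f.1 g * ℓ (π g v) ∂μ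
        rw [← integral_const_mul]
        congr 1
        ext g
        show (c * f.1 g) * _ = _
        ring }
  have hΦ : ∀ f, ∃ v' : V', P v' = Φ f := by
    intro f
    obtain ⟨K, hKo, hKc, hK⟩ := YMAP.exists_subgroup hVD f
    obtain ⟨v', hv'⟩ := hRFU G V V' π π' P hP K hKo hKc (Φ f) (by
      intro k hk v
      show ∫ g, f.1 g * ℓ (π g (π k v)) ∂μ = ∫ g, f.1 g * ℓ (π g v) ∂μ
      have h1 : (fun g => f.1 g * ℓ (π g (π k v))) =
          fun g => (fun x => f.1 x * ℓ (π x v)) (g * k) := by
        ext g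
        show _ = f.1 (g * k) * ℓ (π (g * k) v)
        rw [hK k hk, map_mul]
        rfl
      rw [h1]
      exact integral_mul_right_eq_self (fun x => f.1 x * ℓ (π x v)) k)
    exact ⟨v', LinearMap.ext fun v => (hv' v).symm⟩
  choose Y hY using hΦ
  have hinj : ∀ a b : V', P a = P b → a = b := by
    intro a b h
    rw [← sub_eq_zero]
    apply hP.left
    intro v
    rw [map_sub, h, sub_self, LinearMap.zero_apply]
  refine ⟨{ toFun := Y, map_add' := ?_, map_smul' := ?_ }, ?_⟩
  · intro f f'
    apply hinj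
    rw [map_add, hY, hY, hY, map_add]
  · intro c f
    apply hinj
    rw [RingHom.id_apply, map_smul, hY, hY, map_smul]
  · intro f v
    show P (Y f) v = _
    rw [hY]
    rfl

end Pool.Agent.LPer
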