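import Pool.Agent.Work.MP_037d19_lp.Stmts

/-!
# Linear periods: matrices commuting or anticommuting with `diag(α, -α)`
-/

namespace Pool.Agent.LPer.BM

open Matrix (fromBlocks)

variable {k : ℕ} {Ω : Type} [Field Ω] [CharZero Ω]

theorem eq_zero_of_smul_eq_neg {m n : Type} {α : Ω} (hα : α ≠ 0) {M : Matrix m n Ω}
    (h : α • M = -(α • M)) : M = 0 := by
  ext i j
  have h1 := congrFun (congrFun h i) j
  simp only [Matrix.smul_apply, Matrix.neg_apply, smul_eq_mul] at h1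
  have h2 : (2 : Ω) * α * M i j = 0 := by linear_combination h1
  simpa [hα] using h2

theorem diag_of_comm {α : Ω} (hα : α ≠ 0)
    {M : Matrix (Fin k ⊕ Fin k) (Fin k ⊕ Fin k) Ω}
    (h : fromBlocks (α • (1 : Matrix (Fin k) (Fin k) Ω)) 0 0
        (-(α • (1 : Matrix (Fin k) (Fin k) Ω))) * M =
      M * fromBlocks (α • (1 : Matrix (Fin k) (Fin k) Ω)) 0 0
        (-(α • (1 : Matrix (Fin k) (Fin k) Ω)))) :
    M = fromBlocks M.toBlocks₁₁ 0 0 M.toBlocks₂₂ := by
  have hM := Matrix.fromBlocks_toBlocks M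
  rw [← hM] at h
  rw [Matrix.fromBlocks_multiply, Matrix.fromBlocks_multiply, Matrix.fromBlocks_inj] at h
  obtain ⟨-, h2, h3, -⟩ := h
  simp only [smul_mul_assoc, one_mul, zero_mul, add_zero, mul_zero, zero_add, neg_mul, mul_neg,
    mul_smul_comm, mul_one] at h2 h3
  have h12 : M.toBlocks₁₂ = 0 := eq_zero_of_smul_eq_neg hα (by simpa using h2)
  have h21 : M.toBlocks₂₁ = 0 := eq_zero_of_smul_eq_neg hα (by
    have := h3.symm
    simpa using this)
  conv_lhs => rw [← hM, h12, h21]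

theorem anti_of_anticomm {α : Ω} (hα : α ≠ 0)
    {M : Matrix (Fin k ⊕ Fin k) (Fin k ⊕ Fin k) Ω}
    (h : M * fromBlocks (α • (1 : Matrix (Fin k) (Fin k) Ω)) 0 0
        (-(α • (1 : Matrix (Fin k) (Fin k) Ω))) =
      -(fromBlocks (α • (1 : Matrix (Fin k) (Fin k) Ω)) 0 0
        (-(α • (1 : Matrix (Fin k) (Fin k) Ω))) * M)) :
    M = fromBlocks 0 M.toBlocks₁₂ M.toBlocks₂₁ 0 := by
  have hM := Matrix.fromBlocks_toBlocks M
  rw [← hM] at h
  rw [Matrix.fromBlocks_multiply, Matrix.fromBlocks_multiply, Matrix.fromBlocks_neg,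
    Matrix.fromBlocks_inj] at h
  obtain ⟨h1, -, -, h4⟩ := h
  simp only [smul_mul_assoc, one_mul, zero_mul, add_zero, mul_zero, zero_add, neg_mul, mul_neg,
    mul_smul_comm, mul_one, neg_neg] at h1 h4
  have h11 : M.toBlocks₁₁ = 0 := eq_zero_of_smul_eq_neg hα h1
  have h22 : M.toBlocks₂₂ = 0 := eq_zero_of_smul_eq_neg hα h4.symm
  conv_lhs => rw [← hM, h11, h22]

end Pool.Agent.LPer.BM
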