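import Mathlib

/-!
# Linear periods for inner forms of `GL(n)`: definitions
-/

namespace Pool.Agent.LPer

open scoped Polynomial Topology
open Module (finrank)

section nrd

/-- The reduced degree of a finite-dimensional algebra: the `d` with `d ^ 2 = dim_K R`. -/
noncomputable def redDeg (K R : Type) [Field K] [Ring R] [Algebra K R] : ℕ :=
  Nat.sqrt (finrank K R)

open Classical in
/-- The reduced characteristic polynomial of `x`: the monic polynomial whose `d`-th power is the
characteristic polynomial of left multiplication by `x` (junk value `1` if there is none). -/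
noncomputable def redCharpoly (K : Type) {R : Type} [Field K] [Ring R] [Algebra K R]
    [FiniteDimensional K R] (x : R) : K[X] :=
  if h : ∃ P : K[X], P.Monic ∧ P ^ redDeg K R = (Algebra.lmul K R x).charpoly
  then h.choose else 1

/-- The reduced norm. -/
noncomputable def nrd (K : Type) {R : Type} [Field K] [Ring R] [Algebra K R]
    [FiniteDimensional K R] (x : R) : K :=
  (-1) ^ redDeg K R * (redCharpoly K x).coeff 0

end nrd

section cent

variable {F E A : Type} [Field F] [Field E] [Algebra F E] [Ring A] [Algebra F A]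

/-- The centralizer of `ι(E)` in `A`. -/
def Cent (ι : E →ₐ[F] A) : Subalgebra F A := Subalgebra.centralizer F (Set.range ι)

theorem mem_Cent_iff {ι : E →ₐ[F] A} {x : A} : x ∈ Cent ι ↔ ∀ e, ι e * x = x * ι e := by
  rw [Cent, Subalgebra.mem_centralizer_iff]
  constructor
  · intro h e
    exact h _ ⟨e, rfl⟩
  · rintro h _ ⟨e, rfl⟩
    exact h e

theorem ι_mem_Cent (ι : E →ₐ[F] A) (e : E) : ι e ∈ Cent ι := by
  rw [mem_Cent_iff]
  intro e'
  rw [← map_mul, ← map_mul, mul_comm]

/-- The centralizer of `ι(E)` is an `E`-algebra through `ι`. -/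
instance instAlgebraCent (ι : E →ₐ[F] A) : Algebra E (Cent ι) :=
  RingHom.toAlgebra' ((ι : E →+* A).codRestrict (Cent ι) (ι_mem_Cent ι)) (by
    intro e x
    apply Subtype.ext
    exact mem_Cent_iff.mp x.2 e)

theorem Cent_algebraMap (ι : E →ₐ[F] A) (e : E) : ((algebraMap E (Cent ι) e : Cent ι) : A) = ι e :=
  rfl

theorem Cent_smul (ι : E →ₐ[F] A) (e : E) (x : Cent ι) : ((e • x : Cent ι) : A) = ι e * x := rfl

instance instTowerCent (ι : E →ₐ[F] A) : IsScalarTower F E (Cent ι) :=
  IsScalarTower.of_algebraMap_eq (fun r => by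
    apply Subtype.ext
    rw [Cent_algebraMap, AlgHom.commutes]
    rfl)

instance instFinCent (ι : E →ₐ[F] A) [FiniteDimensional F A] : FiniteDimensional E (Cent ι) :=
  Module.Finite.of_restrictScalars_finite F E (Cent ι)

end cent

section rep

variable {G : Type} [Group G] {V : Type} [AddCommGroup V] [Module ℂ V]

/-- The vectors fixed by a subgroup. -/
def fixed (π : Representation ℂ G V) (K : Subgroup G) : Submodule ℂ V where
  carrier := {v | ∀ k ∈ K, π k v = v}
  add_mem' := fun {a b} ha hb k hk => by rw [map_add, ha k hk, hb k hk]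
  zero_mem' := fun k _ => map_zero _
  smul_mem' := fun c v hv k hk => by rw [map_smul, hv k hk]

/-- `π` is an irreducible admissible smooth representation. -/
structure IrrAdm [TopologicalSpace G] (π : Representation ℂ G V) : Prop where
  smooth : ∀ v : V, IsOpen {g : G | π g v = v}
  admissible : ∀ K : Subgroup G, IsOpen (K : Set G) → FiniteDimensional ℂ (fixed π K)
  nontrivial : Nontrivial V
  irreducible : ∀ W : Submodule ℂ V, (∀ g : G, ∀ v ∈ W, π g v ∈ W) → W = ⊥ ∨ W = ⊤

/-- The smooth dual: the linear forms fixed by some open subgroup. -/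
def smoothDual [TopologicalSpace G] [IsTopologicalGroup G] (π : Representation ℂ G V) :
    Submodule ℂ (Module.Dual ℂ V) where
  carrier := {φ | ∃ K : Subgroup G, IsOpen (K : Set G) ∧ ∀ k ∈ K, ∀ v, φ (π k v) = φ v}
  add_mem' := by
    rintro a b ⟨K, hK, hKa⟩ ⟨L, hL, hLb⟩
    refine ⟨K ⊓ L, by simpa using hK.inter hL, fun k hk v => ?_⟩
    rw [LinearMap.add_apply, LinearMap.add_apply, hKa k hk.1, hLb k hk.2]
  zero_mem' := ⟨⊤, by simp, fun k _ v => rfl⟩
  smul_mem' := by
    rintro c a ⟨K, hK, hKa⟩
    refine ⟨K, hK, fun k hk v => ?_⟩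
    rw [LinearMap.smul_apply, LinearMap.smul_apply, hKa k hk]

/-- The contragredient representation on the smooth dual: `(π^∨(g) φ)(v) = φ(π(g⁻¹) v)`. -/
def contra [TopologicalSpace G] [IsTopologicalGroup G] (π : Representation ℂ G V) :
    Representation ℂ G (smoothDual π) where
  toFun g :=
    { toFun := fun φ => ⟨(φ : Module.Dual ℂ V) ∘ₗ (π g⁻¹), by
        obtain ⟨K, hK, h⟩ := φ.2
        refine ⟨K.map (MulAut.conj g).toMonoidHom, ?_, ?_⟩
        · have h1 : ((K.map (MulAut.conj g).toMonoidHom : Subgroup G) : Set G) =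
              (fun x => g⁻¹ * x * g) ⁻¹' (K : Set G) := by
            ext x
            simp only [Subgroup.coe_map, MulEquiv.coe_toMonoidHom, Set.mem_image, SetLike.mem_coe,
              MulAut.conj_apply, Set.mem_preimage]
            constructor
            · rintro ⟨y, hy, rfl⟩
              simpa [mul_assoc] using hy
            · intro hx
              exact ⟨_, hx, by group⟩
          rw [h1]
          exact hK.preimage (by fun_prop)
        · rintro _ ⟨k, hk, rfl⟩ v
          have h2 : π g⁻¹ (π ((MulAut.conj g).toMonoidHom k) v) = π k (π g⁻¹ v) := by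
            rw [← Module.End.mul_apply, ← map_mul, ← Module.End.mul_apply, ← map_mul]
            congr 2
            simp only [MulEquiv.coe_toMonoidHom, MulAut.conj_apply]
            group
          rw [LinearMap.comp_apply, LinearMap.comp_apply, h2, h k hk]⟩
      map_add' := fun a b => by
        apply Subtype.ext
        ext v
        rfl
      map_smul' := fun c a => by
        apply Subtype.ext
        ext v
        rfl }
  map_one' := by
    ext φ v
    simp
  map_mul' := fun g h => by
    ext φ v
    simp

/-- `Hom_H(π, c ∘ Nrd)`: the linear forms `ℓ` on `V` with `ℓ(π(h)v) = c(Nrd h) ℓ(v)` for all `h` in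
the centralizer of `E` in `A^×`; `Nrd` is the reduced norm of the centralizer over `E`. -/
def periods {F E A : Type} [Field F] [Field E] [Algebra F E] [Ring A] [Algebra F A]
    [FiniteDimensional F A] (ι : E →ₐ[F] A) (c : E → ℂ) (π : Representation ℂ Aˣ V) :
    Submodule ℂ (Module.Dual ℂ V) where
  carrier := {ℓ | ∀ (h : Aˣ) (hh : (h : A) ∈ Cent ι) (v : V),
    ℓ (π h v) = c (nrd E (⟨(h : A), hh⟩ : Cent ι)) * ℓ v}
  add_mem' := fun {a b} ha hb h hh v => by
    rw [LinearMap.add_apply, ha h hh, hb h hh, LinearMap.add_apply, mul_add]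
  zero_mem' := fun h hh v => by simp
  smul_mem' := fun r a ha h hh v => by
    rw [LinearMap.smul_apply, ha h hh, LinearMap.smul_apply, smul_eq_mul, smul_eq_mul]
    ring

end rep

/-- Locally constant compactly supported functions `X → ℂ`. -/
def LCC (X : Type) [TopologicalSpace X] : Submodule ℂ (X → ℂ) where
  carrier := {f | IsLocallyConstant f ∧ HasCompactSupport f}
  add_mem' := fun {a b} ha hb => ⟨ha.1.add hb.1, ha.2.add hb.2⟩
  zero_mem' := ⟨IsLocallyConstant.const 0, HasCompactSupport.zero⟩
  smul_mem' := fun c a ha => ⟨by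
      have := ha.1.comp (fun z : ℂ => c * z)
      exact this, ha.2.mono (fun x hx => by
      simp only [Function.mem_support] at hx ⊢
      intro h0
      apply hx
      simp [h0])⟩

end Pool.Agent.LPer
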