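import Pool.Agent.Work.MP_037d19_lp.Defs

/-!
# Linear periods: statements of the topological and representation theoretic blocks
-/

namespace Pool.Agent.LPer

open scoped Polynomial Topology TensorProduct Pointwise
open Module (finrank)
open MeasureTheory Filter

/-! ## Topology -/

/-- CKR: kernels of a continuous family of linear maps. -/
def Stmt_CKR : Prop :=
  ∀ (F M N X : Type) [NontriviallyNormedField F] [CompleteSpace F] [NormedAddCommGroup M]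
    [NormedSpace F M] [FiniteDimensional F M] [NormedAddCommGroup N] [NormedSpace F N]
    [FiniteDimensional F N] [TopologicalSpace X] (Φ : X → M →L[F] N), Continuous Φ →
    (∀ k : ℕ, IsClosed {x | k ≤ finrank F (LinearMap.ker (Φ x).toLinearMap)}) ∧
    ∀ (x₀ : X) (v₀ : M), Φ x₀ v₀ = 0 → ∀ O ∈ 𝓝 v₀,
      ∀ᶠ x in 𝓝[{x | finrank F (LinearMap.ker (Φ x).toLinearMap) =
        finrank F (LinearMap.ker (Φ x₀).toLinearMap)}] x₀, ∃ v ∈ O, Φ x v = 0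

/-- VD: van Dantzig's theorem. -/
def Stmt_VD : Prop :=
  ∀ (G : Type) [Group G] [TopologicalSpace G] [IsTopologicalGroup G] [T2Space G]
    [LocallyCompactSpace G] [TotallyDisconnectedSpace G],
    ∀ U ∈ 𝓝 (1 : G), ∃ K : Subgroup G, IsOpen (K : Set G) ∧ IsCompact (K : Set G) ∧
      (K : Set G) ⊆ U

/-- TOPA: topological properties of the unit group. -/
def Stmt_TOPA : Prop :=
  ∀ (F A : Type) [NontriviallyNormedField F] [CompleteSpace F] [ProperSpace F]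
    [TotallyDisconnectedSpace F] [NormedRing A] [NormedAlgebra F A] [FiniteDimensional F A],
    LocallyCompactSpace Aˣ ∧ TotallyDisconnectedSpace Aˣ ∧ T2Space Aˣ ∧
      Topology.IsOpenEmbedding (Units.val : Aˣ → A)

/-- CONT: continuity at `1` from the `n`-th powers. -/
def Stmt_CONT : Prop :=
  ∀ (F R K : Type) [NontriviallyNormedField F] [CompleteSpace F] [CharZero F] [NormedRing R]
    [NormedAlgebra F R] [FiniteDimensional F R] [TopologicalSpace K] (N D : R → K) (n : ℕ),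
    0 < n → (∀ v, N (v ^ n) = D v) → ContinuousAt D 1 → Tendsto N (𝓝 1) (𝓝 (D 1))

/-- CDET: `v ↦ det_E (L_v)` is continuous on the centralizer. -/
def Stmt_CDET : Prop :=
  ∀ (F E A : Type) [NontriviallyNormedField F] [CompleteSpace F] [NormedField E]
    [NormedAlgebra F E] [NormedRing A] [NormedAlgebra F A] [Nontrivial A]
    [FiniteDimensional F A] (ι : E →ₐ[F] A), (Continuous fun x : A => LinearMap.det (Algebra.lmul F A x)) ∧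
    (Continuous fun x : Cent ι => LinearMap.det (Algebra.lmul E (Cent ι) x))

/-- SLF: a homomorphism from `GL(M)` to a commutative group factors through the determinant. -/
def Stmt_SLF : Prop :=
  ∀ (F M Q : Type) [Field F] [CharZero F] [AddCommGroup M] [Module F M] [FiniteDimensional F M]
    [CommGroup Q] (c : (M ≃ₗ[F] M) →* Q) (g : M ≃ₗ[F] M), LinearMap.det (g : M →ₗ[F] M) = 1 →
    c g = 1

/-- UNI: a bi-invariant, inversion invariant Haar measure on `A^×`. -/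
def Stmt_UNI : Prop :=
  ∀ (F A : Type) [NontriviallyNormedField F] [CompleteSpace F] [ProperSpace F] [CharZero F]
    [TotallyDisconnectedSpace F] [NormedRing A] [NormedAlgebra F A] [FiniteDimensional F A]
    [MeasurableSpace Aˣ] [BorelSpace Aˣ],
    (∀ x : A, LinearMap.det (LinearMap.mulLeft F x) = LinearMap.det (LinearMap.mulRight F x)) →
    ∃ μ : Measure Aˣ, μ.IsHaarMeasure ∧ μ.IsMulRightInvariant ∧ μ.IsInvInvariant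

/-! ## Lemma B -/

/-- UST: the open stabilizer of a locally constant compactly supported function. -/
def Stmt_UST : Prop :=
  ∀ (X Γ : Type) [TopologicalSpace X] [T2Space X] [Group Γ] [TopologicalSpace Γ]
    [IsTopologicalGroup Γ] [MulAction Γ X] [ContinuousSMul Γ X]
    (_ : ∀ U ∈ 𝓝 (1 : Γ), ∃ K : Subgroup Γ, IsOpen (K : Set Γ) ∧ IsCompact (K : Set Γ) ∧
      (K : Set Γ) ⊆ U)
    (f : LCC X), ∀ U ∈ 𝓝 (1 : Γ), ∃ K : Subgroup Γ, IsOpen (K : Set Γ) ∧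
      IsCompact (K : Set Γ) ∧ (K : Set Γ) ⊆ U ∧ ∀ γ ∈ K, ∀ x, f.1 (γ • x) = f.1 x

/-- CNT: the counting lemma. -/
def Stmt_CNT : Prop :=
  ∀ (X Γ : Type) [TopologicalSpace X] [T2Space X] [Group Γ] [TopologicalSpace Γ]
    [IsTopologicalGroup Γ] [MulAction Γ X] [ContinuousSMul Γ X]
    (L K : Subgroup Γ) (Z : Set X) (x₀ : X), IsOpen (L : Set Γ) → IsCompact (L : Set Γ) →
    IsOpen (K : Set Γ) → K ≤ L → (∀ γ ∈ L, ∀ x ∈ Z, γ • x ∈ Z) →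
    (∀ γ : Γ, γ • x₀ = x₀ → ∀ O ∈ 𝓝 γ, ∀ᶠ x in 𝓝[Z] x₀, ∃ γ' ∈ O, γ' • x = x) →
    ∃ W ∈ 𝓝 x₀, ∃ (s : Finset Γ) (c : ℕ), s.Nonempty ∧ 0 < c ∧ (∀ r ∈ s, r ∈ L) ∧
      ∀ N : Set X, N ⊆ W → ∀ y ∈ Z,
        ∑ r ∈ s, (r • ((K : Set Γ) • N)).indicator (fun _ => (1 : ℂ)) y =
          (c : ℂ) * ((L : Set Γ) • N).indicator (fun _ => (1 : ℂ)) y

/-- The data of Lemma B. -/
structure BData (X Γ : Type) [TopologicalSpace X] [Group Γ] [TopologicalSpace Γ]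
    [IsTopologicalGroup Γ] [MulAction Γ X] (τ : X ≃ₜ X) (a : Γ ≃ₜ* Γ) (Λ lam : Γ →* ℂˣ)
    (m : X → ℂˣ) (ρ : X → ℕ) : Prop where
  vd : ∀ U ∈ 𝓝 (1 : Γ), ∃ K : Subgroup Γ, IsOpen (K : Set Γ) ∧ IsCompact (K : Set Γ) ∧
    (K : Set Γ) ⊆ U
  τa : ∀ (γ : Γ) (x : X), τ (γ • x) = a γ • τ x
  kerΛ : IsOpen (Λ.ker : Set Γ)
  kerlam : IsOpen (lam.ker : Set Γ)
  mloc : IsLocallyConstant m
  mlam : ∀ (γ : Γ) (x : X), m (γ • x) = lam γ * m x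
  lamΛ : ∀ γ : Γ, lam γ * Λ (a γ) = Λ γ
  ττ : ∃ γw : Γ, Λ γw = 1 ∧ ∀ x : X, τ (τ x) = γw • x
  mτ : ∀ x : X, m (τ x) * m x = 1
  pt : ∀ x : X, ∃ γ : Γ, τ x = γ • x ∧ m x * Λ γ = 1
  bdd : ∃ N : ℕ, ∀ x : X, ρ x < N
  clo : ∀ k : ℕ, IsClosed {x : X | k ≤ ρ x}
  inv : ∀ (γ : Γ) (x : X), ρ (γ • x) = ρ x
  stab : ∀ (x₀ : X) (γ : Γ), γ • x₀ = x₀ → ∀ O ∈ 𝓝 γ, ∀ᶠ x in 𝓝[{x | ρ x = ρ x₀}] x₀,
    ∃ γ' ∈ O, γ' • x = x
  trans : ∀ (x₀ : X) (γ : Γ), γ • x₀ = τ x₀ → ∀ O ∈ 𝓝 γ,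
    ∀ᶠ x in 𝓝[{x | ρ x = ρ x₀}] x₀, ∃ γ' ∈ O, γ' • x = τ x

/-- GLU: vanishing of a functional from local vanishing on the sets `K N`. -/
def Stmt_GLU : Prop :=
  ∀ (X Γ : Type) [TopologicalSpace X] [T2Space X] [LocallyCompactSpace X]
    [TotallyDisconnectedSpace X] [Group Γ] [TopologicalSpace Γ]
    [IsTopologicalGroup Γ] [MulAction Γ X] [ContinuousSMul Γ X]
    (K : Subgroup Γ), IsOpen (K : Set Γ) → IsCompact (K : Set Γ) →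
    ∀ (T : LCC X →ₗ[ℂ] ℂ) (f : LCC X), (∀ γ ∈ K, ∀ x, f.1 (γ • x) = f.1 x) →
    (∀ x₀, f.1 x₀ ≠ 0 → ∃ W ∈ 𝓝 x₀, ∀ N : Set X, N ⊆ W → IsOpen N → IsCompact N →
      ∀ F : LCC X, (F.1 = ((K : Set Γ) • N).indicator fun _ => (1 : ℂ)) → T F = 0) →
    T f = 0

/-- LOC: the local step. -/
def Stmt_LOC : Prop :=
  ∀ (X Γ : Type) [TopologicalSpace X] [T2Space X] [LocallyCompactSpace X]
    [TotallyDisconnectedSpace X] [Group Γ] [TopologicalSpace Γ]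
    [IsTopologicalGroup Γ] [MulAction Γ X] [ContinuousSMul Γ X] (τ : X ≃ₜ X) (a : Γ ≃ₜ* Γ)
    (Λ lam : Γ →* ℂˣ) (m : X → ℂˣ) (ρ : X → ℕ), BData X Γ τ a Λ lam m ρ →
    ∀ (T : LCC X →ₗ[ℂ] ℂ),
    (∀ γ (f f' : LCC X), (∀ x, f'.1 (γ • x) = f.1 x) → T f' = Λ γ * T f) →
    (∀ f f' : LCC X, (∀ x, f'.1 (τ x) = m x * f.1 x) → T f' = - T f) →
    ∀ k : ℕ, (∀ f : LCC X, (∀ x, k ≤ ρ x → f.1 x = 0) → T f = 0) →
    ∀ (K : Subgroup Γ), IsOpen (K : Set Γ) → IsCompact (K : Set Γ) → K ≤ Λ.ker →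
    K ≤ lam.ker → ∀ x₀, ρ x₀ ≤ k → ∃ W ∈ 𝓝 x₀, ∀ N : Set X, N ⊆ W → IsOpen N → IsCompact N →
      ∀ F : LCC X, (F.1 = ((K : Set Γ) • N).indicator fun _ => (1 : ℂ)) → T F = 0

/-- B: Lemma B. -/
def Stmt_B : Prop :=
  ∀ (X Γ : Type) [TopologicalSpace X] [T2Space X] [LocallyCompactSpace X]
    [TotallyDisconnectedSpace X] [Group Γ] [TopologicalSpace Γ]
    [IsTopologicalGroup Γ] [MulAction Γ X] [ContinuousSMul Γ X] (τ : X ≃ₜ X) (a : Γ ≃ₜ* Γ)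
    (Λ lam : Γ →* ℂˣ) (m : X → ℂˣ) (ρ : X → ℕ), BData X Γ τ a Λ lam m ρ →
    ∀ (T : LCC X →ₗ[ℂ] ℂ),
    (∀ γ (f f' : LCC X), (∀ x, f'.1 (γ • x) = f.1 x) → T f' = Λ γ * T f) →
    ∀ f f' : LCC X, (∀ x, f'.1 (τ x) = m x * f.1 x) → T f' = T f

/-! ## Representations -/

section

variable {G : Type} [Group G] [TopologicalSpace G] {V V' : Type} [AddCommGroup V] [Module ℂ V]
  [AddCommGroup V'] [Module ℂ V']

/-- A pair of irreducible admissible representations in duality. -/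
structure Dual2 (π : Representation ℂ G V) (π' : Representation ℂ G V')
    (P : V' →ₗ[ℂ] V →ₗ[ℂ] ℂ) : Prop where
  irr : IrrAdm π
  irr' : IrrAdm π'
  inv : ∀ g v' v, P (π' g v') (π g v) = P v' v
  left : ∀ v', (∀ v, P v' v = 0) → v' = 0
  right : ∀ v, (∀ v', P v' v = 0) → v = 0

end

/-- RFU: representation of smooth functionals. -/
def Stmt_RFU : Prop :=
  ∀ (G : Type) [Group G] [TopologicalSpace G] [IsTopologicalGroup G] (V V' : Type)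
    [AddCommGroup V] [Module ℂ V] [AddCommGroup V'] [Module ℂ V'] (π : Representation ℂ G V)
    (π' : Representation ℂ G V') (P : V' →ₗ[ℂ] V →ₗ[ℂ] ℂ), Dual2 π π' P →
    ∀ (K : Subgroup G), IsOpen (K : Set G) → IsCompact (K : Set G) → ∀ φ : V →ₗ[ℂ] ℂ,
    (∀ k ∈ K, ∀ v, φ (π k v) = φ v) → ∃ v' : V', ∀ v, φ v = P v' v

/-- YMAP: the map `f ↦ ℓ ∘ π(f)`. -/
def Stmt_YMAP : Prop :=
  ∀ (G : Type) [Group G] [TopologicalSpace G] [IsTopologicalGroup G] [T2Space G]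
    [LocallyCompactSpace G] [TotallyDisconnectedSpace G] [MeasurableSpace G] [BorelSpace G]
    (μ : Measure G) [μ.IsHaarMeasure] [μ.IsMulRightInvariant] (V V' : Type)
    [AddCommGroup V] [Module ℂ V] [AddCommGroup V'] [Module ℂ V'] (π : Representation ℂ G V)
    (π' : Representation ℂ G V') (P : V' →ₗ[ℂ] V →ₗ[ℂ] ℂ), Dual2 π π' P →
    ∀ ℓ : V →ₗ[ℂ] ℂ, ∃ Y : LCC G →ₗ[ℂ] V', ∀ f v, P (Y f) v = ∫ g, f.1 g * ℓ (π g v) ∂μ

/-- INVL: `ℓ(X f^∨) = ℓ'(Y f)`. -/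
def Stmt_INVL : Prop :=
  ∀ (G : Type) [Group G] [TopologicalSpace G] [IsTopologicalGroup G] [T2Space G]
    [LocallyCompactSpace G] [TotallyDisconnectedSpace G] [MeasurableSpace G] [BorelSpace G]
    (μ : Measure G) [μ.IsHaarMeasure] [μ.IsMulRightInvariant] [μ.IsInvInvariant] (V V' : Type)
    [AddCommGroup V] [Module ℂ V] [AddCommGroup V'] [Module ℂ V'] (π : Representation ℂ G V)
    (π' : Representation ℂ G V') (P : V' →ₗ[ℂ] V →ₗ[ℂ] ℂ), Dual2 π π' P →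
    ∀ (ℓ : V →ₗ[ℂ] ℂ) (ℓ' : V' →ₗ[ℂ] ℂ) (Y : LCC G →ₗ[ℂ] V') (X : LCC G →ₗ[ℂ] V),
    (∀ f v, P (Y f) v = ∫ g, f.1 g * ℓ (π g v) ∂μ) →
    (∀ f v', P v' (X f) = ∫ g, f.1 g * ℓ' (π' g v') ∂μ) →
    ∀ f f' : LCC G, (∀ g, f'.1 g = f.1 g⁻¹) → ℓ (X f') = ℓ' (Y f)

/-- C: uniqueness, the form and its sign. -/
def Stmt_C : Prop :=
  ∀ (G : Type) [Group G] [TopologicalSpace G] [IsTopologicalGroup G] [T2Space G]
    [LocallyCompactSpace G] [TotallyDisconnectedSpace G] [MeasurableSpace G] [BorelSpace G]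
    (μ : Measure G) [μ.IsHaarMeasure] [μ.IsMulRightInvariant] [μ.IsInvInvariant] (V V' : Type)
    [AddCommGroup V] [Module ℂ V] [AddCommGroup V'] [Module ℂ V'] (π : Representation ℂ G V)
    (π' : Representation ℂ G V') (P : V' →ₗ[ℂ] V →ₗ[ℂ] ℂ), Dual2 π π' P →
    ∀ (H : Subgroup G) (ψ : H →* ℂˣ) (m : G →* ℂˣ), IsOpen (m.ker : Set G) →
    ∀ (w : G) (hw : w * w ∈ H),
    (∀ T : LCC G →ₗ[ℂ] ℂ,
      (∀ (h₁ h₂ : H) (f f' : LCC G), (∀ g, f'.1 (h₁ * g * (h₂ : G)⁻¹) = f.1 g) →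
        T f' = (ψ h₁ : ℂ) * (ψ h₂ : ℂ)⁻¹ * T f) →
      ∀ f f' : LCC G, (∀ g, f'.1 (w * g⁻¹ * w⁻¹) = m g * f.1 g) → T f' = T f) →
    ∀ (ℓ : V →ₗ[ℂ] ℂ) (ℓ' : V' →ₗ[ℂ] ℂ), ℓ ≠ 0 → ℓ' ≠ 0 →
    (∀ (h : H) v, ℓ (π h v) = ψ h * ℓ v) → (∀ (h : H) v', ℓ' (π' h v') = (ψ h : ℂ)⁻¹ * ℓ' v') →
    (∀ ℓ₂ : V →ₗ[ℂ] ℂ, (∀ (h : H) v, ℓ₂ (π h v) = ψ h * ℓ₂ v) → ∃ c : ℂ, ℓ₂ = c • ℓ) ∧
    (∀ ℓ₂ : V' →ₗ[ℂ] ℂ, (∀ (h : H) v, ℓ₂ (π' h v) = (ψ h : ℂ)⁻¹ * ℓ₂ v) →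
      ∃ c : ℂ, ℓ₂ = c • ℓ') ∧
    ∃ b : V →ₗ[ℂ] V →ₗ[ℂ] ℂ, (∀ x, (∀ y, b x y = 0) → x = 0) ∧
      (∀ g x y, b (π g x) (π g y) = m g * b x y) ∧
      ∀ x y, b y x = (ψ ⟨w * w, hw⟩ : ℂ) * (m w : ℂ)⁻¹ * b x y

/-- CTR: the contragredient. -/
def Stmt_CTR : Prop :=
  ∀ (G : Type) [Group G] [TopologicalSpace G] [IsTopologicalGroup G] [T2Space G]
    [LocallyCompactSpace G] [TotallyDisconnectedSpace G] (V : Type)
    [AddCommGroup V] [Module ℂ V] (π : Representation ℂ G V), IrrAdm π →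
    Dual2 π (contra π) (smoothDual π).subtype

end Pool.Agent.LPer
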