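import Pool.Agent.Work.MP_037d19_lp.Stmts
import Pool.Agent.Work.MP_037d19_lp.Stmts2

/-!
# Linear periods: the action of `H × H` on `A^×`
-/

namespace Pool.Agent.LPer

open scoped Topology
open Module (finrank)
open MeasureTheory Filter

section

variable {F E A : Type} [Field F] [Field E] [Algebra F E] [Ring A] [Algebra F A]

/-- The group `H`: the centralizer of `E` in `A^×`. -/
def HH (ι : E →ₐ[F] A) : Subgroup Aˣ where
  carrier := {g | (g : A) ∈ Cent ι}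
  mul_mem' := fun {a b} ha hb => by
    change ((a * b : Aˣ) : A) ∈ Cent ι
    rw [Units.val_mul]
    exact (Cent ι).mul_mem ha hb
  one_mem' := by
    change ((1 : Aˣ) : A) ∈ Cent ι
    rw [Units.val_one]
    exact (Cent ι).one_mem
  inv_mem' := fun {a} ha => by
    change ((a⁻¹ : Aˣ) : A) ∈ Cent ι
    have ha' : (a : A) ∈ Cent ι := ha
    rw [mem_Cent_iff] at ha' ⊢
    intro e
    have h := ha' e
    calc ι e * ((a⁻¹ : Aˣ) : A) = ((a⁻¹ : Aˣ) : A) * (a * ι e) * ((a⁻¹ : Aˣ) : A) := by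
          rw [← mul_assoc, Units.inv_mul, one_mul]
      _ = ((a⁻¹ : Aˣ) : A) * (ι e * a) * ((a⁻¹ : Aˣ) : A) := by rw [h]
      _ = ((a⁻¹ : Aˣ) : A) * ι e := by
          rw [mul_assoc, mul_assoc, Units.mul_inv, mul_one]

theorem mem_HH {ι : E →ₐ[F] A} {g : Aˣ} : g ∈ HH ι ↔ (g : A) ∈ Cent ι := Iff.rfl

/-- The action of `H × H` on `A^×`: `(h₁, h₂) • g = h₁ g h₂⁻¹`. -/
instance instActHH (ι : E →ₐ[F] A) : MulAction (HH ι × HH ι) Aˣ where
  smul γ g := (γ.1 : Aˣ) * g * (γ.2 : Aˣ)⁻¹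
  one_smul g := by
    change ((1 : HH ι) : Aˣ) * g * ((1 : HH ι) : Aˣ)⁻¹ = g
    simp
  mul_smul γ γ' g := by
    change ((γ.1 * γ'.1 : HH ι) : Aˣ) * g * ((γ.2 * γ'.2 : HH ι) : Aˣ)⁻¹ =
      (γ.1 : Aˣ) * ((γ'.1 : Aˣ) * g * (γ'.2 : Aˣ)⁻¹) * (γ.2 : Aˣ)⁻¹
    simp [mul_assoc]

theorem smul_HH (ι : E →ₐ[F] A) (γ : HH ι × HH ι) (g : Aˣ) :
    γ • g = (γ.1 : Aˣ) * g * (γ.2 : Aˣ)⁻¹ := rfl

end

section

variable {F E A : Type} [NontriviallyNormedField F] [Field E] [Algebra F E] [NormedRing A]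
  [NormedAlgebra F A]

instance instContHH (ι : E →ₐ[F] A) : ContinuousSMul (HH ι × HH ι) Aˣ := by
  constructor
  change Continuous fun p : (HH ι × HH ι) × Aˣ => (p.1.1 : Aˣ) * p.2 * (p.1.2 : Aˣ)⁻¹
  fun_prop

/-- The involution `g ↦ w g⁻¹ w⁻¹`. -/
def tauW (w : Aˣ) : Aˣ ≃ₜ Aˣ where
  toFun g := w * g⁻¹ * w⁻¹
  invFun g := w⁻¹ * g⁻¹ * w
  left_inv g := by group
  right_inv g := by group
  continuous_toFun := by fun_prop
  continuous_invFun := by fun_prop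

theorem tauW_apply (w g : Aˣ) : tauW w g = w * g⁻¹ * w⁻¹ := rfl

/-- Conjugation by an element normalizing `H`. -/
def conjH (ι : E →ₐ[F] A) (w : Aˣ) (hw : ∀ h, h ∈ HH ι → w * h * w⁻¹ ∈ HH ι)
    (hw' : ∀ h, h ∈ HH ι → w⁻¹ * h * w ∈ HH ι) : HH ι ≃ₜ* HH ι where
  toFun h := ⟨w * h * w⁻¹, hw h h.2⟩
  invFun h := ⟨w⁻¹ * h * w, hw' h h.2⟩
  left_inv h := by
    apply Subtype.ext
    change w⁻¹ * (w * (h : Aˣ) * w⁻¹) * w = h
    group
  right_inv h := by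
    apply Subtype.ext
    change w * (w⁻¹ * (h : Aˣ) * w) * w⁻¹ = h
    group
  map_mul' h h' := by
    apply Subtype.ext
    change w * ((h : Aˣ) * (h' : Aˣ)) * w⁻¹ = (w * (h : Aˣ) * w⁻¹) * (w * (h' : Aˣ) * w⁻¹)
    group
  continuous_toFun := by
    apply Continuous.subtype_mk
    fun_prop
  continuous_invFun := by
    apply Continuous.subtype_mk
    fun_prop

/-- The automorphism `(h₁, h₂) ↦ (w h₂ w⁻¹, w h₁ w⁻¹)` of `H × H`. -/
def autHH (ι : E →ₐ[F] A) (w : Aˣ) (hw : ∀ h, h ∈ HH ι → w * h * w⁻¹ ∈ HH ι)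
    (hw' : ∀ h, h ∈ HH ι → w⁻¹ * h * w ∈ HH ι) : (HH ι × HH ι) ≃ₜ* (HH ι × HH ι) where
  toFun γ := (conjH ι w hw hw' γ.2, conjH ι w hw hw' γ.1)
  invFun γ := ((conjH ι w hw hw').symm γ.2, (conjH ι w hw hw').symm γ.1)
  left_inv γ := by simp
  right_inv γ := by simp
  map_mul' γ γ' := by
    simp
  continuous_toFun := by
    exact ((conjH ι w hw hw').continuous.comp continuous_snd).prodMk
      ((conjH ι w hw hw').continuous.comp continuous_fst)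
  continuous_invFun := by
    exact ((conjH ι w hw hw').symm.continuous.comp continuous_snd).prodMk
      ((conjH ι w hw hw').symm.continuous.comp continuous_fst)

/-- The dimension of the common centralizer of `δ` and `g δ g⁻¹`. -/
noncomputable def rho (F : Type) {A : Type} [Field F] [Ring A] [Algebra F A] (δ : A) (g : Aˣ) :
    ℕ :=
  finrank F (Subalgebra.toSubmodule
    (Subalgebra.centralizer F ({δ, (g : A) * δ * ((g⁻¹ : Aˣ) : A)} : Set A)))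

end

/-- STR: the stratification. -/
def Stmt_STR : Prop :=
  ∀ (F E A : Type) [NontriviallyNormedField F] [CompleteSpace F] [CharZero F] [Field E]
    [Algebra F E] [NormedRing A] [NormedAlgebra F A] [FiniteDimensional F A] (ι : E →ₐ[F] A)
    (δ : A) (w : Aˣ), (∀ x : A, x ∈ Cent ι ↔ δ * x = x * δ) → (w : A) * δ = -(δ * w) →
    Topology.IsOpenEmbedding (Units.val : Aˣ → A) →
    (∀ g : Aˣ, ∃ γ : HH ι × HH ι, tauW w g = γ • g) →
    (∃ N : ℕ, ∀ g : Aˣ, rho F δ g < N) ∧ (∀ k : ℕ, IsClosed {g : Aˣ | k ≤ rho F δ g}) ∧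
    (∀ (γ : HH ι × HH ι) (g : Aˣ), rho F δ (γ • g) = rho F δ g) ∧
    (∀ (x₀ : Aˣ) (γ : HH ι × HH ι), γ • x₀ = x₀ → ∀ O ∈ 𝓝 γ,
      ∀ᶠ x in 𝓝[{x | rho F δ x = rho F δ x₀}] x₀, ∃ γ' ∈ O, γ' • x = x) ∧
    (∀ (x₀ : Aˣ) (γ : HH ι × HH ι), γ • x₀ = tauW w x₀ → ∀ O ∈ 𝓝 γ,
      ∀ᶠ x in 𝓝[{x | rho F δ x = rho F δ x₀}] x₀, ∃ γ' ∈ O, γ' • x = tauW w x)

/-- CHAR: the characters of `H` and `A^×`. -/
def Stmt_CHAR : Prop :=
  ∀ (F E A : Type) [NontriviallyNormedField F] [CompleteSpace F] [CharZero F] [NormedField E]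
    [NormedAlgebra F E] [NormedRing A] [NormedAlgebra F A] [Algebra.IsCentral F A]
    [IsSimpleRing A] [FiniteDimensional F A] (ι : E →ₐ[F] A) (k : ℕ) (δE : E) (a : F),
    Data F E A ι k δE a → ∀ (χ : E →*₀ ℂ), (∀ᶠ e in 𝓝 (1 : E), χ e = 1) →
    ∃ (ψ : HH ι →* ℂˣ) (m : Aˣ →* ℂˣ),
      (∀ h : HH ι, (ψ h : ℂ) = χ (nrd E (⟨((h : Aˣ) : A), h.2⟩ : Cent ι))) ∧
      (∀ g : Aˣ, (m g : ℂ) = χ (algebraMap F E (nrd F (g : A)))) ∧
      IsOpen (ψ.ker : Set (HH ι)) ∧ IsOpen (m.ker : Set Aˣ) ∧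
      Tendsto (fun g : Aˣ => nrd F (g : A)) (𝓝 1) (𝓝 1)

/-- VDH: small compact open subgroups of `H × H`. -/
def Stmt_VDH : Prop :=
  ∀ (F E A : Type) [NontriviallyNormedField F] [CompleteSpace F] [ProperSpace F]
    [TotallyDisconnectedSpace F] [Field E] [Algebra F E] [NormedRing A] [NormedAlgebra F A]
    [FiniteDimensional F A] (ι : E →ₐ[F] A),
    ∀ U ∈ 𝓝 (1 : HH ι × HH ι), ∃ K : Subgroup (HH ι × HH ι), IsOpen (K : Set (HH ι × HH ι)) ∧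
      IsCompact (K : Set (HH ι × HH ι)) ∧ (K : Set (HH ι × HH ι)) ⊆ U

/-- LFD: local fields. -/
def Stmt_LFD : Prop :=
  ∀ (p : ℕ) [Fact p.Prime] (F : Type) [NontriviallyNormedField F] [NormedAlgebra ℚ_[p] F]
    [FiniteDimensional ℚ_[p] F], CharZero F ∧ CompleteSpace F ∧ ProperSpace F ∧
      TotallyDisconnectedSpace F ∧ IsOpen {x : F | ‖x‖ = 1}

/-! ## The essentially unitary case -/

/-- ANN: a positive character of `E^×` trivial on `F^×` is trivial. -/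
def Stmt_ANN : Prop :=
  ∀ (F E : Type) [NontriviallyNormedField F] [NormedField E] [NormedAlgebra F E] [ProperSpace E]
    (κ : E → ℝ), (∀ x y, κ (x * y) = κ x * κ y) → (∀ x, x ≠ 0 → 0 < κ x) →
    ContinuousOn κ {x | x ≠ 0} → (∀ z : F, z ≠ 0 → κ (algebraMap F E z) = 1) →
    ∀ x, x ≠ 0 → κ x = 1

/-- NNM: transitivity of norms. -/
def Stmt_NNM : Prop :=
  ∀ (F E A : Type) [Field F] [CharZero F] [Field E] [Algebra F E] [Ring A] [Algebra F A]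
    [Algebra.IsCentral F A] [IsSimpleRing A] [FiniteDimensional F A] (ι : E →ₐ[F] A) (k : ℕ)
    (δE : E) (a : F), Data F E A ι k δE a → (∀ h : Cent ι,
    nrd F (h : A) = Algebra.norm F (nrd E h)) ∧
    (∀ z : F, nrd E (algebraMap F (Cent ι) z) = algebraMap F E z ^ k) ∧
    (∀ z : F, nrd F (algebraMap F A z) = z ^ (2 * k))

/-- `S` is a positive definite hermitian form on `V` with
`S(π(g)x, π(g)y) = |Nrd g|^s S(x, y)`. -/
structure EssUnitary (F : Type) {A V : Type} [NontriviallyNormedField F] [Ring A] [Algebra F A]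
    [FiniteDimensional F A] [AddCommGroup V] [Module ℂ V] (π : Representation ℂ Aˣ V) (s : ℝ)
    (S : V →ₗ⋆[ℂ] V →ₗ[ℂ] ℂ) : Prop where
  herm : ∀ x y, S y x = (starRingEnd ℂ) (S x y)
  pos : ∀ x, x ≠ 0 → 0 < (S x x).re
  inv : ∀ (g : Aˣ) x y, S (π g x) (π g y) = ((‖nrd F (g : A)‖ ^ s : ℝ) : ℂ) * S x y

/-- UPR: the absolute value of the character in the essentially unitary case. -/
def Stmt_UPR : Prop :=
  ∀ (F E A : Type) [NontriviallyNormedField F] [CompleteSpace F] [ProperSpace F] [CharZero F]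
    [NormedField E]
    [NormedAlgebra F E] [NormedRing A] [NormedAlgebra F A] [Algebra.IsCentral F A]
    [IsSimpleRing A] [FiniteDimensional F A] (ι : E →ₐ[F] A) (k : ℕ) (δE : E) (a : F),
    Data F E A ι k δE a → ∀ (χ : E →*₀ ℂ), (∀ᶠ e in 𝓝 (1 : E), χ e = 1) →
    ∀ (V : Type) [AddCommGroup V] [Module ℂ V] (π : Representation ℂ Aˣ V), IrrAdm π →
    ∀ (s : ℝ) (S : V →ₗ⋆[ℂ] V →ₗ[ℂ] ℂ), EssUnitary F π s S →
    ∀ ℓ ∈ periods ι χ π, ℓ ≠ 0 → ∀ (h : Aˣ) (hh : (h : A) ∈ Cent ι),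
      ‖χ (nrd E (⟨h, hh⟩ : Cent ι))‖ ^ 2 = ‖nrd F (h : A)‖ ^ s

/-- UPP: the conjugate pairing in the essentially unitary case. -/
def Stmt_UPP : Prop :=
  ∀ (F A : Type) [NontriviallyNormedField F] [CompleteSpace F] [ProperSpace F] [CharZero F]
    [TotallyDisconnectedSpace F]
    [NormedRing A] [NormedAlgebra F A] [Algebra.IsCentral F A] [IsSimpleRing A]
    [FiniteDimensional F A], (∀ x y : A, nrd F (x * y) = nrd F x * nrd F y) →
    nrd F (1 : A) = 1 → IsOpen {g : Aˣ | ‖nrd F (g : A)‖ = 1} →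
    ∀ (V : Type) [AddCommGroup V] [Module ℂ V] (π : Representation ℂ Aˣ V), IrrAdm π →
    ∀ (s : ℝ) (S : V →ₗ⋆[ℂ] V →ₗ[ℂ] ℂ), EssUnitary F π s S →
    ∃ (V' : Type) (_ : AddCommGroup V') (_ : Module ℂ V') (π' : Representation ℂ Aˣ V')
      (P : V' →ₗ[ℂ] V →ₗ[ℂ] ℂ) (j : V' ≃+ V),
      Dual2 π π' P ∧ (∀ (c : ℂ) v', j (c • v') = (starRingEnd ℂ) c • j v') ∧
      ∀ g v', j (π' g v') = (((‖nrd F (g : A)‖ ^ s : ℝ) : ℂ)⁻¹) • π g (j v')

/-- The conclusion on forms. -/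
def HasForm {F E A V : Type} [Field F] [Field E] [Algebra F E] [Ring A] [Algebra F A]
    [FiniteDimensional F A] [AddCommGroup V] [Module ℂ V] (χ : E → ℂ)
    (π : Representation ℂ Aˣ V) (k : ℕ) : Prop :=
  ∃ b : V →ₗ[ℂ] V →ₗ[ℂ] ℂ, (∀ x, (∀ y, b x y = 0) → x = 0) ∧
    (∀ (g : Aˣ) x y, b (π g x) (π g y) = χ (algebraMap F E (nrd F (g : A))) * b x y) ∧
    ∀ x y, b y x = χ (-1) ^ k * b x y

/-- The main theorem. -/
def Stmt_MAIN : Prop :=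
  ∀ (p : ℕ) [Fact p.Prime] (F E A : Type) [NontriviallyNormedField F] [NormedAlgebra ℚ_[p] F]
    [FiniteDimensional ℚ_[p] F] [NormedField E] [NormedAlgebra F E] [NormedRing A]
    [NormedAlgebra F A] [Algebra.IsCentral F A] [IsSimpleRing A] [FiniteDimensional F A]
    (k : ℕ) (ι : E →ₐ[F] A) (χ : E →*₀ ℂ) (V : Type) [AddCommGroup V] [Module ℂ V]
    (π : Representation ℂ Aˣ V),
    finrank F E = 2 → finrank F A = (2 * k) ^ 2 → (∀ᶠ e in 𝓝 (1 : E), χ e = 1) →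
    IrrAdm π →
    (periods ι χ π ≠ ⊥ → periods ι (fun e => (χ e)⁻¹) (contra π) ≠ ⊥ →
      Module.rank ℂ (periods ι χ π) = 1 ∧
      Module.rank ℂ (periods ι (fun e => (χ e)⁻¹) (contra π)) = 1 ∧
      HasForm (F := F) (E := E) χ π k) ∧
    ((∃ (s : ℝ) (S : V →ₗ⋆[ℂ] V →ₗ[ℂ] ℂ), EssUnitary F π s S) →
      Module.rank ℂ (periods ι χ π) ≤ 1 ∧
      (periods ι χ π ≠ ⊥ → HasForm (F := F) (E := E) χ π k))

end Pool.Agent.LPer
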