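import Pool.Agent.Work.MP_037d19_lp.Defs2

/-!
# Linear periods: assembly
-/

namespace Pool.Agent.LPer

open scoped Topology
open Module (finrank)
open MeasureTheory Filter

section alg

set_option linter.unusedSectionVars false

variable {F E A : Type} [Field F] [CharZero F] [Field E] [Algebra F E] [Ring A] [Algebra F A]
    [Algebra.IsCentral F A] [IsSimpleRing A] [FiniteDimensional F A] {ι : E →ₐ[F] A} {k : ℕ}
    {δE : E} {a : F}

theorem conj_mem (hD : Data F E A ι k δE a) {w : Aˣ} (hw : (w : A) * ι δE = -(ι δE * w)) :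
    ∀ h, h ∈ HH ι → w * h * w⁻¹ ∈ HH ι := by
  intro h hh
  rw [mem_HH, hD.cent] at hh ⊢
  have h1 : ι δE * (w : A) = -((w : A) * ι δE) := by rw [hw, neg_neg]
  have h2 : ((w⁻¹ : Aˣ) : A) * ι δE = -(ι δE * ((w⁻¹ : Aˣ) : A)) := by
    have : ((w⁻¹ : Aˣ) : A) * ((w : A) * ι δE) * ((w⁻¹ : Aˣ) : A) =
        ((w⁻¹ : Aˣ) : A) * (-(ι δE * w)) * ((w⁻¹ : Aˣ) : A) := by rw [hw]
    rw [← mul_assoc, Units.inv_mul, one_mul, mul_neg, neg_mul, mul_assoc, mul_assoc,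
      Units.mul_inv, mul_one] at this
    rw [this, neg_neg]
  push_cast
  calc ι δE * ((w : A) * h * ((w⁻¹ : Aˣ) : A)) = (ι δE * w) * h * ((w⁻¹ : Aˣ) : A) := by
        simp only [mul_assoc]
    _ = -((w : A) * (ι δE * h) * ((w⁻¹ : Aˣ) : A)) := by
        rw [h1]; simp only [mul_assoc, neg_mul]
    _ = -((w : A) * (h * ι δE) * ((w⁻¹ : Aˣ) : A)) := by rw [hh]
    _ = (w : A) * h * ((w⁻¹ : Aˣ) : A) * ι δE := by
        rw [mul_assoc ((w : A) * h), h2]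
        simp only [mul_assoc, mul_neg]

theorem inv_anti {w : Aˣ} (hw : (w : A) * ι δE = -(ι δE * w)) :
    ((w⁻¹ : Aˣ) : A) * ι δE = -(ι δE * ((w⁻¹ : Aˣ) : A)) := by
  have : ((w⁻¹ : Aˣ) : A) * ((w : A) * ι δE) * ((w⁻¹ : Aˣ) : A) =
      ((w⁻¹ : Aˣ) : A) * (-(ι δE * w)) * ((w⁻¹ : Aˣ) : A) := by rw [hw]
  rw [← mul_assoc, Units.inv_mul, one_mul, mul_neg, neg_mul, mul_assoc, mul_assoc,
    Units.mul_inv, mul_one] at this
  rw [this, neg_neg]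

theorem conj_mem' (hD : Data F E A ι k δE a) {w : Aˣ} (hw : (w : A) * ι δE = -(ι δE * w)) :
    ∀ h, h ∈ HH ι → w⁻¹ * h * w ∈ HH ι := by
  intro h hh
  have := conj_mem hD (inv_anti hw) h hh
  simpa using this

theorem sq_mem (hD : Data F E A ι k δE a) {w : Aˣ} (hw : (w : A) * ι δE = -(ι δE * w)) :
    w * w ∈ HH ι := by
  rw [mem_HH, hD.cent]
  push_cast
  calc ι δE * ((w : A) * w) = (ι δE * w) * w := by rw [mul_assoc]
    _ = (w : A) * (-(ι δE * w)) := by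
        have h1 : ι δE * (w : A) = -((w : A) * ι δE) := by rw [hw, neg_neg]
        rw [h1, mul_neg, neg_mul, ← h1, mul_assoc, h1]
    _ = (w : A) * w * ι δE := by rw [← hw, mul_assoc]

end alg

/-- The core: the conclusion for a pair in duality. -/
theorem core (hQE : Stmt_QE) (hW : Stmt_W) (hMUL : Stmt_MUL) (hN0 : Stmt_N0) (hN2 : Stmt_N2')
    (hPA : Stmt_PA) (hCHAR : Stmt_CHAR) (hTOPA : Stmt_TOPA) (hVDH : Stmt_VDH) (hSTR : Stmt_STR)
    (hDETR : Stmt_DETR) (hUNI : Stmt_UNI) (hB : Stmt_B) (hC : Stmt_C)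
    (F E A : Type) [NontriviallyNormedField F] [CharZero F] [CompleteSpace F] [ProperSpace F]
    [TotallyDisconnectedSpace F] [NormedField E] [NormedAlgebra F E] [NormedRing A]
    [NormedAlgebra F A] [Algebra.IsCentral F A] [IsSimpleRing A] [FiniteDimensional F A]
    (k : ℕ) (ι : E →ₐ[F] A) (χ : E →*₀ ℂ) (V V' : Type) [AddCommGroup V] [Module ℂ V]
    [AddCommGroup V'] [Module ℂ V']
    (π : Representation ℂ Aˣ V) (π' : Representation ℂ Aˣ V') (P : V' →ₗ[ℂ] V →ₗ[ℂ] ℂ)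
    (hP : Dual2 π π' P)
    (hE : finrank F E = 2) (hA : finrank F A = (2 * k) ^ 2) (hχ : ∀ᶠ e in 𝓝 (1 : E), χ e = 1)
    (ℓ : V →ₗ[ℂ] ℂ) (ℓ' : V' →ₗ[ℂ] ℂ) (hℓ0 : ℓ ≠ 0) (hℓ0' : ℓ' ≠ 0)
    (hℓ : ℓ ∈ periods ι χ π) (hℓ' : ℓ' ∈ periods ι (fun e => (χ e)⁻¹) π') :
    (∀ ℓ₂ ∈ periods ι χ π, ∃ c : ℂ, ℓ₂ = c • ℓ) ∧
    (∀ ℓ₂ ∈ periods ι (fun e => (χ e)⁻¹) π', ∃ c : ℂ, ℓ₂ = c • ℓ') ∧
    HasForm (F := F) (E := E) χ π k := by
  obtain ⟨δE, a, hsq, hns, hcent⟩ := hQE F E A ι hE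
  have hD : Data F E A ι k δE a := ⟨hE, hA, hsq, hns, hcent⟩
  have hδδ : ι δE * ι δE = algebraMap F A a := by
    rw [← map_mul, ← pow_two, hsq, AlgHom.commutes]
  obtain ⟨w, hw⟩ := hW F E A δE a (ι δE) hE hsq hns hδδ
  obtain ⟨hm, h1, hmE, h1E⟩ := hMUL F E A ι k δE a hD
  obtain ⟨ψ, m, hψ, hmv, hψo, hmo, -⟩ := hCHAR F E A ι k δE a hD χ hχ
  obtain ⟨hLC, hTD, hT2, hOE⟩ := hTOPA F A
  have hc := conj_mem hD hw
  have hc' := conj_mem' hD hw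
  -- values of the characters
  have hψm : ∀ h : HH ι, (ψ ⟨w * h * w⁻¹, hc h h.2⟩ : ℂ) * ψ h = m (h : Aˣ) := by
    intro h
    rw [hψ, hψ, hmv, ← map_mul]
    congr 1
    exact hN0 F E A ι k δE a hD w hw _ _ (by push_cast; rfl)
  set Γ := (HH ι × HH ι) with hΓ
  let Λ : Γ →* ℂˣ := (ψ.comp (MonoidHom.fst _ _)) * (ψ.comp (MonoidHom.snd _ _))⁻¹
  let lam : Γ →* ℂˣ :=
    ((m.comp (HH ι).subtype).comp (MonoidHom.fst _ _)) *
      ((m.comp (HH ι).subtype).comp (MonoidHom.snd _ _))⁻¹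
  have hΛv : ∀ γ : Γ, Λ γ = ψ γ.1 * (ψ γ.2)⁻¹ := fun γ => rfl
  have hlv : ∀ γ : Γ, lam γ = m γ.1 * (m γ.2)⁻¹ := fun γ => rfl
  have hpt : ∀ g : Aˣ, ∃ γ : Γ, tauW w g = γ • g ∧ m g * Λ γ = 1 := by
    intro g
    obtain ⟨h₁, h₂, m₁, m₂, he, hθ⟩ := hPA F E A ι k δE a hD w hw g
    refine ⟨(⟨h₁, m₁⟩, (⟨h₂, m₂⟩ : HH ι)⁻¹), ?_, ?_⟩
    · rw [tauW_apply, smul_HH, ← he]
      simp
    · apply Units.ext
      rw [hΛv]
      simp only [map_inv, inv_inv]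
      push_cast
      rw [hψ, hψ, hmv, ← map_mul, ← map_mul, ← mul_assoc, hθ, map_one]
  have hpt' : ∀ g : Aˣ, ∃ γ : Γ, tauW w g = γ • g := fun g => by
    obtain ⟨γ, h, -⟩ := hpt g
    exact ⟨γ, h⟩
  obtain ⟨s1, s2, s3, s4, s5⟩ := hSTR F E A ι (ι δE) w hcent hw hOE hpt'
  have hmcl : ∀ (x : Aˣ), m (tauW w x) * m x = 1 := by
    intro x
    rw [tauW_apply, map_mul, map_mul, map_inv, map_inv, mul_comm (m w) (m x)⁻¹,
      mul_inv_cancel_right, inv_mul_cancel]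
  have hBD : BData Aˣ Γ (tauW w) (autHH ι w hc hc') Λ lam m (rho F (ι δE)) := by
    refine ⟨hVDH F E A ι, ?_, ?_, ?_, ?_, ?_, ?_, ?_, hmcl, hpt, s1, s2, s3, s4, s5⟩
    · intro γ x
      rw [tauW_apply, smul_HH, smul_HH, tauW_apply]
      change _ = (w * (γ.2 : Aˣ) * w⁻¹) * _ * (w * (γ.1 : Aˣ) * w⁻¹)⁻¹
      group
    · have hsub : ((ψ.ker : Set (HH ι)) ×ˢ (ψ.ker : Set (HH ι))) ⊆ (Λ.ker : Set Γ) := by
        rintro ⟨x, y⟩ ⟨hx, hy⟩
        rw [SetLike.mem_coe, MonoidHom.mem_ker] at hx hy ⊢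
        rw [hΛv, hx, hy]
        simp
      exact Subgroup.isOpen_of_mem_nhds _ (g := 1) (mem_of_superset
        ((hψo.prod hψo).mem_nhds ⟨one_mem _, one_mem _⟩) hsub)
    · have hmH : IsOpen (((m.comp (HH ι).subtype).ker : Set (HH ι))) := by
        have : (((m.comp (HH ι).subtype).ker : Subgroup (HH ι)) : Set (HH ι)) =
            (Subtype.val) ⁻¹' (m.ker : Set Aˣ) := by
          ext x
          simp [MonoidHom.mem_ker]
        rw [this]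
        exact hmo.preimage continuous_subtype_val
      have hsub : ((((m.comp (HH ι).subtype).ker : Set (HH ι))) ×ˢ
          (((m.comp (HH ι).subtype).ker : Set (HH ι)))) ⊆ (lam.ker : Set Γ) := by
        rintro ⟨x, y⟩ ⟨hx, hy⟩
        rw [SetLike.mem_coe, MonoidHom.mem_ker] at hx hy ⊢
        have hx' : m (x : Aˣ) = 1 := hx
        have hy' : m (y : Aˣ) = 1 := hy
        rw [hlv, hx', hy']
        simp
      exact Subgroup.isOpen_of_mem_nhds _ (g := 1) (mem_of_superset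
        ((hmH.prod hmH).mem_nhds ⟨one_mem _, one_mem _⟩) hsub)
    · rw [IsLocallyConstant.iff_eventually_eq]
      intro x
      have : ∀ᶠ y in 𝓝 x, y * x⁻¹ ∈ (m.ker : Set Aˣ) := by
        have hcont : Continuous fun y : Aˣ => y * x⁻¹ := by fun_prop
        apply hcont.continuousAt.eventually_mem
        rw [mul_inv_cancel]
        exact hmo.mem_nhds (one_mem _)
      filter_upwards [this] with y hy
      rw [SetLike.mem_coe, MonoidHom.mem_ker, map_mul, map_inv, mul_inv_eq_one] at hy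
      exact hy
    · intro γ x
      rw [smul_HH, map_mul, map_mul, map_inv, hlv]
      rw [mul_assoc, mul_comm (m x), ← mul_assoc]
    · intro γ
      rw [hlv, hΛv, hΛv]
      apply Units.ext
      push_cast
      rw [← hψm γ.1, ← hψm γ.2]
      change _ * ((ψ ⟨w * γ.2 * w⁻¹, hc _ γ.2.2⟩ : ℂ) * (ψ ⟨w * γ.1 * w⁻¹, hc _ γ.1.2⟩ : ℂ)⁻¹) = _
      have n1 := (ψ ⟨w * γ.2 * w⁻¹, hc _ γ.2.2⟩).ne_zero
      have n2 := (ψ ⟨w * γ.1 * w⁻¹, hc _ γ.1.2⟩).ne_zero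
      have n3 := (ψ γ.1).ne_zero
      have n4 := (ψ γ.2).ne_zero
      field_simp
    · refine ⟨(⟨w * w, sq_mem hD hw⟩, ⟨w * w, sq_mem hD hw⟩), ?_, ?_⟩
      · rw [hΛv]
        simp
      · intro x
        rw [tauW_apply, tauW_apply, smul_HH]
        change _ = (w * w) * x * (w * w)⁻¹
        group
  have := hLC
  have := hTD
  have := hT2
  let _ : MeasurableSpace Aˣ := borel Aˣ
  have : BorelSpace Aˣ := ⟨rfl⟩
  obtain ⟨μ, hμ1, hμ2, hμ3⟩ := hUNI F A (hDETR F A)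
  have key := hC Aˣ μ V V' π π' P hP (HH ι) ψ m hmo w (sq_mem hD hw) (by
    intro T hT f f' hff'
    refine hB Aˣ Γ (tauW w) (autHH ι w hc hc') Λ lam m (rho F (ι δE)) hBD T ?_ f f' hff'
    intro γ f₁ f₂ h12
    have := hT γ.1 γ.2 f₁ f₂ h12
    rw [this, hΛv]
    push_cast
    rfl) ℓ ℓ' hℓ0 hℓ0' (fun h v => by rw [hψ]; exact hℓ h h.2 v)
    (fun h v => by rw [hψ]; exact hℓ' h h.2 v)
  obtain ⟨k1, k2, b, kb1, kb2, kb3⟩ := key
  refine ⟨fun ℓ₂ h₂ => k1 ℓ₂ (fun h v => by rw [hψ]; exact h₂ h h.2 v),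
    fun ℓ₂ h₂ => k2 ℓ₂ (fun h v => by rw [hψ]; exact h₂ h h.2 v), b, kb1, fun g x y => ?_,
    fun x y => ?_⟩
  · rw [kb2, hmv]
  · rw [kb3, hψ, hmv]
    congr 1
    have h2 := hN2 F E A ι k δE a hD w hw ⟨((w * w : Aˣ) : A), sq_mem hD hw⟩ (by push_cast; rfl)
    rw [h2, map_mul, map_pow]
    have hne : χ (algebraMap F E (nrd F (w : A))) ≠ 0 := by
      rw [← hmv]
      exact (m w).ne_zero
    field_simp

theorem rank_eq_one {W : Type} [AddCommGroup W] [Module ℂ W] (S : Submodule ℂ W) (x : W)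
    (hx : x ∈ S) (hx0 : x ≠ 0) (h : ∀ y ∈ S, ∃ c : ℂ, y = c • x) :
    Module.rank ℂ S = 1 := by
  rw [rank_eq_one_iff]
  refine ⟨⟨x, hx⟩, fun h0 => hx0 (congrArg Subtype.val h0), fun v => ?_⟩
  obtain ⟨c, hc⟩ := h v v.2
  exact ⟨c, Subtype.ext hc.symm⟩

theorem main (hQE : Stmt_QE) (hW : Stmt_W) (hMUL : Stmt_MUL) (hN0 : Stmt_N0) (hN2 : Stmt_N2')
    (hPA : Stmt_PA) (hCHAR : Stmt_CHAR) (hTOPA : Stmt_TOPA) (hVDH : Stmt_VDH) (hSTR : Stmt_STR)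
    (hDETR : Stmt_DETR) (hUNI : Stmt_UNI) (hB : Stmt_B) (hC : Stmt_C) (hCTR : Stmt_CTR)
    (hLFD : Stmt_LFD) (hUPR : Stmt_UPR) (hUPP : Stmt_UPP) : Stmt_MAIN := by
  intro p _ F E A _ _ _ _ _ _ _ _ _ _ k ι χ V _ _ π hE hA hχ hπ
  obtain ⟨i1, i2, i3, i4, i5⟩ := hLFD p F
  have := i1
  have := i2
  have := i3
  have := i4
  obtain ⟨hLC, hTD, hT2, hOE⟩ := hTOPA F A
  have core' := core hQE hW hMUL hN0 hN2 hPA hCHAR hTOPA hVDH hSTR hDETR hUNI hB hC F E A k ι χ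
  refine ⟨fun h1 h2 => ?_, ?_⟩
  · obtain ⟨ℓ, hℓ, hℓ0⟩ := (Submodule.ne_bot_iff _).mp h1
    obtain ⟨ℓ', hℓ', hℓ0'⟩ := (Submodule.ne_bot_iff _).mp h2
    obtain ⟨c1, c2, c3⟩ := core' V (smoothDual π) π (contra π) (smoothDual π).subtype
      (hCTR Aˣ V π hπ) hE hA hχ ℓ ℓ' hℓ0 hℓ0' hℓ hℓ'
    exact ⟨rank_eq_one _ ℓ hℓ hℓ0 c1, rank_eq_one _ ℓ' hℓ' hℓ0' c2, c3⟩
  · rintro ⟨s, S, hS⟩
    obtain ⟨δE, a, hsq, hns, hcent⟩ := hQE F E A ι hE
    have hD : Data F E A ι k δE a := ⟨hE, hA, hsq, hns, hcent⟩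
    obtain ⟨hm, h1, hmE, h1E⟩ := hMUL F E A ι k δE a hD
    obtain ⟨ψ, m, hψ, hmv, hψo, hmo, hcont⟩ := hCHAR F E A ι k δE a hD χ hχ
    have hopen : IsOpen {g : Aˣ | ‖nrd F (g : A)‖ = 1} := by
      have hN : ∀ g h : Aˣ, ‖nrd F ((g * h : Aˣ) : A)‖ = ‖nrd F (g : A)‖ * ‖nrd F (h : A)‖ := by
        intro g h
        rw [Units.val_mul, hm, norm_mul]
      have hN1 : ‖nrd F ((1 : Aˣ) : A)‖ = 1 := by rw [Units.val_one, h1, norm_one]
      have hev : ∀ᶠ g : Aˣ in 𝓝 1, ‖nrd F (g : A)‖ = 1 :=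
        hcont.eventually (i5.mem_nhds (by simp))
      rw [isOpen_iff_mem_nhds]
      intro g hg
      have hcg : Continuous fun y : Aˣ => y * g⁻¹ := by fun_prop
      have : ∀ᶠ y in 𝓝 g, ‖nrd F ((y * g⁻¹ : Aˣ) : A)‖ = 1 :=
        (hcg.tendsto' g 1 (by simp)).eventually hev
      filter_upwards [this] with y hy
      have h3 := hN (y * g⁻¹) g
      rw [inv_mul_cancel_right, hy, one_mul] at h3
      exact h3.trans hg
    by_cases hbot : periods ι χ π = ⊥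
    · rw [hbot]
      simp
    · obtain ⟨ℓ, hℓ, hℓ0⟩ := (Submodule.ne_bot_iff _).mp hbot
      obtain ⟨V', _, _, π', P, j, hP, hj1, hj2⟩ := hUPP F A hm h1 hopen V π hπ s S hS
      have hab := hUPR F E A ι k δE a hD χ hχ V π hπ s S hS ℓ hℓ hℓ0
      let ℓ' : V' →ₗ[ℂ] ℂ :=
        { toFun := fun v' => (starRingEnd ℂ) (ℓ (j v'))
          map_add' := fun x y => by rw [map_add, map_add, map_add]
          map_smul' := fun c x => by
            rw [hj1, map_smul, smul_eq_mul, map_mul, RingHom.id_apply, starRingEnd_self_apply,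
              smul_eq_mul] }
      have hℓ0' : ℓ' ≠ 0 := by
        intro h0
        apply hℓ0
        ext v
        have := LinearMap.congr_fun h0 (j.symm v)
        change (starRingEnd ℂ) (ℓ (j (j.symm v))) = 0 at this
        rw [AddEquiv.apply_symm_apply, map_eq_zero] at this
        rw [this, LinearMap.zero_apply]
      have hℓ' : ℓ' ∈ periods ι (fun e => (χ e)⁻¹) π' := by
        intro h hh v
        change (starRingEnd ℂ) (ℓ (j (π' h v))) = _ * (starRingEnd ℂ) (ℓ (j v))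
        rw [hj2, map_smul, hℓ h hh, smul_eq_mul, map_mul, map_mul, ← mul_assoc]
        congr 1
        have h5 := hab h hh
        have h6 : χ (nrd E (⟨(h : A), hh⟩ : Cent ι)) ≠ 0 := by
          have := hψ ⟨h, hh⟩
          rw [← this]
          exact (ψ _).ne_zero
        rw [map_inv₀, Complex.conj_ofReal, ← h5]
        push_cast
        rw [← Complex.conj_mul']
        have h7 : (starRingEnd ℂ) (χ (nrd E (⟨(h : A), hh⟩ : Cent ι))) ≠ 0 := by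
          rwa [Ne, map_eq_zero]
        field_simp
      obtain ⟨c1, c2, c3⟩ := core' V V' π π' P hP hE hA hχ ℓ ℓ' hℓ0 hℓ0' hℓ hℓ'
      exact ⟨(rank_eq_one _ ℓ hℓ hℓ0 c1).le, fun _ => c3⟩

end Pool.Agent.LPer
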