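import Pool.Agent.Work.MP_037d19_lp.Final
import Pool.Agent.Work.MP_037d19_lp.B_CHP
import Pool.Agent.Work.MP_037d19_lp.B_ROOT
import Pool.Agent.Work.MP_037d19_lp.B_NRP
import Pool.Agent.Work.MP_037d19_lp.B_DETR
import Pool.Agent.Work.MP_037d19_lp.B_SPL
import Pool.Agent.Work.MP_037d19_lp.B_CEN
import Pool.Agent.Work.MP_037d19_lp.B_J0
import Pool.Agent.Work.MP_037d19_lp.B_JN
import Pool.Agent.Work.MP_037d19_lp.B_JA
import Pool.Agent.Work.MP_037d19_lp.B_W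
import Pool.Agent.Work.MP_037d19_lp.B_QE
import Pool.Agent.Work.MP_037d19_lp.B_NRD
import Pool.Agent.Work.MP_037d19_lp.B_MUL
import Pool.Agent.Work.MP_037d19_lp.B_N0
import Pool.Agent.Work.MP_037d19_lp.B_N1
import Pool.Agent.Work.MP_037d19_lp.B_N2
import Pool.Agent.Work.MP_037d19_lp.B_N2P
import Pool.Agent.Work.MP_037d19_lp.B_FIT
import Pool.Agent.Work.MP_037d19_lp.B_PA
import Pool.Agent.Work.MP_037d19_lp.B_CKR
import Pool.Agent.Work.MP_037d19_lp.B_VD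
import Pool.Agent.Work.MP_037d19_lp.B_TOPA
import Pool.Agent.Work.MP_037d19_lp.B_CONT
import Pool.Agent.Work.MP_037d19_lp.B_CDET
import Pool.Agent.Work.MP_037d19_lp.B_SLF
import Pool.Agent.Work.MP_037d19_lp.B_UNI
import Pool.Agent.Work.MP_037d19_lp.B_UST
import Pool.Agent.Work.MP_037d19_lp.B_CNT
import Pool.Agent.Work.MP_037d19_lp.B_GLU
import Pool.Agent.Work.MP_037d19_lp.B_LOC
import Pool.Agent.Work.MP_037d19_lp.B_B
import Pool.Agent.Work.MP_037d19_lp.B_RFU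
import Pool.Agent.Work.MP_037d19_lp.B_YMAP
import Pool.Agent.Work.MP_037d19_lp.B_INVL
import Pool.Agent.Work.MP_037d19_lp.B_C
import Pool.Agent.Work.MP_037d19_lp.B_CTR
import Pool.Agent.Work.MP_037d19_lp.B_STR
import Pool.Agent.Work.MP_037d19_lp.B_CHAR
import Pool.Agent.Work.MP_037d19_lp.B_VDH
import Pool.Agent.Work.MP_037d19_lp.B_LFD
import Pool.Agent.Work.MP_037d19_lp.B_ANN
import Pool.Agent.Work.MP_037d19_lp.B_NNM
import Pool.Agent.Work.MP_037d19_lp.B_UPR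
import Pool.Agent.Work.MP_037d19_lp.B_UPP
import Pool.Agent.Work.MP_037d19_lp.B_DUP

/-!
# Linear periods: the main theorem
-/

namespace Pool.Agent.LPer

theorem stmt_MAIN : Stmt_MAIN := by
  have hCHP := stmt_CHP
  have hROOT := stmt_ROOT
  have hNRP := stmt_NRP hCHP hROOT
  have hDETR := stmt_DETR hCHP
  have hSPL := stmt_SPL
  have hCEN := stmt_CEN
  have hJ0 := stmt_J0
  have hJN := stmt_JN hJ0
  have hJA := stmt_JA hJN
  have hW := stmt_W hJ0
  have hQE := stmt_QE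
  have hNRD := stmt_NRD hNRP hSPL hCEN hW
  have hMUL := stmt_MUL hNRD
  have hN0 := stmt_N0 hNRD
  have hN1 := stmt_N1 hNRD
  have hN2 := stmt_N2 hNRD
  have hN2' := stmt_N2P hNRD
  have hFIT := stmt_FIT
  have hPA := stmt_PA hFIT hJA hN0 hN1 hN2 hMUL
  have hCKR := stmt_CKR
  have hVD := stmt_VD
  have hTOPA := stmt_TOPA
  have hCONT := stmt_CONT
  have hCDET := stmt_CDET
  have hSLF := stmt_SLF
  have hUNI := stmt_UNI hTOPA hVD hSLF
  have hUST := stmt_UST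
  have hCNT := stmt_CNT
  have hGLU := stmt_GLU
  have hLOC := stmt_LOC hCNT
  have hB := stmt_B hLOC hGLU hUST
  have hRFU := stmt_RFU
  have hYMAP := stmt_YMAP hRFU hVD
  have hINVL := stmt_INVL hVD
  have hC := stmt_C hYMAP hINVL
  have hCTR := stmt_CTR hVD
  have hSTR := stmt_STR hCKR
  have hCHAR := stmt_CHAR hNRD hMUL hCONT hCDET
  have hVDH := stmt_VDH hVD hTOPA
  have hLFD := stmt_LFD
  have hANN := stmt_ANN
  have hNNM := stmt_NNM hNRP hCEN hW hNRD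
  have hUPR := stmt_UPR hANN hNNM hMUL
  have hUPP := stmt_UPP
  exact main hQE hW hMUL hN0 hN2' hPA hCHAR hTOPA hVDH hSTR hDETR hUNI hB hC hCTR hLFD hUPR hUPP

open scoped Topology in
theorem dual_period (p : ℕ) [Fact p.Prime] (F E A : Type) [NontriviallyNormedField F]
    [NormedAlgebra ℚ_[p] F] [FiniteDimensional ℚ_[p] F] [NormedField E] [NormedAlgebra F E]
    [NormedRing A] [NormedAlgebra F A] [Algebra.IsCentral F A] [IsSimpleRing A]
    [FiniteDimensional F A] (k : ℕ) (hE : Module.finrank F E = 2)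
    (hA : Module.finrank F A = (2 * k) ^ 2) (ι : E →ₐ[F] A) (χ : E →*₀ ℂ)
    (hχ : ∀ᶠ e in 𝓝 (1 : E), χ e = 1) (V : Type) [AddCommGroup V] [Module ℂ V]
    (π : Representation ℂ Aˣ V) (hπ : IrrAdm π) (c : V →ₗ[ℂ] V →ₗ[ℂ] ℂ) (hc0 : c ≠ 0)
    (hc : ∀ (g : Aˣ) (x y : V),
      c (π g x) (π g y) = χ (algebraMap F E (nrd F (g : A))) * c x y)
    (hper : periods ι χ π ≠ ⊥) : periods ι (fun e => (χ e)⁻¹) (contra π) ≠ ⊥ := by
  have hNRP := stmt_NRP stmt_CHP stmt_ROOT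
  have hW := stmt_W stmt_J0
  have hNRD := stmt_NRD hNRP stmt_SPL stmt_CEN hW
  have hMUL := stmt_MUL hNRD
  obtain ⟨i1, i2, i3, i4, -⟩ := stmt_LFD p F
  have := i1
  have := i2
  have := i3
  have := i4
  obtain ⟨δE, a, hsq, hns, hcent⟩ := stmt_QE F E A ι hE
  exact stmt_DUP (stmt_CTR stmt_VD) (stmt_CHAR hNRD hMUL stmt_CONT stmt_CDET) (stmt_N0 hNRD) hW
    stmt_TOPA F E A ι k δE a ⟨hE, hA, hsq, hns, hcent⟩ χ hχ V π hπ c hc0 hc hper

end Pool.Agent.LPer
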