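import Pool.Agent.Work.MP_037d19_lp.Defs

/-!
# Linear periods: statements of the blocks
-/

namespace Pool.Agent.LPer

open scoped Polynomial Topology TensorProduct
open Module (finrank)
open Matrix (fromBlocks)

/-! ## Algebra -/

/-- CHP: characteristic polynomial of left multiplication on an algebra with a spanning matrix
representation of full size. -/
def Stmt_CHP : Prop :=
  ∀ (K R Ω : Type) [Field K] [Ring R] [Algebra K R] [FiniteDimensional K R] [Field Ω]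
    [Algebra K Ω] (n : Type) [Fintype n] [DecidableEq n] (ψ : R →ₐ[K] Matrix n n Ω),
    finrank K R = Fintype.card n ^ 2 → Submodule.span Ω (Set.range ψ) = ⊤ → ∀ x : R,
    ((Algebra.lmul K R x).charpoly).map (algebraMap K Ω) = (ψ x).charpoly ^ Fintype.card n

/-- ROOT: a monic `d`-th root over an algebraic closure descends. -/
def Stmt_ROOT : Prop :=
  ∀ (K Ω : Type) [Field K] [CharZero K] [Field Ω] [Algebra K Ω] [IsAlgClosed Ω]
    [Algebra.IsAlgebraic K Ω] (Q : K[X]) (P : Polynomial Ω) (d : ℕ), 0 < d → P.Monic →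
    Q.map (algebraMap K Ω) = P ^ d →
    ∃ P₀ : K[X], P₀.Monic ∧ P₀.map (algebraMap K Ω) = P ∧ P₀ ^ d = Q

/-- NRP: the reduced norm through a spanning matrix representation. -/
def Stmt_NRP : Prop :=
  ∀ (K R Ω : Type) [Field K] [CharZero K] [Ring R] [Algebra K R] [FiniteDimensional K R]
    [Field Ω] [Algebra K Ω] [IsAlgClosed Ω] [Algebra.IsAlgebraic K Ω]
    (n : Type) [Fintype n] [DecidableEq n] [Nonempty n] (ψ : R →ₐ[K] Matrix n n Ω),
    finrank K R = Fintype.card n ^ 2 → Submodule.span Ω (Set.range ψ) = ⊤ →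
    (∀ x : R, algebraMap K Ω (nrd K x) = (ψ x).det) ∧
    (∀ x : R, nrd K x ^ Fintype.card n = LinearMap.det (Algebra.lmul K R x))

/-- DETR: left and right multiplication have the same determinant. -/
def Stmt_DETR : Prop :=
  ∀ (F A : Type) [Field F] [CharZero F] [Ring A] [Algebra F A] [Algebra.IsCentral F A]
    [IsSimpleRing A] [FiniteDimensional F A] (x : A),
    LinearMap.det (LinearMap.mulLeft F x) = LinearMap.det (LinearMap.mulRight F x)

/-- SPL: splitting with `δ` in block diagonal form. -/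
def Stmt_SPL : Prop :=
  ∀ (F A Ω : Type) [Field F] [CharZero F] [Ring A] [Algebra F A] [Algebra.IsCentral F A]
    [IsSimpleRing A] [FiniteDimensional F A] [Field Ω] [Algebra F Ω] [IsAlgClosed Ω]
    (k : ℕ) (δ w : A) (a : F) (α : Ω), finrank F A = (2 * k) ^ 2 →
    δ * δ = algebraMap F A a → α ^ 2 = algebraMap F Ω a → a ≠ 0 → IsUnit w →
    w * δ = -(δ * w) →
    ∃ φ : A →ₐ[F] Matrix (Fin k ⊕ Fin k) (Fin k ⊕ Fin k) Ω,
      Submodule.span Ω (Set.range φ) = ⊤ ∧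
      φ δ = fromBlocks (α • (1 : Matrix (Fin k) (Fin k) Ω)) 0 0
        (-(α • (1 : Matrix (Fin k) (Fin k) Ω)))

/-- CEN: the centralizer. -/
def Stmt_CEN : Prop :=
  ∀ (F E A Ω : Type) [Field F] [CharZero F] [Field E] [Algebra F E] [Ring A] [Algebra F A]
    [FiniteDimensional F A] [Field Ω] [Algebra F Ω] [Algebra E Ω] [IsScalarTower F E Ω]
    (ι : E →ₐ[F] A) (k : ℕ) (δE : E) (a : F) (w : A)
    (φ : A →ₐ[F] Matrix (Fin k ⊕ Fin k) (Fin k ⊕ Fin k) Ω),
    finrank F E = 2 → finrank F A = (2 * k) ^ 2 → δE ^ 2 = algebraMap F E a →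
    (∀ b : F, b ^ 2 ≠ a) → IsUnit w → w * ι δE = -(ι δE * w) →
    Submodule.span Ω (Set.range φ) = ⊤ →
    φ (ι δE) = fromBlocks (algebraMap E Ω δE • (1 : Matrix (Fin k) (Fin k) Ω)) 0 0
        (-(algebraMap E Ω δE • (1 : Matrix (Fin k) (Fin k) Ω))) →
    finrank E (Cent ι) = k ^ 2 ∧
    ∃ ψ : Cent ι →ₐ[E] Matrix (Fin k) (Fin k) Ω,
      Submodule.span Ω (Set.range ψ) = ⊤ ∧ ∀ x : Cent ι, ψ x = (φ (x : A)).toBlocks₁₁

/-- J0: an anticommuting automorphism. -/
def Stmt_J0 : Prop :=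
  ∀ (F E R M : Type) [Field F] [CharZero F] [Field E] [Algebra F E] [Ring R] [Algebra F R]
    [Algebra.IsCentral F R] [IsSimpleRing R] [FiniteDimensional F R] [AddCommGroup M]
    [Module F M] [Module R M] [IsScalarTower F R M] [FiniteDimensional F M]
    (δE : E) (a : F) (d : M →ₗ[R] M),
    finrank F E = 2 → δE ^ 2 = algebraMap F E a → (∀ b : F, b ^ 2 ≠ a) →
    (∀ m, d (d m) = a • m) → ∃ s : M ≃ₗ[R] M, ∀ m, s (d m) = - d (s m)

/-- JN: an anticommuting automorphism which commutes with a nilpotent anticommuting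
endomorphism. -/
def Stmt_JN : Prop :=
  ∀ (F E R M : Type) [Field F] [CharZero F] [Field E] [Algebra F E] [Ring R] [Algebra F R]
    [Algebra.IsCentral F R] [IsSimpleRing R] [FiniteDimensional F R] [AddCommGroup M]
    [Module F M] [Module R M] [IsScalarTower F R M] [FiniteDimensional F M]
    (δE : E) (a : F) (d z : M →ₗ[R] M),
    finrank F E = 2 → δE ^ 2 = algebraMap F E a → (∀ b : F, b ^ 2 ≠ a) →
    (∀ m, d (d m) = a • m) → (∀ m, z (d m) = - d (z m)) → IsNilpotent (z : Module.End R M) →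
    ∃ s : M ≃ₗ[R] M, (∀ m, s (d m) = - d (s m)) ∧ ∀ m, s (z m) = z (s m)

/-- JA: the version inside a central simple algebra. -/
def Stmt_JA : Prop :=
  ∀ (F E A : Type) [Field F] [CharZero F] [Field E] [Algebra F E] [Ring A] [Algebra F A]
    [Algebra.IsCentral F A] [IsSimpleRing A] [FiniteDimensional F A]
    (δE : E) (a : F) (δ e z : A),
    finrank F E = 2 → δE ^ 2 = algebraMap F E a → (∀ b : F, b ^ 2 ≠ a) →
    δ * δ = algebraMap F A a → e * e = e → e * δ = δ * e → z * δ = -(δ * z) →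
    e * z = 0 → z * e = 0 → IsNilpotent z →
    ∃ J : Aˣ, (J : A) * δ = -(δ * J) ∧ (J : A) * e = e * J ∧ (J : A) * z = z * J

/-- QE: a generator of a quadratic extension. -/
def Stmt_QE : Prop :=
  ∀ (F E A : Type) [Field F] [CharZero F] [Field E] [Algebra F E] [Ring A] [Algebra F A]
    (ι : E →ₐ[F] A), finrank F E = 2 →
    ∃ (δE : E) (a : F), δE ^ 2 = algebraMap F E a ∧ (∀ b : F, b ^ 2 ≠ a) ∧
      ∀ x : A, x ∈ Cent ι ↔ ι δE * x = x * ι δE

/-- NRD: the splitting package. -/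
def Stmt_NRD : Prop :=
  ∀ (F E A : Type) [Field F] [CharZero F] [Field E] [Algebra F E] [Ring A] [Algebra F A]
    [Algebra.IsCentral F A] [IsSimpleRing A] [FiniteDimensional F A] (ι : E →ₐ[F] A) (k : ℕ)
    (δE : E) (a : F),
    finrank F E = 2 → finrank F A = (2 * k) ^ 2 → δE ^ 2 = algebraMap F E a →
    (∀ b : F, b ^ 2 ≠ a) →
    ∃ (Ω : Type) (_ : Field Ω) (_ : Algebra E Ω) (_ : Algebra F Ω) (_ : IsScalarTower F E Ω)
      (φ : A →ₐ[F] Matrix (Fin k ⊕ Fin k) (Fin k ⊕ Fin k) Ω),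
      φ (ι δE) = fromBlocks (algebraMap E Ω δE • (1 : Matrix (Fin k) (Fin k) Ω)) 0 0
        (-(algebraMap E Ω δE • (1 : Matrix (Fin k) (Fin k) Ω))) ∧
      (∀ x : A, algebraMap F Ω (nrd F x) = (φ x).det) ∧
      (∀ x : Cent ι, algebraMap E Ω (nrd E x) = (φ (x : A)).toBlocks₁₁.det) ∧
      (∀ x : A, nrd F x ^ (2 * k) = LinearMap.det (Algebra.lmul F A x)) ∧
      (∀ x : Cent ι, nrd E x ^ k = LinearMap.det (Algebra.lmul E (Cent ι) x))

/-- The hypotheses on the algebraic data, bundled. -/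
structure Data (F E A : Type) [Field F] [Field E] [Algebra F E] [Ring A] [Algebra F A]
    (ι : E →ₐ[F] A) (k : ℕ) (δE : E) (a : F) : Prop where
  rankE : finrank F E = 2
  rankA : finrank F A = (2 * k) ^ 2
  sq : δE ^ 2 = algebraMap F E a
  nsq : ∀ b : F, b ^ 2 ≠ a
  cent : ∀ x : A, x ∈ Cent ι ↔ ι δE * x = x * ι δE

/-- MUL: multiplicativity. -/
def Stmt_MUL : Prop :=
  ∀ (F E A : Type) [Field F] [CharZero F] [Field E] [Algebra F E] [Ring A] [Algebra F A]
    [Algebra.IsCentral F A] [IsSimpleRing A] [FiniteDimensional F A] (ι : E →ₐ[F] A) (k : ℕ)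
    (δE : E) (a : F), Data F E A ι k δE a →
    (∀ x y : A, nrd F (x * y) = nrd F x * nrd F y) ∧ nrd F (1 : A) = 1 ∧
    (∀ x y : Cent ι, nrd E (x * y) = nrd E x * nrd E y) ∧ nrd E (1 : Cent ι) = 1

/-- N0. -/
def Stmt_N0 : Prop :=
  ∀ (F E A : Type) [Field F] [CharZero F] [Field E] [Algebra F E] [Ring A] [Algebra F A]
    [Algebra.IsCentral F A] [IsSimpleRing A] [FiniteDimensional F A] (ι : E →ₐ[F] A) (k : ℕ)
    (δE : E) (a : F), Data F E A ι k δE a → ∀ (J : Aˣ), (J : A) * ι δE = -(ι δE * J) →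
    ∀ h h' : Cent ι, (h' : A) = J * h * (J⁻¹ : Aˣ) →
    nrd E h' * nrd E h = algebraMap F E (nrd F (h : A))

/-- N1. -/
def Stmt_N1 : Prop :=
  ∀ (F E A : Type) [Field F] [CharZero F] [Field E] [Algebra F E] [Ring A] [Algebra F A]
    [Algebra.IsCentral F A] [IsSimpleRing A] [FiniteDimensional F A] (ι : E →ₐ[F] A) (k : ℕ)
    (δE : E) (a : F), Data F E A ι k δE a → ∀ (X : A), X * X = algebraMap F A a →
    IsUnit (ι δE - X) → ∀ h : Cent ι, (h : A) = (ι δE - X) * (ι δE - X) →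
    algebraMap F E (nrd F (ι δE - X)) = (-1) ^ k * nrd E h

/-- N2. -/
def Stmt_N2 : Prop :=
  ∀ (F E A : Type) [Field F] [CharZero F] [Field E] [Algebra F E] [Ring A] [Algebra F A]
    [Algebra.IsCentral F A] [IsSimpleRing A] [FiniteDimensional F A] (ι : E →ₐ[F] A) (k : ℕ)
    (δE : E) (a : F), Data F E A ι k δE a → ∀ (J : Aˣ) (e : A), (J : A) * ι δE = -(ι δE * J) →
    e * e = e → e * ι δE = ι δE * e → (J : A) * e = e * J →
    ∀ h : Cent ι, (h : A) = e * ((J⁻¹ : Aˣ) : A) * ((J⁻¹ : Aˣ) : A) - (1 - e) →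
    algebraMap F E (nrd F (e * J + (1 - e))) * nrd E h = (-1) ^ k

/-- N2': the case of the square. -/
def Stmt_N2' : Prop :=
  ∀ (F E A : Type) [Field F] [CharZero F] [Field E] [Algebra F E] [Ring A] [Algebra F A]
    [Algebra.IsCentral F A] [IsSimpleRing A] [FiniteDimensional F A] (ι : E →ₐ[F] A) (k : ℕ)
    (δE : E) (a : F), Data F E A ι k δE a → ∀ (J : Aˣ), (J : A) * ι δE = -(ι δE * J) →
    ∀ h : Cent ι, (h : A) = J * J →
    nrd E h = (-1) ^ k * algebraMap F E (nrd F (J : A))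

/-- FIT: Fitting decomposition and Cayley transform. -/
def Stmt_FIT : Prop :=
  ∀ (F A : Type) [Field F] [CharZero F] [Ring A] [Algebra F A] [FiniteDimensional F A]
    (a : F) (δ x : A), a ≠ 0 → δ * δ = algebraMap F A a → x * x = algebraMap F A a →
    ∃ e z : A, e * e = e ∧ e * δ = δ * e ∧ e * x = x * e ∧
      IsUnit (δ - (2 * e - 1) * x) ∧
      e * z = 0 ∧ z * e = 0 ∧ IsNilpotent z ∧ z * δ = -(δ * z) ∧
      x * (1 + z) * (1 - e) = (1 + z) * δ * (1 - e)

/-- PA: Proposition A. -/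
def Stmt_PA : Prop :=
  ∀ (F E A : Type) [Field F] [CharZero F] [Field E] [Algebra F E] [Ring A] [Algebra F A]
    [Algebra.IsCentral F A] [IsSimpleRing A] [FiniteDimensional F A] (ι : E →ₐ[F] A) (k : ℕ)
    (δE : E) (a : F), Data F E A ι k δE a → ∀ (w : Aˣ), (w : A) * ι δE = -(ι δE * w) →
    ∀ g : Aˣ, ∃ (h₁ h₂ : Aˣ) (m₁ : (h₁ : A) ∈ Cent ι) (m₂ : (h₂ : A) ∈ Cent ι),
      h₁ * g * h₂ = w * g⁻¹ * w⁻¹ ∧
      algebraMap F E (nrd F (g : A)) * nrd E (⟨h₁, m₁⟩ : Cent ι) * nrd E (⟨h₂, m₂⟩ : Cent ι) = 1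

/-- MAX: existence of `w`. -/
def Stmt_W : Prop :=
  ∀ (F E A : Type) [Field F] [CharZero F] [Field E] [Algebra F E] [Ring A] [Algebra F A]
    [Algebra.IsCentral F A] [IsSimpleRing A] [FiniteDimensional F A]
    (δE : E) (a : F) (δ : A),
    finrank F E = 2 → δE ^ 2 = algebraMap F E a → (∀ b : F, b ^ 2 ≠ a) →
    δ * δ = algebraMap F A a → ∃ w : Aˣ, (w : A) * δ = -(δ * w)

end Pool.Agent.LPer
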